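import Mathlib

set_option autoImplicit false

/-!
# RK-04 : comparison of two solutions of the recursion (real numbers only)
-/

namespace Pool.Agent.helper65.RK

open Finset

theorem Cmp_step (n j : ℕ) (hn : 6 * j ≤ n) (hn0 : 0 < n) (D Δ : ℕ → ℝ) (w : ℝ) (hw : 0 ≤ w)
    (h0 : D 0 = 0) (h1 : D 1 = 0)
    (hid : ∀ t : ℕ, 1 ≤ t → t < j →
      ((n : ℝ) - t) * (D (t + 1) - D t) + t * (D t - D (t - 1)) + D t = Δ t)
    (hΔ : ∀ t : ℕ, 1 ≤ t → t < j → |Δ t| ≤ w) :
    ∀ t : ℕ, 1 ≤ t → t ≤ j → |D t - D (t - 1)| ≤ 2 * w / n ∧ |D t| ≤ t * (2 * w / n) := by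
  have hn' : (0 : ℝ) < n := by exact_mod_cast hn0
  have hj : 6 * (j : ℝ) ≤ n := by exact_mod_cast hn
  set b : ℝ := 2 * w / n with hb
  have hb0 : 0 ≤ b := by positivity
  have hbn : b * n = 2 * w := by rw [hb]; field_simp
  intro t ht
  induction t, ht using Nat.le_induction with
  | base =>
    intro _
    simp [h0, h1, hb0]
  | succ t ht ih =>
    intro htj
    obtain ⟨i1, i2⟩ := ih (by omega)
    have e := hid t ht (by omega)
    have hd := hΔ t ht (by omega)
    have htj' : (t : ℝ) + 1 ≤ j := by exact_mod_cast htj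
    have ht0 : (0 : ℝ) ≤ t := Nat.cast_nonneg t
    have htn : 0 < (n : ℝ) - t := by linarith
    have h3 : ((n : ℝ) - t) * |D (t + 1) - D t| ≤ ((n : ℝ) - t) * b := by
      have e1 : ((n : ℝ) - t) * |D (t + 1) - D t| = |Δ t - t * (D t - D (t - 1)) - D t| := by
        rw [← abs_of_pos htn, ← abs_mul]
        congr 1
        linarith
      rw [e1]
      have a1 : |Δ t - t * (D t - D (t - 1)) - D t| ≤
          |Δ t| + |(t : ℝ) * (D t - D (t - 1))| + |D t| :=
        (abs_sub _ _).trans (add_le_add_left (abs_sub _ _) _)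
      have a2 : |(t : ℝ) * (D t - D (t - 1))| ≤ t * b := by
        rw [abs_mul, abs_of_nonneg ht0]
        exact mul_le_mul_of_nonneg_left i1 ht0
      have a3 : 0 ≤ ((n : ℝ) - 6 * t) * b := mul_nonneg (by linarith) hb0
      nlinarith
    have h4 : |D (t + 1) - D t| ≤ b := le_of_mul_le_mul_left h3 htn
    refine ⟨by simpa using h4, ?_⟩
    have h5 : |D (t + 1)| ≤ |D (t + 1) - D t| + |D t| := by
      have := abs_add_le (D (t + 1) - D t) (D t)
      rwa [sub_add_cancel] at this
    push_cast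
    linarith

/-- RK-04. Put `d t = D t - D (t-1)` for `t ≥ 1` and `b = 2 w / n`. By induction `|d t| ≤ b` and
`|D t| ≤ t b` for `1 ≤ t ≤ j`: `(n - t) |d (t+1)| ≤ w + 2 t b ≤ w + 2 j b ≤ b (n - j)` because
`b (n - 3 j) ≥ b n / 2 = w`. Then (`j = 0` is trivial) `D j = ∑_{1 ≤ t < j} (Δ t - t d t - D t)/(n - t)`,
`Δ t/(n-t) ≤ Δ t/n + |Δ t| t/(n (n-t)) ≤ Δ t/n + 2 w t/n²`, `|t d t + D t|/(n-t) ≤ 4 t b/n = 8 w t/n²`
and `∑_{t<j} t ≤ j²/2`. -/
theorem cmp (n j : ℕ) (hn : 6 * j ≤ n) (hn0 : 0 < n) (D Δ : ℕ → ℝ) (w : ℝ) (hw : 0 ≤ w)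
    (h0 : D 0 = 0) (h1 : D 1 = 0)
    (hid : ∀ t : ℕ, 1 ≤ t → t < j →
      ((n : ℝ) - t) * (D (t + 1) - D t) + t * (D t - D (t - 1)) + D t = Δ t)
    (hΔ : ∀ t : ℕ, 1 ≤ t → t < j → |Δ t| ≤ w) :
    D j ≤ (∑ t ∈ Ico 1 j, Δ t) / n + 5 * w * (j : ℝ) ^ 2 / (n : ℝ) ^ 2 := by
  have key := Cmp_step n j hn hn0 D Δ w hw h0 h1 hid hΔ
  have hn' : (0 : ℝ) < n := by exact_mod_cast hn0
  have hj : 6 * (j : ℝ) ≤ n := by exact_mod_cast hn
  rcases Nat.eq_zero_or_pos j with hj0 | hj0
  · subst hj0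
    simp [h0]
  have main : ∀ k : ℕ, 1 ≤ k → k ≤ j →
      D k ≤ (∑ t ∈ Ico 1 k, Δ t) / n + 5 * w * (k : ℝ) ^ 2 / (n : ℝ) ^ 2 := by
    intro k hk
    induction k, hk using Nat.le_induction with
    | base =>
      intro _
      rw [h1]
      simp
      positivity
    | succ t ht ih =>
      intro htj
      have i0 := ih (by omega)
      obtain ⟨i1, i2⟩ := key t ht (by omega)
      have e := hid t ht (by omega)
      have hd := hΔ t ht (by omega)
      have htj' : (t : ℝ) + 1 ≤ j := by exact_mod_cast htj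
      have ht0 : (0 : ℝ) ≤ t := Nat.cast_nonneg t
      have htn : 0 < (n : ℝ) - t := by linarith
      set b : ℝ := 2 * w / n with hb
      have hb0 : 0 ≤ b := by positivity
      have hbn : b * n = 2 * w := by rw [hb]; field_simp
      rw [Finset.sum_Ico_succ_top ht, add_div]
      -- the step
      have hs : D (t + 1) - D t ≤ Δ t / n + 10 * w * t / (n : ℝ) ^ 2 := by
        have e1 : ((n : ℝ) - t) * (D (t + 1) - D t) = Δ t - t * (D t - D (t - 1)) - D t := by
          linarith
        have a1 : -(t * (D t - D (t - 1))) ≤ t * b := by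
          have := (abs_le.1 i1).1
          nlinarith
        have a2 : -(D t) ≤ t * b := by
          have := (abs_le.1 i2).1
          linarith
        have a3 : ((n : ℝ) - t) * (D (t + 1) - D t) ≤ Δ t + 2 * (t * b) := by linarith
        have a4 : Δ t + 2 * (t * b) ≤ ((n : ℝ) - t) * (Δ t / n + 10 * w * t / (n : ℝ) ^ 2) := by
          have hx : t * b = 2 * w * t / n := by rw [hb]; ring
          have hy : ((n : ℝ) - t) * (Δ t / n + 10 * w * t / (n : ℝ) ^ 2) =
              Δ t - t * Δ t / n + ((n : ℝ) - t) / n * (10 * w * t / n) := by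
            field_simp
          rw [hx, hy]
          have b1 : t * Δ t / n ≤ w * t / n := by
            refine div_le_div_of_nonneg_right ?_ hn'.le
            have := (abs_le.1 hd).2
            nlinarith
          have b2 : (5 / 6 : ℝ) ≤ ((n : ℝ) - t) / n := by
            rw [le_div_iff₀ hn']
            linarith
          have b3 : 0 ≤ 10 * w * t / n := by positivity
          have b4 := mul_le_mul_of_nonneg_right b2 b3
          have b5 : 5 / 6 * (10 * w * t / n) = (25 / 3) * (w * t / n) := by ring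
          have b6 : 2 * (2 * w * t / n) = 4 * (w * t / n) := by ring
          have b7 : 0 ≤ w * t / n := by positivity
          rw [b5] at b4
          rw [b6]
          linarith
        exact le_of_mul_le_mul_left (a3.trans a4) htn
      have h6 : 5 * w * (t : ℝ) ^ 2 / (n : ℝ) ^ 2 + 10 * w * t / (n : ℝ) ^ 2 ≤
          5 * w * ((t + 1 : ℕ) : ℝ) ^ 2 / (n : ℝ) ^ 2 := by
        rw [← add_div]
        refine div_le_div_of_nonneg_right ?_ (by positivity)
        push_cast
        nlinarith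
      linarith
  exact main j hj0 le_rfl

end Pool.Agent.helper65.RK
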