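import Mathlib

set_option autoImplicit false

/-!
# RK-33 : a sum of square roots (real numbers only)
-/

namespace Pool.Agent.helper65.RK

open Finset

/-- Exchange of the sums: `∑_{t<j} (2 η t e t - 4 η ∑_{u<t} e u) = 2 η ∑_{t<j} e t (3 t - 2 j + 2)`. -/
theorem exchange (η : ℝ) (j : ℕ) (e : ℕ → ℝ) :
    ∑ t ∈ range j, (2 * η * t * e t - 4 * η * ∑ u ∈ range t, e u) =
      2 * η * ∑ t ∈ range j, e t * (3 * (t : ℝ) - 2 * j + 2) := by
  induction j with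
  | zero => simp
  | succ j ih =>
    rw [sum_range_succ, ih, sum_range_succ]
    have h : ∑ t ∈ range j, e t * (3 * (t : ℝ) - 2 * ((j + 1 : ℕ) : ℝ) + 2) =
        ∑ t ∈ range j, e t * (3 * (t : ℝ) - 2 * j + 2) - 2 * ∑ t ∈ range j, e t := by
      rw [mul_sum, ← sum_sub_distrib]
      refine sum_congr rfl fun t _ => ?_
      push_cast
      ring
    rw [h]
    push_cast
    ring

/-- the primitive of `√x (3 x - 2 c)` -/
noncomputable def Sqrt_F (c x : ℝ) : ℝ := 6 / 5 * (x ^ 2 * Real.sqrt x) - 4 / 3 * c * (x * Real.sqrt x)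

lemma Sqrt_hasDerivAt (c : ℝ) {x : ℝ} (hx : 0 < x) :
    HasDerivAt (Sqrt_F c) (Real.sqrt x * (3 * x - 2 * c)) x := by
  have hs := Real.hasDerivAt_sqrt hx.ne'
  have h1 := ((hasDerivAt_pow 2 x).mul hs).const_mul (6 / 5 : ℝ)
  have h2 := ((hasDerivAt_id x).mul hs).const_mul (4 / 3 * c)
  have h3 := h1.sub h2
  have hq : Real.sqrt x ≠ 0 := (Real.sqrt_pos.2 hx).ne'
  have hqq : Real.sqrt x ^ 2 = x := Real.sq_sqrt hx.le
  convert! h3 using 1
  simp only [id, Nat.cast_ofNat]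
  field_simp
  have e4 : Real.sqrt x ^ 2 = x := hqq
  generalize hS : Real.sqrt x = S at *
  subst e4
  ring

lemma Sqrt_cont (c : ℝ) : Continuous (Sqrt_F c) := by
  unfold Sqrt_F
  have h := Real.continuous_sqrt
  fun_prop

lemma Sqrt_low (c C : ℝ) {x y : ℝ} (hx : 0 ≤ x) (hxy : x ≤ y)
    (h : ∀ z, x < z → z < y → C ≤ Real.sqrt z * (3 * z - 2 * c)) :
    C * (y - x) ≤ Sqrt_F c y - Sqrt_F c x := by
  refine Convex.mul_sub_le_image_sub_of_le_deriv (convex_Icc x y) (Sqrt_cont c).continuousOn ?_ ?_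
    x ⟨le_rfl, hxy⟩ y ⟨hxy, le_rfl⟩ hxy
  · intro z hz
    rw [interior_Icc] at hz
    exact (Sqrt_hasDerivAt c (hx.trans_lt hz.1)).differentiableAt.differentiableWithinAt
  · intro z hz
    rw [interior_Icc] at hz
    rw [(Sqrt_hasDerivAt c (hx.trans_lt hz.1)).deriv]
    exact h z hz.1 hz.2

lemma Sqrt_up (c C : ℝ) {x y : ℝ} (hx : 0 ≤ x) (hxy : x ≤ y)
    (h : ∀ z, x < z → z < y → Real.sqrt z * (3 * z - 2 * c) ≤ C) :
    Sqrt_F c y - Sqrt_F c x ≤ C * (y - x) := by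
  refine Convex.image_sub_le_mul_sub_of_deriv_le (convex_Icc x y) (Sqrt_cont c).continuousOn ?_ ?_
    x ⟨le_rfl, hxy⟩ y ⟨hxy, le_rfl⟩ hxy
  · intro z hz
    rw [interior_Icc] at hz
    exact (Sqrt_hasDerivAt c (hx.trans_lt hz.1)).differentiableAt.differentiableWithinAt
  · intro z hz
    rw [interior_Icc] at hz
    rw [(Sqrt_hasDerivAt c (hx.trans_lt hz.1)).deriv]
    exact h z hz.1 hz.2

lemma Sqrt_tele_up (j : ℕ) (n : ℕ) :
    ∑ t ∈ range n, max 0 (3 * (t : ℝ) - 2 * j) * Real.sqrt t ≤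
      Sqrt_F j (max n (2 / 3 * j)) - Sqrt_F j (2 / 3 * j) := by
  have hj : (0 : ℝ) ≤ j := Nat.cast_nonneg j
  induction n with
  | zero =>
    rw [Nat.cast_zero, max_eq_right (by positivity)]
    simp
  | succ n ih =>
    rw [sum_range_succ]
    have hn : (0 : ℝ) ≤ n := Nat.cast_nonneg n
    have key : max 0 (3 * (n : ℝ) - 2 * j) * Real.sqrt n ≤
        Sqrt_F j (max ((n + 1 : ℕ) : ℝ) (2 / 3 * j)) - Sqrt_F j (max n (2 / 3 * j)) := by
      push_cast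
      rcases le_total (2 / 3 * (j : ℝ)) n with h | h
      · rw [max_eq_left h, max_eq_left (by linarith : 2 / 3 * (j : ℝ) ≤ (n : ℝ) + 1),
          max_eq_right (by linarith : (0 : ℝ) ≤ 3 * (n : ℝ) - 2 * j)]
        have h1 := Sqrt_low (j : ℝ) ((3 * (n : ℝ) - 2 * j) * Real.sqrt n) (x := n) (y := n + 1) hn
          (by linarith) (by
            intro z hz _
            rw [mul_comm]
            exact mul_le_mul (Real.sqrt_le_sqrt hz.le) (by linarith) (by linarith)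
              (Real.sqrt_nonneg _))
        have e : (n : ℝ) + 1 - n = 1 := by ring
        rw [e, mul_one] at h1
        exact h1
      · rw [max_eq_right h, max_eq_left (by linarith : 3 * (n : ℝ) - 2 * j ≤ 0), zero_mul]
        have h1 := Sqrt_low (j : ℝ) 0 (x := 2 / 3 * (j : ℝ)) (y := max ((n : ℝ) + 1) (2 / 3 * j))
          (by positivity) (le_max_right _ _) (by
            intro z hz _
            exact mul_nonneg (Real.sqrt_nonneg _) (by linarith))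
        rw [zero_mul] at h1
        exact h1
    linarith

/-- RK-33a. `∑_{t<j} max 0 (3t - 2j + 2) √t ≤ 0.158 j^{5/2}`: numerically the limit is
`∫_{2/3}^1 √x (3x - 2) dx = 0.15697`. [Put `F(x) = (6/5) x² √x - (4/3) j x √x`, `F'(x) = √x (3x - 2j)`; for
`x ≥ 2j/3` the function `√x (3x - 2j)` is nonneg and nondecreasing, so `√t (3t - 2j) ≤ F(t+1) - F(t)`; and `2 √t ≤ 2√j`
in each of the `≤ j` terms. `F(j) - F(2j/3) ≤ 0.15698 j^{5/2}`, using `(2/3)^{3/2} ≥ 0.54433`,... ] -/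
theorem upper_part (j : ℕ) (hj : 10000 ≤ j) :
    ∑ t ∈ range j, max 0 (3 * (t : ℝ) - 2 * j + 2) * Real.sqrt t ≤
      158 / 1000 * (j : ℝ) ^ 2 * Real.sqrt j := by
  have hj1 : (10000 : ℝ) ≤ j := by exact_mod_cast hj
  have hj0 : (0 : ℝ) ≤ j := by linarith
  have h1 : ∑ t ∈ range j, max 0 (3 * (t : ℝ) - 2 * j + 2) * Real.sqrt t ≤
      ∑ t ∈ range j, (max 0 (3 * (t : ℝ) - 2 * j) * Real.sqrt t + 2 * Real.sqrt j) := by
    refine sum_le_sum fun t ht => ?_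
    have ht' : (t : ℝ) ≤ j := by exact_mod_cast (mem_range.1 ht).le
    have hs : Real.sqrt t ≤ Real.sqrt j := Real.sqrt_le_sqrt ht'
    have hs0 := Real.sqrt_nonneg (t : ℝ)
    have hm : max 0 (3 * (t : ℝ) - 2 * j + 2) ≤ max 0 (3 * (t : ℝ) - 2 * j) + 2 := by
      apply max_le
      · have := le_max_left 0 (3 * (t : ℝ) - 2 * j)
        linarith
      · have := le_max_right 0 (3 * (t : ℝ) - 2 * j)
        linarith
    calc max 0 (3 * (t : ℝ) - 2 * j + 2) * Real.sqrt t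
        ≤ (max 0 (3 * (t : ℝ) - 2 * j) + 2) * Real.sqrt t := mul_le_mul_of_nonneg_right hm hs0
      _ ≤ _ := by linarith
  have h2 := Sqrt_tele_up j j
  rw [max_eq_left (by linarith)] at h2
  rw [sum_add_distrib, sum_const, card_range, nsmul_eq_mul] at h1
  have e1 : Real.sqrt (2 / 3 * (j : ℝ)) = Real.sqrt (2 / 3) * Real.sqrt j :=
    Real.sqrt_mul (by norm_num) _
  have e2 : Sqrt_F j j - Sqrt_F j (2 / 3 * j) =
      (j : ℝ) ^ 2 * Real.sqrt j * (-(2 / 15) + 16 / 45 * Real.sqrt (2 / 3)) := by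
    rw [Sqrt_F, Sqrt_F, e1]
    ring
  have e3 : Real.sqrt (2 / 3) ≤ 0.8165 := by
    rw [Real.sqrt_le_left (by norm_num)]
    norm_num
  have hq : 0 ≤ (j : ℝ) ^ 2 * Real.sqrt j := by positivity
  have e4 : (j : ℝ) * (2 * Real.sqrt j) ≤ 2 / 10000 * ((j : ℝ) ^ 2 * Real.sqrt j) := by
    have : 0 ≤ (j : ℝ) * Real.sqrt j := by positivity
    nlinarith
  have e5 : (j : ℝ) ^ 2 * Real.sqrt j * (-(2 / 15) + 16 / 45 * Real.sqrt (2 / 3)) ≤
      (j : ℝ) ^ 2 * Real.sqrt j * (-(2 / 15) + 16 / 45 * 0.8165) := by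
    apply mul_le_mul_of_nonneg_left _ hq
    linarith
  rw [e2] at h2
  have e6 : (j : ℝ) ^ 2 * Real.sqrt j * (-(2 / 15) + 16 / 45 * 0.8165) =
      (-(2 / 15) + 16 / 45 * 0.8165) * ((j : ℝ) ^ 2 * Real.sqrt j) := by ring
  rw [e6] at e5
  have e7 : 158 / 1000 * (j : ℝ) ^ 2 * Real.sqrt j = 158 / 1000 * ((j : ℝ) ^ 2 * Real.sqrt j) := by
    ring
  rw [e7]
  linarith

lemma Sqrt_tele_low (a : ℝ) (ha : 0 ≤ a) (n : ℕ) :
    Sqrt_F (3 / 2 * a) 0 - Sqrt_F (3 / 2 * a) (min n a) ≤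
      ∑ t ∈ range n, max 0 (3 * a - 3 * t) * Real.sqrt ((t : ℝ) + 1) := by
  induction n with
  | zero =>
    rw [Nat.cast_zero, min_eq_left ha]
    simp
  | succ n ih =>
    rw [sum_range_succ]
    have hn : (0 : ℝ) ≤ n := Nat.cast_nonneg n
    have key : Sqrt_F (3 / 2 * a) (min n a) - Sqrt_F (3 / 2 * a) (min ((n + 1 : ℕ) : ℝ) a) ≤
        max 0 (3 * a - 3 * n) * Real.sqrt ((n : ℝ) + 1) := by
      push_cast
      rcases le_total a n with h | h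
      · rw [min_eq_right h, min_eq_right (by linarith), sub_self]
        positivity
      · rw [min_eq_left h, max_eq_right (by linarith)]
        have hy : (n : ℝ) ≤ min ((n : ℝ) + 1) a := le_min (by linarith) h
        have h1 := Sqrt_low (3 / 2 * a) (-((3 * a - 3 * n) * Real.sqrt ((n : ℝ) + 1))) (x := n)
          (y := min ((n : ℝ) + 1) a) hn hy (by
            intro z hz hz2
            have hz3 : z < (n : ℝ) + 1 := hz2.trans_le (min_le_left _ _)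
            have hz4 : z < a := hz2.trans_le (min_le_right _ _)
            have h2 : Real.sqrt z * (3 * a - 3 * z) ≤ Real.sqrt ((n : ℝ) + 1) * (3 * a - 3 * n) :=
              mul_le_mul (Real.sqrt_le_sqrt hz3.le) (by linarith) (by linarith)
                (Real.sqrt_nonneg _)
            nlinarith)
        have h3 : min ((n : ℝ) + 1) a - n ≤ 1 := by
          have := min_le_left ((n : ℝ) + 1) a
          linarith
        have h4 : 0 ≤ (3 * a - 3 * n) * Real.sqrt ((n : ℝ) + 1) :=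
          mul_nonneg (by linarith) (Real.sqrt_nonneg _)
        nlinarith
    linarith

/-- RK-33b. `∑_{t<j} max 0 (2j - 2 - 3t) √t ≥ 0.288 j^{5/2}`: the limit is `0.29030`. (For `j ≥ 10000` the
corrections are below `0.001 j^{5/2}`.) -/
theorem lower_part (j : ℕ) (hj : 10000 ≤ j) :
    288 / 1000 * (j : ℝ) ^ 2 * Real.sqrt j ≤
      ∑ t ∈ range j, max 0 (2 * (j : ℝ) - 2 - 3 * t) * Real.sqrt t := by
  have hj1 : (10000 : ℝ) ≤ j := by exact_mod_cast hj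
  have hj0 : (0 : ℝ) ≤ j := by linarith
  obtain ⟨k, rfl⟩ : ∃ k, j = k + 1 := ⟨j - 1, by omega⟩
  rw [sum_range_succ']
  set a : ℝ := (2 * ((k + 1 : ℕ) : ℝ) - 5) / 3 with ha
  have ha0 : 0 ≤ a := by rw [ha]; linarith
  have h1 := Sqrt_tele_low a ha0 k
  have hak : a ≤ k := by
    rw [ha]
    push_cast at hj1 ⊢
    linarith
  rw [min_eq_right hak] at h1
  have e0 : Sqrt_F (3 / 2 * a) 0 - Sqrt_F (3 / 2 * a) a = 4 / 5 * (a ^ 2 * Real.sqrt a) := by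
    rw [Sqrt_F, Sqrt_F, Real.sqrt_zero]
    ring
  rw [e0] at h1
  have e1 : ∑ t ∈ range k, max 0 (2 * ((k + 1 : ℕ) : ℝ) - 2 - 3 * ((t + 1 : ℕ) : ℝ)) *
      Real.sqrt ((t + 1 : ℕ) : ℝ) =
      ∑ t ∈ range k, max 0 (3 * a - 3 * t) * Real.sqrt ((t : ℝ) + 1) := by
    refine sum_congr rfl fun t _ => ?_
    rw [ha]
    push_cast
    congr 2
    ring
  rw [e1]
  have e2 : (0.6665 : ℝ) * ((k + 1 : ℕ) : ℝ) ≤ a := by
    rw [ha]
    linarith
  have e3 : Real.sqrt (0.6665 * ((k + 1 : ℕ) : ℝ)) ≤ Real.sqrt a := Real.sqrt_le_sqrt e2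
  rw [Real.sqrt_mul (by norm_num)] at e3
  have e4 : (0.8163 : ℝ) ≤ Real.sqrt 0.6665 := by
    apply Real.le_sqrt_of_sq_le
    norm_num
  have e5 : (0.8163 : ℝ) * Real.sqrt ((k + 1 : ℕ) : ℝ) ≤ Real.sqrt a :=
    le_trans (mul_le_mul_of_nonneg_right e4 (Real.sqrt_nonneg _)) e3
  have e6 : (0.6665 * ((k + 1 : ℕ) : ℝ)) ^ 2 ≤ a ^ 2 := pow_le_pow_left₀ (by positivity) e2 2
  have e7 : (0.6665 * ((k + 1 : ℕ) : ℝ)) ^ 2 * ((0.8163 : ℝ) * Real.sqrt ((k + 1 : ℕ) : ℝ)) ≤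
      a ^ 2 * Real.sqrt a := mul_le_mul e6 e5 (by positivity) (by positivity)
  have e8 : (0.6665 * ((k + 1 : ℕ) : ℝ)) ^ 2 * ((0.8163 : ℝ) * Real.sqrt ((k + 1 : ℕ) : ℝ)) =
      0.6665 ^ 2 * 0.8163 * (((k + 1 : ℕ) : ℝ) ^ 2 * Real.sqrt ((k + 1 : ℕ) : ℝ)) := by ring
  rw [e8] at e7
  have hq : 0 ≤ (((k + 1 : ℕ) : ℝ) ^ 2 * Real.sqrt ((k + 1 : ℕ) : ℝ)) := by positivity
  have e9 : 0 ≤ max 0 (2 * ((k + 1 : ℕ) : ℝ) - 2 - 3 * ((0 : ℕ) : ℝ)) * Real.sqrt ((0 : ℕ) : ℝ) := by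
    positivity
  have e10 : 288 / 1000 * ((k + 1 : ℕ) : ℝ) ^ 2 * Real.sqrt ((k + 1 : ℕ) : ℝ) =
      288 / 1000 * (((k + 1 : ℕ) : ℝ) ^ 2 * Real.sqrt ((k + 1 : ℕ) : ℝ)) := by ring
  rw [e10]
  generalize max 0 (2 * ((k + 1 : ℕ) : ℝ) - 2 - 3 * ((0 : ℕ) : ℝ)) * Real.sqrt ((0 : ℕ) : ℝ) = X0
    at e9 ⊢
  generalize (((k + 1 : ℕ) : ℝ) ^ 2 * Real.sqrt ((k + 1 : ℕ) : ℝ)) = Q at e7 hq ⊢
  generalize a ^ 2 * Real.sqrt a = A at e7 h1
  generalize ∑ t ∈ range k, max 0 (3 * a - 3 * t) * Real.sqrt ((t : ℝ) + 1) = S at h1 ⊢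
  have e11 : (0.6665 : ℝ) ^ 2 * 0.8163 * Q = 0.3626 * Q + (0.6665 ^ 2 * 0.8163 - 0.3626) * Q := by
    ring
  have e12 : 0 ≤ ((0.6665 : ℝ) ^ 2 * 0.8163 - 0.3626) * Q := mul_nonneg (by norm_num) hq
  linarith

lemma Sqrt_lin_sum (c : ℝ) (n : ℕ) :
    ∑ t ∈ range n, (c - 3 * t) * (t : ℝ) = n * (n - 1) / 2 * (c - (2 * n - 1)) := by
  induction n with
  | zero => simp
  | succ n ih =>
    rw [sum_range_succ, ih]
    push_cast
    ring

/-- RK-33c. `∑_{t<j} max 0 (2j - 2 - 3t) t ≤ (1/6) j³` (the limit is `4/27 j³`). -/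
theorem lin_part (j : ℕ) :
    ∑ t ∈ range j, max 0 (2 * (j : ℝ) - 2 - 3 * t) * t ≤ 1 / 6 * (j : ℝ) ^ 3 := by
  rcases Nat.eq_zero_or_pos j with rfl | hj
  · simp
  set T : ℕ := (2 * j - 2) / 3 with hT
  have hsub : range (T + 1) ⊆ range j := by
    rw [range_subset_range]
    omega
  have h1 : ∑ t ∈ range j, max 0 (2 * (j : ℝ) - 2 - 3 * t) * t =
      ∑ t ∈ range (T + 1), (2 * (j : ℝ) - 2 - 3 * t) * t := by
    rw [← sum_subset hsub]
    · refine sum_congr rfl fun t ht => ?_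
      rw [mem_range] at ht
      have h2 : 3 * t + 2 ≤ 2 * j := by omega
      have h3 : 3 * (t : ℝ) + 2 ≤ 2 * j := by exact_mod_cast h2
      rw [max_eq_right (by linarith)]
    · intro t _ ht2
      rw [mem_range, not_lt] at ht2
      have h2 : 2 * j ≤ 3 * t + 2 := by omega
      have h3 : 2 * (j : ℝ) ≤ 3 * t + 2 := by exact_mod_cast h2
      rw [max_eq_left (by linarith), zero_mul]
  rw [h1, Sqrt_lin_sum]
  have h2 : 3 * T + 2 ≤ 2 * j := by omega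
  have h4 : 2 * j ≤ 3 * T + 4 := by omega
  have h3 : 3 * (T : ℝ) + 2 ≤ 2 * j := by exact_mod_cast h2
  have h5 : 2 * (j : ℝ) ≤ 3 * T + 4 := by exact_mod_cast h4
  have hT0 : (0 : ℝ) ≤ T := Nat.cast_nonneg T
  push_cast
  have h6 : ((T : ℝ) + 1) * (T + 1 - 1) / 2 * (2 * j - 2 - (2 * (T + 1) - 1)) ≤
      (T + 1) * T / 2 * (T + 1) := by
    have h7 : (2 * (j : ℝ) - 2 - (2 * (T + 1) - 1)) ≤ T + 1 := by linarith
    have h8 : (0 : ℝ) ≤ (T + 1) * T / 2 := by positivity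
    calc _ = ((T : ℝ) + 1) * T / 2 * (2 * j - 2 - (2 * (T + 1) - 1)) := by ring
      _ ≤ _ := mul_le_mul_of_nonneg_left h7 h8
  refine h6.trans ?_
  have h9 : (T : ℝ) ≤ (2 * j - 2) / 3 := by linarith
  have hj1 : (1 : ℝ) ≤ j := by exact_mod_cast hj
  have h10 : ((T : ℝ) + 1) * T / 2 * (T + 1) ≤
      ((2 * (j : ℝ) - 2) / 3 + 1) * ((2 * j - 2) / 3) / 2 * ((2 * j - 2) / 3 + 1) := by
    have hu : (0 : ℝ) ≤ (2 * j - 2) / 3 := by linarith
    generalize (2 * (j : ℝ) - 2) / 3 = u at h9 hu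
    gcongr
  refine h10.trans ?_
  have h11 : ((2 * (j : ℝ) - 2) / 3 + 1) * ((2 * j - 2) / 3) / 2 * ((2 * j - 2) / 3 + 1) =
      (4 * j ^ 3 - 3 * j - 1) / 27 := by ring
  rw [h11]
  have h12 : (0 : ℝ) ≤ j ^ 3 := by positivity
  linarith

/-- RK-33d. By `exchange`, with the upper bound for `e t` where the coefficient is positive and the lower bound where it is negative:
`≤ 2 η (0.158 - 0.288/√2) j^{5/2} + 2 η² (1/6) j³` and `0.288/√2 ≥ 0.2036`, `2 (0.158 - 0.2036) ≤ -0.09`. -/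
theorem main_sum (j : ℕ) (hj : 10000 ≤ j) (η : ℝ) (hη : 0 ≤ η) (e : ℕ → ℝ)
    (hup : ∀ t < j, e t ≤ Real.sqrt t) (hlo : ∀ t < j, Real.sqrt (t / 2) - η * t ≤ e t) :
    ∑ t ∈ range j, (2 * η * t * e t - 4 * η * ∑ u ∈ range t, e u) ≤
      -(9 / 100) * η * (j : ℝ) ^ 2 * Real.sqrt j + 1 / 3 * η ^ 2 * (j : ℝ) ^ 3 := by
  rw [exchange]
  have h1 : ∑ t ∈ range j, e t * (3 * (t : ℝ) - 2 * j + 2) ≤
      ∑ t ∈ range j, (max 0 (3 * (t : ℝ) - 2 * j + 2) * Real.sqrt t -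
        0.7071 * (max 0 (2 * (j : ℝ) - 2 - 3 * t) * Real.sqrt t) +
        η * (max 0 (2 * (j : ℝ) - 2 - 3 * t) * t)) := by
    refine sum_le_sum fun t ht => ?_
    rw [mem_range] at ht
    have h2 := hup t ht
    have h3 := hlo t ht
    have hs0 := Real.sqrt_nonneg (t : ℝ)
    have ht0 : (0 : ℝ) ≤ t := Nat.cast_nonneg t
    have h4 : 0.7071 * Real.sqrt t ≤ Real.sqrt (t / 2) := by
      apply Real.le_sqrt_of_sq_le
      rw [mul_pow, Real.sq_sqrt ht0]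
      linarith
    rcases le_total 0 (3 * (t : ℝ) - 2 * j + 2) with h | h
    · rw [max_eq_right h, max_eq_left (by linarith)]
      nlinarith
    · rw [max_eq_left h, max_eq_right (by linarith)]
      have h5 : 0.7071 * Real.sqrt t - η * t ≤ e t := by linarith
      nlinarith
  rw [sum_add_distrib, sum_sub_distrib, ← mul_sum, ← mul_sum] at h1
  have h2 := upper_part j hj
  have h3 := lower_part j hj
  have h4 := lin_part j
  have h5 : η * ∑ t ∈ range j, max 0 (2 * (j : ℝ) - 2 - 3 * t) * t ≤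
      η * (1 / 6 * (j : ℝ) ^ 3) := mul_le_mul_of_nonneg_left h4 hη
  have hq : 0 ≤ (j : ℝ) ^ 2 * Real.sqrt j := by positivity
  have h6 : ∑ t ∈ range j, e t * (3 * (t : ℝ) - 2 * j + 2) ≤
      -(45 / 1000) * ((j : ℝ) ^ 2 * Real.sqrt j) + η * (1 / 6 * (j : ℝ) ^ 3) := by
    have e1 : 158 / 1000 * (j : ℝ) ^ 2 * Real.sqrt j = 158 / 1000 * ((j : ℝ) ^ 2 * Real.sqrt j) := by
      ring
    have e2 : 288 / 1000 * (j : ℝ) ^ 2 * Real.sqrt j = 288 / 1000 * ((j : ℝ) ^ 2 * Real.sqrt j) := by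
      ring
    rw [e1] at h2
    rw [e2] at h3
    linarith
  have h7 := mul_le_mul_of_nonneg_left h6 (by positivity : 0 ≤ 2 * η)
  refine h7.trans (le_of_eq ?_)
  ring

end Pool.Agent.helper65.RK
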