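import Pool.Agent.helper65.RK.AsmD
import Pool.Agent.helper65.RK.Cmp
import Pool.Agent.helper65.RK.Sqrt

set_option autoImplicit false

/-!
# RK-44 : the gain
-/

namespace Pool.Agent.helper65.RK

open Finset

variable {L n n' : ℕ}

theorem asma_poly (r s : ℝ) (hs : 0 < s) (h1 : s ^ 2 ≤ 2 * r ^ 2) (h2 : r ^ 2 ≤ 2 * s ^ 2)
    (hr : 0 < r) : 5 / 10000 * s ^ 6 ≤ r ^ 5 * (9 / 2000 * s - r / 600) := by
  have a1 : 7 / 10 * s ≤ r := by nlinarith
  have a2 : r ≤ 142 / 100 * s := by nlinarith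
  rcases le_total r (9 / 10 * s) with h | h
  · have b1 : (7 / 10 * s) ^ 5 ≤ r ^ 5 := pow_le_pow_left₀ (by positivity) a1 5
    have b2 : 3 / 1000 * s ≤ 9 / 2000 * s - r / 600 := by linarith
    calc 5 / 10000 * s ^ 6 ≤ (7 / 10 * s) ^ 5 * (3 / 1000 * s) := by
          have : 0 ≤ s ^ 6 := by positivity
          nlinarith [this]
      _ ≤ r ^ 5 * (9 / 2000 * s - r / 600) := by
          apply mul_le_mul b1 b2 (by positivity) (by positivity)
  · have b1 : (9 / 10 * s) ^ 5 ≤ r ^ 5 := pow_le_pow_left₀ (by positivity) h 5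
    have b2 : 2 / 1000 * s ≤ 9 / 2000 * s - r / 600 := by linarith
    calc 5 / 10000 * s ^ 6 ≤ (9 / 10 * s) ^ 5 * (2 / 1000 * s) := by
          have : 0 ≤ s ^ 6 := by positivity
          nlinarith [this]
      _ ≤ r ^ 5 * (9 / 2000 * s - r / 600) := by
          apply mul_le_mul b1 b2 (by positivity) (by positivity)

theorem Big.main (h : Big L) {j : ℕ} (hj1 : L ^ 13 ≤ 2 * j) (hj2 : j ≤ 2 * L ^ 13) :
    -(9 / 100) * eta L * (j : ℝ) ^ 2 * Real.sqrt j + 2 / 3 * eta L ^ 2 * (j : ℝ) ^ 3 ≤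
      -(5 / 10000) * (L : ℝ) ^ 26 := by
  have hj1' : (L : ℝ) ^ 13 ≤ 2 * j := by exact_mod_cast hj1
  have hj2' : (j : ℝ) ≤ 2 * (L : ℝ) ^ 13 := by exact_mod_cast hj2
  have hl := h.one_le
  have hs := h.sqrt_pos
  set s := Real.sqrt ((L : ℝ) ^ 13) with hsd
  have hs2 : s ^ 2 = (L : ℝ) ^ 13 := Real.sq_sqrt (by positivity)
  have hj0 : (0 : ℝ) < j := by
    have : (0 : ℝ) < (L : ℝ) ^ 13 := by positivity
    linarith
  set r := Real.sqrt (j : ℝ) with hrd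
  have hr : 0 < r := Real.sqrt_pos.mpr hj0
  have hr2 : r ^ 2 = j := Real.sq_sqrt hj0.le
  have key := asma_poly r s hs (by rw [hs2, hr2]; exact hj1') (by rw [hs2, hr2]; exact hj2') hr
  have he : eta L = 1 / (20 * s) := rfl
  rw [he]
  have e26 : (L : ℝ) ^ 26 = s ^ 4 := by
    calc (L : ℝ) ^ 26 = ((L : ℝ) ^ 13) ^ 2 := by ring
      _ = s ^ 4 := by rw [← hs2]; ring
  rw [e26, ← hr2]
  have e1 : -(9 / 100) * (1 / (20 * s)) * (r ^ 2) ^ 2 * r + 2 / 3 * (1 / (20 * s)) ^ 2 *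
      (r ^ 2) ^ 3 = -(r ^ 5 * (9 / 2000 * s - r / 600)) / s ^ 2 := by
    field_simp
    ring
  rw [e1, neg_div, neg_mul]
  apply neg_le_neg
  rw [le_div_iff₀ (by positivity)]
  calc 5 / 10000 * s ^ 4 * s ^ 2 = 5 / 10000 * s ^ 6 := by ring
    _ ≤ _ := key

theorem asma_sq (j : ℕ) : ∑ t ∈ range j, (t : ℝ) ^ 2 ≤ (j : ℝ) ^ 3 / 3 := by
  induction j with
  | zero => simp
  | succ k ih =>
    rw [Finset.sum_range_succ]
    push_cast
    have : (0 : ℝ) ≤ k := by positivity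
    nlinarith

theorem MR_zero (L : ℕ) : MR L 0 = 0 := by
  simp [MR]

/-- RK-44. -/
theorem Par.DX_bound (h : Par L n n') {j : ℕ} (hj1 : L ^ 13 ≤ 2 * j) (hj2 : j ≤ 2 * L ^ 13) :
    DX L n n' j ≤ -(4 / 10000 * (L : ℝ) ^ 26 / (n : ℝ) ^ 2) := by
  have hη0 := h.B.eta_pos
  have hη1 := h.B.eta_le
  have hl := h.B.one_le
  have hb := h.B.bigR
  have hn := h.npos
  have hj1' : (L : ℝ) ^ 13 ≤ 2 * j := by exact_mod_cast hj1
  have hj2' : (j : ℝ) ≤ 2 * (L : ℝ) ^ 13 := by exact_mod_cast hj2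
  have hlo := h.loR
  have y1 : 1000000 * (L : ℝ) ^ 12 ≤ (L : ℝ) ^ 13 := h.B.pow_add_le (by norm_num)
  have x12 : (0 : ℝ) ≤ (L : ℝ) ^ 12 := by positivity
  have x13 : (0 : ℝ) ≤ (L : ℝ) ^ 13 := by positivity
  have hj0 : (0 : ℝ) ≤ j := by positivity
  have hjn := h.t_small hj2'
  have h6 : 6 * j ≤ n := by
    have : (6 : ℝ) * j ≤ n := by linarith
    exact_mod_cast this
  have hw : (0 : ℝ) ≤ 5 * (L : ℝ) ^ 13 / n := by positivity
  have hc := cmp n j h6 (by exact_mod_cast hn) (DX L n n') (DeltaR L n n') (5 * (L : ℝ) ^ 13 / n) hw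
    (DX_zero L n n') h.DX_one (fun t ht1 ht2 => h.DX_rec ht1 (by omega)) (by
      intro t ht1 ht2
      have ht : t ≤ 2 * L ^ 13 := by omega
      have ht' : (t : ℝ) ≤ 2 * (L : ℝ) ^ 13 := by exact_mod_cast ht
      have ht0 : (0 : ℝ) ≤ t := by positivity
      have a1 := h.Delta_low ht1 ht
      have a2 := h.Delta_up ht1 ht
      rw [abs_le]
      constructor
      · have : 4 * (L : ℝ) ^ 13 / n ≤ 5 * (L : ℝ) ^ 13 / n := by
          apply div_le_div_of_nonneg_right _ hn.le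
          linarith
        linarith
      · rw [le_div_iff₀ hn, mul_comm]
        have z2 : eta L * Real.sqrt t ≤ 1 / 10 := h.B.eta_sqrt ht'
        have z3 := eW_le_sqrt (η := eta L) hη0.le (by linarith) t
        have z4 := eW_nonneg (η := eta L) hη0.le (by linarith) t
        have z5 : eta L * eW (eta L) t ≤ 1 / 10 := (mul_le_mul_of_nonneg_left z3 hη0.le).trans z2
        have hsum0 : 0 ≤ ∑ u ∈ range t, eW (eta L) u :=
          Finset.sum_nonneg fun u _ => eW_nonneg hη0.le (by linarith) u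
        have q1 : MR L t ≤ (L : ℝ) ^ 13 * (4 / 10) := by
          unfold MR
          have : 0 ≤ 4 * eta L * ∑ u ∈ range t, eW (eta L) u := by positivity
          have q : 2 * eta L * t * eW (eta L) t ≤ (L : ℝ) ^ 13 * (4 / 10) := by
            calc 2 * eta L * t * eW (eta L) t = 2 * t * (eta L * eW (eta L) t) := by ring
              _ ≤ 2 * (2 * (L : ℝ) ^ 13) * (1 / 10) := by
                  apply mul_le_mul _ z5 (by positivity) (by positivity)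
                  linarith
              _ = (L : ℝ) ^ 13 * (4 / 10) := by ring
          linarith
        have q2 : eta L ^ 2 * (t : ℝ) ^ 2 ≤ (L : ℝ) ^ 13 * (4 / 100) := by
          have e1 : eta L * t = (eta L * Real.sqrt t) * Real.sqrt t := by
            rw [mul_assoc, Real.mul_self_sqrt ht0]
          have e2 : eta L ^ 2 * (t : ℝ) ^ 2 = (eta L * Real.sqrt t) ^ 2 * t := by
            rw [← mul_pow, e1, mul_pow, Real.sq_sqrt ht0]
          rw [e2]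
          have e3 : (eta L * Real.sqrt t) ^ 2 ≤ (1 / 10) ^ 2 :=
            pow_le_pow_left₀ (by positivity) z2 2
          calc (eta L * Real.sqrt t) ^ 2 * t ≤ (1 / 10) ^ 2 * (2 * (L : ℝ) ^ 13) :=
                mul_le_mul e3 ht' ht0 (by positivity)
            _ ≤ (L : ℝ) ^ 13 * (4 / 100) := by linarith
        linarith)
  -- the sum
  have hj : 10000 ≤ j := by
    have h1 : 1000000 * (L : ℝ) ^ 0 ≤ (L : ℝ) ^ 13 := h.B.pow_add_le (by norm_num)
    have h2 : (10000 : ℝ) ≤ j := by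
      rw [pow_zero] at h1
      linarith
    exact_mod_cast h2
  have hms := main_sum j hj (eta L) hη0.le (eW (eta L))
    (fun t _ => eW_le_sqrt hη0.le (by linarith) t) (fun t _ => eW_ge hη0.le (by linarith) t)
  have hS1 : (n : ℝ) * ∑ t ∈ Ico 1 j, DeltaR L n n' t ≤
      ∑ t ∈ range j, (MR L t + eta L ^ 2 * (t : ℝ) ^ 2 + (L : ℝ) ^ 12) := by
    rw [Finset.mul_sum]
    calc ∑ t ∈ Ico 1 j, (n : ℝ) * DeltaR L n n' t
        ≤ ∑ t ∈ Ico 1 j, (MR L t + eta L ^ 2 * (t : ℝ) ^ 2 + (L : ℝ) ^ 12) := by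
          apply Finset.sum_le_sum
          intro t ht
          rw [Finset.mem_Ico] at ht
          exact h.Delta_up ht.1 (by omega)
      _ ≤ ∑ t ∈ range j, (MR L t + eta L ^ 2 * (t : ℝ) ^ 2 + (L : ℝ) ^ 12) := by
          rw [← Finset.sum_range_add_sum_Ico _ (show 1 ≤ j by omega), Finset.sum_range_one]
          rw [MR_zero]
          simp only [Nat.cast_zero]
          have : (0 : ℝ) ≤ 0 + eta L ^ 2 * (0 : ℝ) ^ 2 + (L : ℝ) ^ 12 := by positivity
          linarith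
  have hS2 : ∑ t ∈ range j, (MR L t + eta L ^ 2 * (t : ℝ) ^ 2 + (L : ℝ) ^ 12) ≤
      -(9 / 100) * eta L * (j : ℝ) ^ 2 * Real.sqrt j + 2 / 3 * eta L ^ 2 * (j : ℝ) ^ 3 +
        j * (L : ℝ) ^ 12 := by
    rw [Finset.sum_add_distrib, Finset.sum_add_distrib, ← Finset.mul_sum, Finset.sum_const,
      Finset.card_range, nsmul_eq_mul]
    have e1 : ∑ t ∈ range j, MR L t = ∑ t ∈ range j,
        (2 * eta L * t * eW (eta L) t - 4 * eta L * ∑ u ∈ range t, eW (eta L) u) := rfl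
    rw [e1]
    have e2 := mul_le_mul_of_nonneg_left (asma_sq j) (show 0 ≤ eta L ^ 2 by positivity)
    linarith
  have hmain := h.B.main hj1 hj2
  have hS3 : (n : ℝ) * ∑ t ∈ Ico 1 j, DeltaR L n n' t ≤ -(45 / 100000) * (L : ℝ) ^ 26 := by
    have e1 : (j : ℝ) * (L : ℝ) ^ 12 ≤ 2 * (L : ℝ) ^ 25 := by
      calc (j : ℝ) * (L : ℝ) ^ 12 ≤ (2 * (L : ℝ) ^ 13) * (L : ℝ) ^ 12 :=
            mul_le_mul_of_nonneg_right hj2' x12
        _ = 2 * (L : ℝ) ^ 25 := by ring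
    have e2 : 1000000 * (L : ℝ) ^ 25 ≤ (L : ℝ) ^ 26 := h.B.pow_add_le (by norm_num)
    have e3 : (0 : ℝ) ≤ (L : ℝ) ^ 25 := by positivity
    linarith
  refine hc.trans ?_
  have e4 : (∑ t ∈ Ico 1 j, DeltaR L n n' t) / (n : ℝ) ≤
      -(45 / 100000) * (L : ℝ) ^ 26 / (n : ℝ) ^ 2 := by
    rw [div_le_div_iff₀ hn (by positivity)]
    have := mul_le_mul_of_nonneg_right hS3 hn.le
    linarith [this]
  have e5 : 5 * (5 * (L : ℝ) ^ 13 / n) * (j : ℝ) ^ 2 / (n : ℝ) ^ 2 ≤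
      5 / 100000 * (L : ℝ) ^ 26 / (n : ℝ) ^ 2 := by
    apply div_le_div_of_nonneg_right _ (by positivity)
    have f1 : (j : ℝ) ^ 2 ≤ (2 * (L : ℝ) ^ 13) ^ 2 := pow_le_pow_left₀ hj0 hj2' 2
    calc 5 * (5 * (L : ℝ) ^ 13 / n) * (j : ℝ) ^ 2
        ≤ 5 * (5 * (L : ℝ) ^ 13 / n) * (2 * (L : ℝ) ^ 13) ^ 2 :=
          mul_le_mul_of_nonneg_left f1 (by positivity)
      _ = 100 * (L : ℝ) ^ 15 * ((L : ℝ) ^ 24 / n) := by ring
      _ ≤ 100 * (L : ℝ) ^ 15 * 1 := by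
          apply mul_le_mul_of_nonneg_left _ (by positivity)
          rw [div_le_one hn]
          exact hlo
      _ ≤ 5 / 100000 * (L : ℝ) ^ 26 := by
          have f2 : 1000000 * (L : ℝ) ^ 15 ≤ (L : ℝ) ^ 16 := h.B.pow_add_le (by norm_num)
          have f3 : 1000000 * (L : ℝ) ^ 16 ≤ (L : ℝ) ^ 26 := h.B.pow_add_le (by norm_num)
          have f4 : (0 : ℝ) ≤ (L : ℝ) ^ 15 := by positivity
          linarith
  have e6 : -(45 / 100000) * (L : ℝ) ^ 26 / (n : ℝ) ^ 2 + 5 / 100000 * (L : ℝ) ^ 26 / (n : ℝ) ^ 2 =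
      -(4 / 10000 * (L : ℝ) ^ 26 / (n : ℝ) ^ 2) := by ring
  linarith

end Pool.Agent.helper65.RK
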