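import Pool.Agent.helper65.RK.AsmP

set_option autoImplicit false

/-!
# RK-45 : the choice of the parameters
-/

namespace Pool.Agent.helper65.RK

open Finset

theorem asmc_ioc {n M : ℕ} (h : n ≤ M) : Ioc n (M + 1) = insert (M + 1) (Ioc n M) := by
  ext a
  simp only [Finset.mem_Ioc, Finset.mem_insert]
  omega

/-- Harmonic sums, lower bound. -/
theorem asmc_low (n M : ℕ) (h : n ≤ M) :
    Real.log (((M : ℝ) + 1) / ((n : ℝ) + 1)) ≤ ∑ a ∈ Ioc n M, 1 / (a : ℝ) := by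
  induction M, h using Nat.le_induction with
  | base => simp
  | succ M hM ih =>
    rw [asmc_ioc hM, Finset.sum_insert (by simp)]
    have h1 : ((M + 1 : ℕ) : ℝ) + 1 = (((M : ℝ) + 1) + 1) := by push_cast; ring
    have hp : (0 : ℝ) < (M : ℝ) + 1 := by positivity
    have hp2 : (0 : ℝ) < (n : ℝ) + 1 := by positivity
    have h2 : Real.log ((((M : ℝ) + 1) + 1) / ((n : ℝ) + 1)) =
        Real.log ((((M : ℝ) + 1) + 1) / ((M : ℝ) + 1)) +
          Real.log (((M : ℝ) + 1) / ((n : ℝ) + 1)) := by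
      rw [← Real.log_mul (by positivity) (by positivity)]
      congr 1
      field_simp
    have h3 : Real.log ((((M : ℝ) + 1) + 1) / ((M : ℝ) + 1)) ≤ 1 / ((M : ℝ) + 1) := by
      have := Real.log_le_sub_one_of_pos (show 0 < (((M : ℝ) + 1) + 1) / ((M : ℝ) + 1) by positivity)
      have e : (((M : ℝ) + 1) + 1) / ((M : ℝ) + 1) - 1 = 1 / ((M : ℝ) + 1) := by
        field_simp
        ring
      linarith
    rw [h1, h2]
    push_cast
    linarith

/-- Harmonic sums, upper bound. -/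
theorem asmc_up (n M : ℕ) (hn : 1 ≤ n) (h : n ≤ M) :
    ∑ a ∈ Ioc n M, 1 / (a : ℝ) ≤ Real.log ((M : ℝ) / n) := by
  induction M, h using Nat.le_induction with
  | base =>
    have : (n : ℝ) ≠ 0 := by positivity
    simp [this]
  | succ M hM ih =>
    rw [asmc_ioc hM, Finset.sum_insert (by simp)]
    have hn0 : (0 : ℝ) < n := by exact_mod_cast hn
    have hM0 : (0 : ℝ) < M := by
      have : (n : ℝ) ≤ M := by exact_mod_cast hM
      linarith
    have h2 : Real.log (((M + 1 : ℕ) : ℝ) / n) =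
        Real.log (((M : ℝ) + 1) / M) + Real.log ((M : ℝ) / n) := by
      rw [← Real.log_mul (by positivity) (by positivity)]
      congr 1
      push_cast
      field_simp
    have h3 : 1 / ((M : ℝ) + 1) ≤ Real.log (((M : ℝ) + 1) / M) := by
      have := Real.log_le_sub_one_of_pos (show 0 < (M : ℝ) / ((M : ℝ) + 1) by positivity)
      have e1 : Real.log ((M : ℝ) / ((M : ℝ) + 1)) = -Real.log (((M : ℝ) + 1) / M) := by
        rw [← Real.log_inv, inv_div]
      have e : (M : ℝ) / ((M : ℝ) + 1) - 1 = -(1 / ((M : ℝ) + 1)) := by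
        field_simp
        ring
      linarith
    rw [h2]
    push_cast
    linarith

theorem asmc_pow (L : ℕ) (hL : 1000000 ≤ L) : 3 * (L + 1) ^ 24 ≤ 4 * L ^ 24 := by
  have hL' : (1000000 : ℝ) ≤ L := by exact_mod_cast hL
  have hp : (0 : ℝ) < (L : ℝ) + 1 := by positivity
  have h1 := one_add_mul_le_pow (a := -(1 / ((L : ℝ) + 1))) (by
    have : 1 / ((L : ℝ) + 1) ≤ 1 := by
      rw [div_le_one hp]
      linarith
    linarith) 24
  have h2 : 1 + -(1 / ((L : ℝ) + 1)) = L / ((L : ℝ) + 1) := by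
    field_simp
    ring
  rw [h2, div_pow, le_div_iff₀ (by positivity)] at h1
  have h3 : (3 : ℝ) / 4 ≤ 1 + ((24 : ℕ) : ℝ) * -(1 / ((L : ℝ) + 1)) := by
    have : 1 / ((L : ℝ) + 1) ≤ 1 / 100 := one_div_le_one_div_of_le (by norm_num) (by linarith)
    push_cast
    linarith
  have h4 : (3 : ℝ) / 4 * ((L : ℝ) + 1) ^ 24 ≤ (L : ℝ) ^ 24 :=
    (mul_le_mul_of_nonneg_right h3 (by positivity)).trans h1
  have h5 : (3 : ℝ) * ((L : ℝ) + 1) ^ 24 ≤ 4 * (L : ℝ) ^ 24 := by linarith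
  exact_mod_cast h5

/-- The choice of `L`. -/
theorem asmc_L (L0 : ℕ) : ∃ N0 : ℕ, ∀ N ≥ N0, ∃ L : ℕ, L0 ≤ L ∧ 1000000 ≤ L ∧ 3 * L ^ 24 ≤ N ∧
    N ≤ 4 * L ^ 24 := by
  set L1 := max L0 1000000 with hL1
  refine ⟨3 * L1 ^ 24, fun N hN => ?_⟩
  have hN1 : L1 ≤ N := by
    calc L1 = 1 * L1 ^ 1 := by ring
      _ ≤ 3 * L1 ^ 24 := by
          apply Nat.mul_le_mul (by norm_num)
          apply Nat.pow_le_pow_right _ (by norm_num)
          have : 1000000 ≤ L1 := le_max_right _ _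
          omega
      _ ≤ N := hN
  set L := Nat.findGreatest (fun L => 3 * L ^ 24 ≤ N) N with hL
  have h1 : L1 ≤ L := Nat.le_findGreatest hN1 hN
  have h2 : 3 * L ^ 24 ≤ N := Nat.findGreatest_spec (P := fun L => 3 * L ^ 24 ≤ N) hN1 hN
  have hbig : 1000000 ≤ L := le_trans (le_max_right _ _) h1
  refine ⟨L, le_trans (le_max_left _ _) h1, hbig, h2, ?_⟩
  have h3 : L + 1 ≤ N := by
    calc L + 1 ≤ 3 * L ^ 1 := by
          rw [pow_one]
          omega
      _ ≤ 3 * L ^ 24 := by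
          apply Nat.mul_le_mul_left
          apply Nat.pow_le_pow_right (by omega) (by norm_num)
      _ ≤ N := h2
  have h4 : ¬ 3 * (L + 1) ^ 24 ≤ N :=
    Nat.findGreatest_is_greatest (P := fun L => 3 * L ^ 24 ≤ N) (Nat.lt_succ_self L) h3
  have h5 := asmc_pow L hbig
  omega

/-- The choice of `n`. -/
theorem asmc_n (L N : ℕ) (hL : 1000000 ≤ L) (h3 : 3 * L ^ 24 ≤ N) (h4 : N ≤ 4 * L ^ 24) :
    ∃ n : ℕ, L ^ 24 ≤ n ∧ n ≤ 2 * L ^ 24 ∧
      (L : ℝ) ^ 13 / n ≤ 1 - ∑ a ∈ Ioc n N, 1 / (a : ℝ) ∧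
      1 - ∑ a ∈ Ioc n N, 1 / (a : ℝ) ≤ (L : ℝ) ^ 13 / n + 2 / n := by
  have hLr : (1000000 : ℝ) ≤ L := by exact_mod_cast hL
  have hl : (1 : ℝ) ≤ L := by linarith
  set f : ℕ → ℝ := fun n => ∑ a ∈ Ioc n N, 1 / (a : ℝ) + (L : ℝ) ^ 13 / n with hf
  have h24 : 1 ≤ L ^ 24 := Nat.one_le_pow _ _ (by omega)
  have h13 : (1 : ℝ) ≤ (L : ℝ) ^ 13 := one_le_pow₀ hl
  have hq : (L : ℝ) ^ 13 * 100 ≤ (L : ℝ) ^ 24 := by
    calc (L : ℝ) ^ 13 * 100 ≤ (L : ℝ) ^ 13 * (L : ℝ) ^ 1 := by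
          apply mul_le_mul_of_nonneg_left _ (by positivity)
          rw [pow_one]
          linarith
      _ = (L : ℝ) ^ 14 := by ring
      _ ≤ (L : ℝ) ^ 24 := pow_le_pow_right₀ hl (by norm_num)
  have hpos24 : (0 : ℝ) < (L : ℝ) ^ 24 := by positivity
  -- at `L ^ 24`
  have f1 : 1 < f (L ^ 24) := by
    have a1 := asmc_low (L ^ 24) N (by omega)
    have a2 : (1 : ℝ) < Real.log (((N : ℝ) + 1) / (((L ^ 24 : ℕ) : ℝ) + 1)) := by
      rw [Real.lt_log_iff_exp_lt (by positivity), lt_div_iff₀ (by positivity)]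
      have h5 := Real.exp_one_lt_d9
      have h6 : (3 : ℝ) * (L : ℝ) ^ 24 ≤ N := by exact_mod_cast h3
      push_cast
      nlinarith
    have a3 : (0 : ℝ) ≤ (L : ℝ) ^ 13 / ((L ^ 24 : ℕ) : ℝ) := by positivity
    simp only [hf]
    linarith
  -- at `2 L ^ 24`
  have f2 : f (2 * L ^ 24) ≤ 1 := by
    have a1 := asmc_up (2 * L ^ 24) N (by omega) (by omega)
    have a2 : Real.log ((N : ℝ) / ((2 * L ^ 24 : ℕ) : ℝ)) ≤ Real.log 2 := by
      have h6 : (N : ℝ) ≤ 4 * (L : ℝ) ^ 24 := by exact_mod_cast h4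
      have h7 : (3 : ℝ) * (L : ℝ) ^ 24 ≤ N := by exact_mod_cast h3
      apply Real.log_le_log
      · have : (0 : ℝ) < N := by linarith
        positivity
      · push_cast
        rw [div_le_iff₀ (by positivity)]
        linarith
    have a3 := Real.log_two_lt_d9
    have a4 : (L : ℝ) ^ 13 / ((2 * L ^ 24 : ℕ) : ℝ) ≤ 1 / 100 := by
      push_cast
      rw [div_le_div_iff₀ (by positivity) (by norm_num)]
      linarith
    simp only [hf]
    linarith
  -- the first one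
  have hex : ∃ n, L ^ 24 ≤ n ∧ f n ≤ 1 := ⟨2 * L ^ 24, by omega, f2⟩
  classical
  set n := Nat.find hex with hn
  obtain ⟨g1, g2⟩ := Nat.find_spec hex
  rw [← hn] at g1 g2
  have g3 : n ≤ 2 * L ^ 24 := Nat.find_min' hex ⟨by omega, f2⟩
  have g4 : n ≠ L ^ 24 := by
    intro h
    rw [h] at g2
    linarith
  have g5 : L ^ 24 < n := lt_of_le_of_ne g1 (Ne.symm g4)
  have g6 : 1 < f (n - 1) := by
    have := Nat.find_min hex (m := n - 1) (by omega)
    by_contra hcon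
    exact this ⟨by omega, not_lt.mp hcon⟩
  refine ⟨n, g1, g3, ?_, ?_⟩
  · simp only [hf] at g2
    linarith
  · have hn1 : n - 1 + 1 = n := by omega
    have hsum : ∑ a ∈ Ioc (n - 1) N, 1 / (a : ℝ) = 1 / (n : ℝ) + ∑ a ∈ Ioc n N, 1 / (a : ℝ) := by
      have hIoc : Ioc (n - 1) N = insert n (Ioc n N) := by
        ext a
        simp only [Finset.mem_Ioc, Finset.mem_insert]
        omega
      rw [hIoc, Finset.sum_insert (by simp)]
    simp only [hf] at g6
    rw [hsum] at g6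
    have hnr : (L : ℝ) ^ 24 < n := by exact_mod_cast g5
    have hc : ((n - 1 : ℕ) : ℝ) = n - 1 := by
      rw [Nat.cast_sub (by omega), Nat.cast_one]
    rw [hc] at g6
    have hn0 : (0 : ℝ) < n := by linarith
    have hm1 : (L : ℝ) ^ 24 ≤ n - 1 := by
      have : L ^ 24 ≤ n - 1 := by omega
      rw [← hc]
      exact_mod_cast this
    have hm0 : (0 : ℝ) < (n : ℝ) - 1 := by linarith
    have hk : (L : ℝ) ^ 13 / ((n : ℝ) - 1) ≤ (L : ℝ) ^ 13 / n + 1 / n := by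
      rw [← add_div, div_le_div_iff₀ hm0 hn0]
      have : (L : ℝ) ^ 13 ≤ (n : ℝ) - 1 := by linarith
      nlinarith
    have e : (2 : ℝ) / n = 1 / n + 1 / n := by ring
    rw [e]
    linarith

end Pool.Agent.helper65.RK
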