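import Pool.Agent.helper65.RK.EWb

set_option autoImplicit false

/-!
# RK-21 : comparison with the simple random walk
-/

namespace Pool.Agent.helper65.RK

open Finset

variable {η : ℝ}

/-- The value of the simple random walk: `t` applications of `f ↦ (f (s+1) + f (s-1))/2`. -/
noncomputable def sr : ℕ → (ℤ → ℝ) → ℤ → ℝ
  | 0, f, s => f s
  | t + 1, f, s => sr t (fun r => (f (r + 1) + f (r - 1)) / 2) s

lemma Coup_del_nil : del ([] : List T) = 0 := by
  simp [del, al, be, posT]

/-- RK-21a. Let `f` be even and `f s ≤ f (s + 2)` for `s ≥ 0`. Then the operator of `EW_del_succ` applied to `f` is at most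
`P f = (f (s+1) + f (s-1))/2`: for `s ≤ 0` the difference is `(η/2) (f (s+1) - f (s-1))`, and `f (s+1) = f (-s-1) ≤ f (-s+1) = f (s-1)` if `s ≤ -1`,
equality for `s = 0`; for `s > 0` it is `(η/2) (f (s-1) - f (s+1)) ≤ 0`. And `P f` is again even with
`P f s ≤ P f (s + 2)` for `s ≥ 0`: `2 (P f (s+2) - P f s) = f (s+3) - f (s-1)`, which is `≥ 0` (for `s = 0`: `f 3 - f (-1) = f 3 - f 1`).
Induction on `t` (`EW_del_succ`, `EW_mono`, `EW_congr`). -/
theorem coup (h0 : 0 ≤ η) (h1 : η ≤ 1) (t : ℕ) (f : ℤ → ℝ) (heven : ∀ s, f (-s) = f s)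
    (hmono : ∀ s : ℤ, 0 ≤ s → f s ≤ f (s + 2)) :
    EW η t (fun v => f (del v)) ≤ sr t f 0 := by
  induction t generalizing f with
  | zero =>
    rw [EW, sr, Coup_del_nil]
  | succ t ih =>
    rw [EW_del_succ, sr]
    have h2 := ih (fun r => (f (r + 1) + f (r - 1)) / 2) (by
      intro s
      have e1 : f (-s + 1) = f (s - 1) := by rw [← heven (s - 1)]; congr 1; ring
      have e2 : f (-s - 1) = f (s + 1) := by rw [← heven (s + 1)]; congr 1; ring
      show (f (-s + 1) + f (-s - 1)) / 2 = (f (s + 1) + f (s - 1)) / 2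
      rw [e1, e2, add_comm]) (by
      intro s hs
      show (f (s + 1) + f (s - 1)) / 2 ≤ (f (s + 2 + 1) + f (s + 2 - 1)) / 2
      have e1 : s + 2 - 1 = s + 1 := by ring
      rw [e1]
      have e2 : f (s - 1) ≤ f (s + 2 + 1) := by
        rcases hs.eq_or_lt with h | h
        · rw [← h]
          have e3 : f (0 - 1) = f 1 := by rw [← heven 1]; congr 1
          rw [e3]
          exact hmono 1 (by norm_num)
        · have e3 := hmono (s - 1) (by omega)
          have e4 := hmono (s + 1) (by omega)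
          have e5 : s - 1 + 2 = s + 1 := by ring
          have e6 : s + 1 + 2 = s + 2 + 1 := by ring
          rw [e5] at e3
          rw [e6] at e4
          exact e3.trans e4
      linarith)
    refine le_trans (EW_mono h0 h1 ?_) h2
    intro v _
    show (if del v ≤ 0 then (1 + η) / 2 * f (del v + 1) + (1 - η) / 2 * f (del v - 1)
      else (1 - η) / 2 * f (del v + 1) + (1 + η) / 2 * f (del v - 1)) ≤
      (f (del v + 1) + f (del v - 1)) / 2
    generalize del v = s
    split_ifs with hs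
    · have e1 : f (s + 1) ≤ f (s - 1) := by
        rcases hs.eq_or_lt with h | h
        · rw [h]
          have e3 : f (0 - 1) = f (0 + 1) := by rw [← heven (0 + 1)]; congr 1
          rw [e3]
        · have e3 := hmono (-s - 1) (by omega)
          have e4 : f (-s - 1) = f (s + 1) := by rw [← heven (s + 1)]; congr 1; ring
          have e5 : f (-s - 1 + 2) = f (s - 1) := by rw [← heven (s - 1)]; congr 1; ring
          rwa [e4, e5] at e3
      nlinarith
    · have e1 : f (s - 1) ≤ f (s + 1) := by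
        have e3 := hmono (s - 1) (by omega)
        have e4 : s - 1 + 2 = s + 1 := by ring
        rwa [e4] at e3
      nlinarith

lemma Coup_sr_eq (t : ℕ) (f : ℤ → ℝ) (s : ℤ) :
    sr t f s = (∑ j ∈ range (t + 1), (t.choose j : ℝ) * f (s + 2 * j - t)) / 2 ^ t := by
  induction t generalizing f with
  | zero => simp [sr]
  | succ t ih =>
    rw [sr, ih, pow_succ, div_eq_div_iff (by positivity) (by positivity)]
    have h1 : ∑ j ∈ range (t + 1 + 1), ((t + 1).choose j : ℝ) * f (s + 2 * j - (t + 1 : ℕ)) =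
        ∑ j ∈ range (t + 1), (t.choose j : ℝ) * f (s + 2 * j - t + 1) +
          ∑ j ∈ range (t + 1), (t.choose j : ℝ) * f (s + 2 * j - t - 1) := by
      rw [Finset.sum_range_succ']
      have h2 : ∀ j ∈ range (t + 1), ((t + 1).choose (j + 1) : ℝ) *
          f (s + 2 * ((j + 1 : ℕ) : ℤ) - (t + 1 : ℕ)) =
          (t.choose j : ℝ) * f (s + 2 * j - t + 1) +
            (t.choose (j + 1) : ℝ) * f (s + 2 * ((j + 1 : ℕ) : ℤ) - t - 1) := by
        intro j _
        rw [Nat.choose_succ_succ]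
        have e1 : s + 2 * ((j + 1 : ℕ) : ℤ) - (t + 1 : ℕ) = s + 2 * j - t + 1 := by
          push_cast; ring
        have e2 : s + 2 * ((j + 1 : ℕ) : ℤ) - t - 1 = s + 2 * j - t + 1 := by
          push_cast; ring
        rw [e1, e2]
        push_cast
        ring
      rw [Finset.sum_congr rfl h2, Finset.sum_add_distrib, add_assoc]
      congr 1
      rw [Finset.sum_range_succ' (fun j => (t.choose j : ℝ) * f (s + 2 * j - t - 1)) t,
        Finset.sum_range_succ (fun j => (t.choose (j + 1) : ℝ) *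
          f (s + 2 * ((j + 1 : ℕ) : ℤ) - t - 1)) t]
      have e3 : s + 2 * ((0 : ℕ) : ℤ) - (t + 1 : ℕ) = s + 2 * ((0 : ℕ) : ℤ) - t - 1 := by
        push_cast; ring
      rw [e3, Nat.choose_succ_self]
      simp
    rw [h1, ← Finset.sum_add_distrib, Finset.sum_mul, Finset.sum_mul]
    apply Finset.sum_congr rfl
    intro j _
    ring

/-- RK-21b. `sr t f s = 2^{-t} ∑_k C(t,k) f (s + 2k - t)`; here for the indicator of `≠ 0`: -/
theorem sr_ne_zero (k : ℕ) :
    sr (2 * k) (fun s => if s = 0 then (0 : ℝ) else 1) 0 =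
      1 - (Nat.centralBinom k : ℝ) / 4 ^ k := by
  rw [Coup_sr_eq]
  have h1 : ∀ j ∈ range (2 * k + 1), ((2 * k).choose j : ℝ) *
      (if (0 : ℤ) + 2 * j - (2 * k : ℕ) = 0 then (0 : ℝ) else 1) =
      ((2 * k).choose j : ℝ) - if j = k then ((2 * k).choose j : ℝ) else 0 := by
    intro j _
    by_cases h : j = k
    · rw [if_pos (by rw [h]; push_cast; ring), if_pos h]; ring
    · rw [if_neg (by push_cast; omega), if_neg h]; ring
  rw [Finset.sum_congr rfl h1, Finset.sum_sub_distrib, Finset.sum_ite_eq' (range (2 * k + 1)) k,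
    if_pos (Finset.mem_range.2 (by omega))]
  have h2 : (∑ j ∈ range (2 * k + 1), ((2 * k).choose j : ℝ)) = 2 ^ (2 * k) := by
    exact_mod_cast Nat.sum_range_choose (2 * k)
  have h3 : ((2 : ℝ) ^ (2 * k)) = 4 ^ k := by rw [pow_mul]; norm_num
  rw [h2, h3, sub_div, div_self (by positivity), Nat.centralBinom_eq_two_mul_choose]

lemma Coup_sr_smul (t : ℕ) (c : ℝ) (f : ℤ → ℝ) (s : ℤ) :
    sr t (fun r => c * f r) s = c * sr t f s := by
  induction t generalizing f with
  | zero => rfl
  | succ t ih =>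
    rw [sr, sr, ← ih]
    congr 1
    funext r
    ring

theorem sr_cosh (lam : ℝ) (t : ℕ) :
    sr t (fun s => Real.cosh (lam * s)) 0 = Real.cosh lam ^ t := by
  induction t with
  | zero => simp [sr]
  | succ t ih =>
    rw [sr, pow_succ, ← ih, mul_comm, ← Coup_sr_smul]
    congr 1
    funext r
    have e1 : lam * ((r + 1 : ℤ) : ℝ) = lam * r + lam := by push_cast; ring
    have e2 : lam * ((r - 1 : ℤ) : ℝ) = lam * r - lam := by push_cast; ring
    rw [e1, e2, Real.cosh_add, Real.cosh_sub]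
    ring

/-- RK-21c. `C(2k,k)/4^k ≥ 1/(2 √k)`: the square times `4 k` is nondecreasing in `k ≥ 1` and equal to `1` for
`k = 1`, because `(2k+1)² ≥ 4k(k+1)`. -/
theorem centralBinom_lower (k : ℕ) (hk : 1 ≤ k) :
    1 / (2 * Real.sqrt k) ≤ (Nat.centralBinom k : ℝ) / 4 ^ k := by
  have h : (1 : ℝ) ≤ ((Nat.centralBinom k : ℝ) / 4 ^ k) ^ 2 * (4 * k) := by
    induction k, hk using Nat.le_induction with
    | base => norm_num [Nat.centralBinom, Nat.choose]
    | succ k hk ih =>
      have h1 : ((k : ℝ) + 1) * (Nat.centralBinom (k + 1) : ℝ) =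
          2 * (2 * k + 1) * Nat.centralBinom k := by
        exact_mod_cast Nat.succ_mul_centralBinom_succ k
      have hk0 : (0 : ℝ) < k := by exact_mod_cast hk
      have h2 : (Nat.centralBinom (k + 1) : ℝ) / 4 ^ (k + 1) =
          ((Nat.centralBinom k : ℝ) / 4 ^ k) * ((2 * k + 1) / (2 * (k + 1))) := by
        rw [pow_succ]
        field_simp
        linear_combination 2 * h1
      rw [h2, mul_pow]
      refine ih.trans ?_
      have h3 : (4 * k : ℝ) ≤ ((2 * k + 1) / (2 * (k + 1))) ^ 2 * (4 * ((k + 1 : ℕ) : ℝ)) := by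
        push_cast
        rw [div_pow, div_mul_eq_mul_div, le_div_iff₀ (by positivity)]
        nlinarith
      rw [mul_assoc]
      exact mul_le_mul_of_nonneg_left h3 (by positivity)
  have hk0 : (0 : ℝ) < k := by exact_mod_cast hk
  have hs : (0 : ℝ) < 2 * Real.sqrt k := by positivity
  rw [div_le_iff₀ hs]
  have h4 : (((Nat.centralBinom k : ℝ) / 4 ^ k) * (2 * Real.sqrt k)) ^ 2 =
      ((Nat.centralBinom k : ℝ) / 4 ^ k) ^ 2 * (4 * k) := by
    rw [mul_pow, mul_pow, Real.sq_sqrt hk0.le]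
    ring
  rw [← h4] at h
  have h5 : 0 ≤ ((Nat.centralBinom k : ℝ) / 4 ^ k) * (2 * Real.sqrt k) := by positivity
  nlinarith

/-- RK-21d. The probability of a return. -/
theorem prob_zero_ge (h0 : 0 ≤ η) (h1 : η ≤ 1) (k : ℕ) :
    (Nat.centralBinom k : ℝ) / 4 ^ k ≤
      EW η (2 * k) (fun v => if del v = 0 then (1 : ℝ) else 0) := by
  have h2 := coup h0 h1 (2 * k) (fun s => if s = 0 then (0 : ℝ) else 1) (by
    intro s
    simp) (by
    intro s hs
    show (if s = 0 then (0 : ℝ) else 1) ≤ if s + 2 = 0 then (0 : ℝ) else 1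
    rw [if_neg (show s + 2 ≠ 0 by omega)]
    split_ifs <;> norm_num)
  rw [sr_ne_zero] at h2
  have h3 : EW η (2 * k) (fun v => if del v = 0 then (1 : ℝ) else 0) =
      1 - EW η (2 * k) (fun v => if del v = 0 then (0 : ℝ) else 1) := by
    have h4 : EW η (2 * k) (fun v => if del v = 0 then (1 : ℝ) else 0) =
        EW η (2 * k) (fun _ => 1) - EW η (2 * k) (fun v => if del v = 0 then (0 : ℝ) else 1) := by
      rw [← EW_sub]
      apply EW_congr
      intro v _
      split_ifs <;> norm_num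
    rw [h4, EW_const]
  rw [h3]
  linarith

open Classical in
/-- RK-21e. Chernoff: `P(|δ| ≥ s) cosh(lam s) ≤ E cosh(lam δ) ≤ cosh(lam)^t ≤ exp(lam² t/2)`
(`Real.cosh_le_exp_half_sq`), with `lam = s/t` and `cosh(lam s) ≥ exp(lam s)/2`. (For `t = 0` the left side is
`0` since `s > 0`, and `s²/(2·0) = 0`.) -/
theorem tail (h0 : 0 ≤ η) (h1 : η ≤ 1) (t : ℕ) (s : ℝ) (hs : 0 < s) :
    EW η t (fun v => if s ≤ |(del v : ℝ)| then (1 : ℝ) else 0) ≤
      2 * Real.exp (-(s ^ 2 / (2 * t))) := by
  rcases Nat.eq_zero_or_pos t with rfl | ht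
  · rw [EW, Coup_del_nil, Int.cast_zero, abs_zero, if_neg (not_le.2 hs)]
    positivity
  have ht0 : (0 : ℝ) < t := by exact_mod_cast ht
  have hlam : 0 < s / t := by positivity
  have h2 := coup h0 h1 t (fun r => Real.cosh (s / t * r)) (by
    intro r
    show Real.cosh (s / t * ((-r : ℤ) : ℝ)) = Real.cosh (s / t * r)
    rw [Int.cast_neg, mul_neg, Real.cosh_neg]) (by
    intro r hr
    show Real.cosh (s / t * r) ≤ Real.cosh (s / t * ((r + 2 : ℤ) : ℝ))
    rw [Real.cosh_le_cosh]
    have hr0 : (0 : ℝ) ≤ r := by exact_mod_cast hr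
    rw [abs_of_nonneg (by positivity), abs_of_nonneg (by push_cast; positivity)]
    push_cast
    nlinarith)
  rw [sr_cosh] at h2
  have h3 : Real.cosh (s / t) ^ t ≤ Real.exp (s ^ 2 / (2 * t)) := by
    calc Real.cosh (s / t) ^ t ≤ (Real.exp ((s / t) ^ 2 / 2)) ^ t :=
          pow_le_pow_left₀ (Real.cosh_pos _).le (Real.cosh_le_exp_half_sq _) t
      _ = Real.exp (s ^ 2 / (2 * t)) := by
          rw [← Real.exp_nat_mul]
          congr 1
          field_simp
  have h4 : Real.exp (s ^ 2 / t) / 2 ≤ Real.cosh (s / t * s) := by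
    rw [Real.cosh_eq]
    have e1 : s / t * s = s ^ 2 / t := by ring
    rw [e1]
    have := Real.exp_pos (-(s ^ 2 / t))
    linarith
  have h5 : EW η t (fun v => if s ≤ |(del v : ℝ)| then (1 : ℝ) else 0) * Real.cosh (s / t * s) ≤
      EW η t (fun v => Real.cosh (s / t * (del v : ℝ))) := by
    rw [mul_comm, ← EW_mul]
    apply EW_mono h0 h1
    intro v _
    split_ifs with h
    · rw [mul_one, Real.cosh_le_cosh, abs_mul, abs_mul, abs_of_pos hlam, abs_of_pos hs]
      exact mul_le_mul_of_nonneg_left h hlam.le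
    · rw [mul_zero]
      exact (Real.cosh_pos _).le
  have h6 : 0 ≤ EW η t (fun v => if s ≤ |(del v : ℝ)| then (1 : ℝ) else 0) := by
    apply EW_nonneg h0 h1
    intro v _
    split_ifs <;> norm_num
  have h7 : EW η t (fun v => if s ≤ |(del v : ℝ)| then (1 : ℝ) else 0) *
      (Real.exp (s ^ 2 / t) / 2) ≤ Real.exp (s ^ 2 / (2 * t)) :=
    (mul_le_mul_of_nonneg_left h4 h6).trans (h5.trans (h2.trans h3))
  have h8 : Real.exp (s ^ 2 / (2 * t)) =
      2 * Real.exp (-(s ^ 2 / (2 * t))) * (Real.exp (s ^ 2 / t) / 2) := by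
    have e1 : s ^ 2 / t = s ^ 2 / (2 * t) + s ^ 2 / (2 * t) := by field_simp; norm_num
    rw [e1, Real.exp_add, Real.exp_neg]
    field_simp
  rw [h8] at h7
  exact le_of_mul_le_mul_right h7 (by positivity)

open Classical in
/-- The same with a larger time in the exponent. -/
theorem tail' (h0 : 0 ≤ η) (h1 : η ≤ 1) (u t : ℕ) (hut : u ≤ t) (s : ℝ) (hs : 0 < s) :
    EW η u (fun v => if s ≤ |(del v : ℝ)| then (1 : ℝ) else 0) ≤
      2 * Real.exp (-(s ^ 2 / (2 * t))) := by
  rcases Nat.eq_zero_or_pos u with rfl | hu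
  · rw [EW, Coup_del_nil, Int.cast_zero, abs_zero, if_neg (not_le.2 hs)]
    positivity
  refine (tail h0 h1 u s hs).trans ?_
  have hu0 : (0 : ℝ) < u := by exact_mod_cast hu
  have hut' : (u : ℝ) ≤ t := by exact_mod_cast hut
  have h2 : s ^ 2 / (2 * t) ≤ s ^ 2 / (2 * u) :=
    div_le_div_of_nonneg_left (by positivity) (by positivity) (by linarith)
  have h3 := Real.exp_le_exp.2 (neg_le_neg h2)
  linarith

end Pool.Agent.helper65.RK
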