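import Pool.Agent.helper65.RK.EWb

set_option autoImplicit false

/-!
# RK-28 : words of lists of agents
-/

namespace Pool.Agent.helper65.RK

open Finset

variable {m n' : ℕ}

theorem MrgL_inr (k : Fin n') (C : List (Ag m n')) (v : List T) :
    mrg (Sum.inr k :: C) v = Lt.t (v.getD 0 T.A) :: mrg C (v.drop 1) := by
  cases v with
  | nil => rfl
  | cons s v => rfl

theorem mrg_length (C : List (Ag m n')) (v : List T) : (mrg C v).length = C.length := by
  induction C generalizing v with
  | nil => rfl
  | cons o C ih =>
    rcases o with z | k
    · rw [mrg, List.length_cons, List.length_cons, ih]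
    · rw [MrgL_inr, List.length_cons, List.length_cons, ih]

theorem mrg_take (C : List (Ag m n')) (v : List T) (u : ℕ) :
    (mrg C v).take u = mrg (C.take u) v := by
  induction C generalizing v u with
  | nil => simp [mrg]
  | cons o C ih =>
    cases u with
    | zero => simp [mrg]
    | succ u =>
      rcases o with z | k
      · rw [mrg, List.take_succ_cons, List.take_succ_cons, mrg, ih]
      · rw [MrgL_inr, List.take_succ_cons, List.take_succ_cons, MrgL_inr, ih]

theorem nsG_le_length (C : List (Ag m n')) : nsG C ≤ C.length := List.countP_le_length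

theorem nsG_take_le (C : List (Ag m n')) (u : ℕ) : nsG (C.take u) ≤ nsG C :=
  (List.take_sublist u C).countP_le

theorem MrgL_nsG_inl (z : Fin m × Bool) (C : List (Ag m n')) :
    nsG (Sum.inl z :: C) = nsG C + 1 := by
  unfold nsG
  rw [List.countP_cons_of_pos]
  rfl

theorem MrgL_nsG_inr (k : Fin n') (C : List (Ag m n')) :
    nsG (Sum.inr k :: C) = nsG C := by
  simp [nsG]

theorem nsG_append_inl (C : List (Ag m n')) (z : Fin m × Bool) :
    nsG (C ++ [Sum.inl z]) = nsG C + 1 := by
  simp [nsG]

theorem nsG_append_inr (C : List (Ag m n')) (k : Fin n') : nsG (C ++ [Sum.inr k]) = nsG C := by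
  simp [nsG]

theorem MrgL_letS (z : Fin m × Bool) :
    letS z = if z.2 then Lt.x z.1 else Lt.y z.1 := rfl

theorem nsr_mrg (C : List (Ag m n')) (v : List T) : nsr (mrg C v) = nsG C := by
  induction C generalizing v with
  | nil => rfl
  | cons o C ih =>
    rcases o with z | k
    · rw [mrg, MrgL_nsG_inl, ← ih v]
      rcases z with ⟨i, b⟩
      cases b <;> simp [nsr, letS]
    · rw [MrgL_inr, MrgL_nsG_inr, ← ih (v.drop 1)]
      simp [nsr]

theorem MrgL_far_t (s : T) (w : List Lt) : far (Lt.t s :: w) = s :: far w := rfl

theorem MrgL_far_s (z : Fin m × Bool) (w : List Lt) : far (letS z :: w) = far w := by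
  rcases z with ⟨i, b⟩
  cases b <;> rfl

theorem far_mrg (C : List (Ag m n')) (v : List T) (hv : C.length ≤ v.length) :
    far (mrg C v) = v.take (C.length - nsG C) := by
  induction C generalizing v with
  | nil => simp [mrg, far]
  | cons o C ih =>
    rw [List.length_cons] at hv
    rcases o with z | k
    · rw [mrg, MrgL_far_s, ih v (by omega), MrgL_nsG_inl, List.length_cons, Nat.add_sub_add_right]
    · have h1 := nsG_le_length C
      cases v with
      | nil => simp at hv
      | cons s v =>
        rw [List.length_cons] at hv
        rw [mrg, MrgL_far_t, ih v (by omega), MrgL_nsG_inr, List.length_cons,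
          show C.length + 1 - nsG C = (C.length - nsG C) + 1 by omega, List.take_succ_cons]

theorem mrg_append_inl (C : List (Ag m n')) (z : Fin m × Bool) (v : List T) :
    mrg (C ++ [Sum.inl z]) v = mrg C v ++ [letS z] := by
  induction C generalizing v with
  | nil => simp [mrg]
  | cons o C ih =>
    rcases o with z' | k
    · rw [List.cons_append, mrg, mrg, ih, List.cons_append]
    · rw [List.cons_append, MrgL_inr, MrgL_inr, ih, List.cons_append]

theorem mrg_append_inr (C : List (Ag m n')) (k : Fin n') (v : List T) :
    mrg (C ++ [Sum.inr k]) v = mrg C v ++ [Lt.t (v.getD (C.length - nsG C) T.A)] := by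
  induction C generalizing v with
  | nil =>
    rw [List.nil_append, MrgL_inr]
    simp [mrg]
  | cons o C ih =>
    rcases o with z' | k'
    · rw [List.cons_append, mrg, mrg, ih, List.cons_append, MrgL_nsG_inl, List.length_cons,
        Nat.add_sub_add_right]
    · have h1 := nsG_le_length C
      rw [List.cons_append, MrgL_inr, MrgL_inr, ih, List.cons_append, MrgL_nsG_inr,
        List.length_cons, show C.length + 1 - nsG C = (C.length - nsG C) + 1 by omega]
      cases v with
      | nil => simp
      | cons s v => simp

/-- Only the first letters matter. -/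
theorem mrg_congr (C : List (Ag m n')) (v v' : List T)
    (h : v.take (C.length - nsG C) = v'.take (C.length - nsG C)) : mrg C v = mrg C v' := by
  induction C generalizing v v' with
  | nil => rfl
  | cons o C ih =>
    rcases o with z | k
    · rw [MrgL_nsG_inl, List.length_cons, Nat.add_sub_add_right] at h
      rw [mrg, mrg, ih v v' h]
    · have h1 := nsG_le_length C
      rw [MrgL_nsG_inr, List.length_cons,
        show C.length + 1 - nsG C = (C.length - nsG C) + 1 by omega] at h
      cases v with
      | nil =>
        cases v' with
        | nil => rfl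
        | cons s v' => simp at h
      | cons s v =>
        cases v' with
        | nil => simp at h
        | cons s' v' =>
          rw [List.take_succ_cons, List.take_succ_cons, List.cons.injEq] at h
          rw [mrg, mrg, ih v v' h.2, h.1]

theorem MrgL_letS_inj {z z' : Fin m × Bool} (h : letS z = letS z') : z = z' := by
  rcases z with ⟨i, b⟩
  rcases z' with ⟨i', b'⟩
  cases b <;> cases b' <;> simp [letS, Fin.val_inj] at h ⊢ <;> exact h

theorem MrgL_letS_ne (z : Fin m × Bool) (s : T) : letS z ≠ Lt.t s := by
  rcases z with ⟨i, b⟩
  cases b <;> simp [letS]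

theorem letS_mem_mrg (C : List (Ag m n')) (v : List T) (z : Fin m × Bool) :
    letS z ∈ mrg C v ↔ Sum.inl z ∈ C := by
  induction C generalizing v with
  | nil => simp [mrg]
  | cons o C ih =>
    rcases o with z' | k
    · rw [mrg, List.mem_cons, List.mem_cons, ih, Sum.inl.injEq]
      constructor
      · rintro (h | h)
        · exact Or.inl (MrgL_letS_inj h)
        · exact Or.inr h
      · rintro (h | h)
        · exact Or.inl (by rw [h])
        · exact Or.inr h
    · rw [MrgL_inr, List.mem_cons, List.mem_cons, ih]
      constructor
      · rintro (h | h)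
        · exact absurd h (MrgL_letS_ne z _)
        · exact Or.inr h
      · rintro (h | h)
        · exact absurd h (by simp)
        · exact Or.inr h

theorem mrg_get_y (C : List (Ag m n')) (v : List T) (u i : ℕ)
    (h : (mrg C v)[u]? = some (Lt.y i)) :
    ∃ hi : i < m, C[u]? = some (Sum.inl (⟨i, hi⟩, false)) := by
  induction C generalizing v u with
  | nil => simp [mrg] at h
  | cons o C ih =>
    rcases o with z | k
    · rw [mrg] at h
      cases u with
      | zero =>
        rw [List.getElem?_cons_zero, Option.some.injEq] at h
        rcases z with ⟨j, b⟩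
        cases b
        · simp only [letS, Bool.false_eq_true, if_false, Lt.y.injEq] at h
          subst h
          exact ⟨j.2, rfl⟩
        · simp [letS] at h
      | succ u =>
        rw [List.getElem?_cons_succ] at h ⊢
        exact ih v u h
    · rw [MrgL_inr] at h
      cases u with
      | zero => simp at h
      | succ u =>
        rw [List.getElem?_cons_succ] at h ⊢
        exact ih _ u h

theorem mrg_get_x (C : List (Ag m n')) (v : List T) (u i : ℕ)
    (h : (mrg C v)[u]? = some (Lt.x i)) :
    ∃ hi : i < m, C[u]? = some (Sum.inl (⟨i, hi⟩, true)) := by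
  induction C generalizing v u with
  | nil => simp [mrg] at h
  | cons o C ih =>
    rcases o with z | k
    · rw [mrg] at h
      cases u with
      | zero =>
        rw [List.getElem?_cons_zero, Option.some.injEq] at h
        rcases z with ⟨j, b⟩
        cases b
        · simp [letS] at h
        · simp only [letS, if_true, Lt.x.injEq] at h
          subst h
          exact ⟨j.2, rfl⟩
      | succ u =>
        rw [List.getElem?_cons_succ] at h ⊢
        exact ih v u h
    · rw [MrgL_inr] at h
      cases u with
      | zero => simp at h
      | succ u =>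
        rw [List.getElem?_cons_succ] at h ⊢
        exact ih _ u h

theorem MrgL_foldl (w : List T) (p : ℕ × ℕ) :
    p.1 ≤ (w.foldl stepT p).1 ∧ (w.foldl stepT p).1 ≤ p.1 + w.length ∧
      p.2 ≤ (w.foldl stepT p).2 ∧ (w.foldl stepT p).2 ≤ p.2 + w.length := by
  induction w generalizing p with
  | nil => simp
  | cons s w ih =>
    obtain ⟨h1, h2, h3, h4⟩ := ih (stepT p s)
    have k1 : p.1 ≤ (stepT p s).1 ∧ (stepT p s).1 ≤ p.1 + 1 ∧ p.2 ≤ (stepT p s).2 ∧
        (stepT p s).2 ≤ p.2 + 1 := by
      rcases p with ⟨a, b⟩
      cases s
      · simp [stepT]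
      · simp [stepT]
      · simp only [stepT]
        split_ifs <;> simp
    rw [List.foldl_cons, List.length_cons]
    omega

theorem MrgL_append (v w : List T) :
    al v ≤ al (v ++ w) ∧ al (v ++ w) ≤ al v + w.length ∧
      be v ≤ be (v ++ w) ∧ be (v ++ w) ≤ be v + w.length := by
  unfold al be posT
  rw [List.foldl_append]
  exact MrgL_foldl w _

theorem MrgL_take (v : List T) (k : ℕ) :
    al (v.take k) ≤ al v ∧ al v ≤ al (v.take k) + (v.length - k) ∧
      be (v.take k) ≤ be v ∧ be v ≤ be (v.take k) + (v.length - k) := by
  have h := MrgL_append (v.take k) (v.drop k)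
  rw [List.take_append_drop, List.length_drop] at h
  exact h

/-- Comparison of the heights along the far agents of a list with those along the whole word of types. -/
theorem heights_mrg (C : List (Ag m n')) (v : List T) (hv : v.length = C.length) (u : ℕ)
    (hu : u ≤ C.length) :
    al v ≤ al (far (mrg C v)) + nsG C ∧ be v ≤ be (far (mrg C v)) + nsG C ∧
      al (far ((mrg C v).take u)) ≤ al (v.take u) ∧
      be (far ((mrg C v).take u)) ≤ be (v.take u) := by
  have h1 := nsG_le_length C
  have h2 := MrgL_take v (C.length - nsG C)
  rw [far_mrg C v hv.ge, mrg_take, far_mrg (C.take u) v (by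
    rw [List.length_take, hv]
    exact min_le_right _ _), List.length_take, min_eq_left hu]
  have h3 := MrgL_take (v.take u) (u - nsG (C.take u))
  rw [List.take_take, min_eq_left (Nat.sub_le _ _)] at h3
  rw [hv, show C.length - (C.length - nsG C) = nsG C by omega] at h2
  exact ⟨h2.2.1, h2.2.2.2, h3.1, h3.2.2.1⟩

end Pool.Agent.helper65.RK
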