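import Pool.Agent.helper65.RK.NL
import Pool.Agent.helper65.RK.MrgL

set_option autoImplicit false

/-!
# RK-27 : the number of owners among the first agents
-/

namespace Pool.Agent.helper65.RK

open Finset

variable {m n' : ℕ}

theorem Nu_countP (C : List (Ag m n')) (hC : C.Nodup) :
    (nsG C : ℝ) = ∑ o ∈ C.toFinset, (if o.isLeft = true then (1 : ℝ) else 0) := by
  rw [List.sum_toFinset _ hC]
  unfold nsG
  clear hC
  induction C with
  | nil => simp
  | cons a C ih =>
    rw [List.countP_cons, List.map_cons, List.sum_cons, ← ih]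
    by_cases h : a.isLeft = true
    · simp only [h, if_true]
      push_cast
      ring
    · simp only [h]
      push_cast
      ring

theorem Nu_card : Fintype.card (Ag m n') = 2 * m + n' := by
  rw [Fintype.card_sum, Fintype.card_prod, Fintype.card_fin, Fintype.card_fin, Fintype.card_bool]
  ring

theorem Nu_sum : ∑ o : Ag m n', (if o.isLeft = true then (1 : ℝ) else 0) = 2 * m := by
  rw [Fintype.sum_sum_type]
  simp only [Sum.isLeft_inl, if_true, Sum.isLeft_inr, Bool.false_eq_true, if_false,
    Finset.sum_const_zero, add_zero, Finset.sum_const, Finset.card_univ, Fintype.card_prod,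
    Fintype.card_fin, Fintype.card_bool, nsmul_eq_mul, mul_one]
  push_cast
  ring

/-- Exponential moment of the number of marked agents among the first `t`. -/
theorem Nu_exp {α : Type} [Fintype α] [DecidableEq α] (b : α → Bool) (f : List α → ℕ)
    (f0 : f [] = 0) (hf : ∀ C o, f (C ++ [o]) = f C + if b o = true then 1 else 0) (K : ℝ)
    (hK : ∑ o, (if b o = true then (1 : ℝ) else 0) = K) (hK0 : 0 ≤ K) (t : ℕ)
    (ht : t < Fintype.card α) (s : ℕ) (hst : s ≤ t) :
    av α s (fun C => (2 : ℝ) ^ f C) ≤ (1 + K / ((Fintype.card α : ℝ) - t)) ^ s := by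
  have hnt : (0 : ℝ) < (Fintype.card α : ℝ) - t := by
    have : (t : ℝ) < (Fintype.card α : ℝ) := by exact_mod_cast ht
    linarith
  set x : ℝ := K / ((Fintype.card α : ℝ) - t) with hx
  have hx0 : 0 ≤ x := by positivity
  induction s with
  | zero =>
    rw [av_zero, f0]
    simp
  | succ s ih =>
    have hsn : s < Fintype.card α := by omega
    have hns : (Fintype.card α : ℝ) - t ≤ (Fintype.card α : ℝ) - s := by
      have : (s : ℝ) ≤ t := by exact_mod_cast (by omega : s ≤ t)
      linarith
    have hns0 : 0 < (Fintype.card α : ℝ) - s := lt_of_lt_of_le hnt hns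
    rw [av_succ hsn]
    have h1 : ∀ C ∈ nl α s, (∑ o ∈ univ.filter (fun o => o ∉ C),
        (2 : ℝ) ^ f (C ++ [o])) / ((Fintype.card α : ℝ) - s) ≤ (1 + x) * (2 : ℝ) ^ f C := by
      intro C hC
      have hpow : (0 : ℝ) < (2 : ℝ) ^ f C := by positivity
      have h2 : ∀ o : α, (2 : ℝ) ^ f (C ++ [o])
          = (2 : ℝ) ^ f C * (1 + if b o = true then (1 : ℝ) else 0) := by
        intro o
        rw [hf]
        by_cases hb : b o = true
        · rw [if_pos hb, if_pos hb, pow_succ]
          ring
        · rw [if_neg hb, if_neg hb, add_zero, add_zero, mul_one]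
      rw [Finset.sum_congr rfl fun o _ => h2 o, ← Finset.mul_sum, Finset.sum_add_distrib,
        Finset.sum_const, nsmul_eq_mul, mul_one, card_compl hC]
      have h3 : ∑ o ∈ univ.filter (fun o : α => o ∉ C),
          (if b o = true then (1 : ℝ) else 0) ≤ K := by
        rw [← hK]
        refine Finset.sum_le_sum_of_subset_of_nonneg (Finset.filter_subset _ _) ?_
        intro o _ _
        split_ifs <;> norm_num
      have h4 : K / ((Fintype.card α : ℝ) - s) ≤ x :=
        div_le_div_of_nonneg_left hK0 hnt hns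
      rw [div_le_iff₀ hns0]
      have h5 : K ≤ x * ((Fintype.card α : ℝ) - s) := by
        rwa [div_le_iff₀ hns0] at h4
      nlinarith
    refine (av_mono h1).trans ?_
    rw [av_mul, pow_succ']
    exact mul_le_mul_of_nonneg_left (ih (by omega)) (by linarith)

/-- RK-27a. By `av_at` (the number of owners in `C` is `∑_{o ∈ C} [o is an owner]`). -/
theorem avg_nsG (t : ℕ) (ht : t ≤ 2 * m + n') :
    av (Ag m n') t (fun C => (nsG C : ℝ)) * (2 * (m : ℝ) + n') = t * (2 * m) := by
  have h0 : t ≤ Fintype.card (Ag m n') := by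
    rw [Nu_card]
    exact ht
  have h1 := (av_congr (t := t) (φ := fun C : List (Ag m n') => (nsG C : ℝ))
    (ψ := fun C : List (Ag m n') =>
      ∑ o ∈ C.toFinset, (if o.isLeft = true then (1 : ℝ) else 0))
    fun C hC => Nu_countP C (mem_nl.1 hC).1).trans
    (av_at h0 fun (_ : ℕ) (o : Ag m n') => if o.isLeft = true then (1 : ℝ) else 0)
  rw [h1]
  simp only [Nu_sum, Nu_card, sum_const, card_range, nsmul_eq_mul]
  push_cast
  rcases Nat.eq_zero_or_pos (2 * m + n') with h0 | h0
  · have h3 : t = 0 := by omega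
    subst h3
    simp
  · have h3 : (0 : ℝ) < ((2 * m + n' : ℕ) : ℝ) := by exact_mod_cast h0
    push_cast at h3
    field_simp

/-- RK-27b. `a t = av t (2^{nsG})` satisfies `a (t+1) ≤ a t (1 + 2m/(n - t))` (`av_succ`; at most `2m` of the `n - t` remaining agents are
owners), `n = 2m + n'`, so `a t ≤ (1 + 2m/(n-t))^t ≤ exp(2 m t/(n-t))` (use the bound for `s ≤ t` with `n - s ≥ n - t`); Markov with
`2^{nsG} ≥ 2^V`. -/
theorem PV_le (V t : ℕ) (ht : t < 2 * m + n') :
    PV m n' V t ≤ Real.exp (2 * m * t / (2 * (m : ℝ) + n' - t)) / 2 ^ V := by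
  have hn : ((2 * m + n' : ℕ) : ℝ) = 2 * (m : ℝ) + n' := by push_cast; ring
  have hnt : (0 : ℝ) < 2 * (m : ℝ) + n' - t := by
    have : (t : ℝ) < ((2 * m + n' : ℕ) : ℝ) := by exact_mod_cast ht
    linarith
  have h7 := Nu_exp (α := Ag m n') Sum.isLeft nsG rfl (fun C o => by
    rcases o with z | k
    · rw [nsG_append_inl]
      simp
    · rw [nsG_append_inr]
      simp) (2 * (m : ℝ)) Nu_sum (by positivity) t (by rw [Nu_card]; exact ht) t le_rfl
  rw [Nu_card, hn] at h7
  set x : ℝ := 2 * m / (2 * (m : ℝ) + n' - t) with hx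
  have hx0 : 0 ≤ x := by positivity
  have h6 : PV m n' V t ≤ av (Ag m n') t (fun C => (1 / 2 ^ V) * (2 : ℝ) ^ nsG C) := by
    unfold PV
    refine av_mono fun C _ => ?_
    split_ifs with h
    · rw [one_div, inv_mul_eq_div, le_div_iff₀ (by positivity), one_mul]
      exact pow_le_pow_right₀ (by norm_num) h.le
    · positivity
  rw [av_mul] at h6
  refine h6.trans ?_
  have h8 : (1 + x) ^ t ≤ Real.exp (2 * m * t / (2 * (m : ℝ) + n' - t)) := by
    have h9 : 1 + x ≤ Real.exp x := by
      have := Real.add_one_le_exp x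
      linarith
    refine (pow_le_pow_left₀ (by linarith) h9 t).trans (le_of_eq ?_)
    rw [← Real.exp_nat_mul]
    congr 1
    rw [hx]
    ring
  rw [div_eq_mul_one_div (Real.exp _), mul_comm (Real.exp _)]
  exact mul_le_mul_of_nonneg_left (h7.trans h8) (by positivity)

theorem PV_nonneg (V t : ℕ) : 0 ≤ PV m n' V t := by
  unfold PV
  exact av_nonneg fun C _ => by split_ifs <;> norm_num

end Pool.Agent.helper65.RK
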