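import Pool.Agent.helper65.RK.Comb2
import Pool.Agent.helper65.RK.Nu
import Pool.Agent.helper65.RK.Coup

set_option autoImplicit false

/-!
# RK-29 : the average of `RL`
-/

namespace Pool.Agent.helper65.RK

open Finset

variable {m g n' V t : ℕ} {η : ℝ}

theorem RLavg_card_Ag (m n' : ℕ) : (Fintype.card (Ag m n') : ℝ) = 2 * (m : ℝ) + n' := by
  simp [Ag]
  ring

theorem RLavg_card_Ag' (m n' : ℕ) : Fintype.card (Ag m n') = 2 * m + n' := by
  simp [Ag]
  ring

/-- Exchange of the two averages. -/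
theorem RLavg_exchange {α : Type} [Fintype α] [DecidableEq α] (s t : ℕ)
    (φ : List α → List T → ℝ) :
    av α s (fun C => EW η t (φ C)) = EW η t (fun v => av α s (fun C => φ C v)) := by
  unfold av
  have h : (fun v => (∑ C ∈ nl α s, φ C v) / ((nl α s).card : ℝ)) =
      (fun v => ((nl α s).card : ℝ)⁻¹ * ∑ C ∈ nl α s, φ C v) := by
    funext v
    rw [div_eq_inv_mul]
  rw [h, EW_mul, EW_sum, div_eq_inv_mul]

open Classical in
/-- The number of indices of owners in a window. -/
theorem RLavg_window (b : Bool) (a c : ℕ) :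
    (∑ o : Ag m n', (if ∃ i : ℕ, ∃ hi : i < m, o = Sum.inl (⟨i, hi⟩, b) ∧
      g + a ≤ i + V ∧ i < g + c + V then (1 : ℝ) else 0)) ≤
      max 0 ((c : ℝ) - a + 2 * V) := by
  rw [Finset.sum_boole]
  have h1 : ((univ : Finset (Ag m n')).filter fun o => ∃ i : ℕ, ∃ hi : i < m,
      o = Sum.inl (⟨i, hi⟩, b) ∧ g + a ≤ i + V ∧ i < g + c + V).card ≤
      (Finset.Ico (g + a - V) (g + c + V)).card := by
    refine Finset.card_le_card_of_injOn
      (fun o => match o with
        | Sum.inl z => (z.1 : ℕ)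
        | Sum.inr _ => 0) ?_ ?_
    · intro o ho
      simp only [Finset.coe_filter, mem_univ, true_and, Set.mem_ofPred_eq] at ho
      obtain ⟨i, hi, rfl, h1, h2⟩ := ho
      simp only [Finset.coe_Ico, Set.mem_Ico]
      omega
    · intro o ho o' ho' heq
      simp only [Finset.coe_filter, mem_univ, true_and, Set.mem_ofPred_eq] at ho ho'
      obtain ⟨i, hi, rfl, h1, h2⟩ := ho
      obtain ⟨i', hi', rfl, h1', h2'⟩ := ho'
      simp only at heq
      subst heq
      rfl
  have h2 : (((univ : Finset (Ag m n')).filter fun o => ∃ i : ℕ, ∃ hi : i < m,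
      o = Sum.inl (⟨i, hi⟩, b) ∧ g + a ≤ i + V ∧ i < g + c + V).card : ℝ) ≤
      (((Finset.Ico (g + a - V) (g + c + V)).card : ℕ) : ℝ) := by
    exact_mod_cast h1
  refine h2.trans ?_
  rw [Nat.card_Ico]
  rcases le_total (g + c + V) (g + a - V) with h | h
  · rw [Nat.sub_eq_zero_of_le h]
    simp
  · refine le_trans ?_ (le_max_right _ _)
    have h3 : ((g + c + V - (g + a - V) : ℕ) : ℝ) = ((g + c + V : ℕ) : ℝ) - ((g + a - V : ℕ) : ℝ) := by
      rw [Nat.cast_sub h]
    rw [h3]
    have h4 : ((g + a : ℕ) : ℝ) - (V : ℝ) ≤ ((g + a - V : ℕ) : ℝ) := by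
      have : g + a ≤ (g + a - V) + V := by omega
      have h5 : ((g + a : ℕ) : ℝ) ≤ (((g + a - V) + V : ℕ) : ℝ) := by exact_mod_cast this
      push_cast at h5 ⊢
      linarith
    push_cast at h4 ⊢
    linarith

open Classical in
/-- Counting places by `av_at`. -/
theorem RLavg_places {α : Type} [Fintype α] [DecidableEq α] {t : ℕ} (ht : t ≤ Fintype.card α)
    (P : ℕ → α → Prop) (f : List α → ℝ)
    (hf : ∀ C ∈ nl α t, f C ≤ (((range t).filter fun u => ∃ o, C[u]? = some o ∧ P u o).card : ℝ)) :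
    av α t f ≤ (∑ u ∈ range t, ∑ o, (if P u o then (1 : ℝ) else 0)) / (Fintype.card α : ℝ) := by
  rw [← av_at ht (fun u o => if P u o then (1 : ℝ) else 0)]
  apply av_mono
  intro C hC
  refine (hf C hC).trans ?_
  obtain ⟨hnd, hlen⟩ := mem_nl.mp hC
  rw [Finset.sum_boole]
  have : ((range t).filter fun u => ∃ o, C[u]? = some o ∧ P u o).card ≤
      (C.toFinset.filter fun o => P (C.idxOf o) o).card := by
    have hsub : ((range t).filter fun u => ∃ o, C[u]? = some o ∧ P u o) ⊆
        (C.toFinset.filter fun o => P (C.idxOf o) o).image (fun o => C.idxOf o) := by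
      intro u hu
      simp only [Finset.mem_filter, Finset.mem_range] at hu
      obtain ⟨hut, o, hCu, h3⟩ := hu
      have hul : u < C.length := by omega
      have hget : C[u] = o := by
        rw [List.getElem?_eq_getElem hul] at hCu
        exact Option.some.inj hCu
      have hidx : C.idxOf C[u] = u := hnd.idxOf_getElem u hul
      simp only [Finset.mem_image, Finset.mem_filter, List.mem_toFinset]
      refine ⟨C[u], ⟨List.getElem_mem hul, ?_⟩, hidx⟩
      rw [hidx, hget]
      exact h3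
    exact (Finset.card_le_card hsub).trans Finset.card_image_le
  exact_mod_cast this

/-- A common form of the two bounds. -/
theorem RLavg_core (b : Bool) (hn : t ≤ 2 * m + n') (a : ℕ) (c : ℕ → ℕ)
    (f : List (Ag m n') → ℝ)
    (hf : ∀ C ∈ nl (Ag m n') t, f C ≤ (((range t).filter fun u => ∃ i : ℕ, ∃ hi : i < m,
      C[u]? = some (Sum.inl (⟨i, hi⟩, b)) ∧ g + a ≤ i + V ∧ i < g + c u + V).card : ℝ)) :
    av (Ag m n') t f * (2 * (m : ℝ) + n') ≤
      ∑ u ∈ range t, max 0 ((c u : ℝ) - a + 2 * V) := by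
  classical
  have hcard : (t : ℕ) ≤ Fintype.card (Ag m n') := by
    rw [RLavg_card_Ag']
    exact hn
  have h1 := RLavg_places hcard (fun u (o : Ag m n') => ∃ i : ℕ, ∃ hi : i < m,
    o = Sum.inl (⟨i, hi⟩, b) ∧ g + a ≤ i + V ∧ i < g + c u + V) f (by
      intro C hC
      refine (hf C hC).trans ?_
      have : ((range t).filter fun u => ∃ i : ℕ, ∃ hi : i < m,
          C[u]? = some (Sum.inl (⟨i, hi⟩, b)) ∧ g + a ≤ i + V ∧ i < g + c u + V) ⊆
          ((range t).filter fun u => ∃ o, C[u]? = some o ∧ ∃ i : ℕ, ∃ hi : i < m,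
            o = Sum.inl (⟨i, hi⟩, b) ∧ g + a ≤ i + V ∧ i < g + c u + V) := by
        intro u hu
        simp only [Finset.mem_filter, Finset.mem_range] at hu ⊢
        obtain ⟨hut, i, hi, hCu, h3, h4⟩ := hu
        exact ⟨hut, _, hCu, i, hi, rfl, h3, h4⟩
      have hc' := (Nat.cast_le (α := ℝ)).mpr (Finset.card_le_card this)
      convert hc'
      rfl)
  rw [RLavg_card_Ag] at h1
  have h2 : ∑ u ∈ range t, ∑ o : Ag m n', (if ∃ i : ℕ, ∃ hi : i < m,
      o = Sum.inl (⟨i, hi⟩, b) ∧ g + a ≤ i + V ∧ i < g + c u + V then (1 : ℝ) else 0) ≤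
      ∑ u ∈ range t, max 0 ((c u : ℝ) - a + 2 * V) := by
    refine Finset.sum_le_sum ?_
    intro u _
    exact RLavg_window b a (c u)
  have h0 : (0 : ℝ) ≤ 2 * (m : ℝ) + n' := by positivity
  rcases h0.eq_or_lt with h | h
  · rw [← h, mul_zero]
    exact Finset.sum_nonneg fun u _ => le_max_left _ _
  · refine (mul_le_mul_of_nonneg_right h1 h.le).trans ?_
    rw [div_mul_cancel₀ _ h.ne']
    convert h2
    rfl

/-- RK-29a. For a fixed word `v` of types: if `C` has length `t` and `nsG C ≤ V` then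
`cY g (mrg C v)` is at most the number of `(u, i)` with `C[u] = inl (i, false)` and
`al v - V ≤ i - g < be (v.take u) + V` (`heights_mrg`, `mrg_get_y`). By `av_at` the average of this number is
`(1/n) ∑_{u<t} #{i} ≤ (1/n) ∑_{u<t} max 0 (be (v.take u) - al v + 2 V)`. -/
theorem cY_avg (hn : t ≤ 2 * m + n') (v : List T) (hv : v.length = t) :
    av (Ag m n') t (fun C => if nsG C ≤ V then cY g (mrg C v) else 0) * (2 * (m : ℝ) + n') ≤
      ∑ u ∈ range t, max 0 ((be (v.take u) : ℝ) - al v + 2 * V) := by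
  classical
  refine RLavg_core (g := g) false hn (al v) (fun u => be (v.take u)) _ ?_
  intro C hC
  obtain ⟨hnd, hlen⟩ := mem_nl.mp hC
  by_cases hV : nsG C ≤ V
  · rw [if_pos hV]
    unfold cY
    have : ((range (mrg C v).length).filter fun u => ∃ i, (mrg C v)[u]? = some (Lt.y i) ∧
        g + al (far (mrg C v)) ≤ i ∧ i < g + be (far ((mrg C v).take u)) + nsr (mrg C v)) ⊆
        ((range t).filter fun u => ∃ i : ℕ, ∃ hi : i < m,
          C[u]? = some (Sum.inl (⟨i, hi⟩, false)) ∧ g + al v ≤ i + V ∧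
            i < g + be (v.take u) + V) := by
      intro u hu
      simp only [Finset.mem_filter, Finset.mem_range] at hu ⊢
      obtain ⟨hu1, i, hi, h1, h2⟩ := hu
      rw [mrg_length, hlen] at hu1
      obtain ⟨him, hCu⟩ := mrg_get_y C v u i hi
      obtain ⟨g1, g2, g3, g4⟩ := heights_mrg C v (by rw [hv, hlen]) u (by omega)
      rw [nsr_mrg] at h2
      exact ⟨hu1, i, him, hCu, by omega, by omega⟩
    have h := Finset.card_le_card this
    exact_mod_cast h
  · rw [if_neg hV]
    positivity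

theorem cX_avg (hn : t ≤ 2 * m + n') (v : List T) (hv : v.length = t) :
    av (Ag m n') t (fun C => if nsG C ≤ V then cX g (mrg C v) else 0) * (2 * (m : ℝ) + n') ≤
      ∑ u ∈ range t, max 0 ((al (v.take u) : ℝ) - be v + 2 * V) := by
  classical
  refine RLavg_core (g := g) true hn (be v) (fun u => al (v.take u)) _ ?_
  intro C hC
  obtain ⟨hnd, hlen⟩ := mem_nl.mp hC
  by_cases hV : nsG C ≤ V
  · rw [if_pos hV]
    unfold cX
    have : ((range (mrg C v).length).filter fun u => ∃ i, (mrg C v)[u]? = some (Lt.x i) ∧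
        g + be (far (mrg C v)) ≤ i ∧ i < g + al (far ((mrg C v).take u)) + nsr (mrg C v)) ⊆
        ((range t).filter fun u => ∃ i : ℕ, ∃ hi : i < m,
          C[u]? = some (Sum.inl (⟨i, hi⟩, true)) ∧ g + be v ≤ i + V ∧
            i < g + al (v.take u) + V) := by
      intro u hu
      simp only [Finset.mem_filter, Finset.mem_range] at hu ⊢
      obtain ⟨hu1, i, hi, h1, h2⟩ := hu
      rw [mrg_length, hlen] at hu1
      obtain ⟨him, hCu⟩ := mrg_get_x C v u i hi
      obtain ⟨g1, g2, g3, g4⟩ := heights_mrg C v (by rw [hv, hlen]) u (by omega)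
      rw [nsr_mrg] at h2
      exact ⟨hu1, i, him, hCu, by omega, by omega⟩
    have h := Finset.card_le_card this
    exact_mod_cast h
  · rw [if_neg hV]
    positivity

open Classical in
/-- The pointwise bound. -/
theorem RLavg_point (ht : t ≤ m) (hV : 10 * V ≤ g)
    (C : List (Ag m n')) (hC : C ∈ nl (Ag m n') t) (v : List T) (hv : v.length = t) :
    RL m g (mrg C v) ≤ (if nsG C ≤ V then cY g (mrg C v) else 0) +
      (if nsG C ≤ V then cX g (mrg C v) else 0) +
      (2 * (m : ℝ) * (if V < nsG C then (1 : ℝ) else 0) +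
      2 * (m : ℝ) * ∑ k ∈ range (t + 1),
        (if 9 / 10 * (g : ℝ) ≤ |(del (v.take k) : ℝ)| then (1 : ℝ) else 0)) := by
  obtain ⟨hnd, hlen⟩ := mem_nl.mp hC
  have hwl : (mrg C v).length = t := by rw [mrg_length, hlen]
  have hsum : ∀ k ∈ range (t + 1), (0 : ℝ) ≤
      (if 9 / 10 * (g : ℝ) ≤ |(del (v.take k) : ℝ)| then (1 : ℝ) else 0) := by
    intro k _
    split_ifs <;> norm_num
  have hS0 : (0 : ℝ) ≤ ∑ k ∈ range (t + 1),
      (if 9 / 10 * (g : ℝ) ≤ |(del (v.take k) : ℝ)| then (1 : ℝ) else 0) :=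
    Finset.sum_nonneg hsum
  have hm0 : (0 : ℝ) ≤ 2 * (m : ℝ) := by positivity
  by_cases h : nsG C ≤ V
  · rw [if_pos h, if_pos h, if_neg (not_lt.mpr h)]
    refine (RL_le m g (mrg C v) (by omega)).trans ?_
    have key : (if (g : ℤ) < |del (far (mrg C v))| + nsr (mrg C v) then 2 * (m : ℝ) else 0) ≤
        2 * (m : ℝ) * ∑ k ∈ range (t + 1),
        (if 9 / 10 * (g : ℝ) ≤ |(del (v.take k) : ℝ)| then (1 : ℝ) else 0) := by
      by_cases hg : (g : ℤ) < |del (far (mrg C v))| + nsr (mrg C v)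
      · rw [if_pos hg]
        rw [nsr_mrg, far_mrg C v (by omega), hlen] at hg
        have hk : t - nsG C ∈ range (t + 1) := by
          rw [Finset.mem_range]
          omega
        have h1 : (1 : ℝ) ≤ ∑ k ∈ range (t + 1),
            (if 9 / 10 * (g : ℝ) ≤ |(del (v.take k) : ℝ)| then (1 : ℝ) else 0) := by
          refine le_trans ?_ (Finset.single_le_sum hsum hk)
          rw [if_pos]
          have h2 : (g : ℝ) < |(del (v.take (t - nsG C)) : ℝ)| + (nsG C : ℝ) := by
            have h3 : ((g : ℤ) : ℝ) < ((|del (v.take (t - nsG C))| + (nsG C : ℤ) : ℤ) : ℝ) := by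
              exact_mod_cast hg
            push_cast at h3
            exact h3
          have h4 : (nsG C : ℝ) ≤ V := by exact_mod_cast h
          have h5 : (10 : ℝ) * V ≤ g := by exact_mod_cast hV
          linarith
        calc 2 * (m : ℝ) = 2 * (m : ℝ) * 1 := (mul_one _).symm
          _ ≤ _ := mul_le_mul_of_nonneg_left h1 hm0
      · rw [if_neg hg]
        exact mul_nonneg hm0 hS0
    linarith
  · rw [if_neg h, if_neg h, if_pos (not_le.mp h)]
    have h1 := RL_le_two m g (mrg C v)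
    have h2 := mul_nonneg hm0 hS0
    linarith

/-- RK-29b. `RL ≤ 2 m` if `nsG C > V` (`RL_le_two`); otherwise `RL_le`. In the last term
`g < |del (far w)| + nsr w` and `nsr w = nsG C ≤ V ≤ g/10` imply `|del (v.take k)| ≥ 9 g/10` for
`k = t - nsG C ≤ t` (`far_mrg`); sum over all `k ≤ t` and use `tail'`, `EW_take`. Exchange the averages over `C` and `v`. -/
theorem RL_avg (h0 : 0 ≤ η) (h1 : η ≤ 1 / 10) (hg : 1 ≤ g) (ht1 : 1 ≤ t) (ht : t ≤ m)
    (hV : 10 * V ≤ g) :
    EG η m n' t (RL m g) ≤ EW η t (S1 (2 * V) t) / (2 * (m : ℝ) + n') +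
      2 * m * (PV m n' V t +
        2 * ((t : ℝ) + 1) * Real.exp (-((9 / 10 * (g : ℝ)) ^ 2 / (2 * t)))) := by
  classical
  have h1' : η ≤ 1 := by linarith
  have hcard : t ≤ Fintype.card (Ag m n') := by
    rw [RLavg_card_Ag']
    omega
  have hn0 : (0 : ℝ) < 2 * (m : ℝ) + n' := by
    have : (1 : ℝ) ≤ m := by exact_mod_cast ht1.trans ht
    positivity
  -- the main part
  have hmain : av (Ag m n') t (fun C => EW η t (fun v =>
      (if nsG C ≤ V then cY g (mrg C v) else 0) + (if nsG C ≤ V then cX g (mrg C v) else 0))) ≤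
      EW η t (S1 (2 * V) t) / (2 * (m : ℝ) + n') := by
    rw [RLavg_exchange]
    rw [le_div_iff₀ hn0]
    have : EW η t (fun v => av (Ag m n') t (fun C =>
        (if nsG C ≤ V then cY g (mrg C v) else 0) + (if nsG C ≤ V then cX g (mrg C v) else 0))) *
        (2 * (m : ℝ) + n') = EW η t (fun v => (2 * (m : ℝ) + n') * av (Ag m n') t (fun C =>
        (if nsG C ≤ V then cY g (mrg C v) else 0) +
          (if nsG C ≤ V then cX g (mrg C v) else 0))) := by
      rw [EW_mul]
      ring
    rw [this]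
    apply EW_mono h0 h1'
    intro v hv
    have e1 := cY_avg (g := g) (V := V) (n' := n') (m := m) (t := t) (by omega) v hv
    have e2 := cX_avg (g := g) (V := V) (n' := n') (m := m) (t := t) (by omega) v hv
    rw [av_add]
    unfold S1
    rw [Finset.sum_add_distrib]
    linarith
  have hrest : av (Ag m n') t (fun C => EW η t (fun v =>
      2 * (m : ℝ) * (if V < nsG C then (1 : ℝ) else 0) +
      2 * (m : ℝ) * ∑ k ∈ range (t + 1),
        (if 9 / 10 * (g : ℝ) ≤ |(del (v.take k) : ℝ)| then (1 : ℝ) else 0))) ≤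
      2 * m * (PV m n' V t +
        2 * ((t : ℝ) + 1) * Real.exp (-((9 / 10 * (g : ℝ)) ^ 2 / (2 * t)))) := by
    have hk : ∑ k ∈ range (t + 1), EW η t (fun v =>
        if 9 / 10 * (g : ℝ) ≤ |(del (v.take k) : ℝ)| then (1 : ℝ) else 0) ≤
        2 * ((t : ℝ) + 1) * Real.exp (-((9 / 10 * (g : ℝ)) ^ 2 / (2 * t))) := by
      have hs : (0 : ℝ) < 9 / 10 * (g : ℝ) := by
        have : (1 : ℝ) ≤ g := by exact_mod_cast hg
        positivity
      have : ∀ k ∈ range (t + 1), EW η t (fun v =>
          if 9 / 10 * (g : ℝ) ≤ |(del (v.take k) : ℝ)| then (1 : ℝ) else 0) ≤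
          2 * Real.exp (-((9 / 10 * (g : ℝ)) ^ 2 / (2 * t))) := by
        intro k hk
        rw [Finset.mem_range] at hk
        have hkt : k ≤ t := by omega
        have e := EW_take (η := η) hkt
          (fun v => if 9 / 10 * (g : ℝ) ≤ |(del v : ℝ)| then (1 : ℝ) else 0)
        rw [e]
        exact tail' h0 h1' k t hkt _ hs
      refine (Finset.sum_le_sum this).trans ?_
      rw [Finset.sum_const, Finset.card_range, nsmul_eq_mul]
      push_cast
      apply le_of_eq
      ring
    have hEW : ∀ C : List (Ag m n'), EW η t (fun v =>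
        2 * (m : ℝ) * (if V < nsG C then (1 : ℝ) else 0) +
        2 * (m : ℝ) * ∑ k ∈ range (t + 1),
          (if 9 / 10 * (g : ℝ) ≤ |(del (v.take k) : ℝ)| then (1 : ℝ) else 0)) =
        2 * (m : ℝ) * (if V < nsG C then (1 : ℝ) else 0) +
        2 * (m : ℝ) * ∑ k ∈ range (t + 1), EW η t (fun v =>
          if 9 / 10 * (g : ℝ) ≤ |(del (v.take k) : ℝ)| then (1 : ℝ) else 0) := by
      intro C
      rw [EW_add, EW_const, EW_mul, EW_sum]
    simp only [hEW]
    rw [av_add, av_const hcard, av_mul]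
    unfold PV
    have hm0 : (0 : ℝ) ≤ 2 * (m : ℝ) := by positivity
    have := mul_le_mul_of_nonneg_left hk hm0
    linarith
  have hpt : EG η m n' t (RL m g) ≤ av (Ag m n') t (fun C => EW η t (fun v =>
      (if nsG C ≤ V then cY g (mrg C v) else 0) + (if nsG C ≤ V then cX g (mrg C v) else 0))) +
      av (Ag m n') t (fun C => EW η t (fun v =>
      2 * (m : ℝ) * (if V < nsG C then (1 : ℝ) else 0) +
      2 * (m : ℝ) * ∑ k ∈ range (t + 1),
        (if 9 / 10 * (g : ℝ) ≤ |(del (v.take k) : ℝ)| then (1 : ℝ) else 0))) := by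
    rw [← av_add]
    unfold EG
    apply av_mono
    intro C hC
    rw [← EW_add]
    apply EW_mono h0 h1'
    intro v hv
    exact RLavg_point ht hV C hC v hv
  linarith

end Pool.Agent.helper65.RK
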