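import Pool.Agent.helper65.RK.Mom

set_option autoImplicit false

/-!
# RK-25 : the main sum
-/

namespace Pool.Agent.helper65.RK

open Finset

variable {η : ℝ}

/-- For `d ∈ ℝ`, `p > 0`: `∑_{l=1}^{K} max 0 (d - p l) ≤ (max 0 d)²/(2p)`. [If `d ≤ 0` all terms vanish; otherwise compare
`max 0 (d - p l) ≤ G(l) - G(l-1)` with `G(x) = (d² - (max 0 (d - p x))²)/(2p)`.] -/
theorem sum_pos_lin (d p : ℝ) (hp : 0 < p) (K : ℕ) :
    ∑ l ∈ Icc 1 K, max 0 (d - p * l) ≤ (max 0 d) ^ 2 / (2 * p) := by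
  have h : ∑ l ∈ Icc 1 K, max 0 (d - p * l) ≤
      ((max 0 d) ^ 2 - (max 0 (d - p * K)) ^ 2) / (2 * p) := by
    induction K with
    | zero => simp
    | succ K ih =>
      rw [Finset.sum_Icc_succ_top (by omega)]
      have h2 : max 0 (d - p * ((K + 1 : ℕ) : ℝ)) ≤
          ((max 0 (d - p * K)) ^ 2 - (max 0 (d - p * ((K + 1 : ℕ) : ℝ))) ^ 2) / (2 * p) := by
        rw [le_div_iff₀ (by positivity)]
        rcases le_total (d - p * ((K + 1 : ℕ) : ℝ)) 0 with h3 | h3
        · rw [max_eq_left h3]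
          nlinarith [sq_nonneg (max 0 (d - p * K))]
        · rw [max_eq_right h3]
          have h4 : d - p * K = d - p * ((K + 1 : ℕ) : ℝ) + p := by push_cast; ring
          rw [h4, max_eq_right (by linarith)]
          nlinarith
      have h5 : ((max 0 d) ^ 2 - (max 0 (d - p * ((K + 1 : ℕ) : ℝ))) ^ 2) / (2 * p) =
          ((max 0 d) ^ 2 - (max 0 (d - p * K)) ^ 2) / (2 * p) +
          ((max 0 (d - p * K)) ^ 2 - (max 0 (d - p * ((K + 1 : ℕ) : ℝ))) ^ 2) / (2 * p) := by
        ring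
      rw [h5]
      exact add_le_add ih h2
  refine h.trans ?_
  apply div_le_div_of_nonneg_right _ (by positivity)
  nlinarith [sq_nonneg (max 0 (d - p * K))]

lemma S1b_max_add {x y : ℝ} (hy : 0 ≤ y) : max 0 (x + y) ≤ max 0 x + y := by
  rcases le_total 0 x with h | h
  · rw [max_eq_right h, max_eq_right (by linarith)]
  · rw [max_eq_left h]
    exact max_le (by linarith) (by linarith)

/-- The bounds for the two expectations of deviations. -/
lemma S1b_dev (h0 : 0 ≤ η) (h1 : η ≤ 1 / 10) (g : ℕ) (hηg : η * Real.sqrt g ≤ 1 / 8)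
    (t0 u t : ℕ) (h01 : t0 ≤ u) (h12 : u < t) (h3 : t ≤ t0 + 8 * g) :
    EW η t (fun ω => |(del (ω.take u) : ℝ) - del (ω.take t0)|) ≤ 4 * Real.sqrt g ∧
    EW η t (fun ω => |((ω.drop u).count T.A : ℝ) - (1 - η) / 2 * ((t : ℝ) - u)|) ≤
      3 * Real.sqrt g ∧
    EW η t (fun ω => |((ω.drop u).count T.B : ℝ) - (1 - η) / 2 * ((t : ℝ) - u)|) ≤
      3 * Real.sqrt g := by
  have h1' : η ≤ 1 := by linarith
  have hg0 : (0 : ℝ) ≤ g := Nat.cast_nonneg g
  have hu : (u : ℝ) ≤ t0 + 8 * g := by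
    have : u ≤ t0 + 8 * g := by omega
    exact_mod_cast this
  have h16 : Real.sqrt (2 * ((u : ℝ) - t0)) ≤ 4 * Real.sqrt g := by
    have e : 4 * Real.sqrt g = Real.sqrt (16 * g) := by
      rw [Real.sqrt_mul (by norm_num), show (16 : ℝ) = 4 ^ 2 by norm_num,
        Real.sqrt_sq (by norm_num)]
    rw [e]
    exact Real.sqrt_le_sqrt (by linarith)
  have hl : ((t - u : ℕ) : ℝ) = (t : ℝ) - u := by rw [Nat.cast_sub h12.le]
  have h8 : Real.sqrt ((t - u : ℕ) : ℝ) ≤ 3 * Real.sqrt g := by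
    have e : 3 * Real.sqrt g = Real.sqrt (9 * g) := by
      rw [Real.sqrt_mul (by norm_num), show (9 : ℝ) = 3 ^ 2 by norm_num,
        Real.sqrt_sq (by norm_num)]
    rw [e]
    apply Real.sqrt_le_sqrt
    rw [hl]
    have h4 : (t : ℝ) ≤ t0 + 8 * g := by exact_mod_cast h3
    have h5 : (t0 : ℝ) ≤ u := by exact_mod_cast h01
    linarith
  refine ⟨?_, ?_, ?_⟩
  · have h4 : EW η t (fun ω => |(del (ω.take u) : ℝ) - del (ω.take t0)|) =
        EW η u (fun v => |(del v : ℝ) - del (v.take t0)|) := by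
      rw [← EW_take h12.le]
      apply EW_congr
      intro ω _
      rw [List.take_take, min_eq_left h01]
    rw [h4]
    refine (incr h0 h1' h01 ?_).trans h16
    calc η * Real.sqrt (2 * ((u : ℝ) - t0)) ≤ η * (4 * Real.sqrt g) :=
          mul_le_mul_of_nonneg_left h16 h0
      _ ≤ 1 / 2 := by linarith
  · have h4 := EW_drop (η := η) h12.le
      (fun v => |(v.count T.A : ℝ) - (1 - η) / 2 * ((t - u : ℕ) : ℝ)|)
    rw [hl] at h4
    rw [h4, ← hl]
    exact (countA_dev h0 h1' (t - u)).trans h8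
  · have h4 := EW_drop (η := η) h12.le
      (fun v => |(v.count T.B : ℝ) - (1 - η) / 2 * ((t - u : ℕ) : ℝ)|)
    rw [hl] at h4
    rw [h4, ← hl]
    exact (countB_dev h0 h1' (t - u)).trans h8

/-- RK-25a. One term close to the end: `u = t - l`, `t0 ≤ u`,
`be u - al t = -δ u - (al t - al u) ≤ -δ t0 + |δ u - δ t0| - p l + |count_A(u,t) - p l|` (`al_take_add_count`),
and `max 0 (x + y) ≤ max 0 x + |y|`. Take expectations: `incr` (for the word of length `u`, `t0 ≤ u`; note
`u - t0 ≤ 8 g`, `√(16 g) = 4 √g`), `countA_dev` with `EW_drop`, `√(8 g) ≤ 3 √g`. -/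
theorem term_near (h0 : 0 ≤ η) (h1 : η ≤ 1 / 10) (g : ℕ) (hg : 1 ≤ g) (hηg : η * Real.sqrt g ≤ 1 / 8)
    (v : ℝ) (hv : 0 ≤ v) (t0 u t : ℕ) (h01 : t0 ≤ u) (h12 : u < t) (h3 : t ≤ t0 + 8 * g) :
    EW η t (fun ω => max 0 ((be (ω.take u) : ℝ) - al ω + v)) ≤
        EW η t0 (fun ω => max 0 (-(del ω : ℝ) - (1 - η) / 2 * ((t : ℝ) - u))) +
          (7 * Real.sqrt g + v) ∧
      EW η t (fun ω => max 0 ((al (ω.take u) : ℝ) - be ω + v)) ≤
        EW η t0 (fun ω => max 0 ((del ω : ℝ) - (1 - η) / 2 * ((t : ℝ) - u))) +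
          (7 * Real.sqrt g + v) := by
  have h1' : η ≤ 1 := by linarith
  obtain ⟨hd, hA, hB⟩ := S1b_dev h0 h1 g hηg t0 u t h01 h12 h3
  have h02 : t0 ≤ t := h01.trans h12.le
  constructor
  · have h4 : EW η t (fun ω => max 0 ((be (ω.take u) : ℝ) - al ω + v)) ≤
        EW η t (fun ω => max 0 (-(del (ω.take t0) : ℝ) - (1 - η) / 2 * ((t : ℝ) - u)) +
          (|(del (ω.take u) : ℝ) - del (ω.take t0)| +
            (|((ω.drop u).count T.A : ℝ) - (1 - η) / 2 * ((t : ℝ) - u)| + v))) := by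
      apply EW_mono h0 h1'
      intro ω _
      refine le_trans ?_ (S1b_max_add (by positivity))
      apply max_le_max le_rfl
      have h5 : (al (ω.take u) : ℝ) + ((ω.drop u).count T.A : ℝ) ≤ al ω := by
        exact_mod_cast al_take_add_count ω u
      have h6 : (del (ω.take u) : ℝ) = (al (ω.take u) : ℝ) - be (ω.take u) := by
        rw [del]; push_cast; rfl
      have h7 := neg_abs_le ((del (ω.take u) : ℝ) - del (ω.take t0))
      have h8 := neg_abs_le (((ω.drop u).count T.A : ℝ) - (1 - η) / 2 * ((t : ℝ) - u))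
      linarith
    refine h4.trans ?_
    rw [EW_add, EW_add, EW_add, EW_const,
      EW_take h02 (fun v => max 0 (-(del v : ℝ) - (1 - η) / 2 * ((t : ℝ) - u)))]
    linarith
  · have h4 : EW η t (fun ω => max 0 ((al (ω.take u) : ℝ) - be ω + v)) ≤
        EW η t (fun ω => max 0 ((del (ω.take t0) : ℝ) - (1 - η) / 2 * ((t : ℝ) - u)) +
          (|(del (ω.take u) : ℝ) - del (ω.take t0)| +
            (|((ω.drop u).count T.B : ℝ) - (1 - η) / 2 * ((t : ℝ) - u)| + v))) := by
      apply EW_mono h0 h1'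
      intro ω _
      refine le_trans ?_ (S1b_max_add (by positivity))
      apply max_le_max le_rfl
      have h5 : (be (ω.take u) : ℝ) + ((ω.drop u).count T.B : ℝ) ≤ be ω := by
        exact_mod_cast be_take_add_count ω u
      have h6 : (del (ω.take u) : ℝ) = (al (ω.take u) : ℝ) - be (ω.take u) := by
        rw [del]; push_cast; rfl
      have h7 := le_abs_self ((del (ω.take u) : ℝ) - del (ω.take t0))
      have h8 := neg_abs_le (((ω.drop u).count T.B : ℝ) - (1 - η) / 2 * ((t : ℝ) - u))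
      linarith
    refine h4.trans ?_
    rw [EW_add, EW_add, EW_add, EW_const,
      EW_take h02 (fun v => max 0 ((del v : ℝ) - (1 - η) / 2 * ((t : ℝ) - u)))]
    linarith

open Classical in
/-- The bounds for the two probabilities. -/
lemma S1b_prob (h0 : 0 ≤ η) (h1 : η ≤ 1 / 10) (g : ℕ) (hg : 1 ≤ g) (u t : ℕ)
    (h : u + 8 * g ≤ t) :
    EW η t (fun ω => if 20 * (ω.drop u).count T.A ≤ 3 * (t - u) then (1 : ℝ) else 0) ≤
      Real.exp (-(g : ℝ)) ∧
    EW η t (fun ω => if 20 * (ω.drop u).count T.B ≤ 3 * (t - u) then (1 : ℝ) else 0) ≤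
      Real.exp (-(g : ℝ)) ∧
    EW η t (fun ω => if (g : ℝ) ≤ |(del (ω.take u) : ℝ)| then (1 : ℝ) else 0) ≤
      2 * Real.exp (-((g : ℝ) ^ 2 / (2 * t))) := by
  have h1' : η ≤ 1 := by linarith
  have hut : u ≤ t := by omega
  have hpow : ((21 : ℝ) / 25) ^ (t - u) ≤ Real.exp (-(g : ℝ)) := by
    refine le_trans ?_ (pow_exp g)
    exact pow_le_pow_of_le_one (by norm_num) (by norm_num) (by omega)
  refine ⟨?_, ?_, ?_⟩
  · have h4 := EW_drop (η := η) hut
      (fun v => if 20 * v.count T.A ≤ 3 * (t - u) then (1 : ℝ) else 0)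
    rw [h4]
    exact (countA_low h0 h1 (t - u)).trans hpow
  · have h4 := EW_drop (η := η) hut
      (fun v => if 20 * v.count T.B ≤ 3 * (t - u) then (1 : ℝ) else 0)
    rw [h4]
    exact (countB_low h0 h1 (t - u)).trans hpow
  · have h4 := EW_take (η := η) hut
      (fun v => if (g : ℝ) ≤ |(del v : ℝ)| then (1 : ℝ) else 0)
    rw [h4]
    exact tail' h0 h1' u t hut g (by exact_mod_cast hg)

/-- RK-25b. One term far from the end, `u + 8 g ≤ t`, `v ≤ g/5`. If `|δ u| < g` and the number of letters `A` between `u` and `t` is more than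
`3 (t-u)/20 ≥ 6 g/5` then `be u - al t + v ≤ g - 6g/5 + g/5 = 0`. Otherwise: if `|δ u| < g` the term is at
most `g + v ≤ 2 g`, probability at most `(21/25)^{t-u} ≤ (21/25)^{8g} ≤ e^{-g}` (`countA_low`, `EW_drop`, `pow_exp`);
if `|δ u| ≥ g` the term is at most `t + v`, probability at most `2 exp(-g²/(2t))` (`tail'`, `EW_take`). -/
theorem term_far (h0 : 0 ≤ η) (h1 : η ≤ 1 / 10) (g : ℕ) (hg : 1 ≤ g) (v : ℝ) (hv : 0 ≤ v)
    (hv' : v ≤ g / 5) (u t : ℕ) (h : u + 8 * g ≤ t) :
    EW η t (fun ω => max 0 ((be (ω.take u) : ℝ) - al ω + v)) ≤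
        2 * g * Real.exp (-(g : ℝ)) + (t + v) * (2 * Real.exp (-((g : ℝ) ^ 2 / (2 * t)))) ∧
      EW η t (fun ω => max 0 ((al (ω.take u) : ℝ) - be ω + v)) ≤
        2 * g * Real.exp (-(g : ℝ)) + (t + v) * (2 * Real.exp (-((g : ℝ) ^ 2 / (2 * t)))) := by
  classical
  have h1' : η ≤ 1 := by linarith
  have hg0 : (0 : ℝ) ≤ g := Nat.cast_nonneg g
  have hut : u ≤ t := by omega
  have hut' : (u : ℝ) ≤ t := by exact_mod_cast hut
  have hl : ((t - u : ℕ) : ℝ) = (t : ℝ) - u := by rw [Nat.cast_sub hut]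
  have hlg : 8 * (g : ℝ) ≤ (t : ℝ) - u := by
    have : ((u + 8 * g : ℕ) : ℝ) ≤ t := by exact_mod_cast h
    push_cast at this
    linarith
  obtain ⟨hA, hB, hD⟩ := S1b_prob h0 h1 g hg u t h
  have ht0 : (0 : ℝ) ≤ t := Nat.cast_nonneg t
  constructor
  · have h4 : EW η t (fun ω => max 0 ((be (ω.take u) : ℝ) - al ω + v)) ≤
        EW η t (fun ω => 2 * g *
          (if 20 * (ω.drop u).count T.A ≤ 3 * (t - u) then (1 : ℝ) else 0) +
          (t + v) * (if (g : ℝ) ≤ |(del (ω.take u) : ℝ)| then (1 : ℝ) else 0)) := by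
      apply EW_mono h0 h1'
      intro ω hω
      have h5 : (al (ω.take u) : ℝ) + ((ω.drop u).count T.A : ℝ) ≤ al ω := by
        exact_mod_cast al_take_add_count ω u
      have h6 : (del (ω.take u) : ℝ) = (al (ω.take u) : ℝ) - be (ω.take u) := by
        rw [del]; push_cast; rfl
      have h7 : (be (ω.take u) : ℝ) ≤ t := by
        have h8 := al_add_be (ω.take u)
        rw [List.length_take, hω, min_eq_left hut] at h8
        have : be (ω.take u) ≤ t := by omega
        exact_mod_cast this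
      have h9 : (0 : ℝ) ≤ al ω := Nat.cast_nonneg _
      by_cases hd : (g : ℝ) ≤ |(del (ω.take u) : ℝ)|
      · rw [if_pos hd, mul_one]
        have h10 : (0 : ℝ) ≤ 2 * g *
            (if 20 * (ω.drop u).count T.A ≤ 3 * (t - u) then (1 : ℝ) else 0) := by
          split_ifs <;> simp
        exact max_le (by linarith) (by linarith)
      · rw [if_neg hd, mul_zero, add_zero]
        rw [not_le] at hd
        have h11 := (abs_lt.1 hd).1
        by_cases hc : 20 * (ω.drop u).count T.A ≤ 3 * (t - u)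
        · rw [if_pos hc, mul_one]
          have h12 : (0 : ℝ) ≤ ((ω.drop u).count T.A : ℝ) := Nat.cast_nonneg _
          exact max_le (by linarith) (by linarith)
        · rw [if_neg hc, mul_zero]
          rw [not_le] at hc
          have h13 : 3 * ((t - u : ℕ) : ℝ) < 20 * ((ω.drop u).count T.A : ℝ) := by
            exact_mod_cast hc
          rw [hl] at h13
          exact max_le le_rfl (by linarith)
    refine h4.trans ?_
    rw [EW_add, EW_mul, EW_mul]
    have h14 := mul_le_mul_of_nonneg_left hA (show (0 : ℝ) ≤ 2 * g by positivity)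
    have h15 := mul_le_mul_of_nonneg_left hD (show (0 : ℝ) ≤ t + v by positivity)
    linarith
  · have h4 : EW η t (fun ω => max 0 ((al (ω.take u) : ℝ) - be ω + v)) ≤
        EW η t (fun ω => 2 * g *
          (if 20 * (ω.drop u).count T.B ≤ 3 * (t - u) then (1 : ℝ) else 0) +
          (t + v) * (if (g : ℝ) ≤ |(del (ω.take u) : ℝ)| then (1 : ℝ) else 0)) := by
      apply EW_mono h0 h1'
      intro ω hω
      have h5 : (be (ω.take u) : ℝ) + ((ω.drop u).count T.B : ℝ) ≤ be ω := by
        exact_mod_cast be_take_add_count ω u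
      have h6 : (del (ω.take u) : ℝ) = (al (ω.take u) : ℝ) - be (ω.take u) := by
        rw [del]; push_cast; rfl
      have h7 : (al (ω.take u) : ℝ) ≤ t := by
        have h8 := al_add_be (ω.take u)
        rw [List.length_take, hω, min_eq_left hut] at h8
        have : al (ω.take u) ≤ t := by omega
        exact_mod_cast this
      have h9 : (0 : ℝ) ≤ be ω := Nat.cast_nonneg _
      by_cases hd : (g : ℝ) ≤ |(del (ω.take u) : ℝ)|
      · rw [if_pos hd, mul_one]
        have h10 : (0 : ℝ) ≤ 2 * g *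
            (if 20 * (ω.drop u).count T.B ≤ 3 * (t - u) then (1 : ℝ) else 0) := by
          split_ifs <;> simp
        exact max_le (by linarith) (by linarith)
      · rw [if_neg hd, mul_zero, add_zero]
        rw [not_le] at hd
        have h11 := (abs_lt.1 hd).2
        by_cases hc : 20 * (ω.drop u).count T.B ≤ 3 * (t - u)
        · rw [if_pos hc, mul_one]
          have h12 : (0 : ℝ) ≤ ((ω.drop u).count T.B : ℝ) := Nat.cast_nonneg _
          exact max_le (by linarith) (by linarith)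
        · rw [if_neg hc, mul_zero]
          rw [not_le] at hc
          have h13 : 3 * ((t - u : ℕ) : ℝ) < 20 * ((ω.drop u).count T.B : ℝ) := by
            exact_mod_cast hc
          rw [hl] at h13
          exact max_le le_rfl (by linarith)
    refine h4.trans ?_
    rw [EW_add, EW_mul, EW_mul]
    have h14 := mul_le_mul_of_nonneg_left hB (show (0 : ℝ) ≤ 2 * g by positivity)
    have h15 := mul_le_mul_of_nonneg_left hD (show (0 : ℝ) ≤ t + v by positivity)
    linarith

/-- The sum over the places close to the end, for one sign. -/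
lemma S1b_sum_lin (h1 : η ≤ 1 / 10) (d : ℝ) (t0 t : ℕ) (h : t0 ≤ t) :
    ∑ u ∈ Ico t0 t, max 0 (d - (1 - η) / 2 * ((t : ℝ) - u)) ≤ (max 0 d) ^ 2 / (1 - η) := by
  have h2 : ∑ u ∈ Ico t0 t, max 0 (d - (1 - η) / 2 * ((t : ℝ) - u)) =
      ∑ l ∈ Icc 1 (t - t0), max 0 (d - (1 - η) / 2 * (l : ℝ)) := by
    refine Finset.sum_bij' (fun u _ => t - u) (fun l _ => t - l) ?_ ?_ ?_ ?_ ?_
    · intro u hu
      rw [Finset.mem_Ico] at hu
      rw [Finset.mem_Icc]
      omega
    · intro l hl
      rw [Finset.mem_Icc] at hl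
      rw [Finset.mem_Ico]
      omega
    · intro u hu
      rw [Finset.mem_Ico] at hu
      show t - (t - u) = u
      omega
    · intro l hl
      rw [Finset.mem_Icc] at hl
      show t - (t - l) = l
      omega
    · intro u hu
      rw [Finset.mem_Ico] at hu
      rw [Nat.cast_sub hu.2.le]
  rw [h2]
  have h3 := sum_pos_lin d ((1 - η) / 2) (by linarith) (t - t0)
  have e : 2 * ((1 - η) / 2) = 1 - η := by ring
  rwa [e] at h3

/-- RK-25c. `t0 = t - 8 g` (natural subtraction). Sum `term_near` over `t0 ≤ u < t` with `sum_pos_lin` (`p = (1-η)/2`, `l = t - u`) for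
`d = -δ t0` and `d = δ t0`: `(max 0 (-δ))² + (max 0 δ)² = δ²`; at most `8 g` terms; and `term_far` over
`u < t0`. -/
theorem S1_bound (h0 : 0 ≤ η) (h1 : η ≤ 1 / 10) (g : ℕ) (hg : 1 ≤ g) (hηg : η * Real.sqrt g ≤ 1 / 8)
    (v : ℝ) (hv : 0 ≤ v) (hv' : v ≤ g / 5) (t : ℕ) :
    EW η t (S1 v t) ≤ EW η (t - 8 * g) (fun ω => (del ω : ℝ) ^ 2) / (1 - η) +
      16 * g * (7 * Real.sqrt g + v) +
      2 * t * (2 * g * Real.exp (-(g : ℝ)) +
        (t + v) * (2 * Real.exp (-((g : ℝ) ^ 2 / (2 * t))))) := by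
  have h1' : η ≤ 1 := by linarith
  set C := 2 * g * Real.exp (-(g : ℝ)) + (t + v) * (2 * Real.exp (-((g : ℝ) ^ 2 / (2 * t)))) with hC
  have hC0 : 0 ≤ C := by positivity
  have h2 : EW η t (S1 v t) = ∑ u ∈ range t,
      (EW η t (fun ω => max 0 ((be (ω.take u) : ℝ) - al ω + v)) +
        EW η t (fun ω => max 0 ((al (ω.take u) : ℝ) - be ω + v))) := by
    show EW η t (fun ω => S1 v t ω) = _
    unfold S1
    rw [EW_sum]
    apply Finset.sum_congr rfl
    intro u _
    rw [EW_add]
  have h3 : t - 8 * g ≤ t := Nat.sub_le _ _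
  rw [h2, ← Finset.sum_range_add_sum_Ico _ h3]
  have h4 : ∑ u ∈ range (t - 8 * g),
      (EW η t (fun ω => max 0 ((be (ω.take u) : ℝ) - al ω + v)) +
        EW η t (fun ω => max 0 ((al (ω.take u) : ℝ) - be ω + v))) ≤ 2 * t * C := by
    calc _ ≤ ∑ u ∈ range (t - 8 * g), (2 * C) := by
          apply Finset.sum_le_sum
          intro u hu
          rw [Finset.mem_range] at hu
          obtain ⟨h5, h6⟩ := term_far h0 h1 g hg v hv hv' u t (by omega)
          rw [← hC] at h5 h6
          linarith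
      _ = ((t - 8 * g : ℕ) : ℝ) * (2 * C) := by
          rw [Finset.sum_const, Finset.card_range, nsmul_eq_mul]
      _ ≤ t * (2 * C) := by
          apply mul_le_mul_of_nonneg_right _ (by positivity)
          exact_mod_cast h3
      _ = 2 * t * C := by ring
  have h5 : ∑ u ∈ Ico (t - 8 * g) t,
      (EW η t (fun ω => max 0 ((be (ω.take u) : ℝ) - al ω + v)) +
        EW η t (fun ω => max 0 ((al (ω.take u) : ℝ) - be ω + v))) ≤
      EW η (t - 8 * g) (fun ω => (del ω : ℝ) ^ 2) / (1 - η) + 16 * g * (7 * Real.sqrt g + v) := by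
    calc _ ≤ ∑ u ∈ Ico (t - 8 * g) t,
          ((EW η (t - 8 * g) (fun ω => max 0 (-(del ω : ℝ) - (1 - η) / 2 * ((t : ℝ) - u))) +
            EW η (t - 8 * g) (fun ω => max 0 ((del ω : ℝ) - (1 - η) / 2 * ((t : ℝ) - u)))) +
            2 * (7 * Real.sqrt g + v)) := by
          apply Finset.sum_le_sum
          intro u hu
          rw [Finset.mem_Ico] at hu
          obtain ⟨h6, h7⟩ := term_near h0 h1 g hg hηg v hv (t - 8 * g) u t hu.1 hu.2 (by omega)
          linarith
      _ = EW η (t - 8 * g) (fun ω => ∑ u ∈ Ico (t - 8 * g) t,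
            max 0 (-(del ω : ℝ) - (1 - η) / 2 * ((t : ℝ) - u)) +
            ∑ u ∈ Ico (t - 8 * g) t, max 0 ((del ω : ℝ) - (1 - η) / 2 * ((t : ℝ) - u))) +
          ((t - (t - 8 * g) : ℕ) : ℝ) * (2 * (7 * Real.sqrt g + v)) := by
          rw [EW_add, EW_sum, EW_sum, Finset.sum_add_distrib, Finset.sum_add_distrib,
            Finset.sum_const, Nat.card_Ico, nsmul_eq_mul]
      _ ≤ EW η (t - 8 * g) (fun ω => (1 - η)⁻¹ * (del ω : ℝ) ^ 2) +
          16 * g * (7 * Real.sqrt g + v) := by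
          apply add_le_add
          · apply EW_mono h0 h1'
            intro ω _
            have h6 := S1b_sum_lin h1 (-(del ω : ℝ)) (t - 8 * g) t h3
            have h7 := S1b_sum_lin h1 (del ω : ℝ) (t - 8 * g) t h3
            have h8 : (max 0 (-(del ω : ℝ))) ^ 2 / (1 - η) + (max 0 (del ω : ℝ)) ^ 2 / (1 - η) =
                (1 - η)⁻¹ * (del ω : ℝ) ^ 2 := by
              rw [← add_div, div_eq_inv_mul]
              congr 1
              rcases le_total 0 (del ω : ℝ) with h | h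
              · rw [max_eq_left (by linarith), max_eq_right h]; ring
              · rw [max_eq_right (by linarith), max_eq_left h]; ring
            rw [← h8]
            exact add_le_add h6 h7
          · have h6 : ((t - (t - 8 * g) : ℕ) : ℝ) ≤ 8 * g := by
              have : t - (t - 8 * g) ≤ 8 * g := by omega
              exact_mod_cast this
            have h7 : 0 ≤ 2 * (7 * Real.sqrt g + v) := by positivity
            nlinarith
      _ = _ := by
          rw [EW_mul, div_eq_inv_mul]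
  linarith

end Pool.Agent.helper65.RK
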