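import Pool.Agent.helper65.RK.AsmP
import Pool.Agent.helper65.RK.RLavg
import Pool.Agent.helper65.RK.S1b

set_option autoImplicit false

/-!
# RK-41 : the average of `RL` with the parameters
-/

namespace Pool.Agent.helper65.RK

open Finset

variable {L n n' : ℕ}


/-- The second moment a little earlier. -/
theorem Par.sq_early (h : Par L n n') {t : ℕ} (ht : t ≤ 2 * L ^ 13) :
    EW (eta L) (t - 8 * L ^ 7) (fun ω => (del ω : ℝ) ^ 2) / (1 - eta L) ≤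
      t - 2 * eta L * ∑ u ∈ range t, eW (eta L) u + 2 * (L : ℝ) ^ 7 := by
  have hη0 := h.B.eta_pos
  have hη1 := h.B.eta_le
  have h1 := h.B.one_le
  have ht' : (t : ℝ) ≤ 2 * (L : ℝ) ^ 13 := by exact_mod_cast ht
  set η := eta L with hη
  set s := t - 8 * L ^ 7 with hs
  have hst : s ≤ t := Nat.sub_le _ _
  have hst' : (s : ℝ) ≤ t := by exact_mod_cast hst
  have e1 := sq_eq η s
  rw [e1]
  have hsum0 : 0 ≤ ∑ u ∈ range s, eW η u :=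
    Finset.sum_nonneg fun u _ => eW_nonneg hη0.le (by linarith) u
  have hA0 : 0 ≤ (s : ℝ) - 2 * η * ∑ u ∈ range s, eW η u := by
    rw [← e1]
    exact EW_nonneg hη0.le (by linarith) fun v _ => by positivity
  have hA1 : (s : ℝ) - 2 * η * ∑ u ∈ range s, eW η u ≤ t := by
    have : 0 ≤ 2 * η * ∑ u ∈ range s, eW η u := by positivity
    linarith
  -- dividing by `1 - η`
  have h2 : ((s : ℝ) - 2 * η * ∑ u ∈ range s, eW η u) / (1 - η) ≤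
      ((s : ℝ) - 2 * η * ∑ u ∈ range s, eW η u) + 2 * η * t := by
    rw [div_le_iff₀ (by linarith)]
    nlinarith [mul_nonneg hη0.le hA0, mul_nonneg hη0.le (sub_nonneg.mpr hA1),
      mul_nonneg (mul_nonneg hη0.le hη0.le) (show (0 : ℝ) ≤ t by positivity)]
  -- the difference of the sums
  have h3 : ∑ u ∈ range t, eW η u = ∑ u ∈ range s, eW η u + ∑ u ∈ Ico s t, eW η u :=
    (Finset.sum_range_add_sum_Ico _ hst).symm
  have h4 : ∑ u ∈ Ico s t, eW η u ≤ (8 * (L : ℝ) ^ 7) * Real.sqrt t := by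
    calc ∑ u ∈ Ico s t, eW η u ≤ ∑ u ∈ Ico s t, Real.sqrt t := by
          apply Finset.sum_le_sum
          intro u hu
          rw [Finset.mem_Ico] at hu
          refine (eW_le_sqrt hη0.le (by linarith) u).trans ?_
          apply Real.sqrt_le_sqrt
          exact_mod_cast hu.2.le
      _ = ((t - s : ℕ) : ℝ) * Real.sqrt t := by
          rw [Finset.sum_const, Nat.card_Ico, nsmul_eq_mul]
      _ ≤ (8 * (L : ℝ) ^ 7) * Real.sqrt t := by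
          apply mul_le_mul_of_nonneg_right _ (Real.sqrt_nonneg _)
          have : t - s ≤ 8 * L ^ 7 := by omega
          exact_mod_cast this
  have h5 : η * Real.sqrt t ≤ 1 / 10 := h.B.eta_sqrt ht'
  have h6 : η * t ≤ (L : ℝ) ^ 7 / 10 := h.B.eta_mul ht'
  have h7 : 2 * η * ∑ u ∈ Ico s t, eW η u ≤ 16 / 10 * (L : ℝ) ^ 7 := by
    calc 2 * η * ∑ u ∈ Ico s t, eW η u ≤ 2 * η * ((8 * (L : ℝ) ^ 7) * Real.sqrt t) :=
          mul_le_mul_of_nonneg_left h4 (by positivity)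
      _ = 16 * (L : ℝ) ^ 7 * (η * Real.sqrt t) := by ring
      _ ≤ 16 * (L : ℝ) ^ 7 * (1 / 10) := mul_le_mul_of_nonneg_left h5 (by positivity)
      _ = 16 / 10 * (L : ℝ) ^ 7 := by ring
  rw [h3]
  have h8 : (0 : ℝ) ≤ (L : ℝ) ^ 7 := by positivity
  nlinarith [h2, h7, h6, hst', h8]

/-- RK-41. -/
theorem Par.W_bound (h : Par L n n') {t : ℕ} (ht1 : 1 ≤ t) (ht : t ≤ 2 * L ^ 13) :
    (n : ℝ) * EG (eta L) (4 * L ^ 13) n' t (RL (4 * L ^ 13) (L ^ 7)) ≤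
      t - 2 * eta L * ∑ u ∈ range t, eW (eta L) u + 200 * (L : ℝ) ^ 11 := by
  have hη0 := h.B.eta_pos
  have hη1 := h.B.eta_le
  have h1 := h.B.one_le
  have hb := h.B.bigR
  have hn := h.npos
  have ht' : (t : ℝ) ≤ 2 * (L : ℝ) ^ 13 := by exact_mod_cast ht
  have ht1' : (1 : ℝ) ≤ t := by exact_mod_cast ht1
  have hg1 : 1 ≤ L ^ 7 := Nat.one_le_pow _ _ (le_trans (by norm_num) h.B.big)
  have hV : 10 * L ^ 3 ≤ L ^ 7 := by
    have h2 : (10 : ℝ) * (L : ℝ) ^ 3 ≤ (L : ℝ) ^ 7 := by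
      have := h.B.pow_add_le (k := 3) (l := 7) (by norm_num)
      have h3 : (0 : ℝ) ≤ (L : ℝ) ^ 3 := by positivity
      linarith
    exact_mod_cast h2
  have hV' : (2 * ((L ^ 3 : ℕ) : ℝ)) ≤ ((L ^ 7 : ℕ) : ℝ) / 5 := by
    have : (10 : ℝ) * ((L ^ 3 : ℕ) : ℝ) ≤ ((L ^ 7 : ℕ) : ℝ) := by exact_mod_cast hV
    linarith
  have htm : t ≤ 4 * L ^ 13 := by omega
  have e1 := RL_avg (m := 4 * L ^ 13) (g := L ^ 7) (n' := n') (V := L ^ 3) (t := t) (η := eta L)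
    hη0.le (by linarith) hg1 ht1 htm hV
  have e2 := S1_bound (η := eta L) hη0.le (by linarith) (L ^ 7) hg1 h.B.eta_sqrt_g
    (2 * ((L ^ 3 : ℕ) : ℝ)) (by positivity) hV' t
  rw [h.cast] at e1
  have e3 := h.sq_early ht
  have x1 := h.B.exp1 ht1 ht
  have x2 := h.B.exp2 ht1 ht
  have x3 := h.B.exp3
  have x4 := h.PV_small ht
  have hE := Ex_pos L
  have hsg := h.B.sqrt_g
  -- multiply by `n`
  have e4 : (n : ℝ) * EG (eta L) (4 * L ^ 13) n' t (RL (4 * L ^ 13) (L ^ 7)) ≤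
      EW (eta L) t (S1 (2 * ((L ^ 3 : ℕ) : ℝ)) t) + n * (2 * ((4 * L ^ 13 : ℕ) : ℝ) *
        (Ex L + 2 * ((t : ℝ) + 1) * Ex L)) := by
    have := mul_le_mul_of_nonneg_left e1 hn.le
    refine this.trans ?_
    rw [mul_add, mul_div_cancel₀ _ hn.ne']
    have h5 : 2 * ((t : ℝ) + 1) *
        Real.exp (-((9 / 10 * ((L ^ 7 : ℕ) : ℝ)) ^ 2 / (2 * t))) ≤ 2 * ((t : ℝ) + 1) * Ex L :=
      mul_le_mul_of_nonneg_left x1 (by positivity)
    gcongr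
  have e5 : (n : ℝ) * (2 * ((4 * L ^ 13 : ℕ) : ℝ) * (Ex L + 2 * ((t : ℝ) + 1) * Ex L)) ≤ 1 := by
    have h5 : (n : ℝ) * (2 * ((4 * L ^ 13 : ℕ) : ℝ) * (Ex L + 2 * ((t : ℝ) + 1) * Ex L)) =
        (n * (8 * (L : ℝ) ^ 13) * (1 + 2 * (t + 1))) * Ex L := by push_cast; ring
    rw [h5]
    have h6 : (n : ℝ) * (8 * (L : ℝ) ^ 13) * (1 + 2 * (t + 1)) ≤ 200 * (L : ℝ) ^ 50 := by
      calc (n : ℝ) * (8 * (L : ℝ) ^ 13) * (1 + 2 * (t + 1))
          ≤ (2 * (L : ℝ) ^ 24) * (8 * (L : ℝ) ^ 13) * (7 * (L : ℝ) ^ 13) := by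
            have h7 : 1 + 2 * ((t : ℝ) + 1) ≤ 7 * (L : ℝ) ^ 13 := by
              have : (1 : ℝ) ≤ (L : ℝ) ^ 13 := one_le_pow₀ h1
              linarith
            have h8 := h.hiR
            gcongr
        _ ≤ 200 * (L : ℝ) ^ 50 := by
            have : (0 : ℝ) ≤ (L : ℝ) ^ 50 := by positivity
            nlinarith [this]
    exact (mul_le_mul_of_nonneg_right h6 hE.le).trans (h.B.small 200 50 (by norm_num) (by linarith))
  -- the errors in `S1`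
  have e6 : 16 * ((L ^ 7 : ℕ) : ℝ) * (7 * Real.sqrt ((L ^ 7 : ℕ) : ℝ) + 2 * ((L ^ 3 : ℕ) : ℝ)) ≤
      150 * (L : ℝ) ^ 11 := by
    have h7 : (L : ℝ) ^ 3 ≤ (L : ℝ) ^ 4 := pow_le_pow_right₀ h1 (by norm_num)
    calc 16 * ((L ^ 7 : ℕ) : ℝ) * (7 * Real.sqrt ((L ^ 7 : ℕ) : ℝ) + 2 * ((L ^ 3 : ℕ) : ℝ))
        ≤ 16 * ((L ^ 7 : ℕ) : ℝ) * (7 * (L : ℝ) ^ 4 + 2 * (L : ℝ) ^ 4) := by
          apply mul_le_mul_of_nonneg_left _ (by positivity)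
          push_cast at hsg ⊢
          linarith
      _ = 144 * (L : ℝ) ^ 11 := by push_cast; ring
      _ ≤ 150 * (L : ℝ) ^ 11 := by
          have : (0 : ℝ) ≤ (L : ℝ) ^ 11 := by positivity
          linarith
  have e7 : 2 * (t : ℝ) * (2 * ((L ^ 7 : ℕ) : ℝ) * Real.exp (-((L ^ 7 : ℕ) : ℝ)) +
      (t + 2 * ((L ^ 3 : ℕ) : ℝ)) *
        (2 * Real.exp (-(((L ^ 7 : ℕ) : ℝ) ^ 2 / (2 * t))))) ≤ 1 := by
    have h7 : (L : ℝ) ^ 7 ≤ (L : ℝ) ^ 13 := pow_le_pow_right₀ h1 (by norm_num)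
    have h8 : (L : ℝ) ^ 3 ≤ (L : ℝ) ^ 13 := pow_le_pow_right₀ h1 (by norm_num)
    calc 2 * (t : ℝ) * (2 * ((L ^ 7 : ℕ) : ℝ) * Real.exp (-((L ^ 7 : ℕ) : ℝ)) +
          (t + 2 * ((L ^ 3 : ℕ) : ℝ)) *
            (2 * Real.exp (-(((L ^ 7 : ℕ) : ℝ) ^ 2 / (2 * t)))))
        ≤ 2 * (2 * (L : ℝ) ^ 13) * (2 * (L : ℝ) ^ 13 * Ex L +
          (2 * (L : ℝ) ^ 13 + 2 * (L : ℝ) ^ 13) * (2 * Ex L)) := by
          push_cast at x2 x3 ⊢
          gcongr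
      _ = 40 * (L : ℝ) ^ 26 * Ex L := by ring
      _ ≤ 1 := h.B.small 40 26 (by norm_num) (by linarith)
  have h9 : (1 : ℝ) ≤ (L : ℝ) ^ 11 := one_le_pow₀ h1
  have h10 : (L : ℝ) ^ 7 ≤ (L : ℝ) ^ 11 := pow_le_pow_right₀ h1 (by norm_num)
  linarith [e4, e5, e2, e3, e6, e7]

end Pool.Agent.helper65.RK
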