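import Pool.Agent.helper65.RK.Defs

set_option autoImplicit false

/-!
# RK-02 : monotonicity of the greedy process
-/

namespace Pool.Agent.helper65.RK

open Finset

theorem subset_step (M L : Finset ℕ) : M ⊆ step M L := by
  unfold step
  split_ifs with h
  · exact subset_insert _ _
  · exact Subset.refl _

theorem card_step_le (M L : Finset ℕ) : (step M L).card ≤ M.card + 1 := by
  unfold step
  split_ifs with h
  · exact card_insert_le _ _
  · omega

/-- If the list is not exhausted then the smallest free object is added. -/
theorem step_eq {M L : Finset ℕ} {e : ℕ} (he : e ∈ L) (he' : e ∉ M)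
    (hmin : ∀ f ∈ L, f ∉ M → e ≤ f) : step M L = insert e M := by
  have h : (L \ M).Nonempty := ⟨e, mem_sdiff.2 ⟨he, he'⟩⟩
  unfold step
  rw [dif_pos h]
  congr 1
  apply le_antisymm
  · exact min'_le _ _ (mem_sdiff.2 ⟨he, he'⟩)
  · have := min'_mem _ h
    rw [mem_sdiff] at this
    exact hmin _ this.1 this.2

theorem step_eq_self {M L : Finset ℕ} (h : L ⊆ M) : step M L = M := by
  unfold step
  rw [dif_neg]
  rw [not_nonempty_iff_eq_empty, sdiff_eq_empty_iff_subset]
  exact h

lemma Mono_nonempty {M L : Finset ℕ} (h : ¬ L ⊆ M) : (L \ M).Nonempty := by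
  rwa [nonempty_iff_ne_empty, Ne, sdiff_eq_empty_iff_subset]

theorem card_step {M L : Finset ℕ} (h : ¬ L ⊆ M) : (step M L).card = M.card + 1 := by
  unfold step
  rw [dif_pos (Mono_nonempty h), card_insert_of_notMem]
  have := min'_mem _ (Mono_nonempty h)
  rw [mem_sdiff] at this
  exact this.2

/-- Every step adds nothing or the smallest free object of `L`. -/
theorem step_cases (M L : Finset ℕ) :
    (L ⊆ M ∧ step M L = M) ∨
      ∃ e, e ∈ L ∧ e ∉ M ∧ (∀ f ∈ L, f ∉ M → e ≤ f) ∧ step M L = insert e M := by
  by_cases h : L ⊆ M
  · exact Or.inl ⟨h, step_eq_self h⟩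
  · right
    have h1 := min'_mem _ (Mono_nonempty h)
    rw [mem_sdiff] at h1
    have h2 : ∀ f ∈ L, f ∉ M → (L \ M).min' (Mono_nonempty h) ≤ f := fun f hf hf' =>
      min'_le _ _ (mem_sdiff.2 ⟨hf, hf'⟩)
    exact ⟨_, h1.1, h1.2, h2, step_eq h1.1 h1.2 h2⟩

lemma Mono_ext_step (M L : Finset ℕ) : Ext M (step M L) := by
  rcases step_cases M L with ⟨_, h⟩ | ⟨e, _, h1, _, h⟩
  · exact Or.inl h
  · exact Or.inr ⟨e, h1, h⟩

/-- The main lemma: an additional taken object leads to at most one additional taken object.
[If `M' = insert e M`: let `f` be the smallest element of `L \ M`. If `f ≠ e` (or there is no `f`) both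
processes add the same object; if `f = e` then the second process adds the next free object of `L`, if
there is one.] -/
theorem Ext.step {M M' : Finset ℕ} (h : Ext M M') (L : Finset ℕ) :
    Ext (RK.step M L) (RK.step M' L) := by
  rcases h with rfl | ⟨e, he, rfl⟩
  · exact Or.inl rfl
  · rcases step_cases M L with ⟨h1, h2⟩ | ⟨f, h1, h2, h3, h4⟩
    · rw [h2, step_eq_self (h1.trans (subset_insert _ _))]
      exact Or.inr ⟨e, he, rfl⟩
    · by_cases hfe : f = e
      · subst hfe
        rw [h4]
        exact Mono_ext_step _ _
      · have h5 : f ∉ insert e M := by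
          rw [mem_insert, not_or]
          exact ⟨hfe, h2⟩
        have h6 : ∀ g ∈ L, g ∉ insert e M → f ≤ g := fun g hg hg' =>
          h3 g hg fun h => hg' (mem_insert_of_mem h)
        rw [h4, step_eq h1 h5 h6]
        refine Or.inr ⟨e, ?_, insert_comm _ _ _⟩
        rw [mem_insert, not_or]
        exact ⟨fun h => hfe h.symm, he⟩

theorem Ext.foldl {M M' : Finset ℕ} (h : Ext M M') (w : List (Finset ℕ)) :
    Ext (w.foldl RK.step M) (w.foldl RK.step M') := by
  induction w generalizing M M' with
  | nil => exact h
  | cons L w ih => exact ih (h.step L)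

theorem ext_step (M L : Finset ℕ) : Ext M (step M L) := Mono_ext_step M L

theorem Ext.subset {M M' : Finset ℕ} (h : Ext M M') : M ⊆ M' := by
  rcases h with rfl | ⟨e, _, rfl⟩
  · exact Subset.refl _
  · exact subset_insert _ _

theorem Ext.card_le {M M' : Finset ℕ} (h : Ext M M') : M'.card ≤ M.card + 1 := by
  rcases h with rfl | ⟨e, _, rfl⟩
  · omega
  · exact card_insert_le _ _

theorem Ext.unique {M M' : Finset ℕ} (h : Ext M M') {e f : ℕ} (he : e ∈ M') (he' : e ∉ M)
    (hf : f ∈ M') (hf' : f ∉ M) : e = f := by
  rcases h with rfl | ⟨g, _, rfl⟩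
  · exact absurd he he'
  · rcases mem_insert.1 he with h1 | h1
    · rcases mem_insert.1 hf with h2 | h2
      · rw [h1, h2]
      · exact absurd h2 hf'
    · exact absurd h1 he'

theorem greedy_nil : greedy [] = ∅ := rfl

theorem greedy_append (w : List (Finset ℕ)) (L : Finset ℕ) :
    greedy (w ++ [L]) = step (greedy w) L := by
  unfold greedy
  rw [List.foldl_append]
  rfl

theorem greedy_append' (w v : List (Finset ℕ)) :
    greedy (w ++ v) = v.foldl step (greedy w) := by
  unfold greedy
  rw [List.foldl_append]

lemma Mono_insertIdx {α : Type*} (w : List α) (L : α) (i : ℕ) (hi : i ≤ w.length) :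
    w.insertIdx i L = w.take i ++ ([L] ++ w.drop i) := by
  induction w generalizing i with
  | nil =>
    have : i = 0 := by simpa using hi
    subst this
    simp
  | cons a w ih =>
    cases i with
    | zero => simp
    | succ i =>
      rw [List.insertIdx_succ_cons, ih i (by simpa using hi)]
      simp

lemma Mono_foldl_subset (v : List (Finset ℕ)) (M : Finset ℕ) : M ⊆ v.foldl step M := by
  induction v generalizing M with
  | nil => exact Subset.refl _
  | cons L v ih => exact (subset_step M L).trans (ih _)

theorem greedy_insert (w : List (Finset ℕ)) (L : Finset ℕ) (i : ℕ) (hi : i ≤ w.length) :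
    Ext (greedy w) (greedy (w.insertIdx i L)) := by
  rw [Mono_insertIdx w L i hi, greedy_append', List.foldl_append]
  have h : greedy w = (w.drop i).foldl step (greedy (w.take i)) := by
    rw [← greedy_append', List.take_append_drop]
  rw [h]
  exact Ext.foldl (ext_step _ _) _

theorem greedy_take_subset (w : List (Finset ℕ)) (u : ℕ) : greedy (w.take u) ⊆ greedy w := by
  have h : greedy w = (w.drop u).foldl step (greedy (w.take u)) := by
    rw [← greedy_append', List.take_append_drop]
  rw [h]
  exact Mono_foldl_subset _ _

theorem card_greedy_le (w : List (Finset ℕ)) : (greedy w).card ≤ w.length := by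
  induction w using List.reverseRecOn with
  | nil => simp [greedy_nil]
  | append_singleton w L ih =>
    rw [greedy_append, List.length_append, List.length_singleton]
    exact (card_step_le _ _).trans (by omega)

theorem mem_greedy {w : List (Finset ℕ)} {e : ℕ} (he : e ∈ greedy w) : ∃ L ∈ w, e ∈ L := by
  induction w using List.reverseRecOn with
  | nil => exact absurd he (notMem_empty _)
  | append_singleton w L ih =>
    rw [greedy_append] at he
    rcases step_cases (greedy w) L with ⟨_, h2⟩ | ⟨f, h1, h2, h3, h4⟩
    · rw [h2] at he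
      obtain ⟨L', hL', heL'⟩ := ih he
      exact ⟨L', List.mem_append_left _ hL', heL'⟩
    · rw [h4] at he
      rcases mem_insert.1 he with rfl | he
      · exact ⟨L, by simp, h1⟩
      · obtain ⟨L', hL', heL'⟩ := ih he
        exact ⟨L', List.mem_append_left _ hL', heL'⟩

/-- An element of the result was added at some time. -/
theorem mem_greedy' {w : List (Finset ℕ)} {e : ℕ} (he : e ∈ greedy w) :
    ∃ u L, w[u]? = some L ∧ e ∈ L ∧ e ∉ greedy (w.take u) ∧
      greedy (w.take (u + 1)) = insert e (greedy (w.take u)) ∧
      ∀ f ∈ L, f ∉ greedy (w.take u) → e ≤ f := by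
  induction w using List.reverseRecOn with
  | nil => exact absurd he (notMem_empty _)
  | append_singleton w L ih =>
    by_cases he1 : e ∈ greedy w
    · obtain ⟨u, L', h1, h2, h3, h4, h5⟩ := ih he1
      have hu : u < w.length := by
        by_contra hcon
        rw [List.getElem?_eq_none (by omega)] at h1
        exact absurd h1 (by simp)
      refine ⟨u, L', ?_, h2, ?_⟩
      · rw [List.getElem?_append_left hu]; exact h1
      · rw [List.take_append_of_le_length (by omega), List.take_append_of_le_length (by omega)]
        exact ⟨h3, h4, h5⟩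
    · rw [greedy_append] at he
      rcases step_cases (greedy w) L with ⟨_, h2⟩ | ⟨f, h1, h2, h3, h4⟩
      · rw [h2] at he
        exact absurd he he1
      · rw [h4] at he
        rcases mem_insert.1 he with rfl | he
        · refine ⟨w.length, L, by simp, h1, ?_⟩
          have h5 : (w ++ [L]).take w.length = w := by simp
          have h6 : (w ++ [L]).take (w.length + 1) = w ++ [L] := by
            rw [List.take_of_length_le]; simp
          rw [h5, h6, greedy_append]
          exact ⟨h2, h4, h3⟩
        · exact absurd he he1

end Pool.Agent.helper65.RK
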