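import Pool.Agent.helper65.RK.NL
import Pool.Agent.helper65.RK.Mono

set_option autoImplicit false

/-!
# RK-09 : the system `NG` and words
-/

namespace Pool.Agent.helper65.RK

open Finset

theorem mem_lst_y {m g i e : ℕ} : e ∈ lst m g (Lt.y i) ↔
    (∃ j, j + g ≤ i ∧ e = 2 * j + 1) ∨ ∃ j, j ≤ i ∧ i < j + g ∧ e = 2 * j := by
  simp only [lst, mem_union, mem_image, mem_filter, mem_range]
  constructor
  · rintro (⟨j, ⟨h1, h2⟩, h3⟩ | ⟨j, ⟨h1, h2⟩, h3⟩)
    · exact Or.inl ⟨j, h2, h3.symm⟩
    · exact Or.inr ⟨j, by omega, h2, h3.symm⟩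
  · rintro (⟨j, h1, h2⟩ | ⟨j, h1, h2, h3⟩)
    · exact Or.inl ⟨j, ⟨by omega, h1⟩, h2.symm⟩
    · exact Or.inr ⟨j, ⟨by omega, h2⟩, h3.symm⟩

theorem mem_lst_x {m g i e : ℕ} : e ∈ lst m g (Lt.x i) ↔
    (∃ j, j + g ≤ i ∧ e = 2 * j) ∨ ∃ j, j ≤ i ∧ i < j + g ∧ e = 2 * j + 1 := by
  simp only [lst, mem_union, mem_image, mem_filter, mem_range]
  constructor
  · rintro (⟨j, ⟨h1, h2⟩, h3⟩ | ⟨j, ⟨h1, h2⟩, h3⟩)
    · exact Or.inl ⟨j, h2, h3.symm⟩
    · exact Or.inr ⟨j, by omega, h2, h3.symm⟩
  · rintro (⟨j, h1, h2⟩ | ⟨j, h1, h2, h3⟩)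
    · exact Or.inl ⟨j, ⟨by omega, h1⟩, h2.symm⟩
    · exact Or.inr ⟨j, ⟨by omega, h2⟩, h3.symm⟩

lemma Bridge_letS_false {m : ℕ} (i : Fin m) : letS (i, false) = Lt.y i := by simp [letS]

lemma Bridge_letS_true {m : ℕ} (i : Fin m) : letS (i, true) = Lt.x i := by simp [letS]

lemma Bridge_letS_inj {m : ℕ} : Function.Injective (letS (m := m)) := by
  rintro ⟨i, b⟩ ⟨j, c⟩ h
  cases b <;> cases c <;>
    simp only [Bridge_letS_false, Bridge_letS_true, Lt.y.injEq, Lt.x.injEq, reduceCtorEq] at h
  · rw [Fin.ext h]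
  · rw [Fin.ext h]

theorem letS_lt {m g : ℕ} (z : Fin m × Bool) {e : ℕ} (he : e ∈ lst m g (letS z)) : e < 2 * m := by
  obtain ⟨i, b⟩ := z
  have hi := i.isLt
  cases b
  · rw [Bridge_letS_false, mem_lst_y] at he
    rcases he with ⟨j, h1, h2⟩ | ⟨j, h1, h2, h3⟩ <;> omega
  · rw [Bridge_letS_true, mem_lst_x] at he
    rcases he with ⟨j, h1, h2⟩ | ⟨j, h1, h2, h3⟩ <;> omega

lemma Bridge_t_lt {m g : ℕ} (s : T) {e : ℕ} (he : e ∈ lst m g (Lt.t s)) : e < 2 * m := by
  cases s
  · simp only [lst, mem_image, mem_range] at he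
    obtain ⟨j, h1, h2⟩ := he
    omega
  · simp only [lst, mem_image, mem_range] at he
    obtain ⟨j, h1, h2⟩ := he
    omega
  · simpa only [lst, mem_range] using he

lemma Bridge_t_card {m g : ℕ} (s : T) : m ≤ (lst m g (Lt.t s)).card := by
  cases s
  · simp only [lst]
    rw [card_image_of_injective _ (fun a b h => by simpa using h), card_range]
  · simp only [lst]
    rw [card_image_of_injective _ (fun a b h => by simpa using h), card_range]
  · simp only [lst, card_range]
    omega

theorem ownG_lt {m n' : ℕ} (o : Ag m n') : ownG m n' o < 2 * m + n' := by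
  rcases o with ⟨i, b⟩ | k
  · have hi := i.isLt
    cases b
    · simp only [ownG, Bridge_letS_false, ownL]; omega
    · simp only [ownG, Bridge_letS_true, ownL]; omega
  · have hk := k.isLt
    simp only [ownG]; omega

lemma Bridge_own_lt {m n' : ℕ} (z : Fin m × Bool) : ownG m n' (Sum.inl z) < 2 * m := by
  obtain ⟨i, b⟩ := z
  have hi := i.isLt
  cases b
  · simp only [ownG, Bridge_letS_false, ownL]; omega
  · simp only [ownG, Bridge_letS_true, ownL]; omega

lemma Bridge_surj {m n' : ℕ} {e : ℕ} (he : e < 2 * m) :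
    ∃ z : Fin m × Bool, ownG m n' (Sum.inl z) = e := by
  rcases Nat.even_or_odd' e with ⟨j, rfl | rfl⟩
  · refine ⟨(⟨j, by omega⟩, false), ?_⟩
    simp only [ownG, Bridge_letS_false, ownL]
  · refine ⟨(⟨j, by omega⟩, true), ?_⟩
    simp only [ownG, Bridge_letS_true, ownL]

theorem sys_NG {m g n' : ℕ} (hg : 1 ≤ g) (θ : Fin n' → T) :
    Sys (NG m g n' θ) (ownG m n') := by
  refine ⟨?_, ?_, ?_⟩
  · rintro (⟨i, b⟩ | k) (⟨j, c⟩ | l) h
    · have : (i, b) = (j, c) := by
        cases b <;> cases c <;>
          simp only [ownG, Bridge_letS_false, Bridge_letS_true, ownL] at h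
        · rw [show i = j from Fin.ext (by omega)]
        · omega
        · omega
        · rw [show i = j from Fin.ext (by omega)]
      rw [this]
    · have h1 := Bridge_own_lt (n' := n') (i, b)
      rw [h] at h1
      simp only [ownG] at h1
      omega
    · have h1 := Bridge_own_lt (n' := n') (j, c)
      rw [← h] at h1
      simp only [ownG] at h1
      omega
    · simp only [ownG] at h
      rw [show k = l from Fin.ext (by omega)]
  · rintro (⟨i, b⟩ | k)
    · cases b
      · simp only [NG, ownG, Bridge_letS_false, ownL]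
        rw [mem_lst_y]
        exact Or.inr ⟨i, le_refl _, by omega, rfl⟩
      · simp only [NG, ownG, Bridge_letS_true, ownL]
        rw [mem_lst_x]
        exact Or.inr ⟨i, le_refl _, by omega, rfl⟩
    · simp only [NG, ownG]
      exact mem_union_right _ (mem_image.2 ⟨k, mem_range.2 (by omega), rfl⟩)
  · intro o e he
    rw [mem_image]
    have key : e < 2 * m → ∃ a ∈ (univ : Finset (Ag m n')), ownG m n' a = e := fun h => by
      obtain ⟨z, hz⟩ := Bridge_surj (n' := n') h
      exact ⟨Sum.inl z, mem_univ _, hz⟩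
    rcases o with z | k
    · exact key (letS_lt z he)
    · simp only [NG, mem_union, mem_image, mem_range] at he
      rcases he with he | ⟨j, h1, h2⟩
      · exact key (Bridge_t_lt _ he)
      · refine ⟨Sum.inr ⟨j, by have := k.isLt; omega⟩, mem_univ _, ?_⟩
        simp only [ownG]
        exact h2

/-- RK-09. As long as at most `m` agents have come the objects `≥ 2 m` are not touched.
[Induction from the end of the list: the set `M` taken before the last agent has less than `m` elements and is contained in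
`range (2 m)`, so the list `lst m g (Lt.t s)` of a far agent (it has at least `m` elements) is not exhausted and its
smallest free object is smaller than the objects `2 m + j`.] -/
theorem mat_NG {m g n' : ℕ} (θ : Fin n' → T) (C : List (Ag m n')) (hC : C.length ≤ m) :
    mat (NG m g n' θ) C = matL m g (C.map (letG θ)) ∧
      matL m g (C.map (letG θ)) ⊆ range (2 * m) := by
  induction C using List.reverseRecOn with
  | nil => exact ⟨rfl, empty_subset _⟩
  | append_singleton C o ih =>
    rw [List.length_append, List.length_singleton] at hC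
    obtain ⟨ih1, ih2⟩ := ih (by omega)
    have hcard : (mat (NG m g n' θ) C).card < m := by
      have := card_greedy_le (C.map (NG m g n' θ))
      rw [List.length_map] at this
      exact lt_of_le_of_lt this (by omega)
    have e1 : mat (NG m g n' θ) (C ++ [o]) = step (mat (NG m g n' θ) C) (NG m g n' θ o) := by
      unfold mat
      rw [List.map_append, List.map_singleton, greedy_append]
    have e2 : matL m g ((C ++ [o]).map (letG θ)) =
        step (matL m g (C.map (letG θ))) (lst m g (letG θ o)) := by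
      unfold matL
      rw [List.map_append, List.map_append, List.map_singleton, List.map_singleton, greedy_append]
    rw [e1, e2, ih1]
    rw [ih1] at hcard
    set M := matL m g (C.map (letG θ)) with hM
    rcases o with z | k
    · refine ⟨rfl, ?_⟩
      simp only [letG]
      rcases step_cases M (lst m g (letS z)) with ⟨_, h2⟩ | ⟨e, h1, _, _, h4⟩
      · rw [h2]; exact ih2
      · rw [h4]
        exact insert_subset (mem_range.2 (letS_lt z h1)) ih2
    · simp only [letG, NG]
      have hne : ¬ lst m g (Lt.t (θ k)) ⊆ M := fun h => by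
        have h1 := card_le_card h
        have h2 := Bridge_t_card (m := m) (g := g) (θ k)
        omega
      rcases step_cases M (lst m g (Lt.t (θ k))) with ⟨h1, _⟩ | ⟨e, h1, h2, h3, h4⟩
      · exact absurd h1 hne
      · have he := Bridge_t_lt (θ k) h1
        refine ⟨?_, ?_⟩
        · rw [h4]
          refine step_eq (mem_union_left _ h1) h2 ?_
          intro f hf hf'
          rcases mem_union.1 hf with hf | hf
          · exact h3 f hf hf'
          · obtain ⟨j, _, rfl⟩ := mem_image.1 hf
            omega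
        · rw [h4]
          exact insert_subset (mem_range.2 he) ih2

lemma Bridge_card {m n' : ℕ} (P : Ag m n' → Prop) (Q : Lt → Prop) {_ : DecidablePred P}
    {_ : DecidablePred Q} (h1 : ∀ k, ¬ P (Sum.inr k)) (h2 : ∀ z, P (Sum.inl z) ↔ Q (letS z)) :
    ((univ : Finset (Ag m n')).filter P).card = ((SR m).filter Q).card := by
  classical
  have e1 : (univ : Finset (Ag m n')).filter P =
      ((univ : Finset (Fin m × Bool)).filter fun z => Q (letS z)).image Sum.inl := by
    ext o
    simp only [mem_filter, mem_univ, true_and, mem_image]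
    constructor
    · intro h
      rcases o with z | k
      · exact ⟨z, (h2 z).1 h, rfl⟩
      · exact absurd h (h1 k)
    · rintro ⟨z, hz, rfl⟩
      exact (h2 z).2 hz
  have e2 : (SR m).filter Q =
      ((univ : Finset (Fin m × Bool)).filter fun z => Q (letS z)).image letS := by
    ext l
    simp only [SR, mem_filter, mem_univ, true_and, mem_image, mem_union, mem_range]
    constructor
    · rintro ⟨⟨i, hi, rfl⟩ | ⟨i, hi, rfl⟩, hq⟩
      · exact ⟨(⟨i, hi⟩, false), by rw [Bridge_letS_false]; exact hq, Bridge_letS_false _⟩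
      · exact ⟨(⟨i, hi⟩, true), by rw [Bridge_letS_true]; exact hq, Bridge_letS_true _⟩
    · rintro ⟨⟨i, b⟩, hq, rfl⟩
      refine ⟨?_, hq⟩
      cases b
      · exact Or.inl ⟨i, i.isLt, (Bridge_letS_false i).symm⟩
      · exact Or.inr ⟨i, i.isLt, (Bridge_letS_true i).symm⟩
  rw [e1, e2, card_image_of_injective _ Sum.inl_injective,
    card_image_of_injective _ Bridge_letS_inj]

lemma Bridge_mem {m n' : ℕ} (θ : Fin n' → T) (C : List (Ag m n')) (z : Fin m × Bool) :
    Sum.inl z ∈ C ↔ letS z ∈ C.map (letG θ) := by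
  rw [List.mem_map]
  constructor
  · intro h
    exact ⟨Sum.inl z, h, rfl⟩
  · rintro ⟨o, ho, h⟩
    rcases o with z' | k
    · have : z' = z := Bridge_letS_inj h
      rwa [← this]
    · exfalso
      obtain ⟨i, b⟩ := z
      cases b <;> simp [letG, Bridge_letS_false, Bridge_letS_true] at h

/-- The far agents do not contribute. -/
theorem Rf_NG {m g n' : ℕ} (θ : Fin n' → T) (C : List (Ag m n')) (hC : C.length ≤ m) :
    Rf (NG m g n' θ) (ownG m n') C = RL m g (C.map (letG θ)) := by
  obtain ⟨h1, h2⟩ := mat_NG (g := g) θ C hC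
  unfold Rf RL
  rw [h1]
  congr 1
  refine Bridge_card _ _ ?_ ?_
  · rintro k ⟨_, h, _⟩
    have := mem_range.1 (h2 h)
    simp only [ownG] at this
    omega
  · intro z
    rw [Bridge_mem θ C z]
    exact Iff.rfl

theorem Pf_NG {m g n' : ℕ} (θ : Fin n' → T) (C : List (Ag m n')) (hC : C.length + 1 ≤ m) :
    Pf (NG m g n' θ) (ownG m n') C = PL m g (C.map (letG θ)) := by
  obtain ⟨h1, h2⟩ := mat_NG (g := g) θ C (by omega)
  unfold Pf PL
  rw [h1, List.length_map]
  refine sum_congr rfl fun i hi => ?_
  rw [mem_range] at hi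
  have key : ∀ o : Ag m n', mat (NG m g n' θ) (C.insertIdx i o) =
      matL m g ((C.map (letG θ)).insertIdx i (letG θ o)) ∧
      matL m g ((C.map (letG θ)).insertIdx i (letG θ o)) ⊆ range (2 * m) := by
    intro o
    have h3 := mat_NG (g := g) θ (C.insertIdx i o)
      (by rw [List.length_insertIdx]; split <;> omega)
    rwa [List.map_insertIdx] at h3
  congr 1
  refine Bridge_card _ _ ?_ ?_
  · rintro k ⟨_, h, _⟩
    rw [(key _).1] at h
    have := mem_range.1 ((key _).2 h)
    simp only [ownG] at this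
    omega
  · intro z
    rw [Bridge_mem θ C z, (key _).1]
    exact Iff.rfl

end Pool.Agent.helper65.RK
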