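import Pool.Agent.helper65.RK.MrgL

set_option autoImplicit false

/-!
# RK-11 : the types of the far agents in a list are independent
-/

namespace Pool.Agent.helper65.RK

open Finset

variable {m n' : ℕ}

theorem sum_prod_pT (η : ℝ) (n' : ℕ) : ∑ θ : Fin n' → T, ∏ k, pT η (θ k) = 1 := by
  have h := Finset.prod_univ_sum (fun _ : Fin n' => (Finset.univ : Finset T))
    (fun (_ : Fin n') (s : T) => pT η s)
  rw [Fintype.piFinset_univ] at h
  rw [← h]
  simp [sum_pT]

/-- Resampling of one coordinate. -/
theorem Law_resample (η : ℝ) (k : Fin n') (G : T → (Fin n' → T) → ℝ)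
    (hG : ∀ s θ s', G s (Function.update θ k s') = G s θ) :
    ∑ θ : Fin n' → T, (∏ j, pT η (θ j)) * G (θ k) θ =
      ∑ s : T, pT η s * ∑ θ : Fin n' → T, (∏ j, pT η (θ j)) * G s θ := by
  have hw : ∀ (θ : Fin n' → T) (s : T),
      (∏ j, pT η (Function.update θ k s j)) * pT η (θ k) = (∏ j, pT η (θ j)) * pT η s := by
    intro θ s
    have h1 : ∏ j, pT η (Function.update θ k s j) =
        pT η s * ∏ j ∈ univ.erase k, pT η (θ j) := by
      rw [← Finset.mul_prod_erase univ _ (mem_univ k)]
      rw [Function.update_self]
      congr 1
      refine Finset.prod_congr rfl ?_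
      intro j hj
      rw [Function.update_of_ne (Finset.ne_of_mem_erase hj)]
    have h2 : ∏ j, pT η (θ j) = pT η (θ k) * ∏ j ∈ univ.erase k, pT η (θ j) :=
      (Finset.mul_prod_erase univ _ (mem_univ k)).symm
    rw [h1, h2]
    ring
  have key : ∑ x : (Fin n' → T) × T, (∏ j, pT η (x.1 j)) * pT η x.2 * G x.2 x.1 =
      ∑ x : (Fin n' → T) × T, (∏ j, pT η (x.1 j)) * pT η x.2 * G (x.1 k) x.1 := by
    refine Finset.sum_nbij' (fun x => (Function.update x.1 k x.2, x.1 k))
      (fun x => (Function.update x.1 k x.2, x.1 k)) ?_ ?_ ?_ ?_ ?_
    · intro x _
      exact mem_univ _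
    · intro x _
      exact mem_univ _
    · intro x _
      simp
    · intro x _
      simp
    · intro x _
      simp only [Function.update_self]
      rw [hw x.1 x.2, hG]
  calc ∑ θ : Fin n' → T, (∏ j, pT η (θ j)) * G (θ k) θ
      = ∑ x : (Fin n' → T) × T, (∏ j, pT η (x.1 j)) * pT η x.2 * G (x.1 k) x.1 := by
        rw [Fintype.sum_prod_type]
        refine Finset.sum_congr rfl ?_
        intro θ _
        have : ∀ s : T, (∏ j, pT η (θ j)) * pT η s * G (θ k) θ =
            pT η s * ((∏ j, pT η (θ j)) * G (θ k) θ) := by
          intro s
          ring
        simp only [this]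
        rw [← Finset.sum_mul, sum_pT, one_mul]
    _ = ∑ x : (Fin n' → T) × T, (∏ j, pT η (x.1 j)) * pT η x.2 * G x.2 x.1 := key.symm
    _ = ∑ s : T, pT η s * ∑ θ : Fin n' → T, (∏ j, pT η (θ j)) * G s θ := by
        rw [Fintype.sum_prod_type_right]
        refine Finset.sum_congr rfl ?_
        intro s _
        rw [Finset.mul_sum]
        refine Finset.sum_congr rfl ?_
        intro θ _
        ring

/-- RK-11. Induction on `C` for the more general statement with a function `φ (C.map (letG θ))` and a set `S` of far agents containing
those of `C`, or: for a list `F` of different elements of `Fin n'`,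
`∑_θ (∏ pT (θ k)) ψ (F.map θ) = EW F.length ψ` (induction on `F`: write `F = k :: F'`; the sum over `θ` is the sum over the value `s` at `k` and over the
rest; summing out: `∑_θ (∏ pT) G (θ k) (F'.map θ)` with `k ∉ F'`, compare `θ` with `Function.update θ k s`). Then
`C.map (letG θ) = mrg C (F.map θ)` for the list `F` of the far agents of `C`, and `EW C.length (v ↦ φ (mrg C v)) = EW F.length (v ↦ φ (mrg C v))` by
`EW_take`, `mrg_congr`. -/
theorem law (η : ℝ) (C : List (Ag m n')) (hnd : C.Nodup) (φ : List Lt → ℝ) :
    ∑ θ : Fin n' → T, (∏ k, pT η (θ k)) * φ (C.map (letG θ)) =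
      EW η C.length (fun v => φ (mrg C v)) := by
  induction C generalizing φ with
  | nil =>
      simp only [List.map_nil, List.length_nil, EW, mrg]
      rw [← Finset.sum_mul, sum_prod_pT, one_mul]
  | cons c C ih =>
      have hC : C.Nodup := (List.nodup_cons.mp hnd).2
      have hc : c ∉ C := (List.nodup_cons.mp hnd).1
      cases c with
      | inl z =>
          have h1 : ∀ θ : Fin n' → T, (Sum.inl z :: C : List (Ag m n')).map (letG θ) =
              letS z :: C.map (letG θ) := by
            intro θ
            simp [letG]
          simp only [h1, List.length_cons, mrg]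
          rw [ih hC (fun w => φ (letS z :: w))]
          have h2 : ∀ v : List T, mrg C v = mrg C (v.take C.length) := by
            intro v
            apply mrg_congr
            rw [List.take_take]
            congr 1
            omega
          have h3 : EW η (C.length + 1) (fun v => φ (letS z :: mrg C v)) =
              EW η (C.length + 1) (fun v => (fun v' => φ (letS z :: mrg C v'))
                (v.take C.length)) := by
            congr 1
            funext v
            simp only [← h2 v]
          rw [h3]
          exact (EW_take (η := η) (Nat.le_succ C.length)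
            (fun v' => φ (letS z :: mrg C v'))).symm
      | inr k =>
          have h1 : ∀ θ : Fin n' → T, (Sum.inr k :: C : List (Ag m n')).map (letG θ) =
              Lt.t (θ k) :: C.map (letG θ) := by
            intro θ
            simp [letG]
          simp only [h1, List.length_cons, EW, mrg]
          have h2 := Law_resample (n' := n') η k
            (fun s θ => φ (Lt.t s :: C.map (letG θ))) (by
              intro s θ s'
              congr 2
              apply List.map_congr_left
              intro a ha
              cases a with
              | inl z => rfl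
              | inr j =>
                  have hj : j ≠ k := by
                    rintro rfl
                    exact hc ha
                  simp [letG, Function.update_of_ne hj])
          rw [h2]
          refine Finset.sum_congr rfl ?_
          intro s _
          rw [ih hC (fun w => φ (Lt.t s :: w))]

end Pool.Agent.helper65.RK
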