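import Pool.Agent.helper65.RK.Ident
import Pool.Agent.helper65.RK.Bridge
import Pool.Agent.helper65.RK.Law

set_option autoImplicit false

/-!
# RK-12 : the averaged identity
-/

namespace Pool.Agent.helper65.RK

open Finset

variable {m g n' : ℕ} {η : ℝ}

theorem AvgId_card (m n' : ℕ) : Fintype.card (Ag m n') = 2 * m + n' := by
  simp only [Fintype.card_sum, Fintype.card_prod, Fintype.card_fin, Fintype.card_bool]
  ring

theorem AvgId_pT_nonneg (h0 : 0 ≤ η) (h1 : η ≤ 1) (s : T) : 0 ≤ pT η s := by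
  cases s
  · show 0 ≤ (1 - η) / 2
    linarith
  · show 0 ≤ (1 - η) / 2
    linarith
  · exact h0

theorem AvgId_W_nonneg (h0 : 0 ≤ η) (h1 : η ≤ 1) (θ : Fin n' → T) : 0 ≤ ∏ k, pT η (θ k) :=
  Finset.prod_nonneg fun _ _ => AvgId_pT_nonneg h0 h1 _

/-- exchange of the average over the types and the average over the lists -/
theorem AvgId_avg (η : ℝ) (m n' t : ℕ) (Φ : (Fin n' → T) → List (Ag m n') → ℝ)
    (φ : List Lt → ℝ) (h : ∀ θ, ∀ C ∈ nl (Ag m n') t, Φ θ C = φ (C.map (letG θ))) :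
    ∑ θ : Fin n' → T, (∏ k, pT η (θ k)) * av (Ag m n') t (Φ θ) = EG η m n' t φ := by
  have e1 : ∀ θ : Fin n' → T, (∏ k, pT η (θ k)) * av (Ag m n') t (Φ θ) =
      av (Ag m n') t (fun C => (∏ k, pT η (θ k)) * φ (C.map (letG θ))) := by
    intro θ
    rw [av_mul, av_congr (h θ)]
  rw [Finset.sum_congr rfl fun θ _ => e1 θ,
    ← av_sum (Finset.univ : Finset (Fin n' → T)) t
      (fun θ C => (∏ k, pT η (θ k)) * φ (C.map (letG θ)))]
  unfold EG
  apply av_congr
  intro C hC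
  obtain ⟨hnd, hlen⟩ := mem_nl.1 hC
  rw [law η C hnd φ, hlen]

theorem XG_zero : XG η m g n' 0 = 0 := by
  unfold XG
  refine Finset.sum_eq_zero fun θ _ => ?_
  rw [X_zero, mul_zero]

theorem XG_one (hg : 1 ≤ g) (h : 1 ≤ 2 * m + n') : XG η m g n' 1 = 1 := by
  unfold XG
  rw [← sum_prod_pT η n']
  refine Finset.sum_congr rfl fun θ _ => ?_
  rw [X_one (NG m g n' θ) (fun o => ⟨_, (sys_NG hg θ).self o⟩) (by rw [AvgId_card]; exact h),
    mul_one]

theorem XG_nonneg (h0 : 0 ≤ η) (h1 : η ≤ 1) (t : ℕ) : 0 ≤ XG η m g n' t := by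
  unfold XG
  exact Finset.sum_nonneg fun θ _ => mul_nonneg (AvgId_W_nonneg h0 h1 θ) (X_nonneg _ t)

theorem XG_le (h0 : 0 ≤ η) (h1 : η ≤ 1) (t : ℕ) (ht : t ≤ 2 * m + n') : XG η m g n' t ≤ t := by
  unfold XG
  calc ∑ θ : Fin n' → T, (∏ k, pT η (θ k)) * X (NG m g n' θ) t
      ≤ ∑ θ : Fin n' → T, (∏ k, pT η (θ k)) * (t : ℝ) :=
        Finset.sum_le_sum fun θ _ => mul_le_mul_of_nonneg_left
          (X_le _ t (by rw [AvgId_card]; exact ht)) (AvgId_W_nonneg h0 h1 θ)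
    _ = t := by rw [← Finset.sum_mul, sum_prod_pT, one_mul]

/-- RK-12. Average `identity` for `NG m g n' θ` over `θ` with the weights `∏ pT`; `Rf_NG`, `Pf_NG`, `law`, and exchange of the sums. -/
theorem XG_identity (hg : 1 ≤ g) (t : ℕ) (h1 : 1 ≤ t) (h2 : t ≤ m) (h3 : t < 2 * m + n') :
    ((2 * (m : ℝ) + n') - t) * (XG η m g n' (t + 1) - XG η m g n' t) +
        t * (XG η m g n' t - XG η m g n' (t - 1)) + XG η m g n' t =
      (2 * (m : ℝ) + n') + EG η m n' t (RL m g) +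
        (t * EG η m n' (t - 1) (RL m g) + EG η m n' (t - 1) (PL m g)) /
          ((2 * (m : ℝ) + n') - t + 1) := by
  have hR : ∀ u, u ≤ m → ∑ θ : Fin n' → T, (∏ k, pT η (θ k)) *
      av (Ag m n') u (Rf (NG m g n' θ) (ownG m n')) = EG η m n' u (RL m g) := by
    intro u hu
    refine AvgId_avg η m n' u _ (RL m g) fun θ C hC => ?_
    exact Rf_NG θ C (by rw [(mem_nl.1 hC).2]; exact hu)
  have hP : ∑ θ : Fin n' → T, (∏ k, pT η (θ k)) *
      av (Ag m n') (t - 1) (Pf (NG m g n' θ) (ownG m n')) = EG η m n' (t - 1) (PL m g) := by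
    refine AvgId_avg η m n' (t - 1) _ (PL m g) fun θ C hC => ?_
    exact Pf_NG θ C (by rw [(mem_nl.1 hC).2]; omega)
  have hcard : (Fintype.card (Ag m n') : ℝ) = 2 * (m : ℝ) + n' := by
    rw [AvgId_card]
    push_cast
    ring
  rw [← hR t h2, ← hR (t - 1) (by omega), ← hP]
  have hone := sum_prod_pT η n'
  unfold XG
  have key : ∀ θ : Fin n' → T,
      ((2 * (m : ℝ) + n') - t) * (X (NG m g n' θ) (t + 1) - X (NG m g n' θ) t) +
        t * (X (NG m g n' θ) t - X (NG m g n' θ) (t - 1)) + X (NG m g n' θ) t =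
      (2 * (m : ℝ) + n') + av (Ag m n') t (Rf (NG m g n' θ) (ownG m n')) +
        (t * av (Ag m n') (t - 1) (Rf (NG m g n' θ) (ownG m n')) +
          av (Ag m n') (t - 1) (Pf (NG m g n' θ) (ownG m n'))) /
          ((2 * (m : ℝ) + n') - t + 1) := by
    intro θ
    have := identity (sys_NG hg θ) t h1 (by rw [AvgId_card]; exact h3)
    rw [hcard] at this
    exact this
  have hL : ((2 * (m : ℝ) + n') - t) *
        (∑ θ : Fin n' → T, (∏ k, pT η (θ k)) * X (NG m g n' θ) (t + 1) -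
          ∑ θ : Fin n' → T, (∏ k, pT η (θ k)) * X (NG m g n' θ) t) +
        t * (∑ θ : Fin n' → T, (∏ k, pT η (θ k)) * X (NG m g n' θ) t -
          ∑ θ : Fin n' → T, (∏ k, pT η (θ k)) * X (NG m g n' θ) (t - 1)) +
        ∑ θ : Fin n' → T, (∏ k, pT η (θ k)) * X (NG m g n' θ) t =
      ∑ θ : Fin n' → T, (∏ k, pT η (θ k)) *
        (((2 * (m : ℝ) + n') - t) * (X (NG m g n' θ) (t + 1) - X (NG m g n' θ) t) +
        t * (X (NG m g n' θ) t - X (NG m g n' θ) (t - 1)) + X (NG m g n' θ) t) := by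
    rw [← Finset.sum_sub_distrib, ← Finset.sum_sub_distrib, Finset.mul_sum, Finset.mul_sum,
      ← Finset.sum_add_distrib, ← Finset.sum_add_distrib]
    refine Finset.sum_congr rfl fun θ _ => ?_
    ring
  rw [hL, Finset.sum_congr rfl fun θ _ => by rw [key θ]]
  have hR' : ∑ θ : Fin n' → T, (∏ k, pT η (θ k)) *
      ((2 * (m : ℝ) + n') + av (Ag m n') t (Rf (NG m g n' θ) (ownG m n')) +
        (t * av (Ag m n') (t - 1) (Rf (NG m g n' θ) (ownG m n')) +
          av (Ag m n') (t - 1) (Pf (NG m g n' θ) (ownG m n'))) /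
          ((2 * (m : ℝ) + n') - t + 1)) =
      (∑ θ : Fin n' → T, (∏ k, pT η (θ k))) * (2 * (m : ℝ) + n') +
        ∑ θ : Fin n' → T, (∏ k, pT η (θ k)) *
          av (Ag m n') t (Rf (NG m g n' θ) (ownG m n')) +
        (t * (∑ θ : Fin n' → T, (∏ k, pT η (θ k)) *
            av (Ag m n') (t - 1) (Rf (NG m g n' θ) (ownG m n'))) +
          ∑ θ : Fin n' → T, (∏ k, pT η (θ k)) *
            av (Ag m n') (t - 1) (Pf (NG m g n' θ) (ownG m n'))) /
          ((2 * (m : ℝ) + n') - t + 1) := by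
    rw [Finset.mul_sum, Finset.sum_mul, ← Finset.sum_add_distrib, ← Finset.sum_add_distrib,
      Finset.sum_div, ← Finset.sum_add_distrib]
    refine Finset.sum_congr rfl fun θ _ => ?_
    ring
  rw [hR', hone, one_mul]

end Pool.Agent.helper65.RK
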