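import Pool.Agent.helper65.RK.NL
import Pool.Agent.helper65.RK.Mono

set_option autoImplicit false

/-!
# RK-03 : the identity
-/

namespace Pool.Agent.helper65.RK

open Finset

variable {α : Type} [Fintype α] [DecidableEq α]

omit [Fintype α] [DecidableEq α] in
theorem Ident_mat_append (N : α → Finset ℕ) (C : List α) (o : α) :
    mat N (C ++ [o]) = step (mat N C) (N o) := by
  unfold mat
  rw [List.map_append, List.map_singleton, greedy_append]

omit [Fintype α] [DecidableEq α] in
theorem Ident_map_insert (N : α → Finset ℕ) (o : α) : ∀ (C : List α) (i : ℕ),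
    (C.insertIdx i o).map N = (C.map N).insertIdx i (N o)
  | _, 0 => by simp
  | [], i + 1 => by simp
  | c :: C, i + 1 => by
    rw [List.insertIdx_succ_cons, List.map_cons, List.map_cons, List.insertIdx_succ_cons,
      Ident_map_insert N o C i]

omit [Fintype α] [DecidableEq α] in
theorem Ident_ext (N : α → Finset ℕ) (C : List α) (o : α) (i : ℕ) (hi : i ≤ C.length) :
    mat N C ⊆ mat N (C.insertIdx i o) := by
  unfold mat
  rw [Ident_map_insert]
  exact (greedy_insert (C.map N) (N o) i (by rwa [List.length_map])).subset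

theorem X_zero (N : α → Finset ℕ) : X N 0 = 0 := by
  unfold X
  rw [av_zero]
  simp [mat, greedy]

theorem X_one (N : α → Finset ℕ) (h : ∀ o, (N o).Nonempty) (hc : 1 ≤ Fintype.card α) :
    X N 1 = 1 := by
  unfold X
  rw [av_congr (ψ := fun _ => (1 : ℝ)), av_const hc]
  intro C hC
  obtain ⟨-, hl⟩ := mem_nl.1 hC
  obtain ⟨o, rfl⟩ := List.length_eq_one_iff.1 hl
  have h1 : mat N [o] = step ∅ (N o) := rfl
  rw [h1, card_step, card_empty]
  · simp
  · intro hs
    obtain ⟨e, he⟩ := h o
    exact absurd (hs he) (notMem_empty e)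

theorem X_nonneg (N : α → Finset ℕ) (t : ℕ) : 0 ≤ X N t :=
  av_nonneg fun _ _ => Nat.cast_nonneg _

theorem X_le (N : α → Finset ℕ) (t : ℕ) (ht : t ≤ Fintype.card α) : X N t ≤ t := by
  unfold X
  rw [← av_const (α := α) ht (t : ℝ)]
  apply av_mono
  intro C hC
  obtain ⟨-, hl⟩ := mem_nl.1 hC
  have h1 := card_greedy_le (C.map N)
  rw [List.length_map, hl] at h1
  exact_mod_cast h1

/-- the agents outside `C` whose own object is free -/
noncomputable def IdentA (N : α → Finset ℕ) (own : α → ℕ) (C : List α) : ℝ :=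
  ((univ.filter fun o => o ∉ C ∧ own o ∉ mat N C).card : ℝ)

theorem Ident_count {N : α → Finset ℕ} {own : α → ℕ} (hS : Sys N own) (C : List α) :
    ((univ.filter fun o => o ∉ C ∧ ¬ N o ⊆ mat N C).card : ℝ) = IdentA N own C + Rf N own C := by
  unfold IdentA Rf
  rw [← Nat.cast_add, ← card_union_of_disjoint]
  · congr 2
    ext o
    rw [mem_filter, mem_union, mem_filter, mem_filter]
    have h1 : own o ∉ mat N C → ¬ N o ⊆ mat N C := fun h hs => h (hs (hS.self o))
    constructor
    · rintro ⟨-, h2, h3⟩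
      by_cases h4 : own o ∈ mat N C
      · exact Or.inr ⟨mem_univ _, h2, h4, h3⟩
      · exact Or.inl ⟨mem_univ _, h2, h4⟩
    · rintro (⟨-, h2, h3⟩ | ⟨-, h2, h3, h4⟩)
      · exact ⟨mem_univ _, h2, h1 h3⟩
      · exact ⟨mem_univ _, h2, h4⟩
  · rw [disjoint_filter]
    rintro o - ⟨-, h2⟩ ⟨-, h3, -⟩
    exact h2 h3

theorem Ident_next {N : α → Finset ℕ} {own : α → ℕ} (hS : Sys N own) {t : ℕ}
    (ht : t < Fintype.card α) :
    ((Fintype.card α : ℝ) - t) * (X N (t + 1) - X N t) =
      av α t (IdentA N own) + av α t (Rf N own) := by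
  have hpos : (0 : ℝ) < (Fintype.card α : ℝ) - t := by
    rw [sub_pos]
    exact_mod_cast ht
  have h1 : X N (t + 1) = av α t (fun C => ((mat N C).card : ℝ) +
      (1 / ((Fintype.card α : ℝ) - t)) * (IdentA N own C + Rf N own C)) := by
    unfold X
    rw [av_succ ht]
    apply av_congr
    intro C hC
    rw [← Ident_count hS C]
    have h2 : ∑ o ∈ univ.filter (fun o => o ∉ C), ((mat N (C ++ [o])).card : ℝ) =
        ∑ o ∈ univ.filter (fun o => o ∉ C),
          (((mat N C).card : ℝ) + if ¬ N o ⊆ mat N C then 1 else 0) := by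
      apply sum_congr rfl
      intro o _
      rw [Ident_mat_append]
      by_cases h3 : N o ⊆ mat N C
      · rw [step_eq_self h3, if_neg (not_not.2 h3), add_zero]
      · rw [card_step h3, if_pos h3]
        push_cast
        ring
    rw [h2, sum_add_distrib, sum_const, nsmul_eq_mul, card_compl hC, sum_boole, filter_filter]
    field_simp
  rw [h1, av_add, av_mul, av_add]
  have h3 : X N t = av α t (fun C => ((mat N C).card : ℝ)) := rfl
  rw [h3]
  field_simp
  ring

theorem Ident_free {N : α → Finset ℕ} {own : α → ℕ} (hS : Sys N own) (C : List α) :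
    (Fintype.card α : ℝ) - ((mat N C).card : ℝ) = IdentA N own C +
      ∑ o ∈ C.toFinset, if own o ∉ mat N C then (1 : ℝ) else 0 := by
  have h1 : mat N C ⊆ univ.image own := by
    intro e he
    obtain ⟨L, hL, heL⟩ := mem_greedy he
    obtain ⟨o, -, rfl⟩ := List.mem_map.1 hL
    exact hS.sub o heL
  have h2 : (mat N C).card = (univ.filter fun o => own o ∈ mat N C).card := by
    rw [← card_image_of_injective _ hS.inj]
    congr 1
    ext e
    rw [mem_image]
    constructor
    · intro he
      obtain ⟨o, -, rfl⟩ := mem_image.1 (h1 he)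
      exact ⟨o, mem_filter.2 ⟨mem_univ _, he⟩, rfl⟩
    · rintro ⟨o, ho, rfl⟩
      exact (mem_filter.1 ho).2
  have h3 := card_filter_add_card_filter_not (s := (univ : Finset α)) (fun o => own o ∈ mat N C)
  rw [card_univ] at h3
  have h4 : (Fintype.card α : ℝ) - ((mat N C).card : ℝ) =
      ((univ.filter fun o => own o ∉ mat N C).card : ℝ) := by
    rw [h2, ← h3]
    push_cast
    ring
  rw [h4, sum_boole]
  unfold IdentA
  rw [← Nat.cast_add, ← card_union_of_disjoint]
  · congr 2
    ext o
    rw [mem_filter, mem_union, mem_filter, mem_filter, List.mem_toFinset]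
    constructor
    · rintro ⟨-, h5⟩
      by_cases h6 : o ∈ C
      · exact Or.inr ⟨h6, h5⟩
      · exact Or.inl ⟨mem_univ _, h6, h5⟩
    · rintro (⟨-, -, h5⟩ | ⟨-, h5⟩)
      · exact ⟨mem_univ _, h5⟩
      · exact ⟨mem_univ _, h5⟩
  · rw [disjoint_left]
    intro o ho ho'
    rw [mem_filter] at ho ho'
    rw [List.mem_toFinset] at ho'
    exact ho.2.1 ho'.1

theorem Ident_pf (N : α → Finset ℕ) (own : α → ℕ) {s : ℕ} {C : List α} (hC : C ∈ nl α s) :
    ∑ o ∈ univ.filter (fun o => o ∉ C), ∑ i ∈ range (s + 1),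
      (if own o ∉ mat N (C.insertIdx i o) then (1 : ℝ) else 0) =
      ((s : ℝ) + 1) * IdentA N own C - Pf N own C := by
  obtain ⟨-, hl⟩ := mem_nl.1 hC
  have h1 : ∑ o ∈ univ.filter (fun o => o ∉ C), ∑ i ∈ range (s + 1),
      (if own o ∉ mat N (C.insertIdx i o) then (1 : ℝ) else 0) =
      ∑ o ∈ univ.filter (fun o => o ∉ C), ∑ i ∈ range (s + 1),
      ((if own o ∉ mat N C then (1 : ℝ) else 0) -
        if own o ∈ mat N (C.insertIdx i o) ∧ own o ∉ mat N C then (1 : ℝ) else 0) := by
    apply sum_congr rfl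
    intro o _
    apply sum_congr rfl
    intro i hi
    have h2 := Ident_ext N C o i (by rw [hl]; exact Nat.lt_succ_iff.1 (mem_range.1 hi))
    by_cases h3 : own o ∈ mat N C
    · have h4 := h2 h3
      simp [h3, h4]
    · by_cases h4 : own o ∈ mat N (C.insertIdx i o)
      · simp [h3, h4]
      · simp [h3, h4]
  rw [h1]
  simp only [sum_sub_distrib, sum_const, card_range, nsmul_eq_mul]
  congr 1
  · rw [← mul_sum, sum_boole, filter_filter]
    push_cast
    rfl
  · unfold Pf
    rw [sum_comm, hl]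
    apply sum_congr rfl
    intro i _
    rw [sum_boole, filter_filter]

/-- RK-03. Let `n = card α`, `M(C) = mat N C`, `a(C) = #{o ∉ C : own o ∉ M(C)}`.
(1) The next agent `o` gets an object iff `N o ⊄ M(C)`, and `own o ∉ M(C)` implies this. So by `av_succ`
`(n - t) (X (t+1) - X t) = av t (a + Rf)`, and also (with `t - 1` in place of `t`)
`(n - t + 1) (X t - X (t-1)) = av (t-1) (a + Rf)`.
(2) `M(C)` is contained in the image of the injective map `own`, so `n - card M(C)` is the number of `o` with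
`own o ∉ M(C)`, which is `a(C) + #{o ∈ C : own o ∉ M(C)}`.
(3) By `av_insert` for `t - 1` (with `F i o C C' = 1` if `own o ∉ M(C')` and `0` otherwise):
`(n - t + 1) av t (#{o ∈ C : own o ∉ M(C)}) = av (t-1) (∑_{o ∉ C} ∑_{i < t} [own o ∉ M(C.insertIdx i o)])`,
and since `M(C) ⊆ M(C.insertIdx i o)` (`greedy_insert`) the inner sum is
`∑_{o ∉ C} ∑_{i < t} ([own o ∉ M(C)] - [own o ∈ M(C.insertIdx i o), own o ∉ M(C)]) = t a(C) - Pf(C)`.
(4) Hence `n - X t = av t a + (t av (t-1) a - av (t-1) Pf)/(n - t + 1)`, and by (1)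
`av t a = (n-t)(X(t+1) - X t) - av t Rf`, `av (t-1) a = (n-t+1)(X t - X(t-1)) - av (t-1) Rf`. -/
theorem identity {N : α → Finset ℕ} {own : α → ℕ} (hS : Sys N own) (t : ℕ) (h1 : 1 ≤ t)
    (h2 : t < Fintype.card α) :
    ((Fintype.card α : ℝ) - t) * (X N (t + 1) - X N t) + t * (X N t - X N (t - 1)) + X N t =
      (Fintype.card α : ℝ) + av α t (Rf N own) +
        (t * av α (t - 1) (Rf N own) + av α (t - 1) (Pf N own)) /
          ((Fintype.card α : ℝ) - t + 1) := by
  obtain ⟨s, rfl⟩ : ∃ s, t = s + 1 := ⟨t - 1, by omega⟩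
  rw [Nat.add_sub_cancel]
  have hs : s < Fintype.card α := by omega
  have hpos : (0 : ℝ) < (Fintype.card α : ℝ) - s := by
    rw [sub_pos]
    exact_mod_cast hs
  have e1 := Ident_next hS h2
  have e2 := Ident_next hS hs
  have e3 : (Fintype.card α : ℝ) - X N (s + 1) = av α (s + 1) (IdentA N own) +
      av α (s + 1) (fun C => ∑ o ∈ C.toFinset, if own o ∉ mat N C then (1 : ℝ) else 0) := by
    rw [← av_add, ← av_const (α := α) h2.le (Fintype.card α : ℝ)]
    unfold X
    rw [← av_sub]
    exact av_congr fun C _ => Ident_free hS C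
  have e4 := av_insert (α := α) hs (fun _ o _ C' => if own o ∉ mat N C' then (1 : ℝ) else 0)
  have e5 : av α s (fun C => ∑ o ∈ univ.filter (fun o => o ∉ C), ∑ i ∈ range (s + 1),
      (if own o ∉ mat N (C.insertIdx i o) then (1 : ℝ) else 0)) =
      ((s : ℝ) + 1) * av α s (IdentA N own) - av α s (Pf N own) := by
    rw [← av_mul, ← av_sub]
    exact av_congr fun C hC => Ident_pf N own hC
  rw [e5] at e4
  have e6 : (Fintype.card α : ℝ) - ((s + 1 : ℕ) : ℝ) + 1 = (Fintype.card α : ℝ) - s := by
    push_cast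
    ring
  rw [e6]
  have e7 : X N (s + 1) - X N s = (av α s (IdentA N own) + av α s (Rf N own)) /
      ((Fintype.card α : ℝ) - s) := by
    rw [eq_div_iff hpos.ne', mul_comm]
    exact e2
  have e8 : av α (s + 1) (fun C => ∑ o ∈ C.toFinset, if own o ∉ mat N C then (1 : ℝ) else 0) =
      (((s : ℝ) + 1) * av α s (IdentA N own) - av α s (Pf N own)) /
      ((Fintype.card α : ℝ) - s) := by
    rw [eq_div_iff hpos.ne', mul_comm]
    exact e4.symm
  rw [e1, e7]
  have e9 : X N (s + 1) = (Fintype.card α : ℝ) - av α (s + 1) (IdentA N own) -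
      (((s : ℝ) + 1) * av α s (IdentA N own) - av α s (Pf N own)) /
      ((Fintype.card α : ℝ) - s) := by
    rw [← e8]
    linarith
  rw [e9]
  push_cast
  field_simp
  ring

end Pool.Agent.helper65.RK
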