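import Pool.Agent.helper65.RK.NL
import Pool.Agent.helper65.RK.Mono

set_option autoImplicit false

/-!
# RK-05 : the monotone system
-/

namespace Pool.Agent.helper65.RK

open Finset

theorem sysK (n : ℕ) : Sys (NK n) (ownK n) := by
  refine ⟨fun a b h => Fin.ext h, fun o => ?_, fun o e he => ?_⟩
  · simp [NK, ownK]
  · rw [NK, mem_range] at he
    have ho := o.isLt
    exact mem_image.2 ⟨⟨e, by omega⟩, mem_univ _, rfl⟩

/-! ## The heights -/

/-- The height after the agents of the list, starting at height `f`. -/
def KNg {n : ℕ} (f : ℕ) (C : List (Fin n)) : ℕ :=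
  C.foldl (fun (f : ℕ) (o : Fin n) => if f ≤ (o : ℕ) then f + 1 else f) f

theorem KNg_nil {n : ℕ} (f : ℕ) : KNg f ([] : List (Fin n)) = f := rfl

theorem KNg_cons {n : ℕ} (f : ℕ) (o : Fin n) (C : List (Fin n)) :
    KNg f (o :: C) = KNg (if f ≤ (o : ℕ) then f + 1 else f) C := rfl

theorem KNg_append {n : ℕ} (f : ℕ) (A B : List (Fin n)) :
    KNg f (A ++ B) = KNg (KNg f A) B := by
  unfold KNg
  rw [List.foldl_append]

theorem KNg_le {n : ℕ} (f : ℕ) (C : List (Fin n)) : KNg f C ≤ f + C.length := by
  induction C generalizing f with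
  | nil => simp [KNg_nil]
  | cons o C ih =>
    rw [KNg_cons, List.length_cons]
    refine (ih _).trans ?_
    split_ifs <;> omega

theorem KNg_ge {n : ℕ} (f : ℕ) (C : List (Fin n)) : f ≤ KNg f C := by
  induction C generalizing f with
  | nil => simp [KNg_nil]
  | cons o C ih =>
    rw [KNg_cons]
    refine le_trans ?_ (ih _)
    split_ifs <;> omega

theorem KN_step {n : ℕ} (f : ℕ) (o : Fin n) :
    step (range f) (NK n o) = range (if f ≤ (o : ℕ) then f + 1 else f) := by
  split_ifs with h
  · rw [range_add_one]
    apply step_eq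
    · rw [NK, mem_range]
      omega
    · simp
    · intro g _ hg
      rw [mem_range] at hg
      omega
  · apply step_eq_self
    intro e he
    rw [NK, mem_range] at he
    rw [mem_range]
    omega

theorem KN_foldl {n : ℕ} (f : ℕ) (C : List (Fin n)) :
    (C.map (NK n)).foldl step (range f) = range (KNg f C) := by
  induction C generalizing f with
  | nil => rfl
  | cons o C ih =>
    rw [List.map_cons, List.foldl_cons, KN_step, ih, KNg_cons]

theorem KN_mat {n : ℕ} (C : List (Fin n)) : mat (NK n) C = range (KNg 0 C) := by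
  have h := KN_foldl 0 C
  rw [range_zero] at h
  exact h

/-- The taken objects form an initial segment. -/
theorem mat_NK (n : ℕ) (C : List (Fin n)) : ∃ f, f ≤ C.length ∧ mat (NK n) C = range f := by
  refine ⟨KNg 0 C, ?_, KN_mat C⟩
  have h := KNg_le 0 C
  omega

theorem Rf_NK (n : ℕ) (C : List (Fin n)) : Rf (NK n) (ownK n) C = 0 := by
  unfold Rf
  rw [KN_mat, Nat.cast_eq_zero, card_eq_zero, filter_eq_empty_iff]
  rintro o - ⟨-, h1, h2⟩
  apply h2
  intro e he
  rw [ownK, mem_range] at h1
  rw [NK, mem_range] at he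
  rw [mem_range]
  omega

/-- The insertion of one agent increases the height by at most one. -/
theorem KN_insert {n : ℕ} (C : List (Fin n)) (o : Fin n) (i : ℕ) (hi : i ≤ C.length) :
    KNg 0 (C.insertIdx i o) = KNg 0 C ∨ KNg 0 (C.insertIdx i o) = KNg 0 C + 1 := by
  rw [Mono_insertIdx C o i hi, KNg_append, KNg_append]
  have h : KNg 0 C = KNg (KNg 0 (C.take i)) (C.drop i) := by
    rw [← KNg_append, List.take_append_drop]
  rw [h, KNg_cons, KNg_nil]
  generalize KNg 0 (C.take i) = f
  generalize C.drop i = B
  have key : ∀ (B : List (Fin n)) (f : ℕ),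
      KNg (f + 1) B = KNg f B ∨ KNg (f + 1) B = KNg f B + 1 := by
    intro B
    induction B with
    | nil => intro f; right; rfl
    | cons b B ih =>
      intro f
      rw [KNg_cons, KNg_cons]
      by_cases h1 : f + 1 ≤ (b : ℕ)
      · rw [if_pos h1, if_pos (by omega)]
        exact ih (f + 1)
      · rw [if_neg h1]
        by_cases h2 : f ≤ (b : ℕ)
        · rw [if_pos h2]
          exact Or.inl rfl
        · rw [if_neg h2]
          exact ih f
  split_ifs with h1
  · exact key B f
  · exact Or.inl rfl

/-- The summand of `Pf` at the place `i`. -/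
theorem KN_summand_le {n : ℕ} (C : List (Fin n)) (i : ℕ) (hi : i ≤ C.length) :
    (univ.filter fun o => o ∉ C ∧ ownK n o ∈ mat (NK n) (C.insertIdx i o) ∧
      ownK n o ∉ mat (NK n) C).card ≤ 1 := by
  rw [card_le_one]
  have key : ∀ o ∈ univ.filter (fun o => o ∉ C ∧ ownK n o ∈ mat (NK n) (C.insertIdx i o) ∧
      ownK n o ∉ mat (NK n) C), (o : ℕ) = KNg 0 C := by
    intro o ho
    obtain ⟨-, -, h1, h2⟩ := mem_filter.1 ho
    rw [KN_mat, ownK, mem_range] at h1 h2
    rcases KN_insert C o i hi with h | h <;> omega
  intro a ha b hb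
  exact Fin.ext ((key a ha).trans (key b hb).symm)

/-- For every place `i` at most one agent counts, by `Ext.unique`. -/
theorem Pf_NK_le (n : ℕ) (C : List (Fin n)) : Pf (NK n) (ownK n) C ≤ C.length + 1 := by
  unfold Pf
  calc ∑ i ∈ range (C.length + 1), ((univ.filter fun o => o ∉ C ∧
        ownK n o ∈ mat (NK n) (C.insertIdx i o) ∧ ownK n o ∉ mat (NK n) C).card : ℝ)
      ≤ ∑ i ∈ range (C.length + 1), (1 : ℝ) := by
        refine sum_le_sum fun i hi => ?_
        rw [mem_range] at hi
        exact_mod_cast KN_summand_le C i (by omega)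
    _ = C.length + 1 := by simp

/-! ## Hits -/

/-- Without hits an additional object stays additional. -/
theorem KN_nohit {n : ℕ} (B : List (Fin n)) (f : ℕ)
    (h : ∀ (u : ℕ) (o : Fin n), B[u]? = some o → (o : ℕ) ≠ KNg f (B.take u)) : KNg (f + 1) B = KNg f B + 1 := by
  induction B generalizing f with
  | nil => rfl
  | cons b B ih =>
    have h0 : (b : ℕ) ≠ f := h 0 b rfl
    have h' : ∀ (u : ℕ) (o : Fin n), B[u]? = some o →
        (o : ℕ) ≠ KNg (if f ≤ (b : ℕ) then f + 1 else f) (B.take u) := by
      intro u o hu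
      have := h (u + 1) o (by simpa using hu)
      rwa [List.take_succ_cons, KNg_cons] at this
    rw [KNg_cons, KNg_cons]
    by_cases h1 : f ≤ (b : ℕ)
    · rw [if_pos h1, if_pos (by omega)]
      rw [if_pos h1] at h'
      exact ih (f + 1) h'
    · rw [if_neg h1, if_neg (by omega)]
      rw [if_neg h1] at h'
      exact ih f h'

open Classical in
/-- The indicator of a hit at the place `u`. -/
noncomputable def KNφ {n : ℕ} (u : ℕ) (C : List (Fin n)) : ℝ :=
  if ∃ o, C[u]? = some o ∧ (o : ℕ) = KNg 0 (C.take u) then 1 else 0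

/-- The number of agents of the list with the number `f(C)`. -/
noncomputable def KNκ {n : ℕ} (C : List (Fin n)) : ℝ :=
  ∑ o ∈ C.toFinset, if (o : ℕ) = KNg 0 C then (1 : ℝ) else 0

theorem KNφ_nonneg {n : ℕ} (u : ℕ) (C : List (Fin n)) : 0 ≤ KNφ u C := by
  unfold KNφ
  split_ifs <;> norm_num

theorem KNκ_nonneg {n : ℕ} (C : List (Fin n)) : 0 ≤ KNκ C := by
  unfold KNκ
  refine sum_nonneg fun o _ => ?_
  split_ifs <;> norm_num

/-- At most one agent has a given number. -/
theorem KN_sum_le {n : ℕ} (s : Finset (Fin n)) (f : ℕ) :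
    ∑ o ∈ s, (if (o : ℕ) = f then (1 : ℝ) else 0) ≤ 1 := by
  rw [sum_boole]
  have h : (s.filter fun o : Fin n => (o : ℕ) = f).card ≤ 1 := by
    rw [card_le_one]
    intro a ha b hb
    exact Fin.ext ((mem_filter.1 ha).2.trans (mem_filter.1 hb).2.symm)
  exact_mod_cast h

/-- The pointwise estimate. -/
theorem KN_pointwise {n s : ℕ} (hn : s < n) (C : List (Fin n)) (hC : C.length = s) :
    ((s : ℝ) + 1) * (1 - (∑ u ∈ range s, KNφ u C) - KNκ C) ≤ Pf (NK n) (ownK n) C := by
  by_cases h : (∀ u ∈ range s, KNφ u C = 0) ∧ KNκ C = 0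
  · obtain ⟨h1, h2⟩ := h
    rw [sum_eq_zero h1, h2, sub_zero, sub_zero, mul_one]
    have hle : KNg 0 C ≤ s := by
      have := KNg_le 0 C
      omega
    -- the agent with the number `f(C)`
    let o : Fin n := ⟨KNg 0 C, by omega⟩
    have ho : o ∉ C := by
      intro hmem
      have h3 : (1 : ℝ) ≤ KNκ C := by
        unfold KNκ
        have h4 : (if (o : ℕ) = KNg 0 C then (1 : ℝ) else 0) = 1 := if_pos rfl
        exact h4.symm.le.trans
          (single_le_sum (f := fun o : Fin n => if (o : ℕ) = KNg 0 C then (1 : ℝ) else 0)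
            (fun o _ => by split_ifs <;> norm_num) (List.mem_toFinset.2 hmem))
      rw [h2] at h3
      norm_num at h3
    have hnohit : ∀ (u : ℕ) (o' : Fin n), C[u]? = some o' → (o' : ℕ) ≠ KNg 0 (C.take u) := by
      intro u o' hu heq
      have hus : u < s := by
        by_contra hcon
        rw [List.getElem?_eq_none (by omega)] at hu
        exact absurd hu (by simp)
      have h3 := h1 u (mem_range.2 hus)
      unfold KNφ at h3
      rw [if_pos ⟨o', hu, heq⟩] at h3
      norm_num at h3
    have hone : ∀ i ∈ range (C.length + 1), (1 : ℝ) ≤ ((univ.filter fun o => o ∉ C ∧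
        ownK n o ∈ mat (NK n) (C.insertIdx i o) ∧ ownK n o ∉ mat (NK n) C).card : ℝ) := by
      intro i hi
      rw [mem_range] at hi
      have hpos : 0 < (univ.filter fun o => o ∉ C ∧
          ownK n o ∈ mat (NK n) (C.insertIdx i o) ∧ ownK n o ∉ mat (NK n) C).card := by
        rw [card_pos]
        refine ⟨o, mem_filter.2 ⟨mem_univ _, ho, ?_, ?_⟩⟩
        · rw [KN_mat, ownK, mem_range]
          have hsplit : KNg 0 C = KNg (KNg 0 (C.take i)) (C.drop i) := by
            rw [← KNg_append, List.take_append_drop]
          have hge := KNg_ge (KNg 0 (C.take i)) (C.drop i)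
          have hins : KNg 0 (C.insertIdx i o) = KNg 0 C + 1 := by
            rw [Mono_insertIdx C o i (by omega), KNg_append, KNg_append, KNg_cons, KNg_nil,
              if_pos (show KNg 0 (C.take i) ≤ (o : ℕ) from by
                show KNg 0 (C.take i) ≤ KNg 0 C
                omega), hsplit]
            apply KN_nohit
            intro u o' hu
            rw [List.getElem?_drop] at hu
            have h5 := hnohit (i + u) o' hu
            rwa [List.take_add, KNg_append] at h5
          rw [hins]
          show KNg 0 C < KNg 0 C + 1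
          omega
        · rw [KN_mat, ownK, mem_range]
          show ¬ KNg 0 C < KNg 0 C
          omega
      exact_mod_cast hpos
    unfold Pf
    calc (s : ℝ) + 1 = ∑ i ∈ range (C.length + 1), (1 : ℝ) := by simp [hC]
      _ ≤ _ := sum_le_sum hone
  · have hge : (1 : ℝ) ≤ (∑ u ∈ range s, KNφ u C) + KNκ C := by
      rw [not_and_or] at h
      rcases h with h | h
      · push Not at h
        obtain ⟨u, hu, hne⟩ := h
        have h1 : KNφ u C = 1 := by
          unfold KNφ at hne ⊢
          split_ifs at hne ⊢ with h3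
          · rfl
          · exact absurd rfl hne
        have h2 : KNφ u C ≤ ∑ u ∈ range s, KNφ u C :=
          single_le_sum (f := fun u => KNφ u C) (fun u _ => KNφ_nonneg u C) hu
        have h3 := KNκ_nonneg C
        linarith
      · have h1 : (1 : ℝ) ≤ KNκ C := by
          unfold KNκ at h ⊢
          rw [sum_boole] at h ⊢
          have h4 : (C.toFinset.filter fun o : Fin n => (o : ℕ) = KNg 0 C).card ≠ 0 := by
            intro h5
            exact h (by rw [h5]; norm_num)
          exact_mod_cast Nat.one_le_iff_ne_zero.2 h4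
        have h2 : 0 ≤ ∑ u ∈ range s, KNφ u C := sum_nonneg fun u _ => KNφ_nonneg u C
        linarith
    have hP : 0 ≤ Pf (NK n) (ownK n) C := by
      unfold Pf
      exact sum_nonneg fun i _ => Nat.cast_nonneg _
    have hs : (0 : ℝ) ≤ (s : ℝ) + 1 := by positivity
    have : ((s : ℝ) + 1) * (1 - (∑ u ∈ range s, KNφ u C) - KNκ C) ≤ 0 :=
      mul_nonpos_of_nonneg_of_nonpos hs (by linarith)
    linarith

/-- The average of a hit. -/
theorem KN_av_φ {n s u : ℕ} (hu : u < s) (hs : s < n) :
    av (Fin n) s (KNφ u) ≤ 1 / ((n : ℝ) - s) := by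
  have hcard : Fintype.card (Fin n) = n := Fintype.card_fin n
  have h1 : av (Fin n) s (KNφ u) = av (Fin n) (u + 1) (KNφ u) := by
    rw [← av_take (show u + 1 ≤ s by omega) (by rw [hcard]; omega) (KNφ u)]
    refine av_congr fun C _ => ?_
    unfold KNφ
    have e1 : (C.take (u + 1))[u]? = C[u]? := by
      rw [List.getElem?_take, if_pos (by omega)]
    have e2 : (C.take (u + 1)).take u = C.take u := by
      rw [List.take_take, min_eq_left (by omega)]
    rw [e1, e2]
  rw [h1, av_succ (by rw [hcard]; omega), hcard]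
  have hnu : (0 : ℝ) < (n : ℝ) - s := by
    have : (s : ℝ) < n := by exact_mod_cast hs
    linarith
  have hnu' : (n : ℝ) - s ≤ (n : ℝ) - u := by
    have : (u : ℝ) < s := by exact_mod_cast hu
    linarith
  calc av (Fin n) u (fun C => (∑ o ∈ univ.filter (fun o => o ∉ C), KNφ u (C ++ [o])) /
        ((n : ℝ) - u)) ≤ av (Fin n) u (fun _ => 1 / ((n : ℝ) - s)) := by
        refine av_mono fun C hC => ?_
        have hl := (mem_nl.1 hC).2
        have h2 : ∀ o ∈ univ.filter (fun o => o ∉ C), KNφ u (C ++ [o]) =
            if (o : ℕ) = KNg 0 C then (1 : ℝ) else 0 := by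
          intro o _
          unfold KNφ
          have e1 : (C ++ [o])[u]? = some o := by
            rw [← hl]
            simp
          have e2 : (C ++ [o]).take u = C := by
            rw [← hl]
            simp
          rw [e1, e2]
          by_cases h3 : (o : ℕ) = KNg 0 C
          · rw [if_pos h3, if_pos ⟨o, rfl, h3⟩]
          · rw [if_neg h3, if_neg]
            rintro ⟨o', ho', h4⟩
            rw [Option.some.injEq] at ho'
            subst ho'
            exact h3 h4
        rw [sum_congr rfl h2]
        calc _ ≤ 1 / ((n : ℝ) - u) := by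
              apply div_le_div_of_nonneg_right (KN_sum_le _ _)
              linarith
          _ ≤ 1 / ((n : ℝ) - s) := one_div_le_one_div_of_le hnu hnu'
    _ = 1 / ((n : ℝ) - s) := av_const (by rw [hcard]; omega) _

/-- The average of `KNκ`. -/
theorem KN_av_κ {n s : ℕ} (hs : s < n) :
    av (Fin n) s KNκ ≤ 2 * (s : ℝ) / ((n : ℝ) - s) := by
  have hcard : Fintype.card (Fin n) = n := Fintype.card_fin n
  cases s with
  | zero =>
    rw [av_zero]
    simp [KNκ]
  | succ r =>
    have h := av_insert (α := Fin n) (t := r) (by rw [hcard]; omega)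
      (fun _ o _ C' => if (o : ℕ) = KNg 0 C' then (1 : ℝ) else 0)
    rw [hcard] at h
    have hpos : (0 : ℝ) < (n : ℝ) - r := by
      have : ((r + 1 : ℕ) : ℝ) < n := by exact_mod_cast hs
      push_cast at this
      linarith
    have hpos' : (0 : ℝ) < (n : ℝ) - ((r + 1 : ℕ) : ℝ) := by
      have : ((r + 1 : ℕ) : ℝ) < n := by exact_mod_cast hs
      linarith
    have hb : ((n : ℝ) - r) * av (Fin n) (r + 1) KNκ ≤ 2 * ((r : ℝ) + 1) := by
      have e : av (Fin n) (r + 1) (fun C => ∑ o ∈ C.toFinset,
          if (o : ℕ) = KNg 0 C then (1 : ℝ) else 0) = av (Fin n) (r + 1) KNκ := rfl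
      rw [← e, ← h]
      calc _ ≤ av (Fin n) r (fun _ => 2 * ((r : ℝ) + 1)) := by
            refine av_mono fun C hC => ?_
            have hl := (mem_nl.1 hC).2
            rw [sum_comm]
            calc _ ≤ ∑ i ∈ range (r + 1), (2 : ℝ) := by
                  refine sum_le_sum fun i hi => ?_
                  rw [mem_range] at hi
                  calc _ ≤ ∑ o ∈ univ.filter (fun o => o ∉ C),
                        ((if (o : ℕ) = KNg 0 C then (1 : ℝ) else 0) +
                          (if (o : ℕ) = KNg 0 C + 1 then (1 : ℝ) else 0)) := by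
                        refine sum_le_sum fun o _ => ?_
                        rcases KN_insert C o i (by omega) with h1 | h1
                        · rw [h1]
                          have : (0 : ℝ) ≤ if (o : ℕ) = KNg 0 C + 1 then (1 : ℝ) else 0 := by
                            split_ifs <;> norm_num
                          linarith
                        · rw [h1]
                          have : (0 : ℝ) ≤ if (o : ℕ) = KNg 0 C then (1 : ℝ) else 0 := by
                            split_ifs <;> norm_num
                          linarith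
                    _ ≤ 2 := by
                        rw [sum_add_distrib]
                        have h3 := KN_sum_le (univ.filter (fun o => o ∉ C)) (KNg 0 C)
                        have h4 := KN_sum_le (univ.filter (fun o => o ∉ C)) (KNg 0 C + 1)
                        linarith
              _ = 2 * ((r : ℝ) + 1) := by
                  rw [sum_const, card_range, nsmul_eq_mul]
                  push_cast
                  ring
        _ = 2 * ((r : ℝ) + 1) := av_const (by rw [hcard]; omega) _
    have h5 : av (Fin n) (r + 1) KNκ ≤ 2 * ((r : ℝ) + 1) / ((n : ℝ) - r) := by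
      rw [le_div_iff₀ hpos]
      linarith
    refine h5.trans ?_
    push_cast
    apply div_le_div_of_nonneg_left (by positivity)
    · push_cast at hpos'
      linarith
    · linarith

/-- RK-05. Let `C` have length `t - 1` and let `f(C)` be the number with `mat (NK n) C = range f(C)` (an agent `o` gets an object iff
`f ≤ o` for the current height `f`). Say that there is a hit at `u` if
`C[u] = f(C.take u)` (as numbers). If there is no hit and the number `f(C)` is not in `C` (note `f(C) ≤ t - 1 < n`) then the
agent `o` with number `f(C)` counts for every place `i = 0, ..., t - 1`: after the insertion the taken objects are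
`range (f(C.take u) + 1)` at all later times `u` (an agent `C[u]` gets an object in the old process iff
`f(C.take u) ≤ C[u]`, and then `f(C.take u) < C[u]`, no hit, so also in the new process). So
`Pf C ≥ t` for such `C`. The average number of hits is at most `∑_{u<t-1} 1/(n-u) ≤ (t-1)/(n-t)` (reveal the agent
number `u`: `av_take`, `av_succ`). The average of the number of `o ∈ C` with `o = f(C)` (as numbers) is by `av_insert` for `t - 2`
at most `2 (t-1)/(n-t+2)`: `o = f(C'.insertIdx i o)` implies `o = f(C')` or `o = f(C') + 1` (`greedy_insert`),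
so for every `C'` and every place `i` at most two agents `o` count. Hence the average of `Pf` is at least
`t (1 - 3 t/(n-t)) ≥ t - 4 t²/n`, because `n - t ≥ 3n/4`. (`t = 1` is trivial: `C = []`, `f = 0`.) -/
theorem av_Pf_NK (n t : ℕ) (h1 : 1 ≤ t) (h4 : 4 * t ≤ n) :
    (t : ℝ) - 4 * (t : ℝ) ^ 2 / n ≤ av (Fin n) (t - 1) (Pf (NK n) (ownK n)) := by
  have hcard : Fintype.card (Fin n) = n := Fintype.card_fin n
  obtain ⟨s, rfl⟩ : ∃ s, t = s + 1 := ⟨t - 1, by omega⟩
  rw [Nat.add_sub_cancel]
  have hs : s < n := by omega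
  have hn : (0 : ℝ) < n := by
    have : 0 < n := by omega
    exact_mod_cast this
  have h4' : 4 * ((s : ℝ) + 1) ≤ n := by exact_mod_cast h4
  have hs0 : (0 : ℝ) ≤ s := Nat.cast_nonneg _
  have hns : (0 : ℝ) < (n : ℝ) - s := by linarith
  have hsum : av (Fin n) s (fun C => ∑ u ∈ range s, KNφ u C) ≤ s * (1 / ((n : ℝ) - s)) := by
    rw [av_sum]
    calc ∑ u ∈ range s, av (Fin n) s (KNφ u) ≤ ∑ u ∈ range s, 1 / ((n : ℝ) - s) :=
          sum_le_sum fun u hu => KN_av_φ (mem_range.1 hu) hs
      _ = s * (1 / ((n : ℝ) - s)) := by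
          rw [sum_const, card_range, nsmul_eq_mul]
  have hκ := KN_av_κ hs
  have hmain : ((s : ℝ) + 1) * (1 - av (Fin n) s (fun C => ∑ u ∈ range s, KNφ u C) -
      av (Fin n) s KNκ) ≤ av (Fin n) s (Pf (NK n) (ownK n)) := by
    have e : av (Fin n) s (fun C => ((s : ℝ) + 1) * (1 - (∑ u ∈ range s, KNφ u C) - KNκ C)) =
        ((s : ℝ) + 1) * (1 - av (Fin n) s (fun C => ∑ u ∈ range s, KNφ u C) -
          av (Fin n) s KNκ) := by
      rw [av_mul, av_sub s (fun C => 1 - ∑ u ∈ range s, KNφ u C) KNκ,
        av_sub s (fun _ => (1 : ℝ)) (fun C => ∑ u ∈ range s, KNφ u C),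
        av_const (by rw [hcard]; omega)]
    rw [← e]
    exact av_mono fun C hC => KN_pointwise hs C (mem_nl.1 hC).2
  refine le_trans ?_ hmain
  have hlow : ((s : ℝ) + 1) * (1 - 3 * s / ((n : ℝ) - s)) ≤
      ((s : ℝ) + 1) * (1 - av (Fin n) s (fun C => ∑ u ∈ range s, KNφ u C) -
        av (Fin n) s KNκ) := by
    apply mul_le_mul_of_nonneg_left _ (by positivity)
    have e : 3 * (s : ℝ) / ((n : ℝ) - s) =
        s * (1 / ((n : ℝ) - s)) + 2 * (s : ℝ) / ((n : ℝ) - s) := by
      field_simp
      ring
    rw [e]
    linarith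
  refine le_trans ?_ hlow
  have hfrac : 3 * (s : ℝ) / ((n : ℝ) - s) ≤ 4 * ((s : ℝ) + 1) / n := by
    rw [div_le_div_iff₀ hns hn]
    nlinarith
  have e2 : ((s + 1 : ℕ) : ℝ) - 4 * ((s + 1 : ℕ) : ℝ) ^ 2 / n =
      ((s : ℝ) + 1) * (1 - 4 * ((s : ℝ) + 1) / n) := by
    push_cast
    field_simp
  rw [e2]
  apply mul_le_mul_of_nonneg_left _ (by positivity)
  linarith

end Pool.Agent.helper65.RK
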