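import Pool.Agent.helper65.RK.AsmQ
import Pool.Agent.helper65.RK.AsmW
import Pool.Agent.helper65.RK.AvgId
import Pool.Agent.helper65.RK.KN
import Pool.Agent.helper65.RK.Ident

set_option autoImplicit false

/-!
# RK-43 : the difference of the right sides
-/

namespace Pool.Agent.helper65.RK

open Finset

variable {L n n' : ℕ}

/-- The difference of the right sides of the identities. -/
noncomputable def DeltaR (L n n' t : ℕ) : ℝ :=
  EG (eta L) (4 * L ^ 13) n' t (RL (4 * L ^ 13) (L ^ 7)) +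
    (t * EG (eta L) (4 * L ^ 13) n' (t - 1) (RL (4 * L ^ 13) (L ^ 7)) +
      EG (eta L) (4 * L ^ 13) n' (t - 1) (PL (4 * L ^ 13) (L ^ 7))) / ((n : ℝ) - t + 1) -
    av (Fin n) (t - 1) (Pf (NK n) (ownK n)) / ((n : ℝ) - t + 1)

/-- The difference of the solutions. -/
noncomputable def DX (L n n' t : ℕ) : ℝ :=
  XG (eta L) (4 * L ^ 13) (L ^ 7) n' t - X (NK n) t

theorem DX_zero (L n n' : ℕ) : DX L n n' 0 = 0 := by
  unfold DX
  rw [XG_zero, X_zero, sub_zero]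

theorem Par.DX_one (h : Par L n n') : DX L n n' 1 = 0 := by
  unfold DX
  have hg1 : 1 ≤ L ^ 7 := Nat.one_le_pow _ _ (le_trans (by norm_num) h.B.big)
  have h13 : 1 ≤ L ^ 13 := Nat.one_le_pow _ _ (le_trans (by norm_num) h.B.big)
  have hn : 1 ≤ n := by
    have := h.hn
    omega
  rw [XG_one hg1 (by omega), X_one, sub_self]
  · intro o
    exact ⟨0, by simp [NK]⟩
  · simpa using hn

theorem Par.DX_rec (h : Par L n n') {t : ℕ} (h1 : 1 ≤ t) (ht : t ≤ 2 * L ^ 13) :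
    ((n : ℝ) - t) * (DX L n n' (t + 1) - DX L n n' t) +
      t * (DX L n n' t - DX L n n' (t - 1)) + DX L n n' t = DeltaR L n n' t := by
  have hg1 : 1 ≤ L ^ 7 := Nat.one_le_pow _ _ (le_trans (by norm_num) h.B.big)
  have e1 := XG_identity (m := 4 * L ^ 13) (g := L ^ 7) (n' := n') (η := eta L) hg1 t h1
    (by omega) (h.t_lt ht)
  have e2 := identity (sysK n) t h1 (by
    have := h.t_lt ht
    rw [h.hn] at this
    simpa using this)
  rw [h.cast] at e1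
  have e3 : ∀ s, av (Fin n) s (Rf (NK n) (ownK n)) = 0 := by
    intro s
    have : av (Fin n) s (Rf (NK n) (ownK n)) = av (Fin n) s (fun _ => (0 : ℝ) * 0) := by
      apply av_congr
      intro C _
      rw [Rf_NK]
      ring
    rw [this, av_mul]
    ring
  rw [e3, e3] at e2
  simp only [Fintype.card_fin, mul_zero, zero_add, add_zero] at e2
  unfold DX DeltaR
  have e4 := congrArg₂ (fun a b : ℝ => a - b) e1 e2
  linarith

theorem Par.K_low (h : Par L n n') {t : ℕ} (h1 : 1 ≤ t) (ht : t ≤ 2 * L ^ 13) :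
    (t : ℝ) - 16 * (L : ℝ) ^ 2 ≤ av (Fin n) (t - 1) (Pf (NK n) (ownK n)) ∧
      0 ≤ (t : ℝ) - 4 * (t : ℝ) ^ 2 / n ∧
      (t : ℝ) - 4 * (t : ℝ) ^ 2 / n ≤ av (Fin n) (t - 1) (Pf (NK n) (ownK n)) := by
  have ht' : (t : ℝ) ≤ 2 * (L : ℝ) ^ 13 := by exact_mod_cast ht
  have hn := h.npos
  have h4 := h.t_small ht'
  have ht0 : (0 : ℝ) ≤ t := by positivity
  have h5 : 4 * t ≤ n := by
    have : (4 : ℝ) * t ≤ n := by linarith
    exact_mod_cast this
  have e := av_Pf_NK n t h1 h5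
  refine ⟨?_, ?_, e⟩
  · refine le_trans ?_ e
    have : 4 * (t : ℝ) ^ 2 / n ≤ 16 * (L : ℝ) ^ 2 := by
      rw [div_le_iff₀ hn]
      calc 4 * (t : ℝ) ^ 2 ≤ 4 * (2 * (L : ℝ) ^ 13) ^ 2 := by gcongr
        _ = 16 * (L : ℝ) ^ 2 * (L : ℝ) ^ 24 := by ring
        _ ≤ 16 * (L : ℝ) ^ 2 * n := mul_le_mul_of_nonneg_left h.loR (by positivity)
    linarith
  · have : 4 * (t : ℝ) ^ 2 / n ≤ t := by
      rw [div_le_iff₀ hn]
      nlinarith
    linarith

theorem Par.K_up (h : Par L n n') {t : ℕ} (h1 : 1 ≤ t) (ht : t ≤ 2 * L ^ 13) :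
    av (Fin n) (t - 1) (Pf (NK n) (ownK n)) ≤ t := by
  have hlt := h.t_lt ht
  rw [h.hn] at hlt
  calc av (Fin n) (t - 1) (Pf (NK n) (ownK n)) ≤ av (Fin n) (t - 1) (fun _ => (t : ℝ)) := by
        apply av_mono
        intro C hC
        refine (Pf_NK_le n C).trans ?_
        rw [mem_nl] at hC
        rw [hC.2]
        have : ((t - 1 : ℕ) : ℝ) = t - 1 := by
          rw [Nat.cast_sub h1, Nat.cast_one]
        rw [this]
        linarith
    _ = t := av_const (by simp; omega) _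

theorem EG_RL_nonneg (η : ℝ) (h0 : 0 ≤ η) (h1 : η ≤ 1) (m g n' t : ℕ) :
    0 ≤ EG η m n' t (RL m g) :=
  av_nonneg fun _ _ => EW_nonneg h0 h1 fun _ _ => RL_nonneg _ _ _

theorem EG_PL_nonneg (η : ℝ) (h0 : 0 ≤ η) (h1 : η ≤ 1) (m g n' t : ℕ) :
    0 ≤ EG η m n' t (PL m g) :=
  av_nonneg fun _ _ => EW_nonneg h0 h1 fun _ _ => PL_nonneg _ _ _

/-- Lower bound. -/
theorem Par.Delta_low (h : Par L n n') {t : ℕ} (h1 : 1 ≤ t) (ht : t ≤ 2 * L ^ 13) :
    -(4 * (L : ℝ) ^ 13 / n) ≤ DeltaR L n n' t := by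
  have hη0 := h.B.eta_pos
  have hη1 := h.B.eta_le
  have hn := h.npos
  have ht' : (t : ℝ) ≤ 2 * (L : ℝ) ^ 13 := by exact_mod_cast ht
  have h4 := h.t_small ht'
  have ht0 : (0 : ℝ) ≤ t := by positivity
  have a1 := EG_RL_nonneg (eta L) hη0.le (by linarith) (4 * L ^ 13) (L ^ 7) n' t
  have a2 := EG_RL_nonneg (eta L) hη0.le (by linarith) (4 * L ^ 13) (L ^ 7) n' (t - 1)
  have a3 := EG_PL_nonneg (eta L) hη0.le (by linarith) (4 * L ^ 13) (L ^ 7) n' (t - 1)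
  have a4 := h.K_up h1 ht
  have hp : (0 : ℝ) < n - t + 1 := by linarith
  have a5 : 0 ≤ (t * EG (eta L) (4 * L ^ 13) n' (t - 1) (RL (4 * L ^ 13) (L ^ 7)) +
      EG (eta L) (4 * L ^ 13) n' (t - 1) (PL (4 * L ^ 13) (L ^ 7))) / ((n : ℝ) - t + 1) := by
    apply div_nonneg _ hp.le
    have := mul_nonneg ht0 a2
    linarith
  have a6 : av (Fin n) (t - 1) (Pf (NK n) (ownK n)) / ((n : ℝ) - t + 1) ≤
      4 * (L : ℝ) ^ 13 / n := by
    rw [div_le_div_iff₀ hp hn]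
    have b1 : av (Fin n) (t - 1) (Pf (NK n) (ownK n)) * n ≤ t * n :=
      mul_le_mul_of_nonneg_right a4 hn.le
    have b2 : (t : ℝ) * n ≤ 2 * (L : ℝ) ^ 13 * n := mul_le_mul_of_nonneg_right ht' hn.le
    have b3 : 4 * (L : ℝ) ^ 13 * (n / 2) ≤ 4 * (L : ℝ) ^ 13 * ((n : ℝ) - t + 1) :=
      mul_le_mul_of_nonneg_left (by linarith) (by positivity)
    linarith
  unfold DeltaR
  linarith

/-- The main part of the difference. -/
noncomputable def MR (L t : ℕ) : ℝ :=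
  2 * eta L * t * eW (eta L) t - 4 * eta L * ∑ u ∈ range t, eW (eta L) u

/-- Upper bound. -/
theorem Par.Delta_up (h : Par L n n') {t : ℕ} (h1 : 1 ≤ t) (ht : t ≤ 2 * L ^ 13) :
    (n : ℝ) * DeltaR L n n' t ≤ MR L t + eta L ^ 2 * (t : ℝ) ^ 2 + (L : ℝ) ^ 12 := by
  have hη0 := h.B.eta_pos
  have hη1 := h.B.eta_le
  have hl := h.B.one_le
  have hb := h.B.bigR
  have hn := h.npos
  have ht' : (t : ℝ) ≤ 2 * (L : ℝ) ^ 13 := by exact_mod_cast ht
  have ht1' : (1 : ℝ) ≤ t := by exact_mod_cast h1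
  have h4 := h.t_small ht'
  have ht0 : (0 : ℝ) ≤ t := by positivity
  have hlo := h.loR
  set η := eta L with hη
  set W := EG η (4 * L ^ 13) n' t (RL (4 * L ^ 13) (L ^ 7)) with hW
  set W' := EG η (4 * L ^ 13) n' (t - 1) (RL (4 * L ^ 13) (L ^ 7)) with hW'
  set P' := EG η (4 * L ^ 13) n' (t - 1) (PL (4 * L ^ 13) (L ^ 7)) with hP'
  set K' := av (Fin n) (t - 1) (Pf (NK n) (ownK n)) with hK'
  have p0 : 0 ≤ W' := EG_RL_nonneg η hη0.le (by linarith) _ _ _ _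
  have p1 : 0 ≤ P' := EG_PL_nonneg η hη0.le (by linarith) _ _ _ _
  have hp : (0 : ℝ) < n - t + 1 := by linarith
  have hp2 : (n : ℝ) / 2 ≤ n - t + 1 := by linarith
  have hsum0 : ∀ s, 0 ≤ ∑ u ∈ range s, eW η u := fun s =>
    Finset.sum_nonneg fun u _ => eW_nonneg hη0.le (by linarith) u
  have x11 : (0 : ℝ) ≤ (L : ℝ) ^ 11 := by positivity
  have x13 : (0 : ℝ) ≤ (L : ℝ) ^ 13 := by positivity
  have x7 : (0 : ℝ) ≤ (L : ℝ) ^ 7 := by positivity
  have y1 : (L : ℝ) ^ 11 ≤ (L : ℝ) ^ 13 := pow_le_pow_right₀ hl (by norm_num)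
  have y2 : 1000000 * (L : ℝ) ^ 11 ≤ (L : ℝ) ^ 12 := h.B.pow_add_le (by norm_num)
  have y3 : (L : ℝ) ^ 7 ≤ (L : ℝ) ^ 11 := pow_le_pow_right₀ hl (by norm_num)
  have y4 : (L : ℝ) ^ 2 ≤ (L : ℝ) ^ 11 := pow_le_pow_right₀ hl (by norm_num)
  have y5 : 1000000 * (L : ℝ) ^ 11 ≤ (L : ℝ) ^ 13 := h.B.pow_add_le (by norm_num)
  -- the term `W`
  have eW1 := h.W_bound h1 ht
  rw [← hη, ← hW] at eW1
  -- the term `W'`
  have eW2 : (n : ℝ) * W' ≤ 3 * (L : ℝ) ^ 13 := by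
    rcases Nat.lt_or_ge t 2 with h2 | h2
    · have : t - 1 = 0 := by omega
      have e0 : W' = 0 := by
        rw [hW', this, EG_zero]
        have e1 := RL_le (4 * L ^ 13) (L ^ 7) [] (by simp)
        have e2 := RL_nonneg (4 * L ^ 13) (L ^ 7) []
        have e3 : RL (4 * L ^ 13) (L ^ 7) [] ≤ 0 := by
          refine e1.trans (le_of_eq ?_)
          have h3 : far [] = [] := rfl
          have h4 : nsr [] = 0 := rfl
          have h5 : del [] = 0 := rfl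
          rw [h3, h4, h5, if_neg]
          · simp [cY, cX]
          · simp
        linarith
      rw [e0]
      simp only [mul_zero]
      positivity
    · have e0 := h.W_bound (t := t - 1) (by omega) (by omega)
      rw [← hη, ← hW'] at e0
      have e2 : ((t - 1 : ℕ) : ℝ) ≤ t := by exact_mod_cast Nat.sub_le _ _
      have e3 := hsum0 (t - 1)
      have e4 : 0 ≤ 2 * η * ∑ u ∈ range (t - 1), eW η u := by positivity
      linarith
  have eW3 : (n : ℝ) * (t * W' / (n - t + 1)) ≤ (L : ℝ) ^ 11 := by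
    have q1 : (n : ℝ) * (t * W' / (n - t + 1)) = t * (n * W') / (n - t + 1) := by ring
    rw [q1, div_le_iff₀ hp]
    calc (t : ℝ) * (n * W') ≤ (2 * (L : ℝ) ^ 13) * (3 * (L : ℝ) ^ 13) := by
          apply mul_le_mul ht' eW2 _ (by positivity)
          positivity
      _ = 12 * (L : ℝ) ^ 2 * ((L : ℝ) ^ 24 / 2) := by ring
      _ ≤ (L : ℝ) ^ 11 * ((n : ℝ) - t + 1) := by
          apply mul_le_mul _ (by linarith) (by positivity) (by positivity)
          have y6 : 1000000 * (L : ℝ) ^ 2 ≤ (L : ℝ) ^ 11 := h.B.pow_add_le (by norm_num)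
          have : (0 : ℝ) ≤ (L : ℝ) ^ 2 := by positivity
          linarith
  -- the term `P'`
  have eP1 := h.P_bound (t := t - 1) (by omega)
  have c1 : ((t - 1 : ℕ) : ℝ) = t - 1 := by rw [Nat.cast_sub h1, Nat.cast_one]
  have c2 : t - 1 + 1 = t := by omega
  rw [← hη, ← hP', c1, c2, sub_add_cancel] at eP1
  have eL := eW_lip (η := η) hη0.le (by linarith) (u := t - 1) (t := t) (Nat.sub_le _ _)
  rw [c1] at eL
  have eL1 : eW η (t - 1) ≤ eW η t + 1 := by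
    have := (abs_le.mp eL).1
    linarith
  have z1 : η * t ≤ (L : ℝ) ^ 7 / 10 := h.B.eta_mul ht'
  have eP2 : P' ≤ 2 * η * (t * eW η t - ∑ i ∈ range t, eW η i) + η ^ 2 * (t : ℝ) ^ 2 +
      2 * (L : ℝ) ^ 11 := by
    have q1 : 2 * η * (t * eW η (t - 1)) ≤ 2 * η * (t * eW η t) + 2 * (η * t) := by
      have : 2 * η * (t * eW η (t - 1)) ≤ 2 * η * (t * (eW η t + 1)) := by gcongr
      linarith
    have q2 : η ^ 2 * ((t : ℝ) - 1) * t ≤ η ^ 2 * (t : ℝ) ^ 2 := by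
      have : 0 ≤ η ^ 2 * (t : ℝ) := by positivity
      nlinarith
    linarith
  -- crude bound for `P'`
  have z2 : η * Real.sqrt t ≤ 1 / 10 := h.B.eta_sqrt ht'
  have z3 := eW_le_sqrt (η := η) hη0.le (by linarith) t
  have z4 := eW_nonneg (η := η) hη0.le (by linarith) t
  have z5 : η * eW η t ≤ 1 / 10 := (mul_le_mul_of_nonneg_left z3 hη0.le).trans z2
  have eP3 : P' ≤ (L : ℝ) ^ 13 * 2 := by
    have q1 : 2 * η * (t * eW η t) ≤ (L : ℝ) ^ 13 * (4 / 10) := by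
      calc 2 * η * (t * eW η t) = 2 * t * (η * eW η t) := by ring
        _ ≤ 2 * (2 * (L : ℝ) ^ 13) * (1 / 10) := by
            apply mul_le_mul _ z5 (by positivity) (by positivity)
            linarith
        _ = (L : ℝ) ^ 13 * (4 / 10) := by ring
    have q2 : η ^ 2 * (t : ℝ) ^ 2 ≤ (L : ℝ) ^ 13 * (4 / 100) := by
      have e1 : η * t = (η * Real.sqrt t) * Real.sqrt t := by
        rw [mul_assoc, Real.mul_self_sqrt ht0]
      have e2 : η ^ 2 * (t : ℝ) ^ 2 = (η * Real.sqrt t) ^ 2 * t := by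
        rw [← mul_pow, e1, mul_pow, Real.sq_sqrt ht0]
      rw [e2]
      have e3 : (η * Real.sqrt t) ^ 2 ≤ (1 / 10) ^ 2 :=
        pow_le_pow_left₀ (by positivity) z2 2
      calc (η * Real.sqrt t) ^ 2 * t ≤ (1 / 10) ^ 2 * (2 * (L : ℝ) ^ 13) :=
            mul_le_mul e3 ht' ht0 (by positivity)
        _ ≤ (L : ℝ) ^ 13 * (4 / 100) := by linarith
    have q3 : 0 ≤ 2 * η * ∑ i ∈ range t, eW η i := by
      have := hsum0 t
      positivity
    linarith
  -- `n/(n-t+1) ≤ 1 + 2 t/n`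
  have eP4 : (n : ℝ) * (P' / (n - t + 1)) ≤ P' + (L : ℝ) ^ 11 := by
    have q1 : (n : ℝ) * (P' / (n - t + 1)) = P' + P' * (t - 1) / (n - t + 1) := by
      field_simp
      ring
    rw [q1]
    have q2 : P' * (t - 1) / ((n : ℝ) - t + 1) ≤ (L : ℝ) ^ 11 := by
      rw [div_le_iff₀ hp]
      calc P' * ((t : ℝ) - 1) ≤ ((L : ℝ) ^ 13 * 2) * (2 * (L : ℝ) ^ 13) := by
            apply mul_le_mul eP3 (by linarith) (by linarith) (by positivity)
        _ = 8 * (L : ℝ) ^ 2 * ((L : ℝ) ^ 24 / 2) := by ring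
        _ ≤ (L : ℝ) ^ 11 * ((n : ℝ) - t + 1) := by
            apply mul_le_mul _ (by linarith) (by positivity) (by positivity)
            have y6 : 1000000 * (L : ℝ) ^ 2 ≤ (L : ℝ) ^ 11 := h.B.pow_add_le (by norm_num)
            have : (0 : ℝ) ≤ (L : ℝ) ^ 2 := by positivity
            linarith
    linarith
  -- the term `K'`
  obtain ⟨k1, k2, k3⟩ := h.K_low h1 ht
  rw [← hK'] at k1 k3
  have eK : (t : ℝ) - 16 * (L : ℝ) ^ 2 ≤ n * (K' / (n - t + 1)) := by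
    have q0 : 0 ≤ K' := k2.trans k3
    have q1 : K' ≤ n * (K' / (n - t + 1)) := by
      rw [← mul_div_assoc, le_div_iff₀ hp]
      have q3 := mul_nonneg q0 (sub_nonneg.mpr ht1')
      have q4 : K' * ((n : ℝ) - t + 1) = n * K' - K' * (t - 1) := by ring
      rw [q4]
      exact sub_le_self _ q3
    linarith only [q1, k1]
  have hD : DeltaR L n n' t = W + (t * W' + P') / (n - t + 1) - K' / (n - t + 1) := rfl
  rw [hD]
  have hsplit : (n : ℝ) * (W + (t * W' + P') / (n - t + 1) - K' / (n - t + 1)) =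
      n * W + n * (t * W' / (n - t + 1)) + n * (P' / (n - t + 1)) -
        n * (K' / (n - t + 1)) := by ring
  rw [hsplit]
  unfold MR
  rw [← hη]
  linarith [eW1, eW3, eP4, eP2, eK]

end Pool.Agent.helper65.RK
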