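import Mathlib

set_option autoImplicit false

/-!
# RK-07 : the number of agents which are left (real numbers only)
-/

namespace Pool.Agent.helper65.RK

open Finset

/-- For `|μ| ≤ 1` and `0 ≤ p ≤ 1`: `p e^μ + (1 - p) ≤ exp (p (μ + μ²)) ≤ exp (p μ + μ²)`
(`Real.abs_exp_sub_one_sub_id_le` and `1 + x ≤ e^x`). -/
theorem exp_bern {p μ : ℝ} (hp : 0 ≤ p) (hp' : p ≤ 1) (hμ : |μ| ≤ 1) :
    p * Real.exp μ + (1 - p) ≤ Real.exp (p * μ + μ ^ 2) := by
  have h1 : Real.exp μ ≤ 1 + μ + μ ^ 2 := by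
    have h := (abs_le.mp (Real.abs_exp_sub_one_sub_id_le hμ)).2
    linarith
  have h2 : p * Real.exp μ ≤ p * (1 + μ + μ ^ 2) := mul_le_mul_of_nonneg_left h1 hp
  have h3 := Real.add_one_le_exp (p * μ + p * μ ^ 2)
  have h4 : Real.exp (p * μ + p * μ ^ 2) ≤ Real.exp (p * μ + μ ^ 2) := by
    apply Real.exp_le_exp.mpr
    have h5 : p * μ ^ 2 ≤ 1 * μ ^ 2 := mul_le_mul_of_nonneg_right hp' (sq_nonneg μ)
    linarith
  have h6 : p * Real.exp μ + (1 - p) ≤ p * μ + p * μ ^ 2 + 1 := by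
    have h7 : p * (1 + μ + μ ^ 2) = p + p * μ + p * μ ^ 2 := by ring
    linarith
  linarith

theorem Chain_hsucc (n s : ℕ) :
    ∑ a ∈ Ioc n (n + (s + 1)), 1 / (a : ℝ) =
      (∑ a ∈ Ioc n (n + s), 1 / (a : ℝ)) + 1 / ((n : ℝ) + s + 1) := by
  have h : Ioc n (n + (s + 1)) = insert (n + s + 1) (Ioc n (n + s)) := by
    ext x
    simp only [mem_Ioc, mem_insert]
    omega
  rw [h, sum_insert (by simp), add_comm]
  push_cast
  ring

/-- One exponential, one step. -/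
theorem Chain_step {lam A B p x : ℝ} {N : ℝ} {F : ℝ} (hN : 0 < N) (hp : p = (F - 1) / (N + 1))
    (hp0 : 0 ≤ p) (hp1 : p ≤ 1) (hl : |lam| ≤ N) (hx : x = A + 1 / (N + 1)) :
    p * Real.exp (lam * ((F - 2) / N - A) + B) + (1 - p) * Real.exp (lam * ((F - 1) / N - A) + B)
      ≤ Real.exp (lam * (F / (N + 1) - x) + (B + lam ^ 2 * (1 / N ^ 2))) := by
  have hμ : |-(lam / N)| ≤ 1 := by
    rw [abs_neg, abs_div, abs_of_pos hN, div_le_one hN]
    exact hl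
  have h1 := exp_bern hp0 hp1 hμ
  have h2 : Real.exp (lam * ((F - 2) / N - A) + B) =
      Real.exp (lam * ((F - 1) / N - A) + B) * Real.exp (-(lam / N)) := by
    rw [← Real.exp_add]
    congr 1
    field_simp
    ring
  have h3 : Real.exp (lam * (F / (N + 1) - x) + (B + lam ^ 2 * (1 / N ^ 2))) =
      Real.exp (lam * ((F - 1) / N - A) + B) * Real.exp (p * -(lam / N) + (-(lam / N)) ^ 2) := by
    rw [← Real.exp_add]
    congr 1
    rw [hp, hx]
    field_simp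
    ring
  rw [h2, h3]
  have h4 := mul_le_mul_of_nonneg_left h1 (Real.exp_pos (lam * ((F - 1) / N - A) + B)).le
  calc _ = Real.exp (lam * ((F - 1) / N - A) + B) * (p * Real.exp (-(lam / N)) + (1 - p)) := by ring
    _ ≤ _ := h4

theorem Chain_key (n r jl jh : ℕ) (D : ℕ → ℕ → ℝ) (c lam : ℝ) (hn : 4 ≤ n) (hc : 0 < c)
    (hc1 : c ≤ 1) (hlam : 0 ≤ lam) (hlam1 : lam ≤ n) (h00 : ∀ s, D s 0 = 0)
    (hrec : ∀ s < r, ∀ F : ℕ, 1 ≤ F → F ≤ n + s + 1 →
      D (s + 1) F = (((F : ℝ) - 1) / ((n : ℝ) + s + 1)) * D s (F - 2) +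
        (1 - ((F : ℝ) - 1) / ((n : ℝ) + s + 1)) * D s (F - 1))
    (hD : ∀ j ≤ n, D 0 j ≤ j) (hneg : ∀ j, jl ≤ j → j ≤ jh → D 0 j ≤ -c) :
    ∀ s ≤ r, ∀ F : ℕ, F ≤ n + s → D s F ≤ -c + ((n : ℝ) + 1) *
      (Real.exp (lam * ((F : ℝ) / ((n : ℝ) + s) -
          ((∑ a ∈ Ioc n (n + s), 1 / (a : ℝ)) + (jh : ℝ) / n)) +
          lam ^ 2 * ∑ b ∈ range s, 1 / ((n : ℝ) + b) ^ 2) +
        Real.exp ((-lam) * ((F : ℝ) / ((n : ℝ) + s) -
          ((∑ a ∈ Ioc n (n + s), 1 / (a : ℝ)) + (jl : ℝ) / n)) +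
          lam ^ 2 * ∑ b ∈ range s, 1 / ((n : ℝ) + b) ^ 2)) := by
  have hn0 : (0 : ℝ) < n := by
    have : 0 < n := by omega
    exact_mod_cast this
  intro s
  induction s with
  | zero =>
    intro _ F hF
    simp only [add_zero, Nat.cast_zero, Ioc_self, sum_empty, range_zero, mul_zero, zero_add] at *
    have hFn : (F : ℝ) ≤ n := by exact_mod_cast hF
    have e1 := Real.exp_pos (lam * ((F : ℝ) / (n : ℝ) - (jh : ℝ) / n))
    have e2 := Real.exp_pos (-lam * ((F : ℝ) / (n : ℝ) - (jl : ℝ) / n))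
    by_cases h1 : F < jl
    · have h2 : 1 ≤ Real.exp (-lam * ((F : ℝ) / (n : ℝ) - (jl : ℝ) / n)) := by
        apply Real.one_le_exp
        have h3 : (F : ℝ) / (n : ℝ) - (jl : ℝ) / n ≤ 0 := by
          rw [← sub_div]
          apply div_nonpos_of_nonpos_of_nonneg _ hn0.le
          have : (F : ℝ) < jl := by exact_mod_cast h1
          linarith
        nlinarith
      have h4 := hD F hF
      nlinarith
    · by_cases h5 : F ≤ jh
      · have h6 := hneg F (by omega) h5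
        have h7 : 0 ≤ ((n : ℝ) + 1) * (Real.exp (lam * ((F : ℝ) / (n : ℝ) - (jh : ℝ) / n)) +
          Real.exp (-lam * ((F : ℝ) / (n : ℝ) - (jl : ℝ) / n))) := by positivity
        linarith
      · have h2 : 1 ≤ Real.exp (lam * ((F : ℝ) / (n : ℝ) - (jh : ℝ) / n)) := by
          apply Real.one_le_exp
          have h3 : 0 ≤ (F : ℝ) / (n : ℝ) - (jh : ℝ) / n := by
            rw [← sub_div]
            apply div_nonneg _ hn0.le
            have : (jh : ℝ) < F := by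
              have : jh < F := by omega
              exact_mod_cast this
            linarith
          positivity
        have h4 := hD F hF
        nlinarith
  | succ s ih =>
    intro hs F hF
    have ih' := ih (by omega)
    rw [Chain_hsucc, sum_range_succ]
    set H : ℝ := ∑ a ∈ Ioc n (n + s), 1 / (a : ℝ) with hH
    set K : ℝ := ∑ b ∈ range s, 1 / ((n : ℝ) + b) ^ 2 with hK
    have hH0 : 0 ≤ H := sum_nonneg fun i _ => by positivity
    have hK0 : 0 ≤ K := sum_nonneg fun i _ => by positivity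
    have hN : (0 : ℝ) < (n : ℝ) + s := by positivity
    rcases Nat.eq_zero_or_pos F with h0 | h1
    · subst h0
      rw [h00]
      have e1 := Real.exp_pos (lam * (((0 : ℕ) : ℝ) / ((n : ℝ) + ((s + 1 : ℕ) : ℝ)) -
        (H + 1 / ((n : ℝ) + s + 1) + (jh : ℝ) / n)) + lam ^ 2 * (K + 1 / ((n : ℝ) + s) ^ 2))
      have e2 : 1 ≤ Real.exp (-lam * (((0 : ℕ) : ℝ) / ((n : ℝ) + ((s + 1 : ℕ) : ℝ)) -
        (H + 1 / ((n : ℝ) + s + 1) + (jl : ℝ) / n)) + lam ^ 2 * (K + 1 / ((n : ℝ) + s) ^ 2)) := by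
        apply Real.one_le_exp
        have h3 : -lam * (((0 : ℕ) : ℝ) / ((n : ℝ) + ((s + 1 : ℕ) : ℝ)) -
          (H + 1 / ((n : ℝ) + s + 1) + (jl : ℝ) / n)) + lam ^ 2 * (K + 1 / ((n : ℝ) + s) ^ 2) =
          lam * (H + 1 / ((n : ℝ) + s + 1) + (jl : ℝ) / n) +
          lam ^ 2 * (K + 1 / ((n : ℝ) + s) ^ 2) := by
          push_cast
          ring
        rw [h3]
        positivity
      nlinarith
    · have hr := hrec s (by omega) F h1 (by omega)
      set p : ℝ := ((F : ℝ) - 1) / ((n : ℝ) + s + 1) with hp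
      have hF1 : (1 : ℝ) ≤ F := by exact_mod_cast h1
      have hF2 : (F : ℝ) ≤ (n : ℝ) + s + 1 := by
        have : F ≤ n + s + 1 := by omega
        exact_mod_cast this
      have hp0 : 0 ≤ p := by
        rw [hp]
        apply div_nonneg <;> linarith
      have hp1 : p ≤ 1 := by
        rw [hp, div_le_one (by linarith)]
        linarith
      have i1 := ih' (F - 1) (by omega)
      have c1 : (((F - 1 : ℕ)) : ℝ) = (F : ℝ) - 1 := by
        rw [Nat.cast_sub h1]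
        simp
      rw [c1] at i1
      have s1 := Chain_step (lam := lam) (A := H + (jh : ℝ) / n) (B := lam ^ 2 * K) (p := p)
        (x := H + 1 / ((n : ℝ) + s + 1) + (jh : ℝ) / n) (N := (n : ℝ) + s) (F := (F : ℝ)) hN hp hp0
        hp1 (by rw [abs_of_nonneg hlam]; have : (0 : ℝ) ≤ s := Nat.cast_nonneg s
                linarith) (by ring)
      have s2 := Chain_step (lam := -lam) (A := H + (jl : ℝ) / n) (B := lam ^ 2 * K) (p := p)
        (x := H + 1 / ((n : ℝ) + s + 1) + (jl : ℝ) / n) (N := (n : ℝ) + s) (F := (F : ℝ)) hN hp hp0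
        hp1 (by rw [abs_neg, abs_of_nonneg hlam]; have : (0 : ℝ) ≤ s := Nat.cast_nonneg s
                linarith) (by ring)
      have e3 : (n : ℝ) + ((s + 1 : ℕ) : ℝ) = (n : ℝ) + s + 1 := by
        push_cast
        ring
      have e4 : (-lam) ^ 2 = lam ^ 2 := by ring
      rw [e4] at s2
      rw [e3, mul_add (lam ^ 2) K]
      set E1 := Real.exp (lam * ((F : ℝ) / ((n : ℝ) + s + 1) -
        (H + 1 / ((n : ℝ) + s + 1) + (jh : ℝ) / n)) +
        (lam ^ 2 * K + lam ^ 2 * (1 / ((n : ℝ) + s) ^ 2))) with hE1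
      set E2 := Real.exp (-lam * ((F : ℝ) / ((n : ℝ) + s + 1) -
        (H + 1 / ((n : ℝ) + s + 1) + (jl : ℝ) / n)) +
        (lam ^ 2 * K + lam ^ 2 * (1 / ((n : ℝ) + s) ^ 2))) with hE2
      set f1 := Real.exp (lam * (((F : ℝ) - 1) / ((n : ℝ) + s) - (H + (jh : ℝ) / n)) +
        lam ^ 2 * K) with hf1
      set f2 := Real.exp (-lam * (((F : ℝ) - 1) / ((n : ℝ) + s) - (H + (jl : ℝ) / n)) +
        lam ^ 2 * K) with hf2
      set g1 := Real.exp (lam * (((F : ℝ) - 2) / ((n : ℝ) + s) - (H + (jh : ℝ) / n)) +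
        lam ^ 2 * K) with hg1
      set g2 := Real.exp (-lam * (((F : ℝ) - 2) / ((n : ℝ) + s) - (H + (jl : ℝ) / n)) +
        lam ^ 2 * K) with hg2
      have i2 : p * D s (F - 2) ≤ p * (-c + ((n : ℝ) + 1) * (g1 + g2)) := by
        rcases Nat.lt_or_ge F 2 with h2 | h2
        · have : F = 1 := by omega
          have hp2 : p = 0 := by
            rw [hp, this]
            simp
          rw [hp2]
          simp
        · have i3 := ih' (F - 2) (by omega)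
          have c2 : (((F - 2 : ℕ)) : ℝ) = (F : ℝ) - 2 := by
            rw [Nat.cast_sub h2]
            simp
          rw [c2] at i3
          exact mul_le_mul_of_nonneg_left i3 hp0
      have i4 : (1 - p) * D s (F - 1) ≤ (1 - p) * (-c + ((n : ℝ) + 1) * (f1 + f2)) :=
        mul_le_mul_of_nonneg_left i1 (by linarith)
      rw [hr]
      have i5 : ((n : ℝ) + 1) * ((p * g1 + (1 - p) * f1) + (p * g2 + (1 - p) * f2)) ≤
          ((n : ℝ) + 1) * (E1 + E2) :=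
        mul_le_mul_of_nonneg_left (add_le_add s1 s2) (by linarith)
      have i6 : p * (-c + ((n : ℝ) + 1) * (g1 + g2)) + (1 - p) * (-c + ((n : ℝ) + 1) * (f1 + f2)) =
          -c + ((n : ℝ) + 1) * ((p * g1 + (1 - p) * f1) + (p * g2 + (1 - p) * f2)) := by ring
      linarith

theorem Chain_tel (n : ℕ) (hn : 4 ≤ n) (s : ℕ) :
    ∑ b ∈ range s, 1 / ((n : ℝ) + b) ^ 2 ≤ 1 / ((n : ℝ) - 1) - 1 / ((n : ℝ) + s - 1) := by
  have hn' : (4 : ℝ) ≤ n := by exact_mod_cast hn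
  induction s with
  | zero => simp
  | succ s ih =>
    rw [sum_range_succ]
    have hs : (0 : ℝ) ≤ s := Nat.cast_nonneg s
    have h1 : 1 / ((n : ℝ) + s) ^ 2 ≤ 1 / ((n : ℝ) + s - 1) - 1 / ((n : ℝ) + ((s + 1 : ℕ) : ℝ) - 1) := by
      push_cast
      have a1 : (0 : ℝ) < (n : ℝ) + s - 1 := by linarith
      have a2 : (0 : ℝ) < (n : ℝ) + s := by linarith
      have a3 : (n : ℝ) + (s + 1) - 1 = (n : ℝ) + s := by ring
      rw [a3, div_sub_div _ _ a1.ne' a2.ne', div_le_div_iff₀ (by positivity) (by positivity)]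
      nlinarith
    linarith

/-- RK-07. Let `h s = ∑_{a = n+1}^{n+s} 1/a`, `κ s = lam² ∑_{a=n+1}^{n+s} 1/(a-1)²`,
`lam = ε (n-1)/2 ≤ n`, `yh = jh/n`, `yl = jl/n`. Claim: for all `s ≤ r` and `F ≤ n + s`
`D s F ≤ U s F`, where `U s F = -c + (n+1) ([F ≥ 1] exp(lam (F/(n+s) - h s - yh) + κ s) + exp(-lam (F/(n+s) - h s - yl) + κ s))`.
`s = 0`: if `jl ≤ F ≤ jh` then `D 0 F ≤ -c ≤ U`; otherwise one of the two exponentials is `≥ 1` (for `F > jh` we
have `F ≥ 1`) and `D 0 F ≤ F ≤ n ≤ -c + n + 1`. `F = 0`: `D s 0 = 0 ≤ -c + (n+1) exp(lam (h s + yl) + κ s)`.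
Step for `F ≥ 1`, `a = n + s + 1`, `p = (F-1)/a`: the recursion, the induction hypothesis for `F - 2` and `F - 1`
(if `F - 2` or `F - 1` is `0` the first exponential is missing, fine; if `F = 1` then `p = 0`) and `exp_bern` with
`μ = ∓ lam/(a-1)` give the claim, since
`(F - 1)/(a-1) - p/(a-1) = (F-1)/a = F/a - 1/a`:
`p e^{lam (F-2)/(a-1)} + (1-p) e^{lam (F-1)/(a-1)} = e^{lam (F-1)/(a-1)} (p e^{-μ} + 1 - p) ≤
e^{lam (F-1)/(a-1) - p lam/(a-1) + lam²/(a-1)²}` with `μ = lam/(a-1)`, similarly for `-lam`.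
Finally `D r (n+r) ≤ U r (n+r)`, `1 - h r - yh ≤ -ε`, `-(1 - h r - yl) ≤ -ε`,
`κ r ≤ lam²/(n-1)` (telescoping `1/(a-1)² ≤ 1/(a-2) - 1/(a-1)`), and
`-lam ε + lam²/(n-1) = -ε² (n-1)/4`. -/
theorem chain (n r jl jh : ℕ) (D : ℕ → ℕ → ℝ) (c ε : ℝ) (hn : 4 ≤ n) (hc : 0 < c) (hc1 : c ≤ 1)
    (hε : 0 < ε) (hε1 : ε ≤ 1) (h00 : ∀ s, D s 0 = 0)
    (hrec : ∀ s < r, ∀ F : ℕ, 1 ≤ F → F ≤ n + s + 1 →
      D (s + 1) F = (((F : ℝ) - 1) / ((n : ℝ) + s + 1)) * D s (F - 2) +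
        (1 - ((F : ℝ) - 1) / ((n : ℝ) + s + 1)) * D s (F - 1))
    (hD : ∀ j ≤ n, D 0 j ≤ j) (hneg : ∀ j, jl ≤ j → j ≤ jh → D 0 j ≤ -c)
    (hl : (jl : ℝ) / n + ε ≤ 1 - ∑ a ∈ Ioc n (n + r), 1 / (a : ℝ))
    (hh : 1 - ∑ a ∈ Ioc n (n + r), 1 / (a : ℝ) ≤ (jh : ℝ) / n - ε)
    (hexp : ((n : ℝ) + 1) * (2 * Real.exp (-(ε ^ 2 * ((n : ℝ) - 1) / 4))) < c) :
    D r (n + r) < 0 := by
  have hn' : (4 : ℝ) ≤ n := by exact_mod_cast hn
  have hn1 : (0 : ℝ) < (n : ℝ) - 1 := by linarith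
  set lam : ℝ := ε * ((n : ℝ) - 1) / 2 with hlam
  have hl0 : 0 ≤ lam := by positivity
  have hl1 : lam ≤ n := by
    have : ε * ((n : ℝ) - 1) ≤ 1 * ((n : ℝ) - 1) := mul_le_mul_of_nonneg_right hε1 hn1.le
    rw [hlam]
    linarith
  have key := Chain_key n r jl jh D c lam hn hc hc1 hl0 hl1 h00 hrec hD hneg r le_rfl (n + r) le_rfl
  have hNr : (0 : ℝ) < (n : ℝ) + r := by positivity
  have e0 : ((n + r : ℕ) : ℝ) / ((n : ℝ) + r) = 1 := by
    push_cast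
    exact div_self hNr.ne'
  rw [e0] at key
  have ht := Chain_tel n hn r
  have hr0 : (0 : ℝ) ≤ r := Nat.cast_nonneg r
  have ht2 : 0 < 1 / ((n : ℝ) + r - 1) := by
    apply one_div_pos.mpr
    linarith
  set K : ℝ := ∑ b ∈ range r, 1 / ((n : ℝ) + b) ^ 2 with hK
  set H : ℝ := ∑ a ∈ Ioc n (n + r), 1 / (a : ℝ) with hH
  have hK1 : lam ^ 2 * K ≤ lam ^ 2 * (1 / ((n : ℝ) - 1)) :=
    mul_le_mul_of_nonneg_left (by linarith) (sq_nonneg lam)
  have hval : -(lam * ε) + lam ^ 2 * (1 / ((n : ℝ) - 1)) = -(ε ^ 2 * ((n : ℝ) - 1) / 4) := by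
    rw [hlam]
    field_simp
    ring
  have b1 : Real.exp (lam * (1 - (H + (jh : ℝ) / n)) + lam ^ 2 * K) ≤
      Real.exp (-(ε ^ 2 * ((n : ℝ) - 1) / 4)) := by
    apply Real.exp_le_exp.mpr
    have : lam * (1 - (H + (jh : ℝ) / n)) ≤ lam * (-ε) :=
      mul_le_mul_of_nonneg_left (by linarith) hl0
    linarith
  have b2 : Real.exp ((-lam) * (1 - (H + (jl : ℝ) / n)) + lam ^ 2 * K) ≤
      Real.exp (-(ε ^ 2 * ((n : ℝ) - 1) / 4)) := by
    apply Real.exp_le_exp.mpr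
    have : lam * ε ≤ lam * (1 - (H + (jl : ℝ) / n)) :=
      mul_le_mul_of_nonneg_left (by linarith) hl0
    linarith
  have b3 : ((n : ℝ) + 1) * (Real.exp (lam * (1 - (H + (jh : ℝ) / n)) + lam ^ 2 * K) +
      Real.exp ((-lam) * (1 - (H + (jl : ℝ) / n)) + lam ^ 2 * K)) ≤
      ((n : ℝ) + 1) * (2 * Real.exp (-(ε ^ 2 * ((n : ℝ) - 1) / 4))) :=
    mul_le_mul_of_nonneg_left (by linarith) (by linarith)
  linarith

end Pool.Agent.helper65.RK
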