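import Pool.Agent.helper65.RK.NL
import Pool.Agent.helper65.RK.Mono

set_option autoImplicit false

/-!
# RK-06 : a new first object
-/

namespace Pool.Agent.helper65.RK

open Finset

theorem sys_optF {n : ℕ} {N : Fin n → Finset ℕ} {own : Fin n → ℕ} (hS : Sys N own) :
    Sys (optF N) (optO own) := by
  refine ⟨?_, ?_, ?_⟩
  · intro a b hab
    induction a using Fin.cases with
    | zero =>
      induction b using Fin.cases with
      | zero => rfl
      | succ b => simp [optO] at hab
    | succ a =>
      induction b using Fin.cases with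
      | zero => simp [optO] at hab
      | succ b =>
        simp only [optO, Fin.cons_succ, Nat.add_right_cancel_iff] at hab
        rw [hS.inj hab]
  · intro o
    induction o using Fin.cases with
    | zero => simp [optO, optF]
    | succ o =>
      simp only [optO, optF, Fin.cons_succ, mem_insert, mem_image]
      exact Or.inr ⟨own o, hS.self o, rfl⟩
  · intro o
    have h0 : (0 : ℕ) ∈ univ.image (optO own) :=
      mem_image.2 ⟨0, mem_univ _, by simp [optO]⟩
    induction o using Fin.cases with
    | zero =>
      intro x hx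
      simp only [optF, Fin.cons_zero, mem_singleton] at hx
      rw [hx]
      exact h0
    | succ o =>
      intro x hx
      simp only [optF, Fin.cons_succ, mem_insert, mem_image] at hx
      rcases hx with rfl | ⟨y, hy, rfl⟩
      · exact h0
      · obtain ⟨k, -, hk⟩ := mem_image.1 (hS.sub o hy)
        exact mem_image.2 ⟨k.succ, mem_univ _, by simp [optO, hk]⟩

theorem optO_lt {n : ℕ} {own : Fin n → ℕ} (h : ∀ o, own o < n) (o : Fin (n + 1)) :
    optO own o < n + 1 := by
  induction o using Fin.cases with
  | zero => simp [optO]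
  | succ o =>
    simp only [optO, Fin.cons_succ]
    have := h o
    omega

theorem NK_succ (n : ℕ) : NK (n + 1) = optF (NK n) := by
  funext o
  induction o using Fin.cases with
  | zero => simp [optF, NK]
  | succ o =>
    simp only [optF, NK, Fin.cons_succ, Fin.val_succ]
    ext x
    simp only [mem_range, mem_insert, mem_image]
    constructor
    · intro hx
      rcases Nat.eq_zero_or_pos x with h0 | h0
      · exact Or.inl h0
      · exact Or.inr ⟨x - 1, by omega, by simp only [Nat.succ_eq_add_one]; omega⟩
    · rintro (h0 | ⟨y, hy, rfl⟩)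
      · omega
      · simp only [Nat.succ_eq_add_one]; omega

theorem itF_NK (n r : ℕ) : itF (NK n) r = NK (n + r) := by
  induction r with
  | zero => rfl
  | succ r ih =>
    change optF (itF (NK n) r) = NK (n + r + 1)
    rw [ih, NK_succ]

lemma Opt_step (M L : Finset ℕ) :
    step (insert 0 (M.image Nat.succ)) (insert 0 (L.image Nat.succ)) =
      insert 0 ((step M L).image Nat.succ) := by
  rcases step_cases M L with ⟨h1, h2⟩ | ⟨e, he, heM, hmin, h2⟩
  · rw [h2]
    exact step_eq_self (insert_subset_insert _ (image_subset_image h1))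
  · rw [h2, step_eq (e := e.succ)]
    · rw [image_insert, Finset.insert_comm]
    · exact mem_insert_of_mem (mem_image_of_mem _ he)
    · intro h
      rcases mem_insert.1 h with h | h
      · exact absurd h (Nat.succ_ne_zero e)
      · obtain ⟨y, hy, hye⟩ := mem_image.1 h
        rw [Nat.succ_injective hye] at hy
        exact heM hy
    · intro f hf hfM
      rcases mem_insert.1 hf with h | h
      · exfalso
        apply hfM
        rw [h]
        exact mem_insert_self _ _
      · obtain ⟨y, hy, rfl⟩ := mem_image.1 h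
        refine Nat.succ_le_succ (hmin y hy fun hyM => hfM ?_)
        exact mem_insert_of_mem (mem_image_of_mem _ hyM)

lemma Opt_foldl {n : ℕ} (N : Fin n → Finset ℕ) (C : List (Fin (n + 1))) :
    ∀ (M : Finset ℕ) (C' : List (Fin n)), C.filter (fun o => o ≠ 0) = C'.map Fin.succ →
      (C.map (optF N)).foldl step (insert 0 (M.image Nat.succ)) =
        insert 0 (((C'.map N).foldl step M).image Nat.succ) := by
  induction C with
  | nil =>
    intro M C' hC
    simp only [List.filter_nil] at hC
    have : C' = [] := by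
      rcases C' with _ | ⟨a, C'⟩
      · rfl
      · simp at hC
    rw [this]
    rfl
  | cons c C ih =>
    intro M C' hC
    induction c using Fin.cases with
    | zero =>
      rw [List.filter_cons_of_neg (by simp)] at hC
      rw [List.map_cons, List.foldl_cons, step_eq_self, ih M C' hC]
      simp [optF]
    | succ c =>
      rw [List.filter_cons_of_pos (by simp)] at hC
      rcases C' with _ | ⟨a, C'⟩
      · simp at hC
      · rw [List.map_cons] at hC
        obtain ⟨h1, h2⟩ := List.cons.inj hC
        have h1' : c = a := Fin.succ_injective _ h1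
        subst h1'
        rw [List.map_cons, List.foldl_cons]
        have e : optF N c.succ = insert 0 ((N c).image Nat.succ) := by simp [optF]
        rw [e, Opt_step, ih _ C' h2, List.map_cons, List.foldl_cons]

/-- The process of `optF N` along a nonempty list: the first agent `h` takes the object `0`, the agent `0` of
`Fin (n+1)` gets nothing afterwards, and the other agents behave as in `N` (objects shifted by one). -/
theorem card_mat_optF {n : ℕ} (N : Fin n → Finset ℕ) (h : Fin (n + 1)) (C : List (Fin (n + 1)))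
    (C' : List (Fin n)) (hC : C.filter (fun o => o ≠ 0) = C'.map Fin.succ) :
    (mat (optF N) (h :: C)).card = (mat N C').card + 1 := by
  have h1 : step ∅ (optF N h) = insert 0 ((∅ : Finset ℕ).image Nat.succ) := by
    rw [image_empty]
    refine step_eq ?_ (notMem_empty _) fun f _ _ => Nat.zero_le f
    induction h using Fin.cases with
    | zero => simp [optF]
    | succ h => simp [optF]
  rw [mat, greedy, List.map_cons, List.foldl_cons, h1, Opt_foldl N C ∅ C' hC, card_insert_of_notMem,
    card_image_of_injective _ Nat.succ_injective]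
  · rfl
  · intro h0
    obtain ⟨y, -, hy⟩ := mem_image.1 h0
    exact absurd hy (Nat.succ_ne_zero y)

/-- the other agents -/
def Opt_pr {n : ℕ} (C : List (Fin (n + 1))) : List (Fin n) :=
  C.filterMap fun o => if h : o = 0 then none else some (o.pred h)

lemma Opt_pr_map {n : ℕ} (C : List (Fin (n + 1))) :
    C.filter (fun o => o ≠ 0) = (Opt_pr C).map Fin.succ := by
  induction C with
  | nil => rfl
  | cons c C ih =>
    by_cases hc : c = 0
    · subst hc
      rw [List.filter_cons_of_neg (by simp), ih]
      simp [Opt_pr]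
    · rw [List.filter_cons_of_pos (by simpa using hc), ih]
      simp [Opt_pr, hc]

lemma Opt_pr_zero {n : ℕ} (C : List (Fin (n + 1))) : Opt_pr (C ++ [0]) = Opt_pr C := by
  simp [Opt_pr]

lemma Opt_pr_succ {n : ℕ} (C : List (Fin (n + 1))) (k : Fin n) :
    Opt_pr (C ++ [k.succ]) = Opt_pr C ++ [k] := by
  simp [Opt_pr]

lemma Opt_mem_pr {n : ℕ} (C : List (Fin (n + 1))) (k : Fin n) :
    k ∈ Opt_pr C ↔ k.succ ∈ C := by
  have h1 : k.succ ∈ (Opt_pr C).map Fin.succ ↔ k.succ ∈ C := by
    rw [← Opt_pr_map, List.mem_filter]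
    simp
  rw [← h1, List.mem_map]
  constructor
  · intro h
    exact ⟨k, h, rfl⟩
  · rintro ⟨j, hj, hjk⟩
    rwa [Fin.succ_injective _ hjk] at hj

lemma Opt_length {n : ℕ} {C : List (Fin (n + 1))} (hC : C.Nodup) :
    (0 ∉ C ∧ (Opt_pr C).length = C.length) ∨ (0 ∈ C ∧ (Opt_pr C).length + 1 = C.length) := by
  have h1 : (Opt_pr C).length = (C.filter (fun o => o ≠ 0)).length := by
    rw [Opt_pr_map, List.length_map]
  have h2 := List.length_eq_countP_add_countP (fun o : Fin (n + 1) => decide (o ≠ 0)) (l := C)
  rw [List.countP_eq_length_filter] at h2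
  have h3 : List.countP (fun o : Fin (n + 1) => ¬ (decide (o ≠ 0)) = true) C = C.count 0 := by
    rw [List.count]
    refine List.countP_congr fun x _ => ?_
    simp
  rw [h3] at h2
  by_cases h0 : 0 ∈ C
  · right
    refine ⟨h0, ?_⟩
    rw [List.count_eq_one_of_mem hC h0] at h2
    rw [h1, h2]
  · left
    refine ⟨h0, ?_⟩
    rw [List.count_eq_zero_of_not_mem h0] at h2
    rw [h1, h2]
    rfl

lemma Opt_sum {n : ℕ} (s : ℕ) : ∀ φ : List (Fin n) → ℝ,
    ∑ C ∈ nl (Fin (n + 1)) s, φ (Opt_pr C) =
      ∑ D ∈ nl (Fin n) s, φ D + s * ∑ D ∈ nl (Fin n) (s - 1), φ D := by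
  induction s with
  | zero =>
    intro φ
    rw [nl_zero, nl_zero]
    simp [Opt_pr]
  | succ s ih =>
    intro φ
    rw [sum_nl_succ]
    have h1 : ∀ C ∈ nl (Fin (n + 1)) s,
        ∑ o ∈ univ.filter (fun o => o ∉ C), φ (Opt_pr (C ++ [o])) =
          (fun D : List (Fin n) => (if D.length = s then φ D else 0) +
            ∑ k ∈ univ.filter (fun k => k ∉ D), φ (D ++ [k])) (Opt_pr C) := by
      intro C hC
      rw [mem_nl] at hC
      rw [sum_filter, Fin.sum_univ_succ]
      simp only [Opt_pr_zero, Opt_pr_succ]
      congr 1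
      · rcases Opt_length hC.1 with ⟨h0, hl⟩ | ⟨h0, hl⟩
        · rw [if_pos h0, if_pos (by rw [hl, hC.2])]
        · rw [if_neg (by simpa using h0), if_neg (by have := hC.2; omega)]
      · rw [sum_filter]
        refine sum_congr rfl fun k _ => ?_
        simp only [Opt_mem_pr]
    refine (sum_congr rfl h1).trans ((ih (fun D : List (Fin n) =>
      (if D.length = s then φ D else 0) +
        ∑ k ∈ univ.filter (fun k => k ∉ D), φ (D ++ [k]))).trans ?_)
    have h2 : ∀ r : ℕ, ∑ D ∈ nl (Fin n) r, ((if D.length = s then φ D else 0) +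
        ∑ k ∈ univ.filter (fun k => k ∉ D), φ (D ++ [k])) =
        (if r = s then ∑ D ∈ nl (Fin n) r, φ D else 0) + ∑ D ∈ nl (Fin n) (r + 1), φ D := by
      intro r
      rw [sum_add_distrib, ← sum_nl_succ]
      congr 1
      split_ifs with hr
      · refine sum_congr rfl fun D hD => ?_
        rw [mem_nl] at hD
        rw [if_pos (hD.2.trans hr)]
      · refine sum_eq_zero fun D hD => ?_
        rw [mem_nl] at hD
        rw [if_neg (by rw [hD.2]; exact hr)]
    simp only [h2]
    rw [if_pos trivial, Nat.add_sub_cancel]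
    rcases Nat.eq_zero_or_pos s with rfl | hs
    · simp
      ring
    · rw [if_neg (by omega), Nat.sub_add_cancel hs]
      push_cast
      ring

/-- the law of the tail -/
lemma Opt_tail {α : Type} [Fintype α] [DecidableEq α] {s : ℕ} (hs : s < Fintype.card α)
    (φ : List α → ℝ) : av α (s + 1) (fun C => φ C.tail) = av α s φ := by
  have h1 := av_insert hs (fun i _ C _ => if i = 0 then φ C else 0)
  have hpos : (0 : ℝ) < (Fintype.card α : ℝ) - s := by
    have : (s : ℝ) < Fintype.card α := by exact_mod_cast hs
    linarith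
  have h2 : av α s (fun C => ∑ o ∈ univ.filter (fun o => o ∉ C), ∑ i ∈ range (s + 1),
      if i = 0 then φ C else 0) = ((Fintype.card α : ℝ) - s) * av α s φ := by
    rw [← av_mul]
    refine av_congr fun C hC => ?_
    have h3 : ∑ i ∈ range (s + 1), (if i = 0 then φ C else 0) = φ C := by
      rw [sum_ite_eq' (range (s + 1)) 0 (fun _ => φ C)]
      simp
    rw [h3, sum_const, nsmul_eq_mul, card_compl hC]
  have h4 : av α (s + 1) (fun C => ∑ o ∈ C.toFinset, if C.idxOf o = 0 then φ (C.erase o) else 0) =
      av α (s + 1) (fun C => φ C.tail) := by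
    refine av_congr fun C hC => ?_
    rw [mem_nl] at hC
    rcases C with _ | ⟨c, C⟩
    · simp at hC
    · rw [sum_eq_single c]
      · simp
      · intro b _ hb
        rw [if_neg]
        rw [List.idxOf_cons_ne _ (Ne.symm hb)]
        exact Nat.succ_ne_zero _
      · intro h
        exact absurd (List.mem_toFinset.2 (List.mem_cons_self)) h
  rw [h2, h4] at h1
  exact (mul_left_cancel₀ hpos.ne' h1).symm

/-- RK-06. Let `a = n + 1`. For `C' : List (Fin n)` without repetitions of length `t - 2` the number of lists `h :: C ∈ nl (Fin (n+1)) t` such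
that `C` contains `0` and the rest of `C` is `C'` (shifted) is `(t - 1) (a - t + 1)` (place of `0`
in `C`; `h` is one of the `a - 1 - (t - 2)` other agents); for `C'` of length `t - 1` the number of
`h :: C ∈ nl (Fin (n+1)) t` with `C` the shifted `C'` is `a - t + 1` (`h = 0` or one of the `a - 1 - (t-1)` remaining
agents). Use `card_mat_optF`, `card_nl` and
`a! / (a-t)! = a (a - t + 1) ((a-1)!/(a-t+1)!) = a ((a-1)!/(a-t)!)`. Alternatively argue with
`av_insert`. (For `t = 1` the first coefficient is `0`.) -/
theorem X_optF {n : ℕ} (N : Fin n → Finset ℕ) (t : ℕ) (h1 : 1 ≤ t) (h2 : t ≤ n + 1) :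
    X (optF N) t = 1 + (((t : ℝ) - 1) / ((n : ℝ) + 1)) * X N (t - 2) +
      (1 - ((t : ℝ) - 1) / ((n : ℝ) + 1)) * X N (t - 1) := by
  obtain ⟨s, rfl⟩ := Nat.exists_eq_add_of_le' h1
  have hs : s ≤ n := by omega
  have hcard : Fintype.card (Fin (n + 1)) = n + 1 := Fintype.card_fin _
  have hcard' : Fintype.card (Fin n) = n := Fintype.card_fin _
  have a1 : X (optF N) (s + 1) =
      av (Fin (n + 1)) (s + 1) (fun C => 1 + ((mat N (Opt_pr C.tail)).card : ℝ)) := by
    refine av_congr fun C hC => ?_
    rw [mem_nl] at hC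
    rcases C with _ | ⟨c, C⟩
    · simp at hC
    · rw [card_mat_optF N c C (Opt_pr C) (Opt_pr_map C)]
      push_cast
      rw [add_comm]
      rfl
  have a2 := Opt_tail (α := Fin (n + 1)) (s := s) (by rw [hcard]; omega)
    (fun D => ((mat N (Opt_pr D)).card : ℝ))
  rw [a1, av_add, av_const (by rw [hcard]; exact h2), a2]
  rw [av, Opt_sum s fun D => ((mat N D).card : ℝ), card_nl, hcard]
  have hX : ∀ r, r ≤ n → ∑ D ∈ nl (Fin n) r, ((mat N D).card : ℝ) =
      X N r * (n.descFactorial r : ℝ) := by
    intro r hr
    rw [X, av, card_nl, hcard', div_mul_cancel₀]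
    exact_mod_cast (Nat.descFactorial_pos.2 hr).ne'
  rw [hX s hs, hX (s - 1) (by omega)]
  have hn1 : ((n : ℝ) + 1) ≠ 0 := by positivity
  have hd : (((n + 1).descFactorial s : ℕ) : ℝ) ≠ 0 := by
    exact_mod_cast (Nat.descFactorial_pos.2 (by omega : s ≤ n + 1)).ne'
  have e1 : ((n : ℝ) + 1) * (n.descFactorial s : ℝ) =
      ((n : ℝ) + 1 - s) * (((n + 1).descFactorial s : ℕ) : ℝ) := by
    have h3 : (n + 1) * n.descFactorial s = (n + 1 - s) * (n + 1).descFactorial s := by
      rw [← Nat.succ_descFactorial_succ, Nat.descFactorial_succ]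
    have h4 := congrArg (fun x : ℕ => (x : ℝ)) h3
    simp only [Nat.cast_mul] at h4
    rw [Nat.cast_sub (by omega)] at h4
    push_cast at h4
    exact h4
  have e2 : (s : ℝ) * (((n : ℝ) + 1) * (n.descFactorial (s - 1) : ℝ)) =
      (s : ℝ) * (((n + 1).descFactorial s : ℕ) : ℝ) := by
    rcases Nat.eq_zero_or_pos s with rfl | hs0
    · simp
    · obtain ⟨k, rfl⟩ := Nat.exists_eq_add_of_le' hs0
      rw [Nat.add_sub_cancel, Nat.succ_descFactorial_succ]
      push_cast
      ring
  have e3 : s + 1 - 2 = s - 1 := by omega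
  rw [e3, Nat.add_sub_cancel]
  push_cast
  rw [add_sub_cancel_right, add_assoc]
  congr 1
  field_simp
  linear_combination X N s * e1 + X N (s - 1) * e2

end Pool.Agent.helper65.RK
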