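import Pool.Agent.helper65.RK.NL
import Pool.Agent.helper65.RK.Mono

set_option autoImplicit false

/-!
# RK-08 : from serial dictatorship to the online model
-/

namespace Pool.Agent.helper65.RK

open Finset

/-- The list of vertex `v` if the arriving vertex `i` has the neighbourhood `Nb i`. -/
def lists {n : ℕ} (Nb : Fin n → Finset (Fin n)) (v : Fin n) : Finset ℕ :=
  Finset.image (fun i : Fin n => (i : ℕ)) (univ.filter fun i : Fin n => v ∈ Nb i)

/-! ### The served agents -/

section serv

variable {β : Type} [DecidableEq β]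

/-- The agents which get an object if `M` is taken at the beginning. -/
def UV_serv (N : β → Finset ℕ) : Finset ℕ → List β → Finset β
  | _, [] => ∅
  | M, v :: w => if N v ⊆ M then UV_serv N M w else insert v (UV_serv N (step M (N v)) w)

theorem UV_serv_sub (N : β → Finset ℕ) (w : List β) (M : Finset ℕ) :
    UV_serv N M w ⊆ w.toFinset := by
  induction w generalizing M with
  | nil => simp [UV_serv]
  | cons v w ih =>
    rw [UV_serv, List.toFinset_cons]
    split_ifs
    · exact (ih M).trans (subset_insert _ _)
    · exact insert_subset_insert _ (ih _)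

theorem UV_card (N : β → Finset ℕ) (w : List β) (hw : w.Nodup) (M : Finset ℕ) :
    ((w.map N).foldl step M).card = M.card + (UV_serv N M w).card := by
  induction w generalizing M with
  | nil => simp [UV_serv]
  | cons v w ih =>
    rw [List.nodup_cons] at hw
    rw [List.map_cons, List.foldl_cons, ih hw.2, UV_serv]
    split_ifs with h
    · rw [step_eq_self h]
    · rw [card_step h, card_insert_of_notMem]
      · omega
      · intro h1
        exact hw.1 (by simpa using UV_serv_sub N w _ h1)

/-- the smallest object does not change if a larger one is added -/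
theorem UV_step_insert {M L : Finset ℕ} {k : ℕ} (hL : ∀ e ∈ L, e < k) (h : ¬ L ⊆ M) :
    step M (insert k L) = step M L := by
  rcases step_cases M L with ⟨h1, -⟩ | ⟨e, he, he', hmin, hs⟩
  · exact absurd h1 h
  · rw [hs]
    refine step_eq (mem_insert_of_mem he) he' ?_
    intro f hf hf'
    rcases mem_insert.1 hf with rfl | hf
    · exact (hL e he).le
    · exact hmin f hf hf'

theorem UV_step_insert' {M L : Finset ℕ} {k : ℕ} (hk : k ∉ M) (h : L ⊆ M) :
    step M (insert k L) = insert k M := by
  refine step_eq (mem_insert_self _ _) hk ?_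
  intro f hf hf'
  rcases mem_insert.1 hf with rfl | hf
  · exact le_rfl
  · exact absurd (h hf) hf'

theorem UV_step_both {M L L' : Finset ℕ} {k : ℕ} (hL : ∀ e ∈ L, e < k)
    (hL' : L' = L ∨ L' = insert k L) :
    step (insert k M) L' = insert k (step M L) := by
  rcases step_cases M L with ⟨h1, hs⟩ | ⟨e, he, he', hmin, hs⟩
  · rw [hs]
    refine step_eq_self ?_
    rcases hL' with rfl | rfl
    · exact h1.trans (subset_insert _ _)
    · exact insert_subset_insert _ h1
  · rw [hs]
    have hek : e ≠ k := (hL e he).ne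
    have h2 : step (insert k M) L' = insert e (insert k M) := by
      refine step_eq ?_ ?_ ?_
      · rcases hL' with rfl | rfl
        · exact he
        · exact mem_insert_of_mem he
      · rw [mem_insert]
        rintro (h | h)
        · exact hek h
        · exact he' h
      · intro f hf hf'
        rw [mem_insert, not_or] at hf'
        refine hmin f ?_ hf'.2
        rcases hL' with rfl | rfl
        · exact hf
        · exact (mem_insert.1 hf).resolve_left hf'.1
    rw [h2, insert_comm]

theorem UV_sub_iff {M L L' : Finset ℕ} {k : ℕ} (hL : ∀ e ∈ L, e < k)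
    (hL' : L' = L ∨ L' = insert k L) : L' ⊆ insert k M ↔ L ⊆ M := by
  constructor
  · intro h e he
    have h1 : e ∈ L' := by
      rcases hL' with rfl | rfl
      · exact he
      · exact mem_insert_of_mem he
    rcases mem_insert.1 (h h1) with h2 | h2
    · exact absurd h2 (hL e he).ne
    · exact h2
  · intro h
    rcases hL' with rfl | rfl
    · exact h.trans (subset_insert _ _)
    · exact insert_subset_insert _ h

/-- the object `k` is taken already: it plays no role -/
theorem UV_serv_both (N N' : β → Finset ℕ) (k : ℕ) (w : List β)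
    (hN : ∀ v ∈ w, ∀ e ∈ N v, e < k) (hN' : ∀ v ∈ w, N' v = N v ∨ N' v = insert k (N v))
    (M : Finset ℕ) : UV_serv N' (insert k M) w = UV_serv N M w := by
  induction w generalizing M with
  | nil => rfl
  | cons v w ih =>
    have h1 := hN v (List.mem_cons_self)
    have h2 := hN' v (List.mem_cons_self)
    have ih' := ih (fun u hu => hN u (List.mem_cons_of_mem _ hu))
      (fun u hu => hN' u (List.mem_cons_of_mem _ hu))
    rw [UV_serv, UV_serv, UV_step_both h1 h2, ih', ih']
    simp only [UV_sub_iff h1 h2]

theorem UV_step_lt {M L : Finset ℕ} {k : ℕ} (hM : ∀ e ∈ M, e < k) (hL : ∀ e ∈ L, e < k) :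
    ∀ e ∈ step M L, e < k := by
  intro e he
  rcases step_cases M L with ⟨h1, hs⟩ | ⟨f, hf, hf', hmin, hs⟩
  · rw [hs] at he
    exact hM e he
  · rw [hs] at he
    rcases mem_insert.1 he with rfl | he
    · exact hL _ hf
    · exact hM e he

/-- a new last object -/
theorem UV_serv_add {n : ℕ} (ρ : β → Fin n) (A : Finset β) (N N' : β → Finset ℕ) (k : ℕ)
    (w : List β) (hw : w.Pairwise fun a b => ρ a < ρ b)
    (hN : ∀ v ∈ w, ∀ e ∈ N v, e < k)
    (hA : ∀ v ∈ w, v ∈ A → N' v = insert k (N v)) (hA' : ∀ v ∈ w, v ∉ A → N' v = N v)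
    (M : Finset ℕ) (hM : ∀ e ∈ M, e < k) :
    UV_serv N' M w = UV_serv N M w ∪ ((A ∩ w.toFinset) \ UV_serv N M w).filter
      (fun v => ∀ u ∈ (A ∩ w.toFinset) \ UV_serv N M w, ρ v ≤ ρ u) := by
  induction w generalizing M with
  | nil => simp [UV_serv]
  | cons v w ih =>
    rw [List.pairwise_cons] at hw
    have hvw : v ∉ w := fun h => lt_irrefl _ (hw.1 v h)
    have h1 := hN v (List.mem_cons_self)
    have hN1 : ∀ u ∈ w, ∀ e ∈ N u, e < k := fun u hu => hN u (List.mem_cons_of_mem _ hu)
    have ih' := ih hw.2 hN1 (fun u hu => hA u (List.mem_cons_of_mem _ hu))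
      (fun u hu => hA' u (List.mem_cons_of_mem _ hu))
    have hkM : k ∉ M := fun h => lt_irrefl _ (hM k h)
    by_cases hs : N v ⊆ M
    · by_cases hv : v ∈ A
      · -- `v` takes the new object
        have h2 : ¬ N' v ⊆ M := by
          rw [hA v (List.mem_cons_self) hv]
          intro h3
          exact hkM (h3 (mem_insert_self _ _))
        have h3 : step M (N' v) = insert k M := by
          rw [hA v (List.mem_cons_self) hv]
          exact UV_step_insert' hkM hs
        have h4 : ∀ u ∈ w, N' u = N u ∨ N' u = insert k (N u) := by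
          intro u hu
          by_cases huA : u ∈ A
          · exact Or.inr (hA u (List.mem_cons_of_mem _ hu) huA)
          · exact Or.inl (hA' u (List.mem_cons_of_mem _ hu) huA)
        have h5 : v ∉ UV_serv N M w := fun h => hvw (by simpa using UV_serv_sub N w M h)
        rw [UV_serv, if_neg h2, h3, UV_serv_both N N' k w hN1 h4 M, UV_serv, if_pos hs]
        have h6 : ((A ∩ (v :: w).toFinset) \ UV_serv N M w).filter
            (fun v' => ∀ u ∈ (A ∩ (v :: w).toFinset) \ UV_serv N M w, ρ v' ≤ ρ u) = {v} := by
          ext u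
          simp only [mem_filter, mem_sdiff, mem_inter, List.mem_toFinset, List.mem_cons,
            mem_singleton]
          constructor
          · rintro ⟨⟨⟨h7, h8⟩, h9⟩, h10⟩
            rcases h8 with h8 | h8
            · exact h8
            · exact absurd (h10 v ⟨⟨hv, Or.inl rfl⟩, h5⟩) (not_le.2 (hw.1 u h8))
          · rintro rfl
            refine ⟨⟨⟨hv, Or.inl rfl⟩, h5⟩, ?_⟩
            rintro x ⟨⟨h7, h8⟩, h9⟩
            rcases h8 with rfl | h8
            · exact le_rfl
            · exact (hw.1 x h8).le
        rw [h6]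
        ext u
        simp only [mem_insert, mem_union, mem_singleton]
        tauto
      · have h2 : N' v = N v := hA' v (List.mem_cons_self) hv
        have h6 : A ∩ (v :: w).toFinset = A ∩ w.toFinset := by
          ext u
          simp only [mem_inter, List.mem_toFinset, List.mem_cons]
          constructor
          · rintro ⟨h7, rfl | h8⟩
            · exact absurd h7 hv
            · exact ⟨h7, h8⟩
          · rintro ⟨h7, h8⟩
            exact ⟨h7, Or.inr h8⟩
        rw [UV_serv, h2, if_pos hs, UV_serv, if_pos hs, h6]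
        exact ih' M hM
    · have h2 : ¬ N' v ⊆ M := by
        intro h3
        apply hs
        by_cases hv : v ∈ A
        · rw [hA v (List.mem_cons_self) hv] at h3
          exact (subset_insert _ _).trans h3
        · rw [hA' v (List.mem_cons_self) hv] at h3
          exact h3
      have h3 : step M (N' v) = step M (N v) := by
        by_cases hv : v ∈ A
        · rw [hA v (List.mem_cons_self) hv]
          exact UV_step_insert h1 hs
        · rw [hA' v (List.mem_cons_self) hv]
      rw [UV_serv, if_neg h2, h3, UV_serv, if_neg hs, ih' _ (UV_step_lt hM h1)]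
      set S := UV_serv N (step M (N v)) w with hS
      have h5 : v ∉ S := fun h => hvw (by simpa using UV_serv_sub N w _ h)
      have h6 : (A ∩ (v :: w).toFinset) \ insert v S = (A ∩ w.toFinset) \ S := by
        ext u
        simp only [mem_sdiff, mem_inter, List.mem_toFinset, List.mem_cons, mem_insert, not_or]
        constructor
        · rintro ⟨⟨h7, h8⟩, h9, h10⟩
          exact ⟨⟨h7, h8.resolve_left h9⟩, h10⟩
        · rintro ⟨⟨h7, h8⟩, h9⟩
          exact ⟨⟨h7, Or.inr h8⟩, fun h => hvw (h ▸ h8), h9⟩
      rw [h6, insert_union]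

end serv

/-- the lists restricted to the first `k` arrivals -/
def UV_lk {n : ℕ} (Nb : Fin n → Finset (Fin n)) (k : ℕ) (v : Fin n) : Finset ℕ :=
  Finset.image (fun i : Fin n => (i : ℕ)) (univ.filter fun i : Fin n => v ∈ Nb i ∧ (i : ℕ) < k)

theorem UV_mem_lk {n : ℕ} (Nb : Fin n → Finset (Fin n)) (k : ℕ) (v : Fin n) (e : ℕ) :
    e ∈ UV_lk Nb k v ↔ ∃ h : e < n, v ∈ Nb ⟨e, h⟩ ∧ e < k := by
  unfold UV_lk
  simp only [mem_image, mem_filter, mem_univ, true_and]
  constructor
  · rintro ⟨i, ⟨h1, h2⟩, rfl⟩
    exact ⟨i.2, h1, h2⟩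
  · rintro ⟨h, h1, h2⟩
    exact ⟨⟨e, h⟩, ⟨h1, h2⟩, rfl⟩

/-- the step of the first process -/
def UV_f {n : ℕ} (Nb : Fin n → Finset (Fin n)) (τ : Equiv.Perm (Fin n)) (M : Finset (Fin n))
    (i : Fin n) : Finset (Fin n) :=
  M ∪ ((Nb i \ M).filter (fun v => ∀ w ∈ Nb i \ M, τ v ≤ τ w))

theorem UV_fr {n : ℕ} (Nb : Fin n → Finset (Fin n)) (τ : Equiv.Perm (Fin n)) :
    fr Nb τ = ((List.finRange n).foldl (UV_f Nb τ) ∅).card := rfl

theorem UV_inv {n : ℕ} (Nb : Fin n → Finset (Fin n)) (τ : Equiv.Perm (Fin n)) (k : ℕ)
    (hk : k ≤ n) : ((List.finRange n).take k).foldl (UV_f Nb τ) ∅ =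
      UV_serv (UV_lk Nb k) ∅ ((List.finRange n).map τ.symm) := by
  induction k with
  | zero =>
    rw [List.take_zero, List.foldl_nil]
    have h : ∀ w : List (Fin n), UV_serv (UV_lk Nb 0) ∅ w = ∅ := by
      intro w
      induction w with
      | nil => rfl
      | cons v w ih =>
        have h1 : UV_lk Nb 0 v ⊆ ∅ := by
          intro e he
          obtain ⟨-, -, h2⟩ := (UV_mem_lk Nb 0 v e).1 he
          omega
        rw [UV_serv, if_pos h1, ih]
    rw [h]
  | succ k ih =>
    have hkn : k < n := hk
    have ih' := ih hkn.le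
    have h1 : (List.finRange n).take (k + 1) = (List.finRange n).take k ++ [⟨k, hkn⟩] := by
      rw [List.take_succ_eq_append_getElem (by simpa using hkn)]
      simp
    rw [h1, List.foldl_append, ih', List.foldl_cons, List.foldl_nil]
    have h2 : ((List.finRange n).map τ.symm).Pairwise fun a b => τ a < τ b := by
      rw [List.pairwise_map]
      refine List.Pairwise.imp ?_ (List.pairwise_lt_finRange n)
      intro a b hab
      simpa using hab
    have h3 := UV_serv_add (fun v => τ v) (Nb ⟨k, hkn⟩) (UV_lk Nb k) (UV_lk Nb (k + 1)) k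
      ((List.finRange n).map τ.symm) h2 (fun v _ e he => ((UV_mem_lk Nb k v e).1 he).2.2)
      (fun v _ hv => by
        ext e
        rw [mem_insert, UV_mem_lk, UV_mem_lk]
        constructor
        · rintro ⟨h4, h5, h6⟩
          by_cases h7 : e = k
          · exact Or.inl h7
          · exact Or.inr ⟨h4, h5, by omega⟩
        · rintro (rfl | ⟨h4, h5, h6⟩)
          · exact ⟨hkn, hv, by omega⟩
          · exact ⟨h4, h5, by omega⟩)
      (fun v _ hv => by
        ext e
        rw [UV_mem_lk, UV_mem_lk]
        constructor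
        · rintro ⟨h4, h5, h6⟩
          refine ⟨h4, h5, ?_⟩
          by_contra h7
          have h8 : e = k := by omega
          subst h8
          exact hv h5
        · rintro ⟨h4, h5, h6⟩
          exact ⟨h4, h5, by omega⟩) ∅ (by simp)
    have h4 : ((List.finRange n).map τ.symm).toFinset = univ := by
      ext v
      simp only [List.mem_toFinset, List.mem_map, List.mem_finRange, true_and, mem_univ, iff_true]
      exact ⟨τ v, by simp⟩
    rw [h4, inter_univ] at h3
    rw [h3]
    unfold UV_f
    congr 1
    ext v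
    simp only [mem_filter]

/-- RK-08a. The arriving side chooses the first free neighbour in the order `τ`; the same matching is found if
the vertices `v` come in the order `τ` and take the smallest free neighbour. [Let `k ≤ n`. Consider only the arriving
vertices `i < k`. Claim: the set `M_k` of vertices matched by the first process after `k` arrivals is
the set of the agents which get an object in the second process with the lists `lists Nb v ∩ range k`.
Induction on `k`: with the additional object `k`, which is the last in every list, every agent who gets an object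
`< k` keeps it, and the object `k` is taken by the first agent (in the order `τ`) in `Nb k` who got nothing before. It
is convenient to prove for lists `w` of agents: with `N' v = N v ∪ {k}` or `N v` (all `N v ⊆ range k`), the set of
agents served by `N'` is the set of agents served by `N` plus the first agent in `w` with `k ∈ N' v` who is not served by `N`.]
The number of agents who get an object is the number of objects taken. -/
theorem fr_eq {n : ℕ} (Nb : Fin n → Finset (Fin n)) (τ : Equiv.Perm (Fin n)) :
    fr Nb τ = (mat (lists Nb) ((List.finRange n).map τ.symm)).card := by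
  have h1 := UV_inv Nb τ n le_rfl
  have h2 : (List.finRange n).take n = List.finRange n := by
    rw [List.take_of_length_le]
    simp
  have h3 : UV_lk Nb n = lists Nb := by
    funext v
    unfold UV_lk lists
    congr 1
    ext i
    simp
  rw [h2, h3] at h1
  rw [UV_fr, h1, mat, greedy, UV_card, card_empty, zero_add]
  exact (List.nodup_finRange n).map τ.symm.injective

/-- RK-08b. `nl (Fin n) n` is the set of the lists `(List.finRange n).map σ`. -/
theorem sum_fr {n : ℕ} (Nb : Fin n → Finset (Fin n)) :
    ∑ τ : Equiv.Perm (Fin n), (fr Nb τ : ℝ) = (n.factorial : ℝ) * X (lists Nb) n := by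
  have h1 : ((nl (Fin n) n).card : ℝ) = (n.factorial : ℝ) := by
    rw [card_nl, Fintype.card_fin, Nat.descFactorial_self]
  have h2 : (n.factorial : ℝ) ≠ 0 := by exact_mod_cast (Nat.factorial_pos n).ne'
  unfold X av
  rw [h1, mul_div_cancel₀ _ h2]
  unfold nl
  rw [sum_image]
  · rw [← Equiv.sum_comp (Equiv.inv (Equiv.Perm (Fin n)))
      (fun τ : Equiv.Perm (Fin n) => (fr Nb τ : ℝ))]
    refine Fintype.sum_equiv (Equiv.embeddingEquivOfFinite (Fin n)).symm _ _ ?_
    intro τ
    rw [fr_eq]
    congr 3
    rw [List.ofFn_eq_map]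
    rfl
  · intro e _ f _ hef
    apply DFunLike.coe_injective
    exact List.ofFn_injective hef

/-- Renaming the vertices `v`. [Induction along the fold: the matched sets are images of each other under
`π`.] -/
theorem fr_image {n : ℕ} (Nb : Fin n → Finset (Fin n)) (π τ : Equiv.Perm (Fin n)) :
    fr (fun i => (Nb i).image π) τ = fr Nb (π.trans τ) := by
  have key : ∀ (l : List (Fin n)) (M : Finset (Fin n)),
      l.foldl (UV_f (fun i => (Nb i).image π) τ) (M.image π) =
        (l.foldl (UV_f Nb (π.trans τ)) M).image π := by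
    intro l
    induction l with
    | nil => intro M; rfl
    | cons i l ih =>
      intro M
      rw [List.foldl_cons, List.foldl_cons, ← ih]
      congr 1
      unfold UV_f
      rw [image_union]
      congr 1
      ext v
      simp only [mem_filter, mem_sdiff, mem_image]
      constructor
      · rintro ⟨⟨⟨a, ha, rfl⟩, h2⟩, h3⟩
        refine ⟨a, ⟨⟨ha, fun h => h2 ⟨a, h, rfl⟩⟩, ?_⟩, rfl⟩
        rintro w ⟨hw, hw'⟩
        refine h3 (π w) ⟨⟨w, hw, rfl⟩, ?_⟩
        rintro ⟨b, hb, hb'⟩
        exact hw' (π.injective hb' ▸ hb)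
      · rintro ⟨a, ⟨⟨ha, ha'⟩, h3⟩, rfl⟩
        refine ⟨⟨⟨a, ha, rfl⟩, ?_⟩, ?_⟩
        · rintro ⟨b, hb, hb'⟩
          exact ha' (π.injective hb' ▸ hb)
        · rintro w ⟨⟨b, hb, rfl⟩, hw⟩
          exact h3 b ⟨hb, fun h => hw ⟨b, h, rfl⟩⟩
  rw [UV_fr, UV_fr]
  have h := key (List.finRange n) ∅
  rw [image_empty] at h
  rw [h, card_image_of_injective _ π.injective]

/-- RK-08c. -/
theorem rhoD_eq (n : ℕ) : rhoD n = X (NK n) n := by
  have h1 : lists (fun i : Fin n => univ.filter fun j : Fin n => i ≤ j) = NK n := by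
    funext v
    unfold lists NK
    ext e
    simp only [mem_image, mem_filter, mem_univ, true_and, mem_range]
    constructor
    · rintro ⟨i, hi, rfl⟩
      have : (i : ℕ) ≤ v := hi
      omega
    · intro he
      have h2 : e ≤ (v : ℕ) := by omega
      exact ⟨⟨e, lt_of_le_of_lt h2 v.2⟩, h2, rfl⟩
  have h2 : (n.factorial : ℝ) ≠ 0 := by exact_mod_cast (Nat.factorial_pos n).ne'
  have h3 : ∀ π : Equiv.Perm (Fin n), ∑ τ : Equiv.Perm (Fin n),
      (fr (fun i : Fin n => (univ.filter fun j : Fin n => i ≤ j).image π) τ : ℝ) =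
        (n.factorial : ℝ) * X (NK n) n := by
    intro π
    rw [← h1, ← sum_fr]
    rw [← Equiv.sum_comp (Equiv.mulRight π)
      (fun τ => (fr (fun i : Fin n => univ.filter fun j : Fin n => i ≤ j) τ : ℝ))]
    refine sum_congr rfl fun τ _ => ?_
    rw [fr_image]
    rfl
  have h4 : rhoD n = (∑ π : Equiv.Perm (Fin n), ∑ τ : Equiv.Perm (Fin n),
      (fr (fun i : Fin n => (univ.filter fun j : Fin n => i ≤ j).image π) τ : ℝ)) /
        ((n.factorial : ℝ) * (n.factorial : ℝ)) := rfl
  rw [h4, sum_congr rfl fun π _ => h3 π, sum_const, card_univ, Fintype.card_perm,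
    Fintype.card_fin, nsmul_eq_mul]
  field_simp

/-- RK-08d. A system of lists on `Fin n` whose own objects are `< n` comes from a bipartite graph with a perfect
matching: `Nb i = {v | i ∈ N v}`; `σ i` is the `v` with `own v = i`. Average over `π`:
`∑_π ∑_τ p τ fr (image π) τ = ∑_τ p τ ∑_π fr Nb (π.trans τ) = ∑_τ' fr Nb τ' = n! X N n`, so for some `π` the expected size is at
most `X N n < X (NK n) n = rhoD n`. -/
theorem final_of_X {n : ℕ} {N : Fin n → Finset ℕ} {own : Fin n → ℕ} (hS : Sys N own)
    (hown : ∀ o, own o < n) (hX : X N n < X (NK n) n) (p : Equiv.Perm (Fin n) → ℝ)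
    (hp : ∀ τ, 0 ≤ p τ) (hp1 : ∑ τ, p τ = 1) :
    ∃ Nb : Fin n → Finset (Fin n), (∃ σ : Equiv.Perm (Fin n), ∀ i, σ i ∈ Nb i) ∧
      ∑ τ, p τ * (fr Nb τ : ℝ) < rhoD n := by
  have _ := hp
  set Nb : Fin n → Finset (Fin n) := fun i => univ.filter fun v => (i : ℕ) ∈ N v with hNb
  have hlt : ∀ v, ∀ e ∈ N v, e < n := by
    intro v e he
    obtain ⟨o, -, rfl⟩ := mem_image.1 (hS.sub v he)
    exact hown o
  have h1 : lists Nb = N := by
    funext v
    unfold lists
    ext e
    simp only [mem_image, mem_filter, mem_univ, true_and, hNb]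
    constructor
    · rintro ⟨i, hi, rfl⟩
      exact hi
    · intro he
      exact ⟨⟨e, hlt v e he⟩, he, rfl⟩
  -- the perfect matching
  set o' : Fin n → Fin n := fun o => ⟨own o, hown o⟩ with ho'
  have hinj : Function.Injective o' := by
    intro a b hab
    exact hS.inj (congrArg Fin.val hab)
  set σ : Equiv.Perm (Fin n) := (Equiv.ofBijective o' (Finite.injective_iff_bijective.1 hinj)).symm
    with hσ
  have hσ' : ∀ i, σ i ∈ Nb i := by
    intro i
    have h2 : o' (σ i) = i := (Equiv.ofBijective o' _).apply_symm_apply i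
    have h3 : own (σ i) = (i : ℕ) := congrArg Fin.val h2
    simp only [hNb, mem_filter, mem_univ, true_and]
    rw [← h3]
    exact hS.self _
  by_contra hcon
  push Not at hcon
  have h2 : ∀ π : Equiv.Perm (Fin n),
      rhoD n ≤ ∑ τ, p τ * (fr (fun i => (Nb i).image π) τ : ℝ) := by
    intro π
    exact hcon (fun i => (Nb i).image π) ⟨σ.trans π, fun i => mem_image_of_mem _ (hσ' i)⟩
  have h3 : ∑ π : Equiv.Perm (Fin n), rhoD n ≤
      ∑ π : Equiv.Perm (Fin n), ∑ τ, p τ * (fr (fun i => (Nb i).image π) τ : ℝ) :=
    sum_le_sum fun π _ => h2 π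
  rw [sum_comm] at h3
  have h4 : ∀ τ : Equiv.Perm (Fin n), ∑ π : Equiv.Perm (Fin n),
      p τ * (fr (fun i => (Nb i).image π) τ : ℝ) = p τ * ((n.factorial : ℝ) * X N n) := by
    intro τ
    rw [← mul_sum]
    congr 1
    rw [← h1, ← sum_fr]
    rw [← Equiv.sum_comp (Equiv.mulLeft τ) (fun τ' => (fr Nb τ' : ℝ))]
    refine sum_congr rfl fun π _ => ?_
    rw [fr_image]
    rfl
  rw [sum_congr rfl fun τ _ => h4 τ, ← sum_mul, hp1, one_mul, sum_const, card_univ,
    Fintype.card_perm, Fintype.card_fin, nsmul_eq_mul] at h3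
  have h5 : (0 : ℝ) < (n.factorial : ℝ) := by exact_mod_cast Nat.factorial_pos n
  have h6 : rhoD n ≤ X N n := le_of_mul_le_mul_left h3 h5
  rw [rhoD_eq] at h6
  exact absurd hX (not_lt.2 h6)

end Pool.Agent.helper65.RK
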