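import Pool.Agent.helper65.RK.AsmA
import Pool.Agent.helper65.RK.AsmC
import Pool.Agent.helper65.RK.Chain
import Pool.Agent.helper65.RK.Opt
import Pool.Agent.helper65.RK.UV
import Pool.Agent.helper65.RK.Bridge
import Pool.Agent.helper65.RK.Law

set_option autoImplicit false

/-!
# RK-46 : the theorem
-/

namespace Pool.Agent.helper65.RK

open Finset

theorem asmf_sys_equiv {α β : Type} [Fintype α] [DecidableEq α] [Fintype β] [DecidableEq β]
    (e : α ≃ β) {N : β → Finset ℕ} {own : β → ℕ} (h : Sys N own) :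
    Sys (fun o => N (e o)) (fun o => own (e o)) where
  inj := h.inj.comp e.injective
  self := fun o => h.self (e o)
  sub := by
    intro o k hk
    have := h.sub (e o) hk
    rw [Finset.mem_image] at this ⊢
    obtain ⟨z, _, hz⟩ := this
    exact ⟨e.symm z, Finset.mem_univ _, by simpa using hz⟩

theorem asmf_sys_itF {n : ℕ} {N : Fin n → Finset ℕ} {own : Fin n → ℕ} (h : Sys N own) (r : ℕ) :
    Sys (itF N r) (itO own r) := by
  induction r with
  | zero => exact h
  | succ r ih => exact sys_optF ih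

theorem asmf_own_itO {n : ℕ} {own : Fin n → ℕ} (h : ∀ o, own o < n) (r : ℕ) (o : Fin (n + r)) :
    itO own r o < n + r := by
  induction r with
  | zero => exact h o
  | succ r ih => exact optO_lt ih o

/-- A number is at most the maximum of the indices; the smallest value is at most the average. -/
theorem asmf_avg {ι : Type} [Fintype ι] (w x : ι → ℝ) (hw : ∀ i, 0 ≤ w i) (hs : ∑ i, w i = 1)
    (c : ℝ) (h : ∑ i, w i * x i - c < 0) : ∃ i, x i < c := by
  by_contra hcon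
  push Not at hcon
  have h1 : c ≤ ∑ i, w i * x i := by
    calc c = ∑ i, w i * c := by rw [← Finset.sum_mul, hs, one_mul]
      _ ≤ ∑ i, w i * x i := Finset.sum_le_sum fun i _ => mul_le_mul_of_nonneg_left (hcon i) (hw i)
  linarith

/-- RK-46a. The chain for the average over the types. -/
theorem asmf_chain {L n n' : ℕ} (h : Par L n n') (r : ℕ)
    (hlo : (L : ℝ) ^ 13 / n ≤ 1 - ∑ a ∈ Ioc n (n + r), 1 / (a : ℝ))
    (hhi : 1 - ∑ a ∈ Ioc n (n + r), 1 / (a : ℝ) ≤ (L : ℝ) ^ 13 / n + 2 / n) :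
    ∃ (N : Fin n → Finset ℕ) (own : Fin n → ℕ), Sys N own ∧ (∀ o, own o < n) ∧
      X (itF N r) (n + r) < X (NK (n + r)) (n + r) := by
  have hη0 := h.B.eta_pos
  have hη1 := h.B.eta_le
  have hl := h.B.one_le
  have hb := h.B.bigR
  have hn := h.npos
  have hloR := h.loR
  have hhiR := h.hiR
  have hg1 : 1 ≤ L ^ 7 := Nat.one_le_pow _ _ (le_trans (by norm_num) h.B.big)
  have hcard : Fintype.card (Ag (4 * L ^ 13) n') = n := by
    rw [← h.hn]
    simp
    ring
  let e : Fin n ≃ Ag (4 * L ^ 13) n' := (Fintype.equivFinOfCardEq hcard).symm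
  let NF : (Fin n' → T) → Fin n → Finset ℕ := fun θ o => NG (4 * L ^ 13) (L ^ 7) n' θ (e o)
  let wt : (Fin n' → T) → ℝ := fun θ => ∏ k, pT (eta L) (θ k)
  have hwt : ∀ θ, 0 ≤ wt θ := fun θ =>
    Finset.prod_nonneg fun k _ => pT_nonneg hη0.le (by linarith) (θ k)
  have hsum : ∑ θ, wt θ = 1 := sum_prod_pT (eta L) n'
  have hSys : ∀ θ, Sys (NF θ) (fun o => ownG (4 * L ^ 13) n' (e o)) := fun θ =>
    asmf_sys_equiv e (sys_NG hg1 θ)
  have hown : ∀ o, ownG (4 * L ^ 13) n' (e o) < n := by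
    intro o
    have := ownG_lt (e o)
    rw [h.hn] at this
    exact this
  let D : ℕ → ℕ → ℝ := fun s F => ∑ θ, wt θ * X (itF (NF θ) s) F - X (NK (n + s)) F
  have hD0 : ∀ F, D 0 F = DX L n n' F := by
    intro F
    simp only [D, DX, XG]
    congr 1
    apply Finset.sum_congr rfl
    intro θ _
    have : X (itF (NF θ) 0) F = X (NG (4 * L ^ 13) (L ^ 7) n' θ) F :=
      (X_equiv e (NG (4 * L ^ 13) (L ^ 7) n' θ) F).symm
    rw [this]
  have key : D r (n + r) < 0 := by
    apply chain n r ((L ^ 13 + 1) / 2) (2 * L ^ 13) D (4 / 10000 * (L : ℝ) ^ 26 / (n : ℝ) ^ 2)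
      ((L : ℝ) ^ 13 / (4 * n))
    · have : (4 : ℝ) ≤ n := by
        have : (L : ℝ) ^ 1 ≤ (L : ℝ) ^ 24 := pow_le_pow_right₀ hl (by norm_num)
        rw [pow_one] at this
        linarith
      exact_mod_cast this
    · positivity
    · rw [div_le_one (by positivity)]
      have h1 : ((L : ℝ) ^ 24) ^ 2 ≤ (n : ℝ) ^ 2 := pow_le_pow_left₀ (by positivity) hloR 2
      have h2 : (L : ℝ) ^ 26 ≤ ((L : ℝ) ^ 24) ^ 2 := by
        rw [← pow_mul]
        exact pow_le_pow_right₀ hl (by norm_num)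
      have h3 : (0 : ℝ) ≤ (L : ℝ) ^ 26 := by positivity
      linarith
    · positivity
    · rw [div_le_one (by positivity)]
      have : (L : ℝ) ^ 13 ≤ (L : ℝ) ^ 24 := pow_le_pow_right₀ hl (by norm_num)
      linarith
    · intro s
      simp only [D, X_zero, mul_zero, Finset.sum_const_zero, sub_zero]
    · intro s _ F hF1 hF2
      have e1 : ∀ θ, X (itF (NF θ) (s + 1)) F = 1 + (((F : ℝ) - 1) / (((n + s : ℕ) : ℝ) + 1)) *
          X (itF (NF θ) s) (F - 2) +
          (1 - ((F : ℝ) - 1) / (((n + s : ℕ) : ℝ) + 1)) * X (itF (NF θ) s) (F - 1) := fun θ =>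
        X_optF (itF (NF θ) s) F hF1 hF2
      have e2 : X (NK (n + (s + 1))) F = 1 + (((F : ℝ) - 1) / (((n + s : ℕ) : ℝ) + 1)) *
          X (NK (n + s)) (F - 2) +
          (1 - ((F : ℝ) - 1) / (((n + s : ℕ) : ℝ) + 1)) * X (NK (n + s)) (F - 1) := by
        have : NK (n + (s + 1)) = optF (NK (n + s)) := NK_succ (n + s)
        rw [this]
        exact X_optF (NK (n + s)) F hF1 hF2
      have hc : (((n + s : ℕ) : ℝ) + 1) = (n : ℝ) + s + 1 := by push_cast; ring
      rw [hc] at e1 e2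
      simp only [D]
      rw [e2]
      set q := ((F : ℝ) - 1) / ((n : ℝ) + s + 1) with hq
      have e3 : ∑ θ, wt θ * X (itF (NF θ) (s + 1)) F =
          1 + q * ∑ θ, wt θ * X (itF (NF θ) s) (F - 2) +
            (1 - q) * ∑ θ, wt θ * X (itF (NF θ) s) (F - 1) := by
        calc ∑ θ, wt θ * X (itF (NF θ) (s + 1)) F
            = ∑ θ, (wt θ + q * (wt θ * X (itF (NF θ) s) (F - 2)) +
                (1 - q) * (wt θ * X (itF (NF θ) s) (F - 1))) := by
              apply Finset.sum_congr rfl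
              intro θ _
              rw [e1 θ]
              ring
          _ = _ := by
              rw [Finset.sum_add_distrib, Finset.sum_add_distrib, hsum, ← Finset.mul_sum,
                ← Finset.mul_sum]
      rw [e3]
      ring
    · intro j hj
      rw [hD0]
      unfold DX
      have a1 := XG_le (m := 4 * L ^ 13) (g := L ^ 7) (n' := n') (η := eta L) hη0.le (by linarith) j
        (by rw [h.hn]; exact hj)
      have a2 := X_nonneg (NK n) j
      linarith
    · intro j hj1 hj2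
      rw [hD0]
      exact h.DX_bound (by omega) hj2
    · -- lower end
      refine le_trans ?_ hlo
      have h1 : ((((L ^ 13 + 1) / 2 : ℕ)) : ℝ) ≤ 3 / 4 * (L : ℝ) ^ 13 := by
        have h2 : (((L ^ 13 + 1) / 2 : ℕ)) * 2 ≤ L ^ 13 + 1 := Nat.div_mul_le_self _ _
        have h3 : ((((L ^ 13 + 1) / 2 : ℕ)) : ℝ) * 2 ≤ (L : ℝ) ^ 13 + 1 := by exact_mod_cast h2
        have h4 : (L : ℝ) ^ 1 ≤ (L : ℝ) ^ 13 := pow_le_pow_right₀ hl (by norm_num)
        rw [pow_one] at h4
        linarith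
      have h5 : ((((L ^ 13 + 1) / 2 : ℕ)) : ℝ) / n ≤ 3 / 4 * (L : ℝ) ^ 13 / n :=
        div_le_div_of_nonneg_right h1 hn.le
      have h6 : 3 / 4 * (L : ℝ) ^ 13 / n + (L : ℝ) ^ 13 / (4 * n) = (L : ℝ) ^ 13 / n := by
        field_simp
        ring
      linarith
    · refine hhi.trans ?_
      have h1 : (2 : ℝ) ≤ 3 / 4 * (L : ℝ) ^ 13 := by
        have h4 : (L : ℝ) ^ 1 ≤ (L : ℝ) ^ 13 := pow_le_pow_right₀ hl (by norm_num)
        rw [pow_one] at h4
        linarith
      have h2 : (2 : ℝ) / n ≤ 3 / 4 * (L : ℝ) ^ 13 / n := div_le_div_of_nonneg_right h1 hn.le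
      have h3 : (((2 * L ^ 13 : ℕ)) : ℝ) / n - (L : ℝ) ^ 13 / (4 * n) =
          (L : ℝ) ^ 13 / n + 3 / 4 * (L : ℝ) ^ 13 / n := by
        push_cast
        field_simp
        ring
      rw [h3]
      linarith
    · -- the exponential
      have hpow1 : (L : ℝ) ^ 1 ≤ (L : ℝ) ^ 24 := pow_le_pow_right₀ hl (by norm_num)
      rw [pow_one] at hpow1
      have h1 : (L : ℝ) / 5 ≤ ((L : ℝ) ^ 13 / (4 * n)) ^ 2 * ((n : ℝ) - 1) / 4 := by
        have h2 : (n : ℝ) / 2 ≤ (n : ℝ) - 1 := by linarith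
        have h3 : ((L : ℝ) ^ 13 / (4 * n)) ^ 2 * ((n : ℝ) / 2) / 4 = (L : ℝ) ^ 26 / (128 * n) := by
          field_simp
          ring
        have h4 : (L : ℝ) ^ 2 / 256 ≤ (L : ℝ) ^ 26 / (128 * n) := by
          rw [div_le_div_iff₀ (by norm_num) (by positivity)]
          calc (L : ℝ) ^ 2 * (128 * n) ≤ (L : ℝ) ^ 2 * (128 * (2 * (L : ℝ) ^ 24)) := by gcongr
            _ = (L : ℝ) ^ 26 * 256 := by ring
        have h5 : (L : ℝ) / 5 ≤ (L : ℝ) ^ 2 / 256 := by nlinarith
        have h6 : ((L : ℝ) ^ 13 / (4 * n)) ^ 2 * ((n : ℝ) / 2) / 4 ≤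
            ((L : ℝ) ^ 13 / (4 * n)) ^ 2 * ((n : ℝ) - 1) / 4 := by gcongr
        linarith
      have h7 : Real.exp (-(((L : ℝ) ^ 13 / (4 * n)) ^ 2 * ((n : ℝ) - 1) / 4)) ≤ Ex L := by
        unfold Ex
        apply Real.exp_le_exp.mpr
        linarith
      have hE := Ex_pos L
      have h8 := h.B.small 100000 74 (by norm_num) (by linarith)
      rw [lt_div_iff₀ (by positivity)]
      calc ((n : ℝ) + 1) * (2 * Real.exp (-(((L : ℝ) ^ 13 / (4 * n)) ^ 2 * ((n : ℝ) - 1) / 4))) *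
            (n : ℝ) ^ 2
          ≤ (2 * (L : ℝ) ^ 24 + (L : ℝ) ^ 24) * (2 * Ex L) * (2 * (L : ℝ) ^ 24) ^ 2 := by
            gcongr
            linarith
        _ = 24 / 100000 * (100000 * (L : ℝ) ^ 72 * Ex L) := by ring
        _ ≤ 24 / 100000 * (100000 * (L : ℝ) ^ 74 * Ex L) := by
            have : (L : ℝ) ^ 72 ≤ (L : ℝ) ^ 74 := pow_le_pow_right₀ hl (by norm_num)
            gcongr
        _ ≤ 24 / 100000 * 1 := by
            apply mul_le_mul_of_nonneg_left h8 (by norm_num)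
        _ < 4 / 10000 * (L : ℝ) ^ 26 := by
            have : (1 : ℝ) ≤ (L : ℝ) ^ 26 := one_le_pow₀ hl
            linarith
  obtain ⟨θ, hθ⟩ := asmf_avg wt (fun θ => X (itF (NF θ) r) (n + r)) hwt hsum _ key
  exact ⟨NF θ, _, hSys θ, hown, hθ⟩

/-- From the lists to the graph: one graph for all distributions on the orders. -/
theorem asmf_final {n : ℕ} {N : Fin n → Finset ℕ} {own : Fin n → ℕ} (hS : Sys N own)
    (hown : ∀ o, own o < n) :
    ∃ Nb : Fin n → Finset (Fin n), (∃ σ : Equiv.Perm (Fin n), ∀ i, σ i ∈ Nb i) ∧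
      ∀ p : Equiv.Perm (Fin n) → ℝ, ∑ τ, p τ = 1 →
        (∑ π : Equiv.Perm (Fin n), ∑ τ, p τ * (fr (fun i => (Nb i).image π) τ : ℝ)) /
          (n.factorial : ℝ) = X N n := by
  set Nb : Fin n → Finset (Fin n) := fun i => univ.filter fun v => (i : ℕ) ∈ N v with hNb
  have hlt : ∀ v, ∀ e ∈ N v, e < n := by
    intro v e he
    obtain ⟨o, -, rfl⟩ := mem_image.1 (hS.sub v he)
    exact hown o
  have h1 : lists Nb = N := by
    funext v
    unfold lists
    ext e
    simp only [mem_image, mem_filter, mem_univ, true_and, hNb]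
    constructor
    · rintro ⟨i, hi, rfl⟩
      exact hi
    · intro he
      exact ⟨⟨e, hlt v e he⟩, he, rfl⟩
  -- the perfect matching
  set o' : Fin n → Fin n := fun o => ⟨own o, hown o⟩ with ho'
  have hinj : Function.Injective o' := by
    intro a b hab
    exact hS.inj (congrArg Fin.val hab)
  set σ : Equiv.Perm (Fin n) := (Equiv.ofBijective o' (Finite.injective_iff_bijective.1 hinj)).symm
    with hσ
  have hσ' : ∀ i, σ i ∈ Nb i := by
    intro i
    have h2 : o' (σ i) = i := (Equiv.ofBijective o' _).apply_symm_apply i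
    have h3 : own (σ i) = (i : ℕ) := congrArg Fin.val h2
    simp only [hNb, mem_filter, mem_univ, true_and]
    rw [← h3]
    exact hS.self _
  refine ⟨Nb, ⟨σ, hσ'⟩, fun p hp1 => ?_⟩
  rw [sum_comm]
  have h4 : ∀ τ : Equiv.Perm (Fin n), ∑ π : Equiv.Perm (Fin n),
      p τ * (fr (fun i => (Nb i).image π) τ : ℝ) = p τ * ((n.factorial : ℝ) * X N n) := by
    intro τ
    rw [← mul_sum]
    congr 1
    rw [← h1, ← sum_fr]
    rw [← Equiv.sum_comp (Equiv.mulLeft τ) (fun τ' => (fr Nb τ' : ℝ))]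
    refine sum_congr rfl fun π _ => ?_
    rw [fr_image]
    rfl
  rw [sum_congr rfl fun τ _ => h4 τ, ← sum_mul, hp1, one_mul]
  have h5 : (0 : ℝ) < (n.factorial : ℝ) := by exact_mod_cast Nat.factorial_pos n
  field_simp

/-- RK-46. For all large `n` there is a bipartite graph with a perfect matching such that every greedy algorithm
with a random order (drawn from any distribution) matches on average over the renamings of this graph fewer vertices
than Ranking against `D_n`. -/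
theorem worse : ∃ n0 : ℕ, ∀ n ≥ n0, ∃ Nb : Fin n → Finset (Fin n),
    (∃ σ : Equiv.Perm (Fin n), ∀ i, σ i ∈ Nb i) ∧
      ∀ p : Equiv.Perm (Fin n) → ℝ, ∑ τ, p τ = 1 →
        (∑ π : Equiv.Perm (Fin n), ∑ τ, p τ * (fr (fun i => (Nb i).image π) τ : ℝ)) /
          (n.factorial : ℝ) < rhoD n := by
  obtain ⟨L0, hL0⟩ := asm_big
  obtain ⟨N0, hN0⟩ := asmc_L L0
  refine ⟨N0, fun N hN => ?_⟩
  obtain ⟨L, hL1, hL2, h3, h4⟩ := hN0 N hN
  obtain ⟨n, hn1, hn2, hlo, hhi⟩ := asmc_n L N hL2 h3 h4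
  have hB := hL0 L hL1
  have h8 : 8 * L ^ 13 ≤ L ^ 24 := by
    have h5 : (1000000 : ℝ) * (L : ℝ) ^ 13 ≤ (L : ℝ) ^ 24 := hB.pow_add_le (by norm_num)
    have h6 : (0 : ℝ) ≤ (L : ℝ) ^ 13 := by positivity
    have h7 : (8 : ℝ) * (L : ℝ) ^ 13 ≤ (L : ℝ) ^ 24 := by linarith
    exact_mod_cast h7
  have hPar : Par L n (n - 8 * L ^ 13) := ⟨hB, by omega, hn1, hn2⟩
  have hr : n + (N - n) = N := by omega
  have e1 : 1 - ∑ a ∈ Ioc n (n + (N - n)), 1 / (a : ℝ) = 1 - ∑ a ∈ Ioc n N, 1 / (a : ℝ) := by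
    rw [hr]
  obtain ⟨NF, own, hS, hown, hX⟩ := asmf_chain hPar (N - n) (by rw [e1]; exact hlo)
    (by rw [e1]; exact hhi)
  have hS' := asmf_sys_itF hS (N - n)
  have hown' := asmf_own_itO hown (N - n)
  rw [← hr]
  obtain ⟨Nb, hPM, hNb⟩ := asmf_final hS' hown'
  refine ⟨Nb, hPM, fun p hp1 => ?_⟩
  rw [hNb p hp1, rhoD_eq]
  exact hX

end Pool.Agent.helper65.RK
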