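import Pool.Agent.helper65.RK.Nu

set_option autoImplicit false

/-!
# RK-40 : the parameters
-/

namespace Pool.Agent.helper65.RK

open Finset

/-- The probability of the type `D`. -/
noncomputable def eta (L : ℕ) : ℝ := 1 / (20 * Real.sqrt ((L : ℝ) ^ 13))

/-- The exponentially small quantity. -/
noncomputable def Ex (L : ℕ) : ℝ := Real.exp (-((L : ℝ) / 5))

/-- `L` is large. -/
structure Big (L : ℕ) : Prop where
  big : 1000000 ≤ L
  ex : Ex L * (L : ℝ) ^ 100 ≤ 1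

theorem asm_big : ∃ L0 : ℕ, ∀ L ≥ L0, Big L := by
  have h := Real.tendsto_pow_mul_exp_neg_atTop_nhds_zero 100
  have h2 : Filter.Tendsto (fun L : ℕ => (L : ℝ) / 5) Filter.atTop Filter.atTop := by
    apply Filter.Tendsto.atTop_div_const (by norm_num)
    exact tendsto_natCast_atTop_atTop
  have h3 := h.comp h2
  have h4 : ∀ᶠ L : ℕ in Filter.atTop,
      ((fun x : ℝ => x ^ 100 * Real.exp (-x)) ∘ fun L : ℕ => (L : ℝ) / 5) L < 1 / 5 ^ 100 :=
    h3.eventually_lt_const (by positivity)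
  obtain ⟨L1, hL1⟩ := Filter.eventually_atTop.mp h4
  refine ⟨max L1 1000000, fun L hL => ⟨le_trans (le_max_right _ _) hL, ?_⟩⟩
  have h5 := hL1 L (le_trans (le_max_left _ _) hL)
  simp only [Function.comp] at h5
  rw [div_pow, div_mul_eq_mul_div, div_lt_div_iff_of_pos_right (by positivity)] at h5
  unfold Ex
  rw [mul_comm]
  exact h5.le

variable {L : ℕ}

theorem Ex_pos (L : ℕ) : 0 < Ex L := Real.exp_pos _

theorem Big.one_le (h : Big L) : (1 : ℝ) ≤ L := by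
  have : 1 ≤ L := le_trans (by norm_num) h.big
  exact_mod_cast this

theorem Big.bigR (h : Big L) : (1000000 : ℝ) ≤ L := by exact_mod_cast h.big

/-- Small errors. -/
theorem Big.small (h : Big L) (c : ℝ) (k : ℕ) (hk : k ≤ 99) (hc : c ≤ L) :
    c * (L : ℝ) ^ k * Ex L ≤ 1 := by
  have h1 := h.one_le
  have h2 : c * (L : ℝ) ^ k ≤ (L : ℝ) ^ 100 := by
    calc c * (L : ℝ) ^ k ≤ (L : ℝ) * (L : ℝ) ^ 99 := by
          apply mul_le_mul hc _ (by positivity) (by positivity)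
          exact pow_le_pow_right₀ h1 hk
      _ = (L : ℝ) ^ 100 := by ring
  have h3 := h.ex
  have h4 := Ex_pos L
  calc c * (L : ℝ) ^ k * Ex L ≤ (L : ℝ) ^ 100 * Ex L :=
        mul_le_mul_of_nonneg_right h2 h4.le
    _ ≤ 1 := by linarith [mul_comm (Ex L) ((L : ℝ) ^ 100)]

theorem Big.sqrt_pos (h : Big L) : 0 < Real.sqrt ((L : ℝ) ^ 13) := by
  have h1 := h.one_le
  positivity

theorem Big.one_le_sqrt (h : Big L) : 1 ≤ Real.sqrt ((L : ℝ) ^ 13) := by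
  have h1 := h.one_le
  rw [Real.one_le_sqrt]
  exact one_le_pow₀ h1

theorem Big.eta_pos (h : Big L) : 0 < eta L := by
  have := h.sqrt_pos
  unfold eta
  positivity

theorem Big.eta_le (h : Big L) : eta L ≤ 1 / 20 := by
  have := h.one_le_sqrt
  unfold eta
  apply one_div_le_one_div_of_le <;> linarith

theorem Big.sqrt_le (h : Big L) : Real.sqrt ((L : ℝ) ^ 13) ≤ (L : ℝ) ^ 7 := by
  have h1 := h.one_le
  rw [Real.sqrt_le_left (by positivity)]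
  calc (L : ℝ) ^ 13 ≤ (L : ℝ) ^ 14 := pow_le_pow_right₀ h1 (by norm_num)
    _ = ((L : ℝ) ^ 7) ^ 2 := by ring

/-- `η √x ≤ 1/10`. -/
theorem Big.eta_sqrt (h : Big L) {x : ℝ} (hx : x ≤ 2 * (L : ℝ) ^ 13) :
    eta L * Real.sqrt x ≤ 1 / 10 := by
  have h1 := h.sqrt_pos
  have h2 : Real.sqrt x ≤ 2 * Real.sqrt ((L : ℝ) ^ 13) := by
    rw [Real.sqrt_le_left (by positivity), mul_pow, Real.sq_sqrt (by positivity)]
    have : (0 : ℝ) ≤ (L : ℝ) ^ 13 := by positivity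
    linarith
  unfold eta
  rw [one_div, inv_mul_le_iff₀ (by positivity)]
  linarith

/-- `η √g ≤ 1/8`. -/
theorem Big.eta_sqrt_g (h : Big L) : eta L * Real.sqrt ((L ^ 7 : ℕ) : ℝ) ≤ 1 / 8 := by
  have h1 := h.one_le
  have : (((L ^ 7 : ℕ) : ℝ)) ≤ 2 * (L : ℝ) ^ 13 := by
    push_cast
    have := pow_le_pow_right₀ h1 (show 7 ≤ 13 by norm_num)
    have h3 : (0 : ℝ) ≤ (L : ℝ) ^ 13 := by positivity
    linarith
  linarith [h.eta_sqrt this]

/-- `η x ≤ L^7/10`. -/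
theorem Big.eta_mul (h : Big L) {x : ℝ} (hx : x ≤ 2 * (L : ℝ) ^ 13) :
    eta L * x ≤ (L : ℝ) ^ 7 / 10 := by
  have h1 := h.sqrt_pos
  have h2 := h.sqrt_le
  have h3 : Real.sqrt ((L : ℝ) ^ 13) * Real.sqrt ((L : ℝ) ^ 13) = (L : ℝ) ^ 13 :=
    Real.mul_self_sqrt (by positivity)
  unfold eta
  rw [one_div, inv_mul_le_iff₀ (by positivity)]
  have h4 : Real.sqrt ((L : ℝ) ^ 13) * Real.sqrt ((L : ℝ) ^ 13) ≤
      Real.sqrt ((L : ℝ) ^ 13) * (L : ℝ) ^ 7 := mul_le_mul_of_nonneg_left h2 h1.le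
  linarith

theorem Big.sqrt_g (h : Big L) : Real.sqrt ((L ^ 7 : ℕ) : ℝ) ≤ (L : ℝ) ^ 4 := by
  have h1 := h.one_le
  rw [Real.sqrt_le_left (by positivity)]
  push_cast
  calc (L : ℝ) ^ 7 ≤ (L : ℝ) ^ 8 := pow_le_pow_right₀ h1 (by norm_num)
    _ = ((L : ℝ) ^ 4) ^ 2 := by ring

/-- The exponentials. -/
theorem Big.exp1 (h : Big L) {t : ℕ} (ht1 : 1 ≤ t) (ht : t ≤ 2 * L ^ 13) :
    Real.exp (-((9 / 10 * ((L ^ 7 : ℕ) : ℝ)) ^ 2 / (2 * t))) ≤ Ex L := by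
  have h1 := h.one_le
  have ht' : (t : ℝ) ≤ 2 * (L : ℝ) ^ 13 := by exact_mod_cast ht
  have ht0 : (0 : ℝ) < t := by exact_mod_cast ht1
  unfold Ex
  apply Real.exp_le_exp.mpr
  apply neg_le_neg
  push_cast
  rw [div_le_div_iff₀ (by norm_num) (by positivity)]
  have h2 : (L : ℝ) * (2 * t) ≤ (L : ℝ) * (2 * (2 * (L : ℝ) ^ 13)) := by
    apply mul_le_mul_of_nonneg_left _ (by positivity)
    linarith
  have h3 : (0 : ℝ) ≤ (L : ℝ) ^ 14 := by positivity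
  nlinarith [h2, h3]

theorem Big.exp2 (h : Big L) {t : ℕ} (ht1 : 1 ≤ t) (ht : t ≤ 2 * L ^ 13) :
    Real.exp (-(((L ^ 7 : ℕ) : ℝ) ^ 2 / (2 * t))) ≤ Ex L := by
  refine le_trans ?_ (h.exp1 ht1 ht)
  apply Real.exp_le_exp.mpr
  apply neg_le_neg
  apply div_le_div_of_nonneg_right _ (by positivity)
  rw [mul_pow]
  have : (0 : ℝ) ≤ ((L ^ 7 : ℕ) : ℝ) ^ 2 := by positivity
  linarith

theorem Big.exp3 (h : Big L) : Real.exp (-((L ^ 7 : ℕ) : ℝ)) ≤ Ex L := by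
  have h1 := h.one_le
  unfold Ex
  apply Real.exp_le_exp.mpr
  apply neg_le_neg
  push_cast
  have := pow_le_pow_right₀ h1 (show 1 ≤ 7 by norm_num)
  rw [pow_one] at this
  linarith

theorem Big.exp4 (h : Big L) : Real.exp (-(2 * ((L ^ 7 : ℕ) : ℝ))) ≤ Ex L := by
  refine le_trans ?_ h.exp3
  apply Real.exp_le_exp.mpr
  have : (0 : ℝ) ≤ ((L ^ 7 : ℕ) : ℝ) := by positivity
  linarith

/-- The number of far agents. -/
structure Par (L n n' : ℕ) : Prop where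
  B : Big L
  hn : 2 * (4 * L ^ 13) + n' = n
  lo : L ^ 24 ≤ n
  hi : n ≤ 2 * L ^ 24

variable {n n' : ℕ}

theorem Par.cast (h : Par L n n') : 2 * ((4 * L ^ 13 : ℕ) : ℝ) + n' = n := by
  exact_mod_cast h.hn

theorem Par.loR (h : Par L n n') : (L : ℝ) ^ 24 ≤ n := by exact_mod_cast h.lo

theorem Par.hiR (h : Par L n n') : (n : ℝ) ≤ 2 * (L : ℝ) ^ 24 := by exact_mod_cast h.hi

theorem Par.npos (h : Par L n n') : (0 : ℝ) < n := by
  have h1 := h.B.one_le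
  have h2 := h.loR
  have h3 : (0 : ℝ) < (L : ℝ) ^ 24 := by positivity
  linarith

/-- `L^k` is much smaller than `L^(k+1)`. -/
theorem Big.pow_succ_le (h : Big L) (k : ℕ) : 1000000 * (L : ℝ) ^ k ≤ (L : ℝ) ^ (k + 1) := by
  have h1 := h.bigR
  have h2 := h.one_le
  rw [pow_succ]
  nlinarith [pow_pos (show (0 : ℝ) < L by linarith) k]

theorem Big.pow_add_le (h : Big L) {k l : ℕ} (hkl : k + 1 ≤ l) :
    1000000 * (L : ℝ) ^ k ≤ (L : ℝ) ^ l :=
  le_trans (h.pow_succ_le k) (pow_le_pow_right₀ h.one_le hkl)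

theorem Par.t_small (h : Par L n n') {x : ℝ} (hx : x ≤ 2 * (L : ℝ) ^ 13) : 100 * x ≤ n := by
  have h1 := h.B.pow_add_le (k := 13) (l := 24) (by norm_num)
  have h2 := h.loR
  have h3 : (0 : ℝ) ≤ (L : ℝ) ^ 13 := by positivity
  linarith

theorem Par.t_lt (h : Par L n n') {t : ℕ} (ht : t ≤ 2 * L ^ 13) : t < 2 * (4 * L ^ 13) + n' := by
  rw [h.hn]
  have h1 : (t : ℝ) ≤ 2 * (L : ℝ) ^ 13 := by exact_mod_cast ht
  have h2 := h.t_small h1
  have h3 := h.npos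
  have h4 : (t : ℝ) < n := by
    have : (0 : ℝ) ≤ t := by positivity
    linarith
  exact_mod_cast h4

/-- The tail of the number of owners. -/
theorem Par.PV_small (h : Par L n n') {t : ℕ} (ht : t ≤ 2 * L ^ 13) :
    PV (4 * L ^ 13) n' (L ^ 3) t ≤ Ex L := by
  have h1 := PV_le (m := 4 * L ^ 13) (n' := n') (L ^ 3) t (h.t_lt ht)
  refine h1.trans ?_
  rw [h.cast]
  have ht' : (t : ℝ) ≤ 2 * (L : ℝ) ^ 13 := by exact_mod_cast ht
  have ht0 : (0 : ℝ) ≤ t := by positivity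
  have hl := h.B.one_le
  have hb := h.B.bigR
  have h2 := h.t_small ht'
  have h3 := h.npos
  have h4 : (n : ℝ) / 2 ≤ n - t := by linarith
  have h5 : 2 * ((4 * L ^ 13 : ℕ) : ℝ) * t / ((n : ℝ) - t) ≤ 32 * (L : ℝ) ^ 2 := by
    rw [div_le_iff₀ (by linarith)]
    push_cast
    calc 2 * (4 * (L : ℝ) ^ 13) * t ≤ 2 * (4 * (L : ℝ) ^ 13) * (2 * (L : ℝ) ^ 13) := by
          apply mul_le_mul_of_nonneg_left ht' (by positivity)
      _ = 32 * (L : ℝ) ^ 2 * ((L : ℝ) ^ 24 / 2) := by ring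
      _ ≤ 32 * (L : ℝ) ^ 2 * ((n : ℝ) - t) := by
          apply mul_le_mul_of_nonneg_left _ (by positivity)
          linarith [h.loR]
  have h6 : Real.exp ((L : ℝ) ^ 3 / 2) ≤ 2 ^ (L ^ 3) := by
    have : (2 : ℝ) ^ (L ^ 3) = Real.exp (Real.log 2 * ((L ^ 3 : ℕ) : ℝ)) := by
      rw [Real.exp_mul, Real.exp_log (by norm_num), Real.rpow_natCast]
    rw [this]
    apply Real.exp_le_exp.mpr
    push_cast
    have h7 := Real.log_two_gt_d9
    nlinarith [pow_pos (show (0 : ℝ) < L by linarith) 3]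
  calc Real.exp (2 * ((4 * L ^ 13 : ℕ) : ℝ) * t / ((n : ℝ) - t)) / 2 ^ (L ^ 3)
      ≤ Real.exp (32 * (L : ℝ) ^ 2) / Real.exp ((L : ℝ) ^ 3 / 2) := by
        apply div_le_div₀ (Real.exp_pos _).le _ (Real.exp_pos _) h6
        exact Real.exp_le_exp.mpr h5
    _ = Real.exp (32 * (L : ℝ) ^ 2 - (L : ℝ) ^ 3 / 2) := by rw [Real.exp_sub]
    _ ≤ Ex L := by
        unfold Ex
        apply Real.exp_le_exp.mpr
        nlinarith [mul_self_nonneg (L : ℝ), mul_nonneg (mul_self_nonneg (L : ℝ)) (show (0 : ℝ) ≤ L - 1000000 by linarith)]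

end Pool.Agent.helper65.RK
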