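import Pool.Agent.helper65.RK.Defs

set_option autoImplicit false

/-!
# RK-01 : lists without repetitions and averages
-/

namespace Pool.Agent.helper65.RK

open Finset

variable {α : Type} [Fintype α] [DecidableEq α]

theorem mem_nl {t : ℕ} {C : List α} : C ∈ nl α t ↔ C.Nodup ∧ C.length = t := by
  unfold nl
  rw [Finset.mem_image]
  constructor
  · rintro ⟨e, -, rfl⟩
    refine ⟨?_, by simp⟩
    rw [List.nodup_ofFn]
    exact e.injective
  · rintro ⟨hn, hl⟩
    subst hl
    refine ⟨⟨fun i => C.get i, List.nodup_iff_injective_get.1 hn⟩, Finset.mem_univ _, ?_⟩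
    exact List.ofFn_get C

theorem nl_zero : nl α 0 = {[]} := by
  ext C
  rw [mem_nl, Finset.mem_singleton]
  constructor
  · rintro ⟨-, h⟩
    exact List.length_eq_zero_iff.1 h
  · rintro rfl
    exact ⟨List.nodup_nil, rfl⟩

theorem card_nl (t : ℕ) : (nl α t).card = (Fintype.card α).descFactorial t := by
  unfold nl
  rw [Finset.card_image_of_injective, Finset.card_univ, Fintype.card_embedding_eq,
    Fintype.card_fin]
  intro e e' h
  have h' : (fun i => e i) = fun i => e' i := List.ofFn_injective h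
  exact DFunLike.coe_injective h'

theorem card_compl {t : ℕ} {C : List α} (h : C ∈ nl α t) :
    ((univ.filter fun o => o ∉ C).card : ℝ) = (Fintype.card α : ℝ) - t := by
  obtain ⟨hn, hl⟩ := mem_nl.1 h
  have h1 : (univ.filter fun o => o ∉ C) = (C.toFinset)ᶜ := by
    ext o
    simp
  rw [h1, Finset.card_compl, List.toFinset_card_of_nodup hn, hl, Nat.cast_sub]
  rw [← hl, ← List.toFinset_card_of_nodup hn]
  exact Finset.card_le_univ _

/-- Add a last element. -/
theorem sum_nl_succ (t : ℕ) (φ : List α → ℝ) :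
    ∑ C ∈ nl α (t + 1), φ C = ∑ C ∈ nl α t, ∑ o ∈ univ.filter (fun o => o ∉ C), φ (C ++ [o]) := by
  rw [Finset.sum_sigma']
  symm
  refine Finset.sum_bij (fun (p : (_ : List α) × α) _ => p.1 ++ [p.2]) ?_ ?_ ?_ ?_
  · rintro ⟨C, o⟩ hp
    obtain ⟨hC, ho⟩ := Finset.mem_sigma.1 hp
    obtain ⟨hn, hl⟩ := mem_nl.1 hC
    have ho' : o ∉ C := (Finset.mem_filter.1 ho).2
    refine mem_nl.2 ⟨?_, ?_⟩
    · show (C ++ [o]).Nodup
      rw [List.nodup_append]
      refine ⟨hn, List.nodup_singleton _, ?_⟩
      intro a ha b hb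
      rw [List.mem_singleton] at hb
      rintro rfl
      exact ho' (hb ▸ ha)
    · show (C ++ [o]).length = t + 1
      simp [hl]
  · rintro ⟨C, o⟩ _ ⟨C', o'⟩ _ h
    have h' : C ++ [o] = C' ++ [o'] := h
    obtain ⟨h1, h2⟩ := List.append_inj' h' rfl
    have h3 : o = o' := by simpa using h2
    subst h1
    subst h3
    rfl
  · intro C' hC'
    obtain ⟨hn, hl⟩ := mem_nl.1 hC'
    have hne : C' ≠ [] := by
      rintro rfl
      simp at hl
    have hd : C'.dropLast ++ [C'.getLast hne] = C' := List.dropLast_append_getLast hne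
    have hn' := hn
    rw [← hd, List.nodup_append] at hn'
    refine ⟨⟨C'.dropLast, C'.getLast hne⟩, ?_, hd⟩
    refine Finset.mem_sigma.2 ⟨mem_nl.2 ⟨hn'.1, by simp [hl]⟩,
      Finset.mem_filter.2 ⟨Finset.mem_univ _, ?_⟩⟩
    intro hmem
    exact hn'.2.2 _ hmem _ (List.mem_singleton_self _) rfl
  · rintro ⟨C, o⟩ _
    rfl

theorem NL_idxOf_insertIdx {C : List α} {o : α} {i : ℕ} (ho : o ∉ C) (hi : i ≤ C.length) :
    (C.insertIdx i o).idxOf o = i := by
  induction C generalizing i with
  | nil =>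
    have : i = 0 := by simpa using hi
    subst this
    simp
  | cons a C ih =>
    cases i with
    | zero => simp
    | succ i =>
      have ha : a ≠ o := fun h => ho (by simp [h])
      have hC : o ∉ C := fun h => ho (by simp [h])
      rw [List.insertIdx_succ_cons, List.idxOf_cons_ne _ ha,
        ih hC (by simpa using hi)]

theorem NL_erase_insertIdx {C : List α} {o : α} {i : ℕ} (ho : o ∉ C) (hi : i ≤ C.length) :
    (C.insertIdx i o).erase o = C := by
  induction C generalizing i with
  | nil =>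
    have : i = 0 := by simpa using hi
    subst this
    simp
  | cons a C ih =>
    cases i with
    | zero => simp
    | succ i =>
      have ha : a ≠ o := fun h => ho (by simp [h])
      have hC : o ∉ C := fun h => ho (by simp [h])
      rw [List.insertIdx_succ_cons, List.erase_cons_tail (by simpa using ha),
        ih hC (by simpa using hi)]

theorem NL_insertIdx_erase {C : List α} {o : α} (ho : o ∈ C) :
    (C.erase o).insertIdx (C.idxOf o) o = C := by
  induction C with
  | nil => simp at ho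
  | cons a C ih =>
    by_cases ha : a = o
    · subst ha
      simp
    · have hC : o ∈ C := by
        rcases List.mem_cons.1 ho with h | h
        · exact absurd h.symm ha
        · exact h
      rw [List.idxOf_cons_ne _ ha, List.erase_cons_tail (by simpa using ha),
        List.insertIdx_succ_cons, ih hC]

theorem NL_insert_mem {t : ℕ} {C : List α} {o : α} {i : ℕ} (hC : C ∈ nl α t) (ho : o ∉ C)
    (hi : i < t + 1) : C.insertIdx i o ∈ nl α (t + 1) := by
  obtain ⟨hn, hl⟩ := mem_nl.1 hC
  have hi' : i ≤ C.length := by omega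
  have hp := List.perm_insertIdx o C hi'
  refine mem_nl.2 ⟨?_, ?_⟩
  · rw [hp.nodup_iff, List.nodup_cons]
    exact ⟨ho, hn⟩
  · rw [hp.length_eq, List.length_cons, hl]

/-- Insert an element at any place. [Bijection `(C, o, i) ↦ (C.insertIdx i o, o)` with inverse
`(C', o) ↦ (C'.erase o, o, C'.idxOf o)`.] -/
theorem sum_nl_insert (t : ℕ) (F : ℕ → α → List α → List α → ℝ) :
    ∑ C ∈ nl α t, ∑ o ∈ univ.filter (fun o => o ∉ C), ∑ i ∈ range (t + 1),
        F i o C (C.insertIdx i o) =
      ∑ C ∈ nl α (t + 1), ∑ o ∈ C.toFinset, F (C.idxOf o) o (C.erase o) C := by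
  have hL : ∑ C ∈ nl α t, ∑ o ∈ univ.filter (fun o => o ∉ C), ∑ i ∈ range (t + 1),
        F i o C (C.insertIdx i o) =
      ∑ p ∈ (nl α t).sigma (fun C => (univ.filter (fun o => o ∉ C)) ×ˢ range (t + 1)),
        F p.2.2 p.2.1 p.1 (p.1.insertIdx p.2.2 p.2.1) := by
    rw [Finset.sum_sigma]
    refine Finset.sum_congr rfl fun C _ => ?_
    rw [Finset.sum_product]
  rw [hL, Finset.sum_sigma']
  refine Finset.sum_bij (fun (p : (_ : List α) × (α × ℕ)) _ =>
    (⟨p.1.insertIdx p.2.2 p.2.1, p.2.1⟩ : (_ : List α) × α)) ?_ ?_ ?_ ?_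
  · rintro ⟨C, o, i⟩ hp
    obtain ⟨hC, hoi⟩ := Finset.mem_sigma.1 hp
    obtain ⟨ho, hi⟩ := Finset.mem_product.1 hoi
    have ho' : o ∉ C := (Finset.mem_filter.1 ho).2
    have hi' : i < t + 1 := Finset.mem_range.1 hi
    have hl := (mem_nl.1 hC).2
    dsimp only at hl hi'
    refine Finset.mem_sigma.2 ⟨NL_insert_mem hC ho' hi', ?_⟩
    rw [List.mem_toFinset]
    exact (List.perm_insertIdx o C (show i ≤ C.length by omega)).mem_iff.2 (by simp)
  · rintro ⟨C, o, i⟩ hp ⟨C', o', i'⟩ hp' h
    obtain ⟨hC, hoi⟩ := Finset.mem_sigma.1 hp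
    obtain ⟨ho, hi⟩ := Finset.mem_product.1 hoi
    have ho1 : o ∉ C := (Finset.mem_filter.1 ho).2
    have hi1 : i < t + 1 := Finset.mem_range.1 hi
    have hl := (mem_nl.1 hC).2
    obtain ⟨hC', hoi'⟩ := Finset.mem_sigma.1 hp'
    obtain ⟨ho', hi'⟩ := Finset.mem_product.1 hoi'
    have ho1' : o' ∉ C' := (Finset.mem_filter.1 ho').2
    have hi1' : i' < t + 1 := Finset.mem_range.1 hi'
    have hl' := (mem_nl.1 hC').2
    dsimp only at hl hl' ho1 ho1' hi1 hi1'
    simp only [Sigma.mk.injEq, heq_eq_eq] at h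
    obtain ⟨h1, h2⟩ := h
    subst h2
    have e1 : i = i' := by
      rw [← NL_idxOf_insertIdx ho1 (show i ≤ C.length by omega), h1,
        NL_idxOf_insertIdx ho1' (show i' ≤ C'.length by omega)]
    have e2 : C = C' := by
      rw [← NL_erase_insertIdx ho1 (show i ≤ C.length by omega), h1,
        NL_erase_insertIdx ho1' (show i' ≤ C'.length by omega)]
    subst e1
    subst e2
    rfl
  · rintro ⟨C, o⟩ hp
    obtain ⟨hC, ho⟩ := Finset.mem_sigma.1 hp
    have ho' : o ∈ C := List.mem_toFinset.1 ho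
    obtain ⟨hn, hl⟩ := mem_nl.1 hC
    dsimp only at hn hl
    refine ⟨⟨C.erase o, o, C.idxOf o⟩, ?_, ?_⟩
    · refine Finset.mem_sigma.2 ⟨mem_nl.2 ⟨hn.erase _, ?_⟩, Finset.mem_product.2 ⟨?_, ?_⟩⟩
      · show (C.erase o).length = t
        rw [List.length_erase_of_mem ho', hl]
        rfl
      · refine Finset.mem_filter.2 ⟨Finset.mem_univ _, ?_⟩
        exact hn.not_mem_erase
      · rw [Finset.mem_range]
        have := List.idxOf_lt_length_iff.2 ho'
        show C.idxOf o < t + 1
        omega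
    · show (⟨(C.erase o).insertIdx (C.idxOf o) o, o⟩ : (_ : List α) × α) = ⟨C, o⟩
      rw [NL_insertIdx_erase ho']
  · rintro ⟨C, o, i⟩ hp
    obtain ⟨hC, hoi⟩ := Finset.mem_sigma.1 hp
    obtain ⟨ho, hi⟩ := Finset.mem_product.1 hoi
    have ho1 : o ∉ C := (Finset.mem_filter.1 ho).2
    have hi1 : i < t + 1 := Finset.mem_range.1 hi
    have hl := (mem_nl.1 hC).2
    dsimp only at hl ho1 hi1
    show F i o C (C.insertIdx i o) = F ((C.insertIdx i o).idxOf o) o ((C.insertIdx i o).erase o)
      (C.insertIdx i o)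
    rw [NL_idxOf_insertIdx ho1 (show i ≤ C.length by omega),
      NL_erase_insertIdx ho1 (show i ≤ C.length by omega)]

theorem NL_card_succ {t : ℕ} (ht : t < Fintype.card α) :
    ((nl α (t + 1)).card : ℝ) = ((nl α t).card : ℝ) * ((Fintype.card α : ℝ) - t) := by
  rw [card_nl, card_nl, Nat.descFactorial_succ, Nat.cast_mul, Nat.cast_sub ht.le]
  ring

/-! ## Averages -/

theorem card_nl_pos {t : ℕ} (ht : t ≤ Fintype.card α) : (0 : ℝ) < ((nl α t).card : ℝ) := by
  rw [card_nl]
  exact_mod_cast Nat.descFactorial_pos.2 ht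

theorem av_zero (φ : List α → ℝ) : av α 0 φ = φ [] := by
  unfold av
  rw [nl_zero]
  simp

theorem av_const {t : ℕ} (ht : t ≤ Fintype.card α) (c : ℝ) : av α t (fun _ => c) = c := by
  unfold av
  rw [Finset.sum_const, nsmul_eq_mul]
  exact mul_div_cancel_left₀ c (card_nl_pos ht).ne'

theorem av_mono {t : ℕ} {φ ψ : List α → ℝ} (h : ∀ C ∈ nl α t, φ C ≤ ψ C) :
    av α t φ ≤ av α t ψ := by
  unfold av
  exact div_le_div_of_nonneg_right (Finset.sum_le_sum h) (Nat.cast_nonneg _)

theorem av_congr {t : ℕ} {φ ψ : List α → ℝ} (h : ∀ C ∈ nl α t, φ C = ψ C) :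
    av α t φ = av α t ψ := by
  unfold av
  rw [Finset.sum_congr rfl h]

theorem av_nonneg {t : ℕ} {φ : List α → ℝ} (h : ∀ C ∈ nl α t, 0 ≤ φ C) : 0 ≤ av α t φ := by
  unfold av
  exact div_nonneg (Finset.sum_nonneg h) (Nat.cast_nonneg _)

theorem av_add (t : ℕ) (φ ψ : List α → ℝ) :
    av α t (fun C => φ C + ψ C) = av α t φ + av α t ψ := by
  unfold av
  rw [Finset.sum_add_distrib, add_div]

theorem av_sub (t : ℕ) (φ ψ : List α → ℝ) :
    av α t (fun C => φ C - ψ C) = av α t φ - av α t ψ := by
  unfold av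
  rw [Finset.sum_sub_distrib, sub_div]

theorem av_mul (t : ℕ) (c : ℝ) (φ : List α → ℝ) :
    av α t (fun C => c * φ C) = c * av α t φ := by
  unfold av
  rw [← Finset.mul_sum, mul_div_assoc]

theorem av_sum {ι : Type} (s : Finset ι) (t : ℕ) (φ : ι → List α → ℝ) :
    av α t (fun C => ∑ i ∈ s, φ i C) = ∑ i ∈ s, av α t (φ i) := by
  unfold av
  rw [Finset.sum_comm, Finset.sum_div]

/-- Reveal the last element. -/
theorem av_succ {t : ℕ} (ht : t < Fintype.card α) (φ : List α → ℝ) :
    av α (t + 1) φ =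
      av α t (fun C => (∑ o ∈ univ.filter (fun o => o ∉ C), φ (C ++ [o])) /
        ((Fintype.card α : ℝ) - t)) := by
  unfold av
  rw [sum_nl_succ, ← Finset.sum_div, div_div, NL_card_succ ht, mul_comm]

/-- The law of the beginning. [Iterate `av_succ`.] -/
theorem av_take {u t : ℕ} (hut : u ≤ t) (ht : t ≤ Fintype.card α) (φ : List α → ℝ) :
    av α t (fun C => φ (C.take u)) = av α u φ := by
  induction t, hut using Nat.le_induction with
  | base =>
    refine av_congr fun C hC => ?_
    have hl := (mem_nl.1 hC).2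
    rw [List.take_of_length_le hl.le]
  | succ t hut ih =>
    rw [av_succ (by omega), ← ih (by omega)]
    refine av_congr fun C hC => ?_
    have hl := (mem_nl.1 hC).2
    have hpos : (0 : ℝ) < (Fintype.card α : ℝ) - t := by
      have : ((t + 1 : ℕ) : ℝ) ≤ (Fintype.card α : ℝ) := by exact_mod_cast ht
      push_cast at this
      linarith
    have h1 : ∀ o ∈ univ.filter (fun o => o ∉ C), φ ((C ++ [o]).take u) = φ (C.take u) := by
      intro o _
      rw [List.take_append_of_le_length (by omega)]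
    rw [Finset.sum_congr rfl h1, Finset.sum_const, nsmul_eq_mul, card_compl hC]
    exact mul_div_cancel_left₀ _ hpos.ne'

theorem av_insert {t : ℕ} (ht : t < Fintype.card α) (F : ℕ → α → List α → List α → ℝ) :
    av α t (fun C => ∑ o ∈ univ.filter (fun o => o ∉ C), ∑ i ∈ range (t + 1),
        F i o C (C.insertIdx i o)) =
      ((Fintype.card α : ℝ) - t) *
        av α (t + 1) (fun C => ∑ o ∈ C.toFinset, F (C.idxOf o) o (C.erase o) C) := by
  have hpos : (0 : ℝ) < (Fintype.card α : ℝ) - t := by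
    have : (t : ℝ) < (Fintype.card α : ℝ) := by exact_mod_cast ht
    linarith
  have hc := card_nl_pos (α := α) ht.le
  unfold av
  rw [sum_nl_insert, NL_card_succ ht]
  field_simp

theorem NL_av_compl {t : ℕ} (ht : t ≤ Fintype.card α) (G : α → ℝ) :
    av α t (fun C => ∑ o ∈ univ.filter (fun o => o ∉ C), G o) =
      ((Fintype.card α : ℝ) - t) / (Fintype.card α : ℝ) * ∑ o, G o := by
  induction t with
  | zero =>
    rw [av_zero]
    by_cases h : Fintype.card α = 0
    · have := Fintype.card_eq_zero_iff.1 h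
      simp
    · have h' : (Fintype.card α : ℝ) ≠ 0 := by exact_mod_cast h
      simp [div_self h']
  | succ t ih =>
    have hpos : (0 : ℝ) < (Fintype.card α : ℝ) - t := by
      have : ((t + 1 : ℕ) : ℝ) ≤ (Fintype.card α : ℝ) := by exact_mod_cast ht
      push_cast at this
      linarith
    have hcard : (0 : ℝ) < (Fintype.card α : ℝ) := by
      have : (0 : ℝ) ≤ (t : ℝ) := Nat.cast_nonneg _
      linarith
    rw [av_succ (by omega)]
    have h1 : av α t (fun C => (∑ o ∈ univ.filter (fun o => o ∉ C),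
          ∑ o' ∈ univ.filter (fun o' => o' ∉ C ++ [o]), G o') / ((Fintype.card α : ℝ) - t)) =
        av α t (fun C => (((Fintype.card α : ℝ) - t - 1) / ((Fintype.card α : ℝ) - t)) *
          ∑ o ∈ univ.filter (fun o => o ∉ C), G o) := by
      refine av_congr fun C hC => ?_
      have h2 : ∀ o ∈ univ.filter (fun o => o ∉ C),
          ∑ o' ∈ univ.filter (fun o' => o' ∉ C ++ [o]), G o' =
            (∑ o' ∈ univ.filter (fun o' => o' ∉ C), G o') - G o := by
        intro o ho
        have h3 : univ.filter (fun o' => o' ∉ C ++ [o]) =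
            (univ.filter (fun o' => o' ∉ C)).erase o := by
          ext o'
          simp only [Finset.mem_filter, Finset.mem_univ, true_and, List.mem_append,
            List.mem_singleton, Finset.mem_erase, not_or]
          tauto
        rw [h3, Finset.sum_erase_eq_sub ho]
      rw [Finset.sum_congr rfl h2, Finset.sum_sub_distrib, Finset.sum_const, nsmul_eq_mul,
        card_compl hC]
      field_simp
    rw [h1, av_mul, ih (by omega)]
    push_cast
    field_simp
    ring

/-- Every agent is equally likely at every place. [By symmetry under permutations of `α`, or by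
induction.] -/
theorem av_at {t : ℕ} (ht : t ≤ Fintype.card α) (F : ℕ → α → ℝ) :
    av α t (fun C => ∑ o ∈ C.toFinset, F (C.idxOf o) o) =
      (∑ u ∈ range t, ∑ o, F u o) / (Fintype.card α : ℝ) := by
  cases t with
  | zero =>
    rw [av_zero]
    simp
  | succ t =>
    have hpos : (0 : ℝ) < (Fintype.card α : ℝ) - t := by
      have : ((t + 1 : ℕ) : ℝ) ≤ (Fintype.card α : ℝ) := by exact_mod_cast ht
      push_cast at this
      linarith
    have hcard : (0 : ℝ) < (Fintype.card α : ℝ) := by
      have : (0 : ℝ) ≤ (t : ℝ) := Nat.cast_nonneg _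
      linarith
    have h := av_insert (α := α) (t := t) (by omega) (fun i o _ _ => F i o)
    rw [NL_av_compl (by omega) (fun o => ∑ i ∈ range (t + 1), F i o), Finset.sum_comm] at h
    have h2 : ((Fintype.card α : ℝ) - t) *
        ((∑ u ∈ range (t + 1), ∑ o, F u o) / (Fintype.card α : ℝ)) =
        ((Fintype.card α : ℝ) - t) *
        av α (t + 1) (fun C => ∑ o ∈ C.toFinset, F (C.idxOf o) o) := by
      rw [← h]
      ring
    exact (mul_left_cancel₀ hpos.ne' h2).symm

/-- Averages do not change under a renaming of the agents. -/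
theorem av_equiv {β : Type} [Fintype β] [DecidableEq β] (e : α ≃ β) (t : ℕ) (φ : List β → ℝ) :
    av β t φ = av α t (fun C => φ (C.map e)) := by
  unfold av
  rw [card_nl, card_nl, Fintype.card_congr e]
  congr 1
  symm
  refine Finset.sum_bij (fun C _ => C.map e) ?_ ?_ ?_ ?_
  · intro C hC
    obtain ⟨hn, hl⟩ := mem_nl.1 hC
    exact mem_nl.2 ⟨hn.map e.injective, by simp [hl]⟩
  · intro C _ C' _ h
    exact List.map_injective_iff.2 e.injective h
  · intro C hC
    obtain ⟨hn, hl⟩ := mem_nl.1 hC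
    refine ⟨C.map e.symm, mem_nl.2 ⟨hn.map e.symm.injective, by simp [hl]⟩, ?_⟩
    simp
  · intro C _
    rfl

theorem X_equiv {β : Type} [Fintype β] [DecidableEq β] (e : α ≃ β) (N : β → Finset ℕ) (t : ℕ) :
    X N t = X (fun o => N (e o)) t := by
  unfold X
  rw [av_equiv e]
  refine av_congr fun C _ => ?_
  unfold mat
  rw [List.map_map]
  rfl

end Pool.Agent.helper65.RK
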