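import Pool.Agent.helper65.RK.Comb3
import Pool.Agent.helper65.RK.NL
import Pool.Agent.helper65.RK.MrgL

set_option autoImplicit false

/-!
# RK-30 : words which are not good
-/

namespace Pool.Agent.helper65.RK

open Finset

variable {m g n' V t : ℕ}

/-- The letter at the place `u` is an owner who is not harmless. -/
def Bad_ev (g V : ℕ) (v : List T) (u : ℕ) (C : List (Ag m n')) : Prop :=
  nsG (C.take u) ≤ V ∧ ∃ z : Fin m × Bool, C[u]? = some (Sum.inl z) ∧
    min (posI g (mrg (C.take u) v)).1 (posI g (mrg (C.take u) v)).2 ≤ (z.1 : ℕ) ∧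
    (z.1 : ℕ) < max (posI g (mrg (C.take u) v)).1 (posI g (mrg (C.take u) v)).2 + g + 2

lemma Bad_exists (v : List T) {C : List (Ag m n')} (hC : C.length = t)
    (hb : ¬ good g (mrg C v)) (hV : nsG C ≤ V) : ∃ u < t, Bad_ev g V v u (C.take (u + 1)) := by
  unfold good at hb
  push Not at hb
  obtain ⟨u, z, hz, hok⟩ := hb
  have hu : u < t := by
    have h1 : u < (mrg C v).length := by
      by_contra h
      rw [not_lt] at h
      rw [List.getElem?_eq_none h] at hz
      exact absurd hz (by simp)
    rw [mrg_length, hC] at h1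
    exact h1
  have e1 : (C.take (u + 1)).take u = C.take u := by
    rw [List.take_take]
    congr 1
    omega
  have e2 : (C.take (u + 1))[u]? = C[u]? := by
    rw [List.getElem?_take_of_lt (Nat.lt_succ_self u)]
  refine ⟨u, hu, ?_, ?_⟩
  · rw [e1]
    exact (nsG_take_le C u).trans hV
  rw [mrg_take] at hok
  rw [e1, e2]
  cases z with
  | t s => exact absurd trivial hok
  | y i =>
    obtain ⟨hi, hCi⟩ := mrg_get_y C v u i hz
    have hok' : ¬ (max (posI g (mrg (C.take u) v)).1 (posI g (mrg (C.take u) v)).2 + g + 2 ≤ i ∨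
      i < min (posI g (mrg (C.take u) v)).1 (posI g (mrg (C.take u) v)).2) := hok
    refine ⟨(⟨i, hi⟩, false), hCi, ?_, ?_⟩
    · change _ ≤ i
      omega
    · change i < _
      omega
  | x i =>
    obtain ⟨hi, hCi⟩ := mrg_get_x C v u i hz
    have hok' : ¬ (max (posI g (mrg (C.take u) v)).1 (posI g (mrg (C.take u) v)).2 + g + 2 ≤ i ∨
      i < min (posI g (mrg (C.take u) v)).1 (posI g (mrg (C.take u) v)).2) := hok
    refine ⟨(⟨i, hi⟩, true), hCi, ?_, ?_⟩
    · change _ ≤ i
      omega
    · change i < _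
      omega

lemma Bad_card_fin (lo hi : ℕ) :
    (univ.filter fun z : Fin m × Bool => lo ≤ (z.1 : ℕ) ∧ (z.1 : ℕ) < hi).card ≤
      2 * (hi - lo) := by
  have h1 : ((univ.filter fun z : Fin m × Bool => lo ≤ (z.1 : ℕ) ∧ (z.1 : ℕ) < hi).image
      fun z => ((z.1 : ℕ), z.2)) ⊆ (Finset.Ico lo hi) ×ˢ (univ : Finset Bool) := by
    intro p hp
    rw [mem_image] at hp
    obtain ⟨z, hz, rfl⟩ := hp
    rw [mem_filter] at hz
    rw [mem_product, mem_Ico]
    exact ⟨hz.2, mem_univ _⟩
  have h2 : ((univ.filter fun z : Fin m × Bool => lo ≤ (z.1 : ℕ) ∧ (z.1 : ℕ) < hi).image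
      fun z => ((z.1 : ℕ), z.2)).card =
      (univ.filter fun z : Fin m × Bool => lo ≤ (z.1 : ℕ) ∧ (z.1 : ℕ) < hi).card := by
    apply card_image_of_injective
    rintro ⟨a, b⟩ ⟨c, d⟩ h
    simp only [Prod.mk.injEq] at h
    rw [Prod.mk.injEq]
    exact ⟨Fin.ext h.1, h.2⟩
  rw [← h2]
  refine (card_le_card h1).trans ?_
  rw [card_product, Nat.card_Ico]
  simp only [card_univ, Fintype.card_bool]
  omega

open Classical in
lemma Bad_count (v : List T) (hd : ∀ i ≤ t, |del (v.take i)| ≤ g) (hv : v.length = t)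
    {u : ℕ} (hu : u ≤ t) {C : List (Ag m n')} (hC : C.length = u) :
    ∑ o ∈ univ.filter (fun o => o ∉ C), (if Bad_ev g V v u (C ++ [o]) then (1 : ℝ) else 0) ≤
      2 * (2 * (g : ℝ) + V + 2) := by
  have hpos : (0 : ℝ) ≤ 2 * (2 * (g : ℝ) + V + 2) := by positivity
  have et : ∀ o : Ag m n', (C ++ [o]).take u = C := by
    intro o
    rw [← hC, List.take_left]
  by_cases hV : nsG C ≤ V
  · set a := (posI g (mrg C v)).1 with ha
    set b := (posI g (mrg C v)).2 with hb
    rw [← sum_filter, filter_filter, sum_const, nsmul_eq_mul, mul_one]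
    have hsub : (univ.filter fun o => o ∉ C ∧ Bad_ev g V v u (C ++ [o])) ⊆
        (univ.filter fun z : Fin m × Bool => min a b ≤ (z.1 : ℕ) ∧
          (z.1 : ℕ) < max a b + g + 2).image (Sum.inl : Fin m × Bool → Ag m n') := by
      intro o ho
      rw [mem_filter] at ho
      obtain ⟨-, -, -, z, hz, h1, h2⟩ := ho
      rw [et] at h1 h2
      have e3 : (C ++ [o])[u]? = some o := by
        rw [← hC]
        simp
      rw [e3] at hz
      rw [mem_image]
      refine ⟨z, ?_, (Option.some.inj hz).symm⟩
      rw [mem_filter]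
      exact ⟨mem_univ _, h1, h2⟩
    have hcard := ((card_le_card hsub).trans card_image_le).trans (Bad_card_fin _ _)
    have hclose := delI_close g (mrg C v)
    rw [far_mrg C v (by rw [hC, hv]; exact hu), nsr_mrg] at hclose
    have hdk := hd (C.length - nsG C) (by omega)
    have hdel : delI g (mrg C v) = (a : ℤ) - b := rfl
    rw [hdel] at hclose
    have hab : |(a : ℤ) - b| ≤ g + V := by
      have h3 : |(a : ℤ) - b| ≤ |(a : ℤ) - b - del (v.take (C.length - nsG C))| +
          |del (v.take (C.length - nsG C))| := by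
        have := abs_add_le ((a : ℤ) - b - del (v.take (C.length - nsG C)))
          (del (v.take (C.length - nsG C)))
        rwa [sub_add_cancel] at this
      have h4 : (nsG C : ℤ) ≤ V := by exact_mod_cast hV
      linarith
    have hnat : max a b + g + 2 - min a b ≤ 2 * g + V + 2 := by
      rw [abs_le] at hab
      omega
    have h5 : 2 * (max a b + g + 2 - min a b) ≤ 2 * (2 * g + V + 2) := by omega
    have h6 := hcard.trans h5
    have h7 : (((univ.filter fun o => o ∉ C ∧ Bad_ev g V v u (C ++ [o])).card : ℕ) : ℝ) ≤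
        ((2 * (2 * g + V + 2) : ℕ) : ℝ) := by exact_mod_cast h6
    push_cast at h7
    exact h7
  · rw [sum_eq_zero]
    · exact hpos
    · intro o _
      rw [if_neg]
      rintro ⟨h1, -⟩
      rw [et] at h1
      exact hV h1

open Classical in
/-- RK-30. Fix the word `v` of types. If `mrg C v` is not good then there is `u < t` such that `C[u] = inl z` is an owner whose letter is not harmless
(`okAt`) at the heights `posI g (mrg (C.take u) v) = (a, b)`, i.e. its index `i` satisfies `min a b ≤ i < max a b + g + 2`; there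
are at most `2 (|a - b| + g + 2)` such owners, and `|a - b| ≤ |del (v.take k)| + nsG C ≤ g + V` by
`delI_close`, `far_mrg`. So for each `u` the average over `C` (reveal the first `u` agents and then the next one: `av_take` for `u + 1`, `av_succ`) of the indicator of this event
together with `nsG (C.take u) ≤ V` is at most `2 (2 g + V + 2)/(n - u)`. Sum over `u < t`. -/
theorem bad_avg (v : List T) (hv : v.length = t) (hd : ∀ i ≤ t, |del (v.take i)| ≤ g)
    (htn : t < 2 * m + n') :
    av (Ag m n') t (fun C => if ¬ good g (mrg C v) ∧ nsG C ≤ V then (1 : ℝ) else 0) ≤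
      2 * t * (2 * (g : ℝ) + V + 2) / (2 * (m : ℝ) + n' - t) := by
  have hcardN : Fintype.card (Ag m n') = 2 * m + n' := by
    simp only [Ag, Fintype.card_sum, Fintype.card_prod, Fintype.card_fin, Fintype.card_bool]
    ring
  have hcardR : (Fintype.card (Ag m n') : ℝ) = 2 * (m : ℝ) + n' := by
    rw [hcardN]; push_cast; ring
  have htR : (t : ℝ) < 2 * (m : ℝ) + n' := by exact_mod_cast htn
  have h1 : av (Ag m n') t (fun C => if ¬ good g (mrg C v) ∧ nsG C ≤ V then (1 : ℝ) else 0) ≤
      av (Ag m n') t (fun C => ∑ u ∈ range t,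
        (fun C' => if Bad_ev g V v u C' then (1 : ℝ) else 0) (C.take (u + 1))) := by
    apply av_mono
    intro C hC
    have hlen := (mem_nl.1 hC).2
    have hnn : ∀ u ∈ range t, (0 : ℝ) ≤
        (fun C' => if Bad_ev g V v u C' then (1 : ℝ) else 0) (C.take (u + 1)) := by
      intro u _
      dsimp only
      split_ifs <;> norm_num
    split_ifs with h
    · obtain ⟨u, hu, hE⟩ := Bad_exists (V := V) v hlen h.1 h.2
      have h2 := single_le_sum hnn (mem_range.2 hu)
      refine le_trans ?_ h2
      dsimp only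
      rw [if_pos hE]
    · exact sum_nonneg hnn
  refine h1.trans ?_
  rw [av_sum]
  have h2 : ∀ u ∈ range t, av (Ag m n') t (fun C =>
      (fun C' => if Bad_ev g V v u C' then (1 : ℝ) else 0) (C.take (u + 1))) ≤
      2 * (2 * (g : ℝ) + V + 2) / (2 * (m : ℝ) + n' - t) := by
    intro u hu
    rw [mem_range] at hu
    rw [av_take (u := u + 1) (t := t) (by omega) (by omega)
      (fun C' => if Bad_ev g V v u C' then (1 : ℝ) else 0)]
    rw [av_succ (by omega)]
    have huR : (u : ℝ) ≤ t := by exact_mod_cast hu.le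
    have hpos : (0 : ℝ) < 2 * (m : ℝ) + n' - t := by linarith
    refine le_trans (av_mono (ψ := fun _ => 2 * (2 * (g : ℝ) + V + 2) /
      (2 * (m : ℝ) + n' - t)) ?_) (le_of_eq (av_const (by omega) _))
    intro C hC
    have hlen := (mem_nl.1 hC).2
    have h3 := Bad_count (V := V) (g := g) v hd hv hu.le hlen
    rw [hcardR]
    have h4 : (0 : ℝ) < 2 * (m : ℝ) + n' - u := by linarith
    refine (div_le_div_of_nonneg_right ?_ h4.le).trans
      (div_le_div_of_nonneg_left (by positivity) hpos (by linarith) :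
        2 * (2 * (g : ℝ) + V + 2) / (2 * (m : ℝ) + n' - u) ≤ _)
    refine le_trans (le_of_eq ?_) h3
    refine Finset.sum_congr ?_ (fun _ _ => rfl)
    ext o
    simp only [mem_filter, mem_univ, true_and]
  refine (sum_le_sum h2).trans ?_
  rw [sum_const, card_range, nsmul_eq_mul]
  apply le_of_eq
  ring

end Pool.Agent.helper65.RK
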