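import Pool.Agent.helper65.RK.Comb1

set_option autoImplicit false

/-!
# RK-17 : a crude bound for all words
-/

namespace Pool.Agent.helper65.RK

open Finset

theorem Comb5_dec {α : Type} (z : α) : ∀ (w : List α) (i : ℕ), i ≤ w.length →
    w.insertIdx i z = w.take i ++ z :: w.drop i
  | [], i, hi => by
    have h0 : i = 0 := by simpa using hi
    subst h0
    simp
  | c :: w, 0, _ => by simp
  | c :: w, i + 1, hi => by
    have h := Comb5_dec z w i (by simpa using hi)
    rw [List.insertIdx_succ_cons, h]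
    simp

theorem Comb5_mat (m g : ℕ) (w : List Lt) (z : Lt) (i : ℕ) (hi : i ≤ w.length) :
    matL m g (w.insertIdx i z) =
      ((w.drop i).map (lst m g)).foldl step (step (matL m g (w.take i)) (lst m g z)) := by
  unfold matL
  rw [Comb5_dec z w i hi, List.map_append, List.map_cons, greedy_append', List.foldl_cons]

theorem Comb5_ext (m g : ℕ) (w : List Lt) (z : Lt) (i : ℕ) (hi : i ≤ w.length) :
    Ext (matL m g w) (matL m g (w.insertIdx i z)) := by
  unfold matL
  rw [List.map_insertIdx]
  exact greedy_insert _ _ i (by simpa using hi)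

theorem Comb5_same (m g : ℕ) (w : List Lt) (z z' : Lt) (i : ℕ) (hi : i ≤ w.length)
    (h : step (matL m g (w.take i)) (lst m g z) = step (matL m g (w.take i)) (lst m g z'))
    {e e' : ℕ} (he : e ∈ matL m g (w.insertIdx i z)) (he0 : e ∉ matL m g w)
    (he' : e' ∈ matL m g (w.insertIdx i z')) (he0' : e' ∉ matL m g w) : e = e' := by
  have h1 : matL m g (w.insertIdx i z) = matL m g (w.insertIdx i z') := by
    rw [Comb5_mat m g w z i hi, Comb5_mat m g w z' i hi, h]
  rw [← h1] at he'
  exact (Comb5_ext m g w z i hi).unique he he0 he' he0'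

theorem Comb5_cast (a b : ℕ) : ((a - b : ℕ) : ℝ) ≤ max 0 ((a : ℝ) - b) := by
  rcases Nat.le_total a b with h | h
  · rw [Nat.sub_eq_zero_of_le h]
    simp
  · rw [Nat.cast_sub h]
    exact le_max_right _ _

/-- Counting: at most one element in the first class, the others are in an interval. -/
theorem Comb5_count (m L U : ℕ) (P Q : ℕ → Prop) [DecidablePred P]
    (h1 : ∀ j j', P j → P j' → Q j → Q j' → j = j')
    (h2 : ∀ j, P j → ¬ Q j → L ≤ j ∧ j < U) :
    (((range m).filter P).card : ℝ) ≤ 1 + max 0 ((U : ℝ) - L) := by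
  classical
  have h3 : (range m).filter P ⊆ ((range m).filter fun j => P j ∧ Q j) ∪ Ico L U := by
    intro j hj
    rw [mem_filter] at hj
    rw [mem_union]
    by_cases hq : Q j
    · exact Or.inl (mem_filter.2 ⟨hj.1, hj.2, hq⟩)
    · exact Or.inr (mem_Ico.2 (h2 j hj.2 hq))
  have h4 : ((range m).filter fun j => P j ∧ Q j).card ≤ 1 := by
    rw [card_le_one]
    intro j hj j' hj'
    rw [mem_filter] at hj hj'
    exact h1 j j' hj.2.1 hj'.2.1 hj.2.2 hj'.2.2
  have h5 : ((range m).filter P).card ≤ 1 + (U - L) := by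
    refine (card_le_card h3).trans ((card_union_le _ _).trans ?_)
    rw [Nat.card_Ico]
    omega
  have h6 : (((range m).filter P).card : ℝ) ≤ 1 + ((U - L : ℕ) : ℝ) := by
    exact_mod_cast h5
  linarith [Comb5_cast U L]

theorem Comb5_bedge (m g : ℕ) (w : List Lt) (hw : w.length ≤ m) (i j : ℕ)
    (h : ∀ j', j' + g ≤ j → 2 * j' + 1 ∈ matL m g (w.take i)) :
    j < g + (be (far (w.take i)) + nsr w) := by
  by_cases hj : g ≤ j
  · have hl : (w.take i).length ≤ m := by
      rw [List.length_take]
      omega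
    have h1 := be_bound m g (w.take i) hl (j - g) (fun j' hj' => h j' (by omega))
    have h2 := nsr_take_le w i
    omega
  · omega

theorem Comb5_aedge (m g : ℕ) (w : List Lt) (hw : w.length ≤ m) (i j : ℕ)
    (h : ∀ j', j' + g ≤ j → 2 * j' ∈ matL m g (w.take i)) :
    j < g + (al (far (w.take i)) + nsr w) := by
  by_cases hj : g ≤ j
  · have hl : (w.take i).length ≤ m := by
      rw [List.length_take]
      omega
    have h1 := al_bound m g (w.take i) hl (j - g) (fun j' hj' => h j' (by omega))
    have h2 := nsr_take_le w i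
    omega
  · omega

/-- The owners of the objects `a`. -/
theorem Comb5_y {m g : ℕ} (w : List Lt) (hw : w.length ≤ m) (i : ℕ) (hi : i ≤ w.length) :
    (((range m).filter fun j => Lt.y j ∉ w ∧ ownL (Lt.y j) ∈ matL m g (w.insertIdx i (Lt.y j)) ∧
      ownL (Lt.y j) ∉ matL m g w).card : ℝ) ≤
      1 + max 0 ((be (far (w.take i)) : ℝ) + nsr w + g - al (far w)) := by
  classical
  have h := Comb5_count m (al (far w)) (g + (be (far (w.take i)) + nsr w))
    (fun j => Lt.y j ∉ w ∧ ownL (Lt.y j) ∈ matL m g (w.insertIdx i (Lt.y j)) ∧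
      ownL (Lt.y j) ∉ matL m g w)
    (fun j => ∃ j', j' + g ≤ j ∧ 2 * j' + 1 ∉ matL m g (w.take i)) ?_ ?_
  · push_cast at h
    have h0 : (g : ℝ) + ((be (far (w.take i)) : ℝ) + nsr w) - al (far w) =
        (be (far (w.take i)) : ℝ) + nsr w + g - al (far w) := by ring
    rw [h0] at h
    exact h
  · rintro j j' ⟨-, hj, hj0⟩ ⟨-, hj', hj0'⟩ hq hq'
    -- the smallest free `b`
    have hex : ∃ β, 2 * β + 1 ∉ matL m g (w.take i) := ⟨hq.choose, hq.choose_spec.2⟩
    have hβ := Nat.find_spec hex
    have hβ' : ∀ c, c < Nat.find hex → 2 * c + 1 ∈ matL m g (w.take i) := fun c hc => by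
      have := Nat.find_min hex hc
      simpa using this
    have key : ∀ u, (∃ j', j' + g ≤ u ∧ 2 * j' + 1 ∉ matL m g (w.take i)) →
        step (matL m g (w.take i)) (lst m g (Lt.y u)) =
          insert (2 * Nat.find hex + 1) (matL m g (w.take i)) := by
      rintro u ⟨c, hc, hcM⟩
      have hle : Nat.find hex ≤ c := Nat.find_min' hex hcM
      refine step_eq (mem_lst_y.2 (Or.inl ⟨_, by omega, rfl⟩)) hβ ?_
      intro f hf hfM
      rcases mem_lst_y.1 hf with ⟨d, hd, rfl⟩ | ⟨d, hd, hd2, rfl⟩
      · have : Nat.find hex ≤ d := Nat.find_min' hex hfM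
        omega
      · omega
    have := Comb5_same m g w (Lt.y j) (Lt.y j') i hi ((key j hq).trans (key j' hq').symm)
      hj hj0 hj' hj0'
    simp only [ownL] at this
    omega
  · rintro j ⟨-, hj, hj0⟩ hq
    constructor
    · by_contra hlt
      apply hj0
      refine stack_sub m g w hw ?_
      simp only [ownL]
      exact mem_stack_even.2 (by
        have h1 : (posT (far w)).1 = al (far w) := rfl
        omega)
    · refine Comb5_bedge m g w hw i j fun j' hj' => ?_
      by_contra hn
      exact hq ⟨j', hj', hn⟩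

/-- The owners of the objects `b`. -/
theorem Comb5_x {m g : ℕ} (w : List Lt) (hw : w.length ≤ m) (i : ℕ) (hi : i ≤ w.length) :
    (((range m).filter fun j => Lt.x j ∉ w ∧ ownL (Lt.x j) ∈ matL m g (w.insertIdx i (Lt.x j)) ∧
      ownL (Lt.x j) ∉ matL m g w).card : ℝ) ≤
      1 + max 0 ((al (far (w.take i)) : ℝ) + nsr w + g - be (far w)) := by
  classical
  have h := Comb5_count m (be (far w)) (g + (al (far (w.take i)) + nsr w))
    (fun j => Lt.x j ∉ w ∧ ownL (Lt.x j) ∈ matL m g (w.insertIdx i (Lt.x j)) ∧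
      ownL (Lt.x j) ∉ matL m g w)
    (fun j => ∃ j', j' + g ≤ j ∧ 2 * j' ∉ matL m g (w.take i)) ?_ ?_
  · push_cast at h
    have h0 : (g : ℝ) + ((al (far (w.take i)) : ℝ) + nsr w) - be (far w) =
        (al (far (w.take i)) : ℝ) + nsr w + g - be (far w) := by ring
    rw [h0] at h
    exact h
  · rintro j j' ⟨-, hj, hj0⟩ ⟨-, hj', hj0'⟩ hq hq'
    have hex : ∃ β, 2 * β ∉ matL m g (w.take i) := ⟨hq.choose, hq.choose_spec.2⟩
    have hβ := Nat.find_spec hex
    have key : ∀ u, (∃ j', j' + g ≤ u ∧ 2 * j' ∉ matL m g (w.take i)) →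
        step (matL m g (w.take i)) (lst m g (Lt.x u)) =
          insert (2 * Nat.find hex) (matL m g (w.take i)) := by
      rintro u ⟨c, hc, hcM⟩
      have hle : Nat.find hex ≤ c := Nat.find_min' hex hcM
      refine step_eq (mem_lst_x.2 (Or.inl ⟨_, by omega, rfl⟩)) hβ ?_
      intro f hf hfM
      rcases mem_lst_x.1 hf with ⟨d, hd, rfl⟩ | ⟨d, hd, hd2, rfl⟩
      · have : Nat.find hex ≤ d := Nat.find_min' hex hfM
        omega
      · omega
    have := Comb5_same m g w (Lt.x j) (Lt.x j') i hi ((key j hq).trans (key j' hq').symm)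
      hj hj0 hj' hj0'
    simp only [ownL] at this
    omega
  · rintro j ⟨-, hj, hj0⟩ hq
    constructor
    · by_contra hlt
      apply hj0
      refine stack_sub m g w hw ?_
      simp only [ownL]
      exact mem_stack_odd.2 (by
        have h1 : (posT (far w)).2 = be (far w) := rfl
        omega)
    · refine Comb5_aedge m g w hw i j fun j' hj' => ?_
      by_contra hn
      exact hq ⟨j', hj', hn⟩

/-- RK-17. Fix the place `i` and let `M = matL m g (w.take i)`. The letters `y j` for which some `b j'`, `j' + g ≤ j`, is free in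
`M` all take the same object (the smallest free `b`), so all these insertions lead to the same set at the end, which
has at most one additional object (`greedy_insert`, `Ext.unique`): at most one of them adds its own object. The same for `x`. The other `y j` which
count satisfy: all `b j'`, `j' + g ≤ j`, are in `M`, so `j - g < be (far (w.take i)) + nsr w` (`be_bound`; or `j < g`), and `a j` is
not in `matL m g w`, so `al (far w) ≤ j` (`stack_sub`). Their number is at most
`max 0 (be (far (w.take i)) + nsr w + g - al (far w))`. -/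
theorem PL_crude {m g : ℕ} (w : List Lt) (hw : w.length + 1 ≤ m) :
    PL m g w ≤ ∑ i ∈ range (w.length + 1),
      (2 + max 0 ((be (far (w.take i)) : ℝ) + nsr w + g - al (far w)) +
        max 0 ((al (far (w.take i)) : ℝ) + nsr w + g - be (far w))) := by
  classical
  unfold PL
  refine Finset.sum_le_sum fun i hi => ?_
  rw [mem_range] at hi
  have hy := Comb5_y (m := m) (g := g) w (by omega) i (by omega)
  have hx := Comb5_x (m := m) (g := g) w (by omega) i (by omega)
  have hc : ((SR m).filter fun z => z ∉ w ∧ ownL z ∈ matL m g (w.insertIdx i z) ∧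
      ownL z ∉ matL m g w).card ≤
      ((range m).filter fun j => Lt.y j ∉ w ∧ ownL (Lt.y j) ∈ matL m g (w.insertIdx i (Lt.y j)) ∧
        ownL (Lt.y j) ∉ matL m g w).card +
      ((range m).filter fun j => Lt.x j ∉ w ∧ ownL (Lt.x j) ∈ matL m g (w.insertIdx i (Lt.x j)) ∧
        ownL (Lt.x j) ∉ matL m g w).card := by
    unfold SR
    rw [filter_union]
    refine (card_union_le _ _).trans (Nat.add_le_add ?_ ?_)
    · rw [filter_image]
      exact card_image_le
    · rw [filter_image]
      exact card_image_le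
  have hc' : (((SR m).filter fun z => z ∉ w ∧ ownL z ∈ matL m g (w.insertIdx i z) ∧
      ownL z ∉ matL m g w).card : ℝ) ≤
      (((range m).filter fun j => Lt.y j ∉ w ∧ ownL (Lt.y j) ∈ matL m g (w.insertIdx i (Lt.y j)) ∧
        ownL (Lt.y j) ∉ matL m g w).card : ℝ) +
      (((range m).filter fun j => Lt.x j ∉ w ∧ ownL (Lt.x j) ∈ matL m g (w.insertIdx i (Lt.x j)) ∧
        ownL (Lt.x j) ∉ matL m g w).card : ℝ) := by
    exact_mod_cast hc
  linarith

end Pool.Agent.helper65.RK
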