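import Pool.Agent.helper65.RK.Mom

set_option autoImplicit false

/-!
# RK-26 : typical words
-/

namespace Pool.Agent.helper65.RK

open Finset

variable {η : ℝ}

open Classical in
/-- The pointwise union bound. -/
theorem NearLD_point (g : ℕ) (t : ℕ) (ω : List T) (hω : ω.length = t) :
    (if LD g t ω then (0 : ℝ) else 1) ≤
      ∑ i ∈ range (t + 1), (if (g : ℝ) ≤ |(del (ω.take i) : ℝ)| then (1 : ℝ) else 0) +
      ∑ i ∈ range t, (if i + 16 * g ≤ t then
        (if 20 * (ω.drop i).count T.A ≤ 3 * (t - i) then (1 : ℝ) else 0) +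
        (if 20 * (ω.drop i).count T.B ≤ 3 * (t - i) then (1 : ℝ) else 0) else 0) := by
  have hA : ∀ i ∈ range (t + 1),
      (0 : ℝ) ≤ (if (g : ℝ) ≤ |(del (ω.take i) : ℝ)| then (1 : ℝ) else 0) := by
    intro i _
    split_ifs <;> norm_num
  have hB : ∀ i ∈ range t, (0 : ℝ) ≤ (if i + 16 * g ≤ t then
        (if 20 * (ω.drop i).count T.A ≤ 3 * (t - i) then (1 : ℝ) else 0) +
        (if 20 * (ω.drop i).count T.B ≤ 3 * (t - i) then (1 : ℝ) else 0) else 0) := by
    intro i _
    split_ifs <;> norm_num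
  by_cases h : LD g t ω
  · rw [if_pos h]
    exact add_nonneg (Finset.sum_nonneg hA) (Finset.sum_nonneg hB)
  · rw [if_neg h]
    by_contra hcon
    apply h
    rw [not_le] at hcon
    have hSA := Finset.sum_nonneg hA
    have hSB := Finset.sum_nonneg hB
    refine ⟨?_, ?_⟩
    · intro i hi
      by_contra hc
      rw [not_le] at hc
      have h1 := Finset.single_le_sum hA (Finset.mem_range.mpr (Nat.lt_succ_of_le hi))
      rw [if_pos] at h1
      · linarith
      · have h2 : ((g : ℤ) : ℝ) < ((|del (ω.take i)| : ℤ) : ℝ) := by exact_mod_cast hc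
        push_cast at h2
        exact h2.le
    · intro i hi
      rcases Nat.eq_zero_or_pos g with hg | hg
      · subst hg
        have e1 := al_take_le ω i
        have e2 := be_take_le ω i
        constructor <;> omega
      · have hit : i ∈ range t := by
          rw [Finset.mem_range]
          omega
        have h1 := Finset.single_le_sum hB hit
        rw [if_pos hi] at h1
        have hcA : ¬ 20 * (ω.drop i).count T.A ≤ 3 * (t - i) := by
          intro hc
          rw [if_pos hc] at h1
          have : (0 : ℝ) ≤ (if 20 * (ω.drop i).count T.B ≤ 3 * (t - i) then (1 : ℝ) else 0) := by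
            split_ifs <;> norm_num
          linarith
        have hcB : ¬ 20 * (ω.drop i).count T.B ≤ 3 * (t - i) := by
          intro hc
          rw [if_pos hc] at h1
          have : (0 : ℝ) ≤ (if 20 * (ω.drop i).count T.A ≤ 3 * (t - i) then (1 : ℝ) else 0) := by
            split_ifs <;> norm_num
          linarith
        have e1 := al_take_add_count ω i
        have e2 := be_take_add_count ω i
        constructor <;> omega

open Classical in
/-- RK-26a. Union bound: for each `i ≤ t` the probability of `|δ i| > g` is at most `2 exp(-g²/(2t))` (`tail'`,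
`EW_take`); if `i + 16 g ≤ t` and there are more than `3 (t-i)/20 ≥ 12 g/5` letters `A` after place `i` then
`12 g + 5 al (take i) ≤ 5 al` (`al_take_add_count`), and `countA_low`, `EW_drop`,
`(21/25)^{t-i} ≤ (21/25)^{16 g} ≤ e^{-2g}` (`pow_exp`); the same for `B`. -/
theorem LD_prob (h0 : 0 ≤ η) (h1 : η ≤ 1 / 10) (g : ℕ) (hg : 1 ≤ g) (t : ℕ) :
    EW η t (fun ω => if LD g t ω then (0 : ℝ) else 1) ≤
      2 * ((t : ℝ) + 1) * Real.exp (-((g : ℝ) ^ 2 / (2 * t))) + 2 * t * Real.exp (-(2 * (g : ℝ))) := by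
  have h1' : η ≤ 1 := by linarith
  refine (EW_mono h0 h1' (fun ω hω => NearLD_point g t ω hω)).trans ?_
  rw [EW_add, EW_sum, EW_sum]
  have hg0 : (0 : ℝ) < g := by exact_mod_cast hg
  have hfirst : ∑ i ∈ range (t + 1),
      EW η t (fun ω => if (g : ℝ) ≤ |(del (ω.take i) : ℝ)| then (1 : ℝ) else 0) ≤
      2 * ((t : ℝ) + 1) * Real.exp (-((g : ℝ) ^ 2 / (2 * t))) := by
    have : ∀ i ∈ range (t + 1),
        EW η t (fun ω => if (g : ℝ) ≤ |(del (ω.take i) : ℝ)| then (1 : ℝ) else 0) ≤
        2 * Real.exp (-((g : ℝ) ^ 2 / (2 * t))) := by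
      intro i hi
      rw [Finset.mem_range] at hi
      have hit : i ≤ t := by omega
      have e := EW_take (η := η) hit
        (fun v => if (g : ℝ) ≤ |(del v : ℝ)| then (1 : ℝ) else 0)
      rw [e]
      exact tail' h0 h1' i t hit _ hg0
    refine (Finset.sum_le_sum this).trans ?_
    rw [Finset.sum_const, Finset.card_range, nsmul_eq_mul]
    push_cast
    apply le_of_eq
    ring
  have hsecond : ∑ i ∈ range t, EW η t (fun ω => if i + 16 * g ≤ t then
        (if 20 * (ω.drop i).count T.A ≤ 3 * (t - i) then (1 : ℝ) else 0) +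
        (if 20 * (ω.drop i).count T.B ≤ 3 * (t - i) then (1 : ℝ) else 0) else 0) ≤
      2 * t * Real.exp (-(2 * (g : ℝ))) := by
    have : ∀ i ∈ range t, EW η t (fun ω => if i + 16 * g ≤ t then
        (if 20 * (ω.drop i).count T.A ≤ 3 * (t - i) then (1 : ℝ) else 0) +
        (if 20 * (ω.drop i).count T.B ≤ 3 * (t - i) then (1 : ℝ) else 0) else 0) ≤
        2 * Real.exp (-(2 * (g : ℝ))) := by
      intro i hi
      rw [Finset.mem_range] at hi
      by_cases h : i + 16 * g ≤ t
      · simp only [if_pos h]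
        rw [EW_add]
        have hp : ((21 : ℝ) / 25) ^ (t - i) ≤ Real.exp (-(2 * (g : ℝ))) := by
          have h2 : ((21 : ℝ) / 25) ^ (t - i) ≤ ((21 : ℝ) / 25) ^ (8 * (2 * g)) := by
            apply pow_le_pow_of_le_one (by norm_num) (by norm_num)
            omega
          refine h2.trans ((pow_exp (2 * g)).trans ?_)
          push_cast
          exact le_refl _
        have hit : i ≤ t := hi.le
        have eA := EW_drop (η := η) hit
          (fun v => if 20 * v.count T.A ≤ 3 * (t - i) then (1 : ℝ) else 0)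
        have eB := EW_drop (η := η) hit
          (fun v => if 20 * v.count T.B ≤ 3 * (t - i) then (1 : ℝ) else 0)
        rw [eA, eB]
        have fA := (countA_low h0 h1 (t - i)).trans hp
        have fB := (countB_low h0 h1 (t - i)).trans hp
        linarith
      · simp only [if_neg h]
        rw [EW_const]
        positivity
    refine (Finset.sum_le_sum this).trans ?_
    rw [Finset.sum_const, Finset.card_range, nsmul_eq_mul]
    apply le_of_eq
    ring
  linarith

/-- The early places of a typical word. -/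
theorem NearLD_early (g k t : ℕ) (hk : 5 * k ≤ 7 * g) (ω : List T) (h : LD g t ω) (i : ℕ)
    (hi : i + 16 * g ≤ t) :
    be (ω.take i) + k ≤ al ω ∧ al (ω.take i) + k ≤ be ω := by
  obtain ⟨h1, h2⟩ := h
  have h3 := h1 i (by omega)
  obtain ⟨h4, h5⟩ := h2 i hi
  unfold del at h3
  rw [abs_le] at h3
  constructor <;> omega

/-- All places of a typical word. -/
theorem NearLD_all (g k t : ℕ) (ω : List T) (h : LD g t ω) (i : ℕ) (hi : i ≤ t) :
    (be (ω.take i) : ℝ) + k - al ω ≤ g + k ∧ (al (ω.take i) : ℝ) + k - be ω ≤ g + k := by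
  obtain ⟨h1, h2⟩ := h
  have h3 := h1 i hi
  have e1 := al_take_le ω i
  have e2 := be_take_le ω i
  unfold del at h3
  rw [abs_le] at h3
  have h6 : be (ω.take i) ≤ g + al ω := by omega
  have h7 : al (ω.take i) ≤ g + be ω := by omega
  have h6' : (be (ω.take i) : ℝ) ≤ g + al ω := by exact_mod_cast h6
  have h7' : (al (ω.take i) : ℝ) ≤ g + be ω := by exact_mod_cast h7
  constructor <;> linarith

/-- The number of late places. -/
theorem NearLD_late (g t : ℕ) :
    (((range (t + 1)).filter fun i => ¬ i + 16 * g ≤ t).card : ℝ) ≤ 16 * g + 1 := by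
  have h : ((range (t + 1)).filter fun i => ¬ i + 16 * g ≤ t).card ≤
      (Finset.Ico (t + 1 - 16 * g) (t + 1)).card := by
    apply Finset.card_le_card
    intro i hi
    simp only [Finset.mem_filter, Finset.mem_range, Finset.mem_Ico] at hi ⊢
    omega
  rw [Nat.card_Ico] at h
  have h2 : ((range (t + 1)).filter fun i => ¬ i + 16 * g ≤ t).card ≤ 16 * g + 1 := by omega
  exact_mod_cast h2

/-- RK-26b. On a typical word the indicators in `NR` with `i + 16 g ≤ t` vanish:
`be i + k - al t = -δ i + k - (al t - al i) ≤ g + 7g/5 - 12g/5 = 0`. -/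
theorem NR_LD (g k t : ℕ) (hk : 5 * k ≤ 7 * g) (ω : List T) (hω : ω.length = t) (h : LD g t ω) :
    NR k t ω ≤ 2 * (16 * g + 1) := by
  classical
  unfold NR
  have hp : ∀ i ∈ range (t + 1),
      ((if al ω < be (ω.take i) + k then (1 : ℝ) else 0) +
        (if be ω < al (ω.take i) + k then (1 : ℝ) else 0)) ≤
      (if ¬ i + 16 * g ≤ t then (2 : ℝ) else 0) := by
    intro i _
    by_cases hi : i + 16 * g ≤ t
    · obtain ⟨e1, e2⟩ := NearLD_early g k t hk ω h i hi
      rw [if_neg (by omega), if_neg (by omega), if_neg (by simpa using hi)]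
      norm_num
    · rw [if_pos hi]
      split_ifs <;> norm_num
  refine (Finset.sum_le_sum hp).trans ?_
  rw [← Finset.sum_filter, Finset.sum_const, nsmul_eq_mul]
  have := NearLD_late g t
  linarith

theorem NR_le (k t : ℕ) (ω : List T) : NR k t ω ≤ 2 * ((t : ℝ) + 1) := by
  classical
  unfold NR
  have hp : ∀ i ∈ range (t + 1),
      ((if al ω < be (ω.take i) + k then (1 : ℝ) else 0) +
        (if be ω < al (ω.take i) + k then (1 : ℝ) else 0)) ≤ (2 : ℝ) := by
    intro i _
    split_ifs <;> norm_num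
  refine (Finset.sum_le_sum hp).trans ?_
  rw [Finset.sum_const, Finset.card_range, nsmul_eq_mul]
  push_cast
  apply le_of_eq
  ring

/-- RK-26c. -/
theorem near_bound (h0 : 0 ≤ η) (h1 : η ≤ 1 / 10) (g : ℕ) (hg : 1 ≤ g) (k t : ℕ)
    (hk : 5 * k ≤ 7 * g) :
    EW η t (NR k t) ≤ 2 * (16 * g + 1) + 2 * ((t : ℝ) + 1) *
      (2 * ((t : ℝ) + 1) * Real.exp (-((g : ℝ) ^ 2 / (2 * t))) +
        2 * t * Real.exp (-(2 * (g : ℝ)))) := by
  classical
  have h1' : η ≤ 1 := by linarith
  have hp : ∀ ω : List T, ω.length = t →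
      NR k t ω ≤ 2 * (16 * (g : ℝ) + 1) + 2 * ((t : ℝ) + 1) * (if LD g t ω then (0 : ℝ) else 1) := by
    intro ω hω
    by_cases h : LD g t ω
    · rw [if_pos h]
      have := NR_LD g k t hk ω hω h
      linarith
    · rw [if_neg h]
      have := NR_le k t ω
      have hg' : (0 : ℝ) ≤ g := by positivity
      linarith
  refine (EW_mono h0 h1' hp).trans ?_
  rw [EW_add, EW_const, EW_mul]
  have h2 := LD_prob h0 h1 g hg t
  have h3 : (0 : ℝ) ≤ 2 * ((t : ℝ) + 1) := by positivity
  have h4 := mul_le_mul_of_nonneg_left h2 h3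
  linarith

/-- RK-26d. On a typical word: terms with `i + 16 g ≤ t` are `2`; the others are at most
`2 + 2 (g + k)` (`be i + k - al t ≤ be i + k - al i ≤ g + k`). -/
theorem S2_LD (g k t : ℕ) (hk : 5 * k ≤ 7 * g) (ω : List T) (hω : ω.length = t) (h : LD g t ω) :
    S2 k t ω ≤ 2 * ((t : ℝ) + 1) + 2 * (16 * g + 1) * ((g : ℝ) + k) := by
  unfold S2
  have hgk : (0 : ℝ) ≤ (g : ℝ) + k := by positivity
  have hp : ∀ i ∈ range (t + 1),
      (2 + max 0 ((be (ω.take i) : ℝ) + k - al ω) + max 0 ((al (ω.take i) : ℝ) + k - be ω)) ≤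
      2 + (if ¬ i + 16 * g ≤ t then 2 * ((g : ℝ) + k) else 0) := by
    intro i hi
    rw [Finset.mem_range] at hi
    by_cases hi' : i + 16 * g ≤ t
    · obtain ⟨e1, e2⟩ := NearLD_early g k t hk ω h i hi'
      have e1' : (be (ω.take i) : ℝ) + k ≤ al ω := by exact_mod_cast e1
      have e2' : (al (ω.take i) : ℝ) + k ≤ be ω := by exact_mod_cast e2
      rw [if_neg (by simpa using hi'), max_eq_left (by linarith), max_eq_left (by linarith)]
      linarith
    · rw [if_pos hi']
      obtain ⟨e1, e2⟩ := NearLD_all g k t ω h i (by omega)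
      have f1 := max_le hgk e1
      have f2 := max_le hgk e2
      linarith
  refine (Finset.sum_le_sum hp).trans ?_
  rw [Finset.sum_add_distrib, ← Finset.sum_filter, Finset.sum_const, Finset.sum_const,
    Finset.card_range, nsmul_eq_mul, nsmul_eq_mul]
  have h5 := mul_le_mul_of_nonneg_right (NearLD_late g t) (mul_nonneg (by norm_num : (0:ℝ) ≤ 2) hgk)
  push_cast
  linarith

end Pool.Agent.helper65.RK
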