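import Pool.Agent.helper65.RK.Coup

set_option autoImplicit false

/-!
# RK-22 : moments of the difference of the heights
-/

namespace Pool.Agent.helper65.RK

open Finset

variable {η : ℝ}

theorem eW_zero (η : ℝ) : eW η 0 = 0 := by
  simp [eW, EW, del, al, be, posT]

/-- RK-22a. -/
theorem sq_succ (η : ℝ) (t : ℕ) :
    EW η (t + 1) (fun v => (del v : ℝ) ^ 2) =
      EW η t (fun v => (del v : ℝ) ^ 2) + 1 - 2 * η * eW η t := by
  rw [EW_del_succ η t (fun s => (s : ℝ) ^ 2), eW, ← EW_mul, ← EW_const (η := η) t 1, ← EW_add,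
    ← EW_sub]
  refine EW_congr fun v _ => ?_
  rw [EW_const]
  push_cast
  split_ifs with h
  · have h' : (del v : ℝ) ≤ 0 := by exact_mod_cast h
    rw [abs_of_nonpos h']
    ring
  · have h' : (0 : ℝ) ≤ del v := by exact_mod_cast (not_le.1 h).le
    rw [abs_of_nonneg h']
    ring

theorem sq_eq (η : ℝ) (t : ℕ) :
    EW η t (fun v => (del v : ℝ) ^ 2) = t - 2 * η * ∑ u ∈ range t, eW η u := by
  induction t with
  | zero => simp [EW, del, al, be, posT]
  | succ t ih =>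
    rw [sq_succ, ih, sum_range_succ]
    push_cast
    ring

/-- RK-22b. -/
theorem eW_succ (η : ℝ) (t : ℕ) :
    eW η (t + 1) = eW η t - η +
      (1 + η) * EW η t (fun v => if del v = 0 then (1 : ℝ) else 0) := by
  have e : EW η t (fun v => |(del v : ℝ)| - η + (1 + η) * if del v = 0 then (1 : ℝ) else 0) =
      eW η t - η + (1 + η) * EW η t (fun v => if del v = 0 then (1 : ℝ) else 0) := by
    rw [EW_add, EW_sub, EW_mul, EW_const]
    rfl
  rw [← e, eW, EW_del_succ η t (fun s => |(s : ℝ)|)]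
  refine EW_congr fun v _ => ?_
  push_cast
  rcases lt_trichotomy (del v) 0 with h | h | h
  · rw [if_pos h.le, if_neg h.ne]
    have h1 : (del v : ℝ) + 1 ≤ 0 := by exact_mod_cast h
    rw [abs_of_nonpos h1, abs_of_nonpos (by linarith), abs_of_nonpos (by linarith)]
    ring
  · rw [if_pos h.le, if_pos h, h]
    norm_num
    ring
  · rw [if_neg (not_le.2 h), if_neg h.ne']
    have h1 : (1 : ℝ) ≤ del v := by exact_mod_cast h
    rw [abs_of_nonneg (by linarith : (0 : ℝ) ≤ del v + 1), abs_of_nonneg (by linarith : (0 : ℝ) ≤ del v - 1),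
      abs_of_nonneg (by linarith : (0 : ℝ) ≤ del v)]
    ring

theorem eW_nonneg (h0 : 0 ≤ η) (h1 : η ≤ 1) (t : ℕ) : 0 ≤ eW η t :=
  EW_nonneg h0 h1 fun _ _ => abs_nonneg _

/-- RK-22c. By `sq_eq` and `EW_sq_le`. -/
theorem eW_le_sqrt (h0 : 0 ≤ η) (h1 : η ≤ 1) (t : ℕ) : eW η t ≤ Real.sqrt t := by
  refine Real.le_sqrt_of_sq_le ?_
  refine (EW_sq_le h0 h1 t _).trans ?_
  simp only [sq_abs]
  rw [sq_eq]
  have : 0 ≤ ∑ u ∈ range t, eW η u := sum_nonneg fun u _ => eW_nonneg h0 h1 u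
  nlinarith [mul_nonneg h0 this]

theorem Mom_q_nonneg (h0 : 0 ≤ η) (h1 : η ≤ 1) (t : ℕ) :
    0 ≤ EW η t (fun v => if del v = 0 then (1 : ℝ) else 0) :=
  EW_nonneg h0 h1 fun v _ => by split_ifs <;> norm_num

theorem Mom_q_le (h0 : 0 ≤ η) (h1 : η ≤ 1) (t : ℕ) :
    EW η t (fun v => if del v = 0 then (1 : ℝ) else 0) ≤ 1 := by
  refine (EW_mono h0 h1 (ψ := fun _ => 1) fun v _ => ?_).trans (le_of_eq (EW_const η t 1))
  split_ifs <;> norm_num

theorem Mom_sqrt_step (k : ℕ) (hk : 1 ≤ k) :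
    Real.sqrt ((k + 1 : ℕ) : ℝ) - Real.sqrt k ≤ 1 / (2 * Real.sqrt k) := by
  have hk' : (1 : ℝ) ≤ k := by exact_mod_cast hk
  have h1 : 0 < Real.sqrt k := Real.sqrt_pos.2 (by linarith)
  have h2 : Real.sqrt k ≤ Real.sqrt ((k + 1 : ℕ) : ℝ) := Real.sqrt_le_sqrt (by push_cast; linarith)
  have e1 := Real.sq_sqrt (by linarith : (0 : ℝ) ≤ k)
  have e2 := Real.sq_sqrt (by positivity : (0 : ℝ) ≤ ((k + 1 : ℕ) : ℝ))
  push_cast at e2 h2 ⊢
  rw [le_div_iff₀ (by positivity)]
  nlinarith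

theorem Mom_sum_ge (h0 : 0 ≤ η) (h1 : η ≤ 1) (t : ℕ) :
    Real.sqrt (((t + 1) / 2 : ℕ) : ℝ) ≤
      ∑ s ∈ range t, EW η s (fun v => if del v = 0 then (1 : ℝ) else 0) := by
  induction t with
  | zero => simp
  | succ t ih =>
    rw [sum_range_succ]
    rcases Nat.even_or_odd' t with ⟨k, hk | hk⟩
    · have e1 : (t + 1) / 2 = k := by omega
      have e2 : (t + 1 + 1) / 2 = k + 1 := by omega
      rw [e1] at ih
      rw [e2, hk]
      rw [hk] at ih
      rcases Nat.eq_zero_or_pos k with hk0 | hk0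
      · subst hk0
        simp [EW, del, al, be, posT]
      · have a1 := Mom_sqrt_step k hk0
        have a2 := centralBinom_lower k hk0
        have a3 := prob_zero_ge h0 h1 k
        linarith
    · have e1 : (t + 1) / 2 = k + 1 := by omega
      have e2 : (t + 1 + 1) / 2 = k + 1 := by omega
      rw [e1] at ih
      rw [e2]
      linarith [Mom_q_nonneg h0 h1 t]

theorem Mom_eW_sum (η : ℝ) (t : ℕ) : eW η t = (1 + η) *
    ∑ s ∈ range t, EW η s (fun v => if del v = 0 then (1 : ℝ) else 0) - η * t := by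
  induction t with
  | zero => simp [eW_zero]
  | succ t ih =>
    rw [eW_succ, ih, sum_range_succ]
    push_cast
    ring

/-- RK-22d. By `eW_succ`, `prob_zero_ge` (even `t`) and `centralBinom_lower`: with `q_0 = 1`, `q_k ≥ 1/(2√k)`,
`eW η t ≥ ∑_{k : 2k < t} q_k - η t ≥ 1 + ∑_{1 ≤ k < K} 1/(2√k) - η t` where `K = ⌈t/2⌉`, and
`∑_{1 ≤ k < K} 1/(2√k) ≥ √K - 1` (since `1/(2√k) ≥ √(k+1) - √k`). -/
theorem eW_ge (h0 : 0 ≤ η) (h1 : η ≤ 1) (t : ℕ) :
    Real.sqrt (t / 2) - η * t ≤ eW η t := by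
  have h2 := Mom_sum_ge h0 h1 t
  have h3 : Real.sqrt (t / 2) ≤ Real.sqrt (((t + 1) / 2 : ℕ) : ℝ) := by
    refine Real.sqrt_le_sqrt ?_
    rw [div_le_iff₀ (by norm_num)]
    have : t ≤ (t + 1) / 2 * 2 := by omega
    exact_mod_cast this
  have h4 : 0 ≤ ∑ s ∈ range t, EW η s (fun v => if del v = 0 then (1 : ℝ) else 0) :=
    (Real.sqrt_nonneg _).trans h2
  rw [Mom_eW_sum]
  nlinarith [mul_nonneg h0 h4]

theorem Mom_lip_one (h0 : 0 ≤ η) (h1 : η ≤ 1) (t : ℕ) : |eW η (t + 1) - eW η t| ≤ 1 := by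
  have a := Mom_q_nonneg h0 h1 t
  have b := Mom_q_le h0 h1 t
  rw [eW_succ, abs_le]
  constructor <;> nlinarith

/-- RK-22e. `|eW (t+1) - eW t| ≤ 1`. -/
theorem eW_lip (h0 : 0 ≤ η) (h1 : η ≤ 1) {u t : ℕ} (h : u ≤ t) :
    |eW η t - eW η u| ≤ (t : ℝ) - u := by
  induction t, h using Nat.le_induction with
  | base => simp
  | succ t _ ih =>
    have := Mom_lip_one h0 h1 t
    push_cast
    calc |eW η (t + 1) - eW η u| = |(eW η (t + 1) - eW η t) + (eW η t - eW η u)| := by ring_nf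
      _ ≤ |eW η (t + 1) - eW η t| + |eW η t - eW η u| := abs_add_le _ _
      _ ≤ (t : ℝ) + 1 - u := by linarith

theorem Mom_del_append (v : List T) (s : T) : del (v ++ [s]) = del v +
    (match s with
      | T.A => 1
      | T.B => -1
      | T.D => if del v ≤ 0 then 1 else -1) := by
  have h : posT (v ++ [s]) = stepT (posT v) s := by
    rw [posT_append]
    rfl
  unfold del al be
  rw [h]
  rcases hp : posT v with ⟨a, b⟩
  cases s with
  | A => simp [stepT]; ring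
  | B => simp [stepT]; ring
  | D =>
    simp only [stepT]
    by_cases hab : a ≤ b
    · have : (a : ℤ) - b ≤ 0 := by omega
      simp [hab, this]
      ring
    · have : ¬ ((a : ℤ) - b ≤ 0) := by omega
      simp only [hab, this, if_false]
      push_cast
      ring

theorem Mom_T_sum (F : T → ℝ) : ∑ s : T, F s = F T.A + F T.B + F T.D := by
  have : (univ : Finset T) = {T.A, T.B, T.D} := by decide
  rw [this]
  simp
  ring

theorem Mom_incr_succ (h0 : 0 ≤ η) (h1 : η ≤ 1) (u l : ℕ) :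
    EW η (u + l + 1) (fun v => ((del v : ℝ) - del (v.take u)) ^ 2) ≤
      EW η (u + l) (fun v => ((del v : ℝ) - del (v.take u)) ^ 2) + 1 +
      2 * η * EW η (u + l) (fun v => |(del v : ℝ) - del (v.take u)|) := by
  rw [EW_succ, ← EW_mul, ← EW_const (η := η) (u + l) 1, ← EW_add, ← EW_add]
  refine EW_mono h0 h1 fun v hv => ?_
  have ht : ∀ s : T, (v ++ [s]).take u = v.take u := fun s =>
    List.take_append_of_le_length (by omega)
  rw [Mom_T_sum]
  simp only [ht, Mom_del_append, pT]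
  set x : ℝ := (del v : ℝ) - del (v.take u) with hx
  have hx1 := le_abs_self x
  have hx2 := neg_abs_le x
  have e : (del v : ℝ) = x + del (v.take u) := by rw [hx]; ring
  push_cast
  rw [e]
  split_ifs
  · nlinarith [mul_nonneg h0 (sub_nonneg.2 hx1)]
  · nlinarith [mul_nonneg h0 (sub_nonneg.2 hx2)]

theorem Mom_cs (h0 : 0 ≤ η) (h1 : η ≤ 1) (t : ℕ) (φ : List T → ℝ) :
    EW η t (fun v => |φ v|) ≤ Real.sqrt (EW η t (fun v => φ v ^ 2)) := by
  refine Real.le_sqrt_of_sq_le ?_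
  refine (EW_sq_le h0 h1 t _).trans (le_of_eq ?_)
  simp only [sq_abs]

theorem Mom_incr_sq (h0 : 0 ≤ η) (h1 : η ≤ 1) (u L : ℕ)
    (hη : η * Real.sqrt (2 * (L : ℝ)) ≤ 1 / 2) (l : ℕ) (hl : l ≤ L) :
    EW η (u + l) (fun v => ((del v : ℝ) - del (v.take u)) ^ 2) ≤ 2 * l := by
  induction l with
  | zero =>
    refine (EW_mono h0 h1 (ψ := fun _ => 0) fun v hv => ?_).trans (le_of_eq ?_)
    · have : v.take u = v := List.take_of_length_le (by omega)
      rw [this]
      simp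
    · rw [EW_const]
      simp
  | succ l ih =>
    have ih' := ih (by omega)
    have a := Mom_incr_succ h0 h1 u l
    have b := Mom_cs h0 h1 (u + l) (fun v => (del v : ℝ) - del (v.take u))
    have c : Real.sqrt (EW η (u + l) (fun v => ((del v : ℝ) - del (v.take u)) ^ 2)) ≤
        Real.sqrt (2 * (L : ℝ)) := by
      refine Real.sqrt_le_sqrt (ih'.trans ?_)
      have : (l : ℝ) ≤ L := by exact_mod_cast (by omega : l ≤ L)
      linarith
    have d : η * EW η (u + l) (fun v => |(del v : ℝ) - del (v.take u)|) ≤ 1 / 2 :=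
      (mul_le_mul_of_nonneg_left (b.trans c) h0).trans hη
    rw [← add_assoc]
    push_cast
    linarith

/-- RK-22f. Increments: with `f l = EW η (u + l) ((del v - del (v.take u))²)` one has
`f (l+1) ≤ f l + 1 + 2 η √(f l)` (the drift of a step is at most `η` in absolute value, whatever the past; use
`EW_succ`, and Cauchy-Schwarz `EW_sq_le`), so `f l ≤ 2 l` as long as `η √(2 l) ≤ 1/2`; then Cauchy-Schwarz. -/
theorem incr (h0 : 0 ≤ η) (h1 : η ≤ 1) {u t : ℕ} (h : u ≤ t)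
    (hη : η * Real.sqrt (2 * ((t : ℝ) - u)) ≤ 1 / 2) :
    EW η t (fun v => |(del v : ℝ) - del (v.take u)|) ≤ Real.sqrt (2 * ((t : ℝ) - u)) := by
  obtain ⟨L, rfl⟩ := Nat.exists_eq_add_of_le h
  have e : (((u + L : ℕ) : ℝ) - u) = L := by push_cast; ring
  rw [e] at hη ⊢
  refine (Mom_cs h0 h1 (u + L) _).trans (Real.sqrt_le_sqrt ?_)
  exact Mom_incr_sq h0 h1 u L hη L le_rfl

theorem Mom_count_sq (c : T) (p : ℝ) (hp : pT η c = p) (l : ℕ) :
    EW η l (fun v => ((v.count c : ℝ) - p * l) ^ 2) = l * (p * (1 - p)) := by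
  induction l with
  | zero => simp [EW]
  | succ l ih =>
    have hs : ∀ s : T, EW η l (fun v => (((s :: v).count c : ℝ) - p * ((l + 1 : ℕ) : ℝ)) ^ 2) =
        EW η l (fun v => ((v.count c : ℝ) - p * l) ^ 2)
          + 2 * ((if s = c then 1 else 0) - p) * EW η l (fun v => (v.count c : ℝ) - p * l)
          + ((if s = c then 1 else 0) - p) ^ 2 := by
      intro s
      rw [← EW_mul, ← EW_add]
      conv_rhs => rw [← EW_const (η := η) l (((if s = c then 1 else 0) - p) ^ 2)]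
      rw [← EW_add]
      refine EW_congr fun v _ => ?_
      rw [List.count_cons]
      by_cases h : s = c
      · simp [h]
        ring
      · simp [h]
        ring
    change ∑ s : T, pT η s * EW η l (fun v => (((s :: v).count c : ℝ) - p * ((l + 1 : ℕ) : ℝ)) ^ 2) = _
    simp only [hs, ih]
    have h1 := sum_pT η
    rw [Mom_T_sum] at h1 ⊢
    set m := EW η l (fun v => (v.count c : ℝ) - p * l)
    cases c <;> simp only [reduceCtorEq, if_true, if_false] <;> push_cast <;>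
      linear_combination ((l : ℝ) * (p * (1 - p)) - 2 * p * m + p ^ 2) * h1 +
        (2 * m + 1 - 2 * p) * hp

theorem Mom_count_dev (h0 : 0 ≤ η) (h1 : η ≤ 1) (c : T) (p : ℝ) (hp : pT η c = p) (l : ℕ) :
    EW η l (fun v => |(v.count c : ℝ) - p * l|) ≤ Real.sqrt l := by
  refine (Mom_cs h0 h1 l _).trans (Real.sqrt_le_sqrt ?_)
  rw [Mom_count_sq c p hp l]
  have hl : (0 : ℝ) ≤ l := Nat.cast_nonneg l
  have : p * (1 - p) ≤ 1 := by nlinarith [sq_nonneg (p - 1 / 2)]
  nlinarith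

/-- RK-22g. The number of letters `A` among `l` letters has mean `l p` and variance
`l p (1 - p) ≤ l`, `p = (1 - η)/2`. -/
theorem countA_dev (h0 : 0 ≤ η) (h1 : η ≤ 1) (l : ℕ) :
    EW η l (fun v => |(v.count T.A : ℝ) - (1 - η) / 2 * l|) ≤ Real.sqrt l :=
  Mom_count_dev h0 h1 T.A _ rfl l

theorem countB_dev (h0 : 0 ≤ η) (h1 : η ≤ 1) (l : ℕ) :
    EW η l (fun v => |(v.count T.B : ℝ) - (1 - η) / 2 * l|) ≤ Real.sqrt l :=
  Mom_count_dev h0 h1 T.B _ rfl l

theorem Mom_count_exp (c : T) (p : ℝ) (hp : pT η c = p) (l : ℕ) :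
    EW η l (fun v => Real.exp (-1) ^ v.count c) = (1 - p * (1 - Real.exp (-1))) ^ l := by
  induction l with
  | zero => simp [EW]
  | succ l ih =>
    have hs : ∀ s : T, EW η l (fun v => Real.exp (-1) ^ (s :: v).count c) =
        (if s = c then Real.exp (-1) else 1) * (1 - p * (1 - Real.exp (-1))) ^ l := by
      intro s
      rw [← ih, ← EW_mul]
      refine EW_congr fun v _ => ?_
      rw [List.count_cons]
      by_cases h : s = c
      · simp [h, pow_succ]
        ring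
      · simp [h]
    change ∑ s : T, pT η s * EW η l (fun v => Real.exp (-1) ^ (s :: v).count c) = _
    simp only [hs]
    have h1 := sum_pT η
    rw [Mom_T_sum] at h1 ⊢
    cases c <;> simp only [reduceCtorEq, if_true, if_false] <;>
      linear_combination ((1 - p * (1 - Real.exp (-1))) ^ l) * h1 +
        ((1 - p * (1 - Real.exp (-1))) ^ l) * (Real.exp (-1) - 1) * hp

theorem Mom_exp_small : Real.exp (3 / 20) ≤ (40 / 37) ^ 2 := by
  have h1 : (37 : ℝ) / 40 ≤ Real.exp (-(3 / 40)) := by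
    have := Real.add_one_le_exp (-(3 / 40) : ℝ)
    linarith
  have h2 : Real.exp (3 / 40) ≤ 40 / 37 := by
    have h3 : Real.exp (3 / 40) * Real.exp (-(3 / 40)) = 1 := by
      rw [← Real.exp_add]
      simp
    have h4 : 0 < Real.exp (3 / 40) := Real.exp_pos _
    rw [le_div_iff₀ (by norm_num)]
    nlinarith
  have h5 : Real.exp (3 / 20) = Real.exp (3 / 40) ^ 2 := by
    rw [← Real.exp_nat_mul]
    norm_num
  rw [h5]
  exact pow_le_pow_left₀ (Real.exp_pos _).le h2 2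

open Classical in
theorem Mom_count_low (h0 : 0 ≤ η) (h1 : η ≤ 1 / 10) (c : T) (hp : pT η c = (1 - η) / 2) (l : ℕ) :
    EW η l (fun v => if 20 * v.count c ≤ 3 * l then (1 : ℝ) else 0) ≤ (21 / 25) ^ l := by
  have hle : EW η l (fun v => if 20 * v.count c ≤ 3 * l then (1 : ℝ) else 0) ≤
      EW η l (fun v => Real.exp (3 / 20) ^ l * Real.exp (-1) ^ v.count c) := by
    refine EW_mono h0 (by linarith) fun v _ => ?_
    rw [← Real.exp_nat_mul, ← Real.exp_nat_mul, ← Real.exp_add]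
    split_ifs with h
    · refine Real.one_le_exp ?_
      have : (20 : ℝ) * v.count c ≤ 3 * l := by exact_mod_cast h
      linarith
    · exact (Real.exp_pos _).le
  refine hle.trans ?_
  rw [EW_mul, Mom_count_exp c _ hp, ← mul_pow]
  have e1 := Real.exp_neg_one_lt_d9
  have e2 := Real.exp_pos (-1)
  have e3 := Mom_exp_small
  have e4 := Real.exp_pos (3 / 20)
  have hb : 1 - (1 - η) / 2 * (1 - Real.exp (-1)) ≤ 71555 / 100000 := by nlinarith
  have hb0 : 0 ≤ 1 - (1 - η) / 2 * (1 - Real.exp (-1)) := by nlinarith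
  refine pow_le_pow_left₀ (by positivity) ?_ l
  calc Real.exp (3 / 20) * (1 - (1 - η) / 2 * (1 - Real.exp (-1))) ≤
      (40 / 37) ^ 2 * (71555 / 100000) := mul_le_mul e3 hb hb0 (by positivity)
    _ ≤ 21 / 25 := by norm_num

open Classical in
/-- RK-22h. Chernoff: `E exp(-count) = (1 - p (1 - 1/e))^l` with `p ≥ 9/20`, and
`(1 - (9/20)(1 - 1/e)) e^{3/20} ≤ 21/25` (`1 - 1/e ≥ 0.632`, `e^{0.15} ≤ 1.1619`). -/
theorem countA_low (h0 : 0 ≤ η) (h1 : η ≤ 1 / 10) (l : ℕ) :
    EW η l (fun v => if 20 * v.count T.A ≤ 3 * l then (1 : ℝ) else 0) ≤ (21 / 25) ^ l :=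
  Mom_count_low h0 h1 T.A rfl l

open Classical in
theorem countB_low (h0 : 0 ≤ η) (h1 : η ≤ 1 / 10) (l : ℕ) :
    EW η l (fun v => if 20 * v.count T.B ≤ 3 * l then (1 : ℝ) else 0) ≤ (21 / 25) ^ l :=
  Mom_count_low h0 h1 T.B rfl l

/-- `(21/25)^8 ≤ e⁻¹`. -/
theorem pow_exp (k : ℕ) : ((21 : ℝ) / 25) ^ (8 * k) ≤ Real.exp (-(k : ℝ)) := by
  have h1 := Real.exp_neg_one_gt_d9
  have h2 : ((21 : ℝ) / 25) ^ 8 ≤ Real.exp (-1) := by
    refine le_trans ?_ h1.le
    norm_num
  have h3 : Real.exp (-(k : ℝ)) = Real.exp (-1) ^ k := by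
    rw [← Real.exp_nat_mul]
    ring_nf
  rw [h3, pow_mul]
  exact pow_le_pow_left₀ (by positivity) h2 k

end Pool.Agent.helper65.RK
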