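import Pool.Agent.helper65.RK.Comb3
import Pool.Agent.helper65.RK.MrgL
import Pool.Agent.helper65.RK.Mom

set_option autoImplicit false

/-!
# RK-31 : the number of ties
-/

namespace Pool.Agent.helper65.RK

open Finset

variable {m g n' t : ℕ} {η : ℝ}

/-! ### The one step rules -/

private lemma Ties_delI_append_t (g : ℕ) (w : List Lt) (s : T) :
    delI g (w ++ [Lt.t s]) =
      match s with
      | T.A => delI g w + 1
      | T.B => delI g w - 1
      | T.D => if delI g w ≤ 0 then delI g w + 1 else delI g w - 1 := by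
  have h : posI g (w ++ [Lt.t s]) = stepT (posI g w) s := by
    rw [posI_append]
    rcases posI g w with ⟨a, b⟩
    rfl
  unfold delI
  rw [h]
  rcases posI g w with ⟨a, b⟩
  cases s with
  | A => simp only [stepT]; push_cast; ring
  | B => simp only [stepT]; push_cast; ring
  | D =>
    simp only [stepT]
    by_cases hab : a ≤ b
    · rw [if_pos hab, if_pos (by omega)]; push_cast; ring
    · rw [if_neg hab, if_neg (by omega)]; push_cast; ring

private lemma Ties_delI_append_s (g : ℕ) (w : List Lt) (z : Fin m × Bool) :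
    |delI g (w ++ [letS z]) - delI g w| ≤ 1 := by
  unfold delI
  rw [posI_append]
  rcases posI g w with ⟨a, b⟩
  unfold letS
  split_ifs
  · simp only [stepI]
    split_ifs
    · have : ((a + 1 : ℕ) : ℤ) - (b : ℤ) - ((a : ℤ) - (b : ℤ)) = 1 := by push_cast; ring
      rw [this]; simp
    · simp
  · simp only [stepI]
    split_ifs
    · have : (a : ℤ) - ((b + 1 : ℕ) : ℤ) - ((a : ℤ) - (b : ℤ)) = -1 := by push_cast; ring
      rw [this]; simp
    · simp

private lemma Ties_sum_T (η : ℝ) (f : T → ℝ) :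
    ∑ s : T, pT η s * f s = (1 - η) / 2 * f T.A + (1 - η) / 2 * f T.B + η * f T.D := by
  have h : (Finset.univ : Finset T) = {T.A, T.B, T.D} := rfl
  rw [h, Finset.sum_insert (by decide), Finset.sum_insert (by decide), Finset.sum_singleton]
  simp only [pT]
  ring

/-- the average of `|δ' - c|` after one far agent -/
private lemma Ties_step (η : ℝ) (g : ℕ) (w : List Lt) (c : ℤ) (hc : c = 0 ∨ c = 1) :
    ∑ s : T, pT η s * |((delI g (w ++ [Lt.t s]) : ℤ) : ℝ) - c| =
      |((delI g w : ℤ) : ℝ) - c| - η + (1 + η) * (if delI g w = c then (1 : ℝ) else 0) := by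
  rw [Ties_sum_T]
  rw [Ties_delI_append_t, Ties_delI_append_t, Ties_delI_append_t]
  generalize delI g w = d
  simp only
  have key : ∀ k : ℤ, |((k : ℤ) : ℝ) - c| = ((|k - c| : ℤ) : ℝ) := by
    intro k; push_cast; rfl
  simp only [key]
  rcases hc with rfl | rfl
  · rcases lt_trichotomy d 0 with h | h | h
    · rw [if_pos h.le, if_neg h.ne, abs_of_nonpos (by omega : d + 1 - 0 ≤ 0),
        abs_of_nonpos (by omega : d - 1 - 0 ≤ 0), abs_of_nonpos (by omega : d - 0 ≤ 0)]
      push_cast; ring
    · subst h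
      simp
    · rw [if_neg (by omega), if_neg h.ne', abs_of_nonneg (by omega : 0 ≤ d + 1 - 0),
        abs_of_nonneg (by omega : 0 ≤ d - 1 - 0), abs_of_nonneg (by omega : 0 ≤ d - 0)]
      push_cast; ring
  · rcases lt_trichotomy d 1 with h | h | h
    · rw [if_pos (by omega), if_neg h.ne, abs_of_nonpos (by omega : d + 1 - 1 ≤ 0),
        abs_of_nonpos (by omega : d - 1 - 1 ≤ 0), abs_of_nonpos (by omega : d - 1 ≤ 0)]
      push_cast; ring
    · subst h
      norm_num
    · rw [if_neg (by omega), if_neg h.ne', abs_of_nonneg (by omega : 0 ≤ d + 1 - 1),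
        abs_of_nonneg (by omega : 0 ≤ d - 1 - 1), abs_of_nonneg (by omega : 0 ≤ d - 1)]
      push_cast; ring

/-! ### Words of initial segments -/

private lemma Ties_mrg_take_congr (C : List (Ag m n')) (v : List T) :
    mrg C v = mrg C (v.take (C.length - nsG C)) := by
  apply mrg_congr
  rw [List.take_take, min_self]

private lemma Ties_take_succ (C : List (Ag m n')) {u : ℕ} (hu : u < C.length) :
    C.take (u + 1) = C.take u ++ [C[u]] := by
  rw [List.take_succ_eq_append_getElem hu]

private lemma Ties_get (C : List (Ag m n')) (v : List T) {u : ℕ} (hu : u < C.length) (z : Lt)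
    (h : mrg (C.take (u + 1)) v = mrg (C.take u) v ++ [z]) : (mrg C v)[u]? = some z := by
  have h1 : ((mrg C v).take (u + 1))[u]? = (mrg C v)[u]? := by
    rw [List.getElem?_take]
    simp
  rw [← h1, mrg_take, h]
  have h2 : (mrg (C.take u) v).length = u := by
    rw [mrg_length, List.length_take, min_eq_left hu.le]
  rw [List.getElem?_append_right (by rw [h2]), h2]
  simp

/-- the expected distance of the difference of the heights from `c` after `u` agents -/
private noncomputable def Ties_F (η : ℝ) (t g : ℕ) (C : List (Ag m n')) (c : ℤ) (u : ℕ) : ℝ :=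
  EW η t (fun v => |((delI g (mrg (C.take u) v) : ℤ) : ℝ) - c|)

open Classical in
private noncomputable def Ties_K (η : ℝ) (t g : ℕ) (C : List (Ag m n')) (c : ℤ) (u : ℕ) : ℝ :=
  EW η t (fun v => if (mrg C v)[u]? = some (Lt.t T.D) ∧ delI g ((mrg C v).take u) = c then (1 : ℝ)
    else 0)

private lemma Ties_K_nonneg (h0 : 0 ≤ η) (h1 : η ≤ 1) (C : List (Ag m n')) (c : ℤ) (u : ℕ) :
    0 ≤ Ties_K η t g C c u := by
  apply EW_nonneg h0 h1
  intro v _
  split_ifs <;> norm_num

private lemma Ties_one_step (h0 : 0 ≤ η) (h1 : η ≤ 1) (C : List (Ag m n')) (hC : C.length = t)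
    (c : ℤ) (hc : c = 0 ∨ c = 1) (u : ℕ) (hu : u < t) :
    (1 + η) * Ties_K η t g C c u ≤
      η * (Ties_F η t g C c (u + 1) - Ties_F η t g C c u + η +
        ((nsG (C.take (u + 1)) : ℝ) - nsG (C.take u))) := by
  classical
  have huC : u < C.length := by omega
  have hlen : (C.take u).length = u := by rw [List.length_take]; omega
  rcases hz : C[u] with z | k
  · -- an owner
    have e1 : C.take (u + 1) = C.take u ++ [Sum.inl z] := by rw [Ties_take_succ C huC, hz]
    have hK : Ties_K η t g C c u = 0 := by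
      have : ∀ v : List T, v.length = t →
          (if (mrg C v)[u]? = some (Lt.t T.D) ∧ delI g ((mrg C v).take u) = c then (1 : ℝ)
            else 0) = 0 := by
        intro v _
        have h2 : (mrg C v)[u]? = some (letS z) :=
          Ties_get C v huC _ (by rw [e1, mrg_append_inl])
        rw [if_neg]
        rintro ⟨h3, -⟩
        rw [h2] at h3
        unfold letS at h3
        split_ifs at h3 <;> simp at h3
      unfold Ties_K
      rw [EW_congr this, EW_const]
    have hF : Ties_F η t g C c u - 1 ≤ Ties_F η t g C c (u + 1) := by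
      unfold Ties_F
      have : ∀ v : List T, v.length = t →
          |((delI g (mrg (C.take u) v) : ℤ) : ℝ) - c| - 1 ≤
            |((delI g (mrg (C.take (u + 1)) v) : ℤ) : ℝ) - c| := by
        intro v _
        rw [e1, mrg_append_inl]
        have h3 := Ties_delI_append_s g (mrg (C.take u) v) z
        have h4 : |((delI g (mrg (C.take u) v ++ [letS z]) : ℤ) : ℝ) -
            ((delI g (mrg (C.take u) v) : ℤ) : ℝ)| ≤ 1 := by exact_mod_cast h3
        have h5 := abs_sub_abs_le_abs_sub (((delI g (mrg (C.take u) v) : ℤ) : ℝ) - c)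
          (((delI g (mrg (C.take u) v ++ [letS z]) : ℤ) : ℝ) - c)
        have h6 : |((delI g (mrg (C.take u) v) : ℤ) : ℝ) - c -
            (((delI g (mrg (C.take u) v ++ [letS z]) : ℤ) : ℝ) - c)| ≤ 1 := by
          rw [abs_sub_comm] at h4
          convert h4 using 2
          ring
        linarith
      have h7 := EW_mono h0 h1 this
      rw [EW_sub, EW_const] at h7
      exact h7
    have hns : (nsG (C.take (u + 1)) : ℝ) = nsG (C.take u) + 1 := by
      rw [e1, nsG_append_inl]; push_cast; ring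
    rw [hK, hns, mul_zero]
    apply mul_nonneg h0
    linarith
  · -- a far agent
    have e1 : C.take (u + 1) = C.take u ++ [Sum.inr k] := by rw [Ties_take_succ C huC, hz]
    set r : ℕ := u - nsG (C.take u) with hr
    have hrt : r < t := by omega
    have hm : ∀ v : List T, mrg (C.take (u + 1)) v =
        mrg (C.take u) (v.take r) ++ [Lt.t (v.getD r T.A)] := by
      intro v
      rw [e1, mrg_append_inr, hlen, ← hr]
      congr 1
      have := Ties_mrg_take_congr (C.take u) v
      rw [hlen] at this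
      exact this
    have hm0 : ∀ v : List T, mrg (C.take u) v = mrg (C.take u) (v.take r) := by
      intro v
      have := Ties_mrg_take_congr (C.take u) v
      rw [hlen] at this
      exact this
    have hF1 : Ties_F η t g C c (u + 1) = EW η r (fun v => ∑ s : T, pT η s *
        |((delI g (mrg (C.take u) v ++ [Lt.t s]) : ℤ) : ℝ) - c|) := by
      unfold Ties_F
      rw [← EW_at hrt (fun v s => |((delI g (mrg (C.take u) v ++ [Lt.t s]) : ℤ) : ℝ) - c|) T.A]
      apply EW_congr
      intro v _
      rw [hm]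
    have hF0 : Ties_F η t g C c u = EW η r (fun v =>
        |((delI g (mrg (C.take u) v) : ℤ) : ℝ) - c|) := by
      unfold Ties_F
      rw [← EW_take hrt.le (fun v => |((delI g (mrg (C.take u) v) : ℤ) : ℝ) - c|)]
      apply EW_congr
      intro v _
      rw [hm0]
    have hK : Ties_K η t g C c u = η * EW η r (fun v =>
        if delI g (mrg (C.take u) v) = c then (1 : ℝ) else 0) := by
      unfold Ties_K
      rw [← EW_mul]
      have h2 : ∀ v : List T, v.length = t →
          (if (mrg C v)[u]? = some (Lt.t T.D) ∧ delI g ((mrg C v).take u) = c then (1 : ℝ)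
            else 0) = (fun (v : List T) (s : T) => if s = T.D ∧ delI g (mrg (C.take u) v) = c
              then (1 : ℝ) else 0) (v.take r) (v.getD r T.A) := by
        intro v _
        have h3 : (mrg C v)[u]? = some (Lt.t (v.getD r T.A)) :=
          Ties_get C v huC _ (by rw [hm, ← hm0])
        simp only
        rw [h3, mrg_take, hm0 v]
        simp only [Option.some.injEq, Lt.t.injEq]
      rw [EW_congr h2]
      refine (EW_at hrt (fun (v : List T) (s : T) => if s = T.D ∧
        delI g (mrg (C.take u) v) = c then (1 : ℝ) else 0) T.A).trans ?_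
      apply EW_congr
      intro v _
      rw [Ties_sum_T]
      simp
    rw [hK, hF1, hF0, EW_congr (fun v _ => Ties_step η g (mrg (C.take u) v) c hc), EW_add, EW_sub,
      EW_const, EW_mul, e1, nsG_append_inr]
    apply le_of_eq
    ring

open Classical in
private lemma Ties_count (C : List (Ag m n')) (c : ℤ) (i : ℕ) (v : List T) :
    (((Finset.Ico i t).filter fun u => (mrg C v)[u]? = some (Lt.t T.D) ∧
        delI g ((mrg C v).take u) = c).card : ℝ) =
      ∑ u ∈ Finset.Ico i t, (if (mrg C v)[u]? = some (Lt.t T.D) ∧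
        delI g ((mrg C v).take u) = c then (1 : ℝ) else 0) := by
  rw [Finset.card_filter]
  push_cast
  rfl

/-- RK-31a. Let `c = 0` or `c = 1` and `w u = mrg (C.take u) v`. At a far agent `C[u]`: the next type is independent of `w u` (`EW_at`,
`mrg_append_inr`), and if the difference `δ = delI g (w u)` is `c` then `|δ - c|` grows by `1` with certainty for type
`D` and for `A`, `B` (the new value is `1`), otherwise its expectation changes by `-η`:
`E |δ' - c| = E |δ - c| - η + (1 + η) P(δ = c)`. At an owner `|δ' - c| ≥ |δ - c| - 1`. Hence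
`(1 + η) ∑_{u ∈ [i,t), C[u] far} P(δ_u = c) ≤ E|δ_t - c| - E|δ_i - c| + η (t - i) + nsG C`, and the expected number of
letters `D` with `δ_u = c` in `[i, t)` is `η ∑_{u ∈ [i,t) far} P(δ_u = c)`. The right side is nonnegative, so the factor
`1/(1+η)` may be dropped. -/
theorem ties_one (h0 : 0 ≤ η) (h1 : η ≤ 1) (C : List (Ag m n')) (hC : C.length = t) (c : ℤ)
    (hc : c = 0 ∨ c = 1) (i : ℕ) (hi : i ≤ t) :
    EW η t (fun v => (((Finset.Ico i t).filter fun u => (mrg C v)[u]? = some (Lt.t T.D) ∧
        delI g ((mrg C v).take u) = c).card : ℝ)) ≤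
      η * (EW η t (fun v => |(delI g (mrg C v) : ℝ) - c|) -
        EW η t (fun v => |(delI g (mrg (C.take i) v) : ℝ) - c|) + η * ((t : ℝ) - i) +
          nsG C) := by
  classical
  have hL : EW η t (fun v => (((Finset.Ico i t).filter fun u => (mrg C v)[u]? = some (Lt.t T.D) ∧
        delI g ((mrg C v).take u) = c).card : ℝ)) = ∑ u ∈ Finset.Ico i t, Ties_K η t g C c u := by
    unfold Ties_K
    rw [← EW_sum]
    apply EW_congr
    intro v _
    convert Ties_count (g := g) (t := t) C c i v
  rw [hL]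
  have hsum : ∀ k : ℕ, i + k ≤ t → (1 + η) * ∑ u ∈ Finset.Ico i (i + k), Ties_K η t g C c u ≤
      η * (Ties_F η t g C c (i + k) - Ties_F η t g C c i + η * k +
        ((nsG (C.take (i + k)) : ℝ) - nsG (C.take i))) := by
    intro k
    induction k with
    | zero => intro _; simp
    | succ k ih =>
      intro hk
      have h2 := ih (by omega)
      have h3 := Ties_one_step (g := g) h0 h1 C hC c hc (i + k) (by omega)
      rw [← add_assoc, Finset.sum_Ico_succ_top (by omega), mul_add]
      push_cast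
      nlinarith
  have h2 := hsum (t - i) (by omega)
  rw [show i + (t - i) = t by omega] at h2
  have h3 : Ties_F η t g C c t = EW η t (fun v => |((delI g (mrg C v) : ℤ) : ℝ) - c|) := by
    unfold Ties_F
    rw [List.take_of_length_le hC.le]
  have h4 : Ties_F η t g C c i = EW η t (fun v => |((delI g (mrg (C.take i) v) : ℤ) : ℝ) - c|) := rfl
  rw [← h3, ← h4]
  rw [List.take_of_length_le hC.le, Nat.cast_sub hi] at h2
  have h5 : 0 ≤ ∑ u ∈ Finset.Ico i t, Ties_K η t g C c u :=
    Finset.sum_nonneg fun u _ => Ties_K_nonneg h0 h1 C c u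
  have h6 : (0 : ℝ) ≤ nsG (C.take i) := Nat.cast_nonneg _
  have h7 : η * (Ties_F η t g C c t - Ties_F η t g C c i + η * ((t : ℝ) - i) +
      ((nsG C : ℝ) - nsG (C.take i))) ≤ η * (Ties_F η t g C c t - Ties_F η t g C c i +
        η * ((t : ℝ) - i) + nsG C) := by
    apply mul_le_mul_of_nonneg_left _ h0
    linarith
  nlinarith [mul_nonneg h0 h5]

/-! ### The average -/

private lemma Ties_F0_upper (h0 : 0 ≤ η) (h1 : η ≤ 1) (C : List (Ag m n')) (hC : C.length = t) :
    EW η t (fun v => |(delI g (mrg C v) : ℝ)|) ≤ eW η t + 2 * nsG C := by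
  have hn : nsG C ≤ t := by rw [← hC]; exact nsG_le_length C
  have h2 : ∀ v : List T, v.length = t →
      |(delI g (mrg C v) : ℝ)| ≤ |(del (v.take (t - nsG C)) : ℝ)| + nsG C := by
    intro v hv
    have h3 := delI_close g (mrg C v)
    rw [nsr_mrg, far_mrg C v (by omega), hC] at h3
    have h4 : |((delI g (mrg C v) : ℤ) : ℝ) - (del (v.take (t - nsG C)) : ℝ)| ≤ nsG C := by
      exact_mod_cast h3
    have h5 := abs_sub_abs_le_abs_sub ((delI g (mrg C v) : ℤ) : ℝ)
      ((del (v.take (t - nsG C)) : ℤ) : ℝ)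
    linarith
  refine (EW_mono h0 h1 h2).trans ?_
  rw [EW_add, EW_const, EW_take (Nat.sub_le _ _) (fun v => |(del v : ℝ)|)]
  have h6 : EW η (t - nsG C) (fun v => |(del v : ℝ)|) = eW η (t - nsG C) := rfl
  rw [h6]
  have h7 := eW_lip h0 h1 (Nat.sub_le t (nsG C))
  rw [Nat.cast_sub hn] at h7
  have h8 := abs_le.1 h7
  linarith [h8.1]

private lemma Ties_F0_lower (h0 : 0 ≤ η) (h1 : η ≤ 1) (C : List (Ag m n')) (hC : C.length = t)
    (i : ℕ) (hi : i ≤ t) :
    eW η i - 2 * nsG C ≤ EW η t (fun v => |(delI g (mrg (C.take i) v) : ℝ)|) := by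
  have hlen : (C.take i).length = i := by rw [List.length_take]; omega
  have hn : nsG (C.take i) ≤ i := by
    have := nsG_le_length (C.take i)
    rwa [hlen] at this
  have h2 : ∀ v : List T, v.length = t →
      |(del (v.take (i - nsG (C.take i))) : ℝ)| - nsG (C.take i) ≤
        |(delI g (mrg (C.take i) v) : ℝ)| := by
    intro v hv
    have h3 := delI_close g (mrg (C.take i) v)
    rw [nsr_mrg, far_mrg (C.take i) v (by omega), hlen] at h3
    have h4 : |((delI g (mrg (C.take i) v) : ℤ) : ℝ) -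
        (del (v.take (i - nsG (C.take i))) : ℝ)| ≤ nsG (C.take i) := by
      exact_mod_cast h3
    have h5 := abs_sub_abs_le_abs_sub ((del (v.take (i - nsG (C.take i))) : ℤ) : ℝ)
      ((delI g (mrg (C.take i) v) : ℤ) : ℝ)
    rw [abs_sub_comm] at h5
    linarith
  refine le_trans ?_ (EW_mono h0 h1 h2)
  rw [EW_sub, EW_const, EW_take (by omega) (fun v => |(del v : ℝ)|)]
  have h6 : EW η (i - nsG (C.take i)) (fun v => |(del v : ℝ)|) = eW η (i - nsG (C.take i)) := rfl
  rw [h6]
  have h7 := eW_lip h0 h1 (Nat.sub_le i (nsG (C.take i)))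
  rw [Nat.cast_sub hn] at h7
  have h8 := abs_le.1 h7
  have h9 : (nsG (C.take i) : ℝ) ≤ nsG C := by exact_mod_cast nsG_take_le C i
  linarith [h8.2]

private lemma Ties_term (h0 : 0 ≤ η) (h1 : η ≤ 1) (C : List (Ag m n')) (hC : C.length = t)
    (i : ℕ) (hi : i ≤ t) :
    EW η t (fun v => ties g i (mrg C v)) ≤
      η * (2 * eW η t - 2 * eW η i + 10 * nsG C + 2 + 2 * η * ((t : ℝ) - i)) := by
  classical
  have hsplit : ∀ v : List T, v.length = t → ties g i (mrg C v) =
      (((Finset.Ico i t).filter fun u => (mrg C v)[u]? = some (Lt.t T.D) ∧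
        delI g ((mrg C v).take u) = 0).card : ℝ) +
      (((Finset.Ico i t).filter fun u => (mrg C v)[u]? = some (Lt.t T.D) ∧
        delI g ((mrg C v).take u) = 1).card : ℝ) := by
    intro v _
    unfold ties
    rw [mrg_length, hC, ← Nat.cast_add, ← Finset.card_union_of_disjoint]
    · congr 2
      ext u
      simp only [Finset.mem_filter, Finset.mem_union]
      tauto
    · rw [Finset.disjoint_left]
      intro u hu hu'
      simp only [Finset.mem_filter] at hu hu'
      omega
  rw [EW_congr hsplit, EW_add]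
  have a0 := ties_one (g := g) h0 h1 C hC 0 (Or.inl rfl) i hi
  have a1 := ties_one (g := g) h0 h1 C hC 1 (Or.inr rfl) i hi
  have b1 : EW η t (fun v => |(delI g (mrg C v) : ℝ) - ((1 : ℤ) : ℝ)|) ≤
      EW η t (fun v => |(delI g (mrg C v) : ℝ)|) + 1 := by
    rw [← EW_const (η := η) t 1, ← EW_add]
    apply EW_mono h0 h1
    intro v _
    have := abs_sub_abs_le_abs_sub ((delI g (mrg C v) : ℝ) - ((1 : ℤ) : ℝ)) (delI g (mrg C v) : ℝ)
    have h2 : |(delI g (mrg C v) : ℝ) - ((1 : ℤ) : ℝ) - (delI g (mrg C v) : ℝ)| = 1 := by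
      rw [show (delI g (mrg C v) : ℝ) - ((1 : ℤ) : ℝ) - (delI g (mrg C v) : ℝ) = -1 by
        push_cast; ring]
      simp
    linarith
  have b2 : EW η t (fun v => |(delI g (mrg (C.take i) v) : ℝ)|) - 1 ≤
      EW η t (fun v => |(delI g (mrg (C.take i) v) : ℝ) - ((1 : ℤ) : ℝ)|) := by
    have h3 : EW η t (fun v => |(delI g (mrg (C.take i) v) : ℝ)| - 1) ≤
      EW η t (fun v => |(delI g (mrg (C.take i) v) : ℝ) - ((1 : ℤ) : ℝ)|) := by
      apply EW_mono h0 h1
      intro v _
      have := abs_sub_abs_le_abs_sub (delI g (mrg (C.take i) v) : ℝ)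
        ((delI g (mrg (C.take i) v) : ℝ) - ((1 : ℤ) : ℝ))
      have h2 : |(delI g (mrg (C.take i) v) : ℝ) -
          ((delI g (mrg (C.take i) v) : ℝ) - ((1 : ℤ) : ℝ))| = 1 := by
        rw [show (delI g (mrg (C.take i) v) : ℝ) -
          ((delI g (mrg (C.take i) v) : ℝ) - ((1 : ℤ) : ℝ)) = 1 by push_cast; ring]
        simp
      linarith
    rw [EW_sub, EW_const] at h3
    exact h3
  have b3 : EW η t (fun v => |(delI g (mrg C v) : ℝ) - ((0 : ℤ) : ℝ)|) =
      EW η t (fun v => |(delI g (mrg C v) : ℝ)|) := by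
    simp only [Int.cast_zero, sub_zero]
  have b4 : EW η t (fun v => |(delI g (mrg (C.take i) v) : ℝ) - ((0 : ℤ) : ℝ)|) =
      EW η t (fun v => |(delI g (mrg (C.take i) v) : ℝ)|) := by
    simp only [Int.cast_zero, sub_zero]
  have c1 := Ties_F0_upper (g := g) h0 h1 C hC
  have c2 := Ties_F0_lower (g := g) h0 h1 C hC i hi
  rw [b3, b4] at a0
  have d0 : η * (EW η t (fun v => |(delI g (mrg C v) : ℝ)|) -
        EW η t (fun v => |(delI g (mrg (C.take i) v) : ℝ)|) + η * ((t : ℝ) - i) + nsG C) +
      η * (EW η t (fun v => |(delI g (mrg C v) : ℝ) - ((1 : ℤ) : ℝ)|) -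
        EW η t (fun v => |(delI g (mrg (C.take i) v) : ℝ) - ((1 : ℤ) : ℝ)|) +
          η * ((t : ℝ) - i) + nsG C) ≤
      η * (2 * eW η t - 2 * eW η i + 10 * nsG C + 2 + 2 * η * ((t : ℝ) - i)) := by
    rw [← mul_add]
    apply mul_le_mul_of_nonneg_left _ h0
    linarith
  linarith

/-- RK-31b. Sum of `ties_one` for `c = 0, 1` over `i ≤ t`. `| |δ - c| - |δ| | ≤ 1`, more precisely
`E|δ_t - 1| ≤ E|δ_t| + 1`, `E|δ_i - 1| ≥ E|δ_i| - 1`; `|delI g (mrg C v) - del (v.take (t - ν))| ≤ ν` (`delI_close`, `far_mrg`,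
`ν = nsG C`), `E |del (v.take k)| = eW k` (`EW_take`), `|eW t - eW (t - ν)| ≤ ν` (`eW_lip`), so `E|δ_t| ≤ eW t + 2 ν` and
similarly `E|δ_i| ≥ eW i - 2 ν` (`ν_i = nsG (C.take i) ≤ ν`). So the term for `i` is at most
`η (2 eW t - 2 eW i + 8 ν + 2 + 2 η (t - i) + 2 ν)`, and `∑_{i ≤ t} (t - i) = t (t+1)/2`. -/
theorem ties_avg (h0 : 0 ≤ η) (h1 : η ≤ 1) (C : List (Ag m n')) (hC : C.length = t) :
    EW η t (fun v => ∑ i ∈ range (t + 1), ties g i (mrg C v)) ≤
      2 * η * (((t : ℝ) + 1) * eW η t - ∑ i ∈ range (t + 1), eW η i) +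
        η * ((t : ℝ) + 1) * (10 * nsG C + 2) + η ^ 2 * t * ((t : ℝ) + 1) := by
  rw [EW_sum (range (t + 1)) t (fun i v => ties g i (mrg C v))]
  have h2 : ∑ i ∈ range (t + 1), EW η t (fun v => ties g i (mrg C v)) ≤
      ∑ i ∈ range (t + 1),
        η * (2 * eW η t - 2 * eW η i + 10 * nsG C + 2 + 2 * η * ((t : ℝ) - i)) := by
    apply Finset.sum_le_sum
    intro i hi
    exact Ties_term h0 h1 C hC i (by have := Finset.mem_range.1 hi; omega)
  refine h2.trans (le_of_eq ?_)
  have hs : ∑ i ∈ range (t + 1), (i : ℝ) = t * ((t : ℝ) + 1) / 2 := by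
    clear h2 hC
    induction t with
    | zero => simp
    | succ k ih => rw [Finset.sum_range_succ, ih]; push_cast; ring
  have h3 : ∑ i ∈ range (t + 1),
      η * (2 * eW η t - 2 * eW η i + 10 * nsG C + 2 + 2 * η * ((t : ℝ) - i)) =
      ∑ i ∈ range (t + 1), (η * (2 * eW η t + 10 * nsG C + 2 + 2 * η * t) -
        2 * η * eW η i - 2 * η ^ 2 * i) := by
    apply Finset.sum_congr rfl
    intro i _
    ring
  have h4 : ∑ i ∈ range (t + 1), 2 * η ^ 2 * (i : ℝ) = 2 * η ^ 2 * (t * ((t : ℝ) + 1) / 2) := by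
    rw [← Finset.mul_sum, hs]
  have h5 : ∑ i ∈ range (t + 1), 2 * η * eW η i = 2 * η * ∑ i ∈ range (t + 1), eW η i := by
    rw [← Finset.mul_sum]
  rw [h3, Finset.sum_sub_distrib, Finset.sum_sub_distrib, h4, h5,
    Finset.sum_const, Finset.card_range]
  simp only [nsmul_eq_mul]
  push_cast
  ring

end Pool.Agent.helper65.RK
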