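import Pool.Agent.helper65.RK.Comb4
import Pool.Agent.helper65.RK.Comb5
import Pool.Agent.helper65.RK.Nu
import Pool.Agent.helper65.RK.NearLD
import Pool.Agent.helper65.RK.Bad
import Pool.Agent.helper65.RK.Ties

set_option autoImplicit false

/-!
# RK-32 : the average of `PL`
-/

namespace Pool.Agent.helper65.RK

open Finset

variable {m g n' V t : ℕ} {η : ℝ}

theorem PLavg_two_le (_hg : 2 ≤ g) (hV : 10 * V ≤ g) : 5 * (g + 2 * V) ≤ 7 * g := by omega

/-- the comparison of the heights -/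
theorem PLavg_heights (C : List (Ag m n')) (hC : C.length = t) (v : List T) (hv : v.length = t)
    (hs : nsG C ≤ V) {i : ℕ} (hi : i ≤ t) :
    (al v ≤ al (far (mrg C v)) + V ∧ be v ≤ be (far (mrg C v)) + V) ∧
    (al (far ((mrg C v).take i)) ≤ al (v.take i) ∧ be (far ((mrg C v).take i)) ≤ be (v.take i)) ∧
    (al (far (mrg C v)) ≤ (posI g (mrg C v)).1 ∧ be (far (mrg C v)) ≤ (posI g (mrg C v)).2) ∧
    ((posI g ((mrg C v).take i)).1 ≤ al (v.take i) + V ∧
      (posI g ((mrg C v).take i)).2 ≤ be (v.take i) + V) := by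
  obtain ⟨h1, h2, h3, h4⟩ := heights_mrg C v (by rw [hv, hC]) i (by rw [hC]; exact hi)
  obtain ⟨h5, h6, -⟩ := posI_far g (mrg C v)
  obtain ⟨h7, h8, h9⟩ := posI_far g ((mrg C v).take i)
  have h10 := nsr_take_le (mrg C v) i
  rw [nsr_mrg] at h10
  refine ⟨⟨by omega, by omega⟩, ⟨h3, h4⟩, ⟨h5, h6⟩, by omega, by omega⟩

theorem PLavg_ind_nonneg (p : Prop) [Decidable p] : (0 : ℝ) ≤ if p then (1 : ℝ) else 0 := by
  split_ifs <;> norm_num

theorem PLavg_ind_mono {p q : Prop} [Decidable p] [Decidable q] (h : p → q) :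
    (if p then (1 : ℝ) else 0) ≤ if q then (1 : ℝ) else 0 := by
  split_ifs with h1 h2 h2
  · exact le_rfl
  · exact absurd (h h1) h2
  · norm_num
  · exact le_rfl

theorem PLavg_NR_nonneg (k t : ℕ) (ω : List T) : 0 ≤ NR k t ω := by
  unfold NR
  exact sum_nonneg fun i _ => add_nonneg (PLavg_ind_nonneg _) (PLavg_ind_nonneg _)

theorem PLavg_ties_nonneg (g i : ℕ) (w : List Lt) : 0 ≤ ties g i w := by
  unfold ties
  exact Nat.cast_nonneg _

open Classical in
/-- RK-32a. A bound for every list `C` of length `t` and every word `v` of length `t`, `k = g + 2 V`. If `V < nsG C` or `v` is not typical: `PL_le_two`.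
Otherwise, if `mrg C v` is good: `PL_good`, where
`(posI g w).1 ≥ al (far w) ≥ al v - V` and `(posI g (w.take i)).2 ≤ be (far (w.take i)) + nsr (w.take i) ≤ be (v.take i) + V` (`posI_far`,
`heights_mrg`), so the two indicators are bounded by those of `NR k t v`. If it is not good: `PL_crude`, bounded by
`S2 k t v`, and `S2_LD`. -/
theorem PL_cases (hg : 2 ≤ g) (hV : 10 * V ≤ g) (ht : t + 1 ≤ m) (C : List (Ag m n'))
    (hC : C.length = t) (v : List T) (hv : v.length = t) :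
    PL m g (mrg C v) ≤ (∑ i ∈ range (t + 1), ties g i (mrg C v)) + NR (g + 2 * V) t v +
      (2 * ((t : ℝ) + 1) + 2 * (16 * g + 1) * ((g : ℝ) + (g + 2 * V))) *
        (if (¬ good g (mrg C v) ∧ nsG C ≤ V) ∧ LD g t v then (1 : ℝ) else 0) +
      ((t : ℝ) + 1) * (2 * m) *
        ((if V < nsG C then (1 : ℝ) else 0) + (if LD g t v then (0 : ℝ) else 1)) := by
  have hmn : (0 : ℝ) ≤ m := Nat.cast_nonneg _
  have hlen : (mrg C v).length = t := by rw [mrg_length, hC]
  have hts : 0 ≤ ∑ i ∈ range (t + 1), ties g i (mrg C v) :=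
    sum_nonneg fun i _ => PLavg_ties_nonneg g i _
  have hNR := PLavg_NR_nonneg (g + 2 * V) t v
  have hc3 : (0 : ℝ) ≤ 2 * ((t : ℝ) + 1) + 2 * (16 * g + 1) * ((g : ℝ) + (g + 2 * V)) := by
    positivity
  have hc4 : (0 : ℝ) ≤ ((t : ℝ) + 1) * (2 * m) := by positivity
  by_cases hA : V < nsG C ∨ ¬ LD g t v
  · have h1 := PL_le_two m g (mrg C v)
    rw [hlen] at h1
    have h2 : (1 : ℝ) ≤ (if V < nsG C then (1 : ℝ) else 0) + (if LD g t v then (0 : ℝ) else 1) := by
      rcases hA with h | h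
      · rw [if_pos h]
        split_ifs <;> norm_num
      · rw [if_neg h]
        split_ifs <;> norm_num
    have h3 := mul_le_mul_of_nonneg_left h2 hc4
    have h4 := mul_nonneg hc3
      (PLavg_ind_nonneg ((¬ good g (mrg C v) ∧ nsG C ≤ V) ∧ LD g t v))
    linarith
  · rw [not_or, not_lt, not_not] at hA
    obtain ⟨hs, hLD⟩ := hA
    rw [if_neg (not_lt.2 hs), if_pos hLD, add_zero, mul_zero, add_zero]
    by_cases hgood : good g (mrg C v)
    · have h1 := PL_good (m := m) hg (by rw [hlen]; exact ht) hgood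
      rw [if_neg (by tauto), mul_zero, add_zero]
      refine h1.trans ?_
      rw [hlen]
      unfold NR
      rw [← sum_add_distrib]
      refine sum_le_sum fun i hi => ?_
      rw [mem_range, Nat.lt_succ_iff] at hi
      obtain ⟨⟨a1, a2⟩, -, ⟨a3, a4⟩, a5, a6⟩ := PLavg_heights (g := g) C hC v hv hs hi
      have b1 : (if (posI g (mrg C v)).1 < (posI g ((mrg C v).take i)).2 + g then (1 : ℝ) else 0) ≤
          if al v < be (v.take i) + (g + 2 * V) then (1 : ℝ) else 0 :=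
        PLavg_ind_mono fun h => by omega
      have b2 : (if (posI g (mrg C v)).2 < (posI g ((mrg C v).take i)).1 + g then (1 : ℝ) else 0) ≤
          if be v < al (v.take i) + (g + 2 * V) then (1 : ℝ) else 0 :=
        PLavg_ind_mono fun h => by omega
      linarith
    · rw [if_pos ⟨⟨hgood, hs⟩, hLD⟩, mul_one]
      have h1 := PL_crude (m := m) (g := g) (mrg C v) (by rw [hlen]; exact ht)
      have h2 := S2_LD g (g + 2 * V) t (PLavg_two_le hg hV) v hv hLD
      have h3 : PL m g (mrg C v) ≤ S2 (g + 2 * V) t v := by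
        refine h1.trans ?_
        rw [hlen]
        unfold S2
        refine sum_le_sum fun i hi => ?_
        rw [mem_range, Nat.lt_succ_iff] at hi
        obtain ⟨⟨a1, a2⟩, ⟨a7, a8⟩, -, -⟩ := PLavg_heights (g := g) C hC v hv hs hi
        rw [nsr_mrg]
        have c1 : (al v : ℝ) ≤ al (far (mrg C v)) + V := by exact_mod_cast a1
        have c2 : (be v : ℝ) ≤ be (far (mrg C v)) + V := by exact_mod_cast a2
        have c3 : (al (far ((mrg C v).take i)) : ℝ) ≤ al (v.take i) := by exact_mod_cast a7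
        have c4 : (be (far ((mrg C v).take i)) : ℝ) ≤ be (v.take i) := by exact_mod_cast a8
        have c5 : (nsG C : ℝ) ≤ V := by exact_mod_cast hs
        push_cast
        have d1 : max 0 ((be (far ((mrg C v).take i)) : ℝ) + nsG C + g - al (far (mrg C v))) ≤
            max 0 ((be (v.take i) : ℝ) + (g + 2 * V) - al v) :=
          max_le_max le_rfl (by linarith)
        have d2 : max 0 ((al (far ((mrg C v).take i)) : ℝ) + nsG C + g - be (far (mrg C v))) ≤
            max 0 ((al (v.take i) : ℝ) + (g + 2 * V) - be v) :=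
          max_le_max le_rfl (by linarith)
        linarith
      push_cast at h2
      linarith

theorem PLavg_card : Fintype.card (Ag m n') = 2 * m + n' := by
  simp only [Fintype.card_sum, Fintype.card_prod, Fintype.card_fin, Fintype.card_bool]
  ring

/-- exchange of the two averages -/
theorem PLavg_swap (φ : List (Ag m n') → List T → ℝ) :
    av (Ag m n') t (fun C => EW η t (fun v => φ C v)) =
      EW η t (fun v => av (Ag m n') t (fun C => φ C v)) := by
  have h := EW_sum (η := η) (nl (Ag m n') t) t φ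
  have h2 := EW_mul (η := η) t ((nl (Ag m n') t).card : ℝ)⁻¹
    (fun v => ∑ C ∈ nl (Ag m n') t, φ C v)
  have h3 : (fun v => av (Ag m n') t (fun C => φ C v)) =
      fun v => ((nl (Ag m n') t).card : ℝ)⁻¹ * ∑ C ∈ nl (Ag m n') t, φ C v := by
    funext v
    unfold av
    rw [div_eq_inv_mul]
  rw [h3, h2, h]
  unfold av
  rw [div_eq_inv_mul]

open Classical in
theorem PLavg_ind3 (h0 : 0 ≤ η) (h1 : η ≤ 1) (ht : t + 1 ≤ m) :
    av (Ag m n') t (fun C => EW η t (fun v =>
      if (¬ good g (mrg C v) ∧ nsG C ≤ V) ∧ LD g t v then (1 : ℝ) else 0)) ≤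
      2 * t * (2 * (g : ℝ) + V + 2) / (2 * (m : ℝ) + n' - t) := by
  have htm : (t : ℝ) + 1 ≤ m := by exact_mod_cast ht
  have hn' : (0 : ℝ) ≤ n' := Nat.cast_nonneg _
  have ht0 : (0 : ℝ) ≤ t := Nat.cast_nonneg _
  have hden : 0 < 2 * (m : ℝ) + n' - t := by linarith
  rw [PLavg_swap]
  refine (EW_mono h0 h1 (ψ := fun _ => 2 * t * (2 * (g : ℝ) + V + 2) / (2 * (m : ℝ) + n' - t))
    fun v hv => ?_).trans (le_of_eq (EW_const _ _ _))
  by_cases hLD : LD g t v
  · have h2 := bad_avg (m := m) (n' := n') (V := V) v hv hLD.1 (by omega)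
    refine le_trans (le_of_eq ?_) h2
    congr 1
    funext C
    exact if_congr (by simp [hLD]) rfl rfl
  · have h2 : (fun C : List (Ag m n') =>
        if (¬ good g (mrg C v) ∧ nsG C ≤ V) ∧ LD g t v then (1 : ℝ) else 0) = fun _ => 0 := by
      funext C
      rw [if_neg (by tauto)]
    rw [h2, av_const (by rw [PLavg_card]; omega)]
    positivity

open Classical in
theorem PLavg_main (h0 : 0 ≤ η) (h1 : η ≤ 1 / 10) (hg : 2 ≤ g) (hV : 10 * V ≤ g)
    (ht : t + 1 ≤ m) (C : List (Ag m n')) (hC : C.length = t) (c3 c4 : ℝ)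
    (hc3 : c3 = 2 * ((t : ℝ) + 1) + 2 * (16 * g + 1) * ((g : ℝ) + (g + 2 * V)))
    (hc4 : c4 = ((t : ℝ) + 1) * (2 * m)) :
    EW η t (fun v => PL m g (mrg C v)) ≤
      EW η t (fun v => ∑ i ∈ range (t + 1), ties g i (mrg C v)) + EW η t (NR (g + 2 * V) t) +
      c3 * EW η t (fun v =>
        if (¬ good g (mrg C v) ∧ nsG C ≤ V) ∧ LD g t v then (1 : ℝ) else 0) +
      c4 * ((if V < nsG C then (1 : ℝ) else 0) +
        EW η t (fun v => if LD g t v then (0 : ℝ) else 1)) := by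
  refine (EW_mono h0 (by linarith) (fun v hv => PL_cases hg hV ht C hC v hv)).trans
    (le_of_eq ?_)
  subst hc3 hc4
  rw [EW_add, EW_add, EW_add, EW_mul, EW_mul, EW_add, EW_const]

/-- RK-32b. -/
theorem PL_avg (h0 : 0 ≤ η) (h1 : η ≤ 1 / 10) (hg : 2 ≤ g) (hV : 10 * V ≤ g) (ht : t + 1 ≤ m) :
    EG η m n' t (PL m g) ≤
      2 * η * (((t : ℝ) + 1) * eW η t - ∑ i ∈ range (t + 1), eW η i) +
        η * ((t : ℝ) + 1) * (10 * (t * (2 * m) / (2 * (m : ℝ) + n')) + 2) +
        η ^ 2 * t * ((t : ℝ) + 1) +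
      (2 * (16 * (g : ℝ) + 1) + 2 * ((t : ℝ) + 1) *
        (2 * ((t : ℝ) + 1) * Real.exp (-((g : ℝ) ^ 2 / (2 * t))) +
          2 * t * Real.exp (-(2 * (g : ℝ))))) +
      (2 * ((t : ℝ) + 1) + 2 * (16 * g + 1) * ((g : ℝ) + (g + 2 * V))) *
        (2 * t * (2 * (g : ℝ) + V + 2) / (2 * (m : ℝ) + n' - t)) +
      ((t : ℝ) + 1) * (2 * m) * (PV m n' V t +
        (2 * ((t : ℝ) + 1) * Real.exp (-((g : ℝ) ^ 2 / (2 * t))) +
          2 * t * Real.exp (-(2 * (g : ℝ))))) := by
  have h1' : η ≤ 1 := by linarith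
  have htm : (t : ℝ) + 1 ≤ m := by exact_mod_cast ht
  have hn' : (0 : ℝ) ≤ n' := Nat.cast_nonneg _
  have ht0 : (0 : ℝ) ≤ t := Nat.cast_nonneg _
  have hcard : t ≤ Fintype.card (Ag m n') := by rw [PLavg_card]; omega
  classical
  obtain ⟨c3, hc3⟩ : ∃ c : ℝ, c =
    2 * ((t : ℝ) + 1) + 2 * (16 * g + 1) * ((g : ℝ) + (g + 2 * V)) := ⟨_, rfl⟩
  obtain ⟨c4, hc4⟩ : ∃ c : ℝ, c = ((t : ℝ) + 1) * (2 * m) := ⟨_, rfl⟩
  have hc30 : 0 ≤ c3 := by rw [hc3]; positivity
  have hc40 : 0 ≤ c4 := by rw [hc4]; positivity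
  obtain ⟨K1, hK1⟩ : ∃ c : ℝ, c = 2 * η * (((t : ℝ) + 1) * eW η t - ∑ i ∈ range (t + 1), eW η i) +
    η * ((t : ℝ) + 1) * 2 + η ^ 2 * t * ((t : ℝ) + 1) := ⟨_, rfl⟩
  obtain ⟨K2, hK2⟩ : ∃ c : ℝ, c = η * ((t : ℝ) + 1) * 10 := ⟨_, rfl⟩
  have hmain : EG η m n' t (PL m g) ≤ av (Ag m n') t (fun C => K1 + K2 * (nsG C : ℝ) +
      EW η t (NR (g + 2 * V) t) + c3 * EW η t (fun v =>
        if (¬ good g (mrg C v) ∧ nsG C ≤ V) ∧ LD g t v then (1 : ℝ) else 0) +
      c4 * ((if V < nsG C then (1 : ℝ) else 0) +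
        EW η t (fun v => if LD g t v then (0 : ℝ) else 1))) := by
    unfold EG
    refine av_mono fun C hC => ?_
    rw [mem_nl] at hC
    have e1 := PLavg_main (n' := n') h0 h1 hg hV ht C hC.2 c3 c4 hc3 hc4
    have e2 := ties_avg (g := g) h0 h1' C hC.2
    have e3 : 2 * η * (((t : ℝ) + 1) * eW η t - ∑ i ∈ range (t + 1), eW η i) +
        η * ((t : ℝ) + 1) * (10 * nsG C + 2) + η ^ 2 * t * ((t : ℝ) + 1) =
        K1 + K2 * (nsG C : ℝ) := by rw [hK1, hK2]; ring
    rw [e3] at e2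
    linarith
  rw [av_add, av_add, av_add, av_add, av_mul, av_mul, av_mul, av_add, av_const hcard,
    av_const hcard, av_const hcard] at hmain
  have f1 : av (Ag m n') t (fun C => (nsG C : ℝ)) = t * (2 * m) / (2 * (m : ℝ) + n') := by
    rw [eq_div_iff (by linarith), avg_nsG t (by omega)]
  have f2 := near_bound h0 h1 g (by omega) (g + 2 * V) t (PLavg_two_le hg hV)
  have f3 := PLavg_ind3 (g := g) (V := V) (n' := n') h0 h1' ht
  have f4 := LD_prob h0 h1 g (by omega) t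
  have f5 := mul_le_mul_of_nonneg_left f3 hc30
  have f6 := mul_le_mul_of_nonneg_left f4 hc40
  have f7 : av (Ag m n') t (fun C => if V < nsG C then (1 : ℝ) else 0) = PV m n' V t := rfl
  rw [f1, f7, mul_add] at hmain
  rw [← hc3, ← hc4, mul_add]
  have f8 : K1 + K2 * (t * (2 * m) / (2 * (m : ℝ) + n')) =
      2 * η * (((t : ℝ) + 1) * eW η t - ∑ i ∈ range (t + 1), eW η i) +
        η * ((t : ℝ) + 1) * (10 * (t * (2 * m) / (2 * (m : ℝ) + n')) + 2) +
        η ^ 2 * t * ((t : ℝ) + 1) := by rw [hK1, hK2]; ring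
  rw [f8] at hmain
  linarith

end Pool.Agent.helper65.RK
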