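import Pool.Agent.helper65.RK.AsmP
import Pool.Agent.helper65.RK.PLavg

set_option autoImplicit false

/-!
# RK-42 : the average of `PL` with the parameters
-/

namespace Pool.Agent.helper65.RK

open Finset

variable {L n n' : ℕ}

theorem EG_zero (η : ℝ) (m n' : ℕ) (φ : List Lt → ℝ) : EG η m n' 0 φ = φ [] := by
  unfold EG
  rw [av_zero]
  simp [EW, mrg]

theorem PL_nil (m g : ℕ) (hm : 1 ≤ m) : PL m g [] ≤ 2 + 2 * g := by
  have h := PL_crude (m := m) (g := g) [] (by simpa using hm)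
  refine h.trans ?_
  simp only [List.length_nil, zero_add, Finset.range_one, Finset.sum_singleton, List.take_nil]
  have h1 : far [] = [] := rfl
  have h2 : nsr [] = 0 := rfl
  have h3 : al [] = 0 := rfl
  have h4 : be [] = 0 := rfl
  rw [h1, h2, h3, h4]
  simp only [Nat.cast_zero, zero_add, sub_zero]
  rw [max_eq_right (by positivity)]
  linarith

/-- RK-42. -/
theorem Par.P_bound (h : Par L n n') {t : ℕ} (ht : t + 1 ≤ 2 * L ^ 13) :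
    EG (eta L) (4 * L ^ 13) n' t (PL (4 * L ^ 13) (L ^ 7)) ≤
      2 * eta L * (((t : ℝ) + 1) * eW (eta L) t - ∑ i ∈ range (t + 1), eW (eta L) i) +
        eta L ^ 2 * t * ((t : ℝ) + 1) + (L : ℝ) ^ 11 := by
  have hη0 := h.B.eta_pos
  have hη1 := h.B.eta_le
  have h1 := h.B.one_le
  have hb := h.B.bigR
  have hn := h.npos
  have hg1 : 1 ≤ L ^ 7 := Nat.one_le_pow _ _ (le_trans (by norm_num) h.B.big)
  have h13 : 1 ≤ L ^ 13 := Nat.one_le_pow _ _ (le_trans (by norm_num) h.B.big)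
  have q1 := h.B.pow_add_le (k := 10) (l := 11) (by norm_num)
  have h7 : (L : ℝ) ^ 7 ≤ (L : ℝ) ^ 10 := pow_le_pow_right₀ h1 (by norm_num)
  have h10 : (1 : ℝ) ≤ (L : ℝ) ^ 10 := one_le_pow₀ h1
  rcases Nat.eq_zero_or_pos t with h0 | ht1
  · subst h0
    rw [EG_zero]
    have h2 := PL_nil (4 * L ^ 13) (L ^ 7) (by omega)
    simp only [Nat.cast_zero, zero_add, Finset.range_one, Finset.sum_singleton, one_mul, sub_self,
      mul_zero, zero_mul]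
    push_cast at h2
    linarith
  have ht' : (t : ℝ) ≤ 2 * (L : ℝ) ^ 13 := by
    have : t ≤ 2 * L ^ 13 := by omega
    exact_mod_cast this
  have ht1' : (t : ℝ) + 1 ≤ 2 * (L : ℝ) ^ 13 := by exact_mod_cast ht
  have hV : 10 * L ^ 3 ≤ L ^ 7 := by
    have h2 : (10 : ℝ) * (L : ℝ) ^ 3 ≤ (L : ℝ) ^ 7 := by
      have := h.B.pow_add_le (k := 3) (l := 7) (by norm_num)
      have h3 : (0 : ℝ) ≤ (L : ℝ) ^ 3 := by positivity
      linarith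
    exact_mod_cast h2
  have hg2 : 2 ≤ L ^ 7 := by
    have : 1 ≤ L ^ 3 := Nat.one_le_pow _ _ (le_trans (by norm_num) h.B.big)
    omega
  have e1 := PL_avg (m := 4 * L ^ 13) (g := L ^ 7) (n' := n') (V := L ^ 3) (t := t) (η := eta L)
    hη0.le (by linarith) hg2 hV (by omega)
  rw [h.cast] at e1
  have x2 := h.B.exp2 ht1 (show t ≤ 2 * L ^ 13 by omega)
  have x3 := h.B.exp4
  have x4 := h.PV_small (show t ≤ 2 * L ^ 13 by omega)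
  have hE := Ex_pos L
  have hnt := h.t_small ht'
  have hlo := h.loR
  have ht0 : (0 : ℝ) ≤ t := by positivity
  -- first error
  have e2 : eta L * ((t : ℝ) + 1) * (10 * (t * (2 * ((4 * L ^ 13 : ℕ) : ℝ)) / n) + 2) ≤
      20 * (L : ℝ) ^ 9 := by
    have a1 : eta L * ((t : ℝ) + 1) ≤ (L : ℝ) ^ 7 / 10 := h.B.eta_mul ht1'
    have a2 : t * (2 * ((4 * L ^ 13 : ℕ) : ℝ)) / (n : ℝ) ≤ 16 * (L : ℝ) ^ 2 := by
      rw [div_le_iff₀ hn]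
      push_cast
      calc (t : ℝ) * (2 * (4 * (L : ℝ) ^ 13)) ≤ (2 * (L : ℝ) ^ 13) * (2 * (4 * (L : ℝ) ^ 13)) :=
            mul_le_mul_of_nonneg_right ht' (by positivity)
        _ = 16 * (L : ℝ) ^ 2 * (L : ℝ) ^ 24 := by ring
        _ ≤ 16 * (L : ℝ) ^ 2 * n := mul_le_mul_of_nonneg_left hlo (by positivity)
    have a3 : (0 : ℝ) ≤ t * (2 * ((4 * L ^ 13 : ℕ) : ℝ)) / (n : ℝ) := by positivity
    calc eta L * ((t : ℝ) + 1) * (10 * (t * (2 * ((4 * L ^ 13 : ℕ) : ℝ)) / n) + 2)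
        ≤ (L : ℝ) ^ 7 / 10 * (10 * (16 * (L : ℝ) ^ 2) + 2) := by
          apply mul_le_mul a1 (by linarith) (by positivity) (by positivity)
      _ = 16 * (L : ℝ) ^ 9 + (L : ℝ) ^ 7 / 5 := by ring
      _ ≤ 20 * (L : ℝ) ^ 9 := by
          have : (L : ℝ) ^ 7 ≤ (L : ℝ) ^ 9 := pow_le_pow_right₀ h1 (by norm_num)
          have h3 : (0 : ℝ) ≤ (L : ℝ) ^ 9 := by positivity
          linarith
  -- the exponential
  have e3 : 2 * ((t : ℝ) + 1) * Real.exp (-(((L ^ 7 : ℕ) : ℝ) ^ 2 / (2 * t))) +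
      2 * t * Real.exp (-(2 * ((L ^ 7 : ℕ) : ℝ))) ≤ 8 * (L : ℝ) ^ 13 * Ex L := by
    calc 2 * ((t : ℝ) + 1) * Real.exp (-(((L ^ 7 : ℕ) : ℝ) ^ 2 / (2 * t))) +
          2 * t * Real.exp (-(2 * ((L ^ 7 : ℕ) : ℝ)))
        ≤ 2 * (2 * (L : ℝ) ^ 13) * Ex L + 2 * (2 * (L : ℝ) ^ 13) * Ex L := by
          gcongr
      _ = 8 * (L : ℝ) ^ 13 * Ex L := by ring
  have e3' : 0 ≤ 2 * ((t : ℝ) + 1) * Real.exp (-(((L ^ 7 : ℕ) : ℝ) ^ 2 / (2 * t))) +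
      2 * t * Real.exp (-(2 * ((L ^ 7 : ℕ) : ℝ))) := by positivity
  have e4 : 2 * (16 * ((L ^ 7 : ℕ) : ℝ) + 1) + 2 * ((t : ℝ) + 1) *
      (2 * ((t : ℝ) + 1) * Real.exp (-(((L ^ 7 : ℕ) : ℝ) ^ 2 / (2 * t))) +
        2 * t * Real.exp (-(2 * ((L ^ 7 : ℕ) : ℝ)))) ≤ 40 * (L : ℝ) ^ 7 := by
    have a1 : 2 * ((t : ℝ) + 1) *
        (2 * ((t : ℝ) + 1) * Real.exp (-(((L ^ 7 : ℕ) : ℝ) ^ 2 / (2 * t))) +
          2 * t * Real.exp (-(2 * ((L ^ 7 : ℕ) : ℝ)))) ≤ 1 := by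
      calc 2 * ((t : ℝ) + 1) *
          (2 * ((t : ℝ) + 1) * Real.exp (-(((L ^ 7 : ℕ) : ℝ) ^ 2 / (2 * t))) +
            2 * t * Real.exp (-(2 * ((L ^ 7 : ℕ) : ℝ))))
          ≤ 2 * (2 * (L : ℝ) ^ 13) * (8 * (L : ℝ) ^ 13 * Ex L) := by
            apply mul_le_mul (by linarith) e3 e3' (by positivity)
        _ = 32 * (L : ℝ) ^ 26 * Ex L := by ring
        _ ≤ 1 := h.B.small 32 26 (by norm_num) (by linarith)
    have a2 : (1 : ℝ) ≤ (L : ℝ) ^ 7 := one_le_pow₀ h1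
    push_cast at a1 ⊢
    linarith
  -- bad words
  have e5 : (2 * ((t : ℝ) + 1) + 2 * (16 * ((L ^ 7 : ℕ) : ℝ) + 1) *
      (((L ^ 7 : ℕ) : ℝ) + (((L ^ 7 : ℕ) : ℝ) + 2 * ((L ^ 3 : ℕ) : ℝ)))) *
        (2 * t * (2 * ((L ^ 7 : ℕ) : ℝ) + ((L ^ 3 : ℕ) : ℝ) + 2) / ((n : ℝ) - t)) ≤
      6000 * (L : ℝ) ^ 10 := by
    have b3 : (L : ℝ) ^ 3 ≤ (L : ℝ) ^ 7 := pow_le_pow_right₀ h1 (by norm_num)
    have b7 : (1 : ℝ) ≤ (L : ℝ) ^ 7 := one_le_pow₀ h1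
    have b13 : (L : ℝ) ^ 13 ≤ (L : ℝ) ^ 14 := pow_le_pow_right₀ h1 (by norm_num)
    have a1 : 2 * ((t : ℝ) + 1) + 2 * (16 * ((L ^ 7 : ℕ) : ℝ) + 1) *
        (((L ^ 7 : ℕ) : ℝ) + (((L ^ 7 : ℕ) : ℝ) + 2 * ((L ^ 3 : ℕ) : ℝ))) ≤
        140 * (L : ℝ) ^ 14 := by
      push_cast
      calc 2 * ((t : ℝ) + 1) + 2 * (16 * (L : ℝ) ^ 7 + 1) *
          ((L : ℝ) ^ 7 + ((L : ℝ) ^ 7 + 2 * (L : ℝ) ^ 3))
          ≤ 2 * (2 * (L : ℝ) ^ 13) + 2 * (16 * (L : ℝ) ^ 7 + (L : ℝ) ^ 7) *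
            ((L : ℝ) ^ 7 + ((L : ℝ) ^ 7 + 2 * (L : ℝ) ^ 7)) := by
            gcongr
        _ = 4 * (L : ℝ) ^ 13 + 136 * (L : ℝ) ^ 14 := by ring
        _ ≤ 140 * (L : ℝ) ^ 14 := by linarith
    have hnt2 : (n : ℝ) / 2 ≤ n - t := by linarith
    have hnt3 : (0 : ℝ) < n - t := by linarith
    have a2 : 2 * t * (2 * ((L ^ 7 : ℕ) : ℝ) + ((L ^ 3 : ℕ) : ℝ) + 2) / ((n : ℝ) - t) ≤
        40 * (L : ℝ) ^ 20 / n := by
      rw [div_le_div_iff₀ hnt3 hn]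
      have a3 : 2 * (t : ℝ) * (2 * ((L ^ 7 : ℕ) : ℝ) + ((L ^ 3 : ℕ) : ℝ) + 2) ≤
          20 * (L : ℝ) ^ 20 := by
        push_cast
        calc 2 * (t : ℝ) * (2 * (L : ℝ) ^ 7 + (L : ℝ) ^ 3 + 2)
            ≤ 2 * (2 * (L : ℝ) ^ 13) * (2 * (L : ℝ) ^ 7 + (L : ℝ) ^ 7 + 2 * (L : ℝ) ^ 7) := by
              gcongr
              linarith
          _ = 20 * (L : ℝ) ^ 20 := by ring
      calc 2 * (t : ℝ) * (2 * ((L ^ 7 : ℕ) : ℝ) + ((L ^ 3 : ℕ) : ℝ) + 2) * n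
          ≤ 20 * (L : ℝ) ^ 20 * n := mul_le_mul_of_nonneg_right a3 hn.le
        _ = 40 * (L : ℝ) ^ 20 * (n / 2) := by ring
        _ ≤ 40 * (L : ℝ) ^ 20 * (n - t) := mul_le_mul_of_nonneg_left hnt2 (by positivity)
    calc _ ≤ 140 * (L : ℝ) ^ 14 * (40 * (L : ℝ) ^ 20 / n) := by
          apply mul_le_mul a1 a2 _ (by positivity)
          apply div_nonneg _ hnt3.le
          positivity
      _ = 5600 * (L : ℝ) ^ 10 * ((L : ℝ) ^ 24 / n) := by ring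
      _ ≤ 5600 * (L : ℝ) ^ 10 * 1 := by
          apply mul_le_mul_of_nonneg_left _ (by positivity)
          rw [div_le_one hn]
          exact hlo
      _ ≤ 6000 * (L : ℝ) ^ 10 := by
          have : (0 : ℝ) ≤ (L : ℝ) ^ 10 := by positivity
          linarith
  have e6 : ((t : ℝ) + 1) * (2 * ((4 * L ^ 13 : ℕ) : ℝ)) * (PV (4 * L ^ 13) n' (L ^ 3) t +
      (2 * ((t : ℝ) + 1) * Real.exp (-(((L ^ 7 : ℕ) : ℝ) ^ 2 / (2 * t))) +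
        2 * t * Real.exp (-(2 * ((L ^ 7 : ℕ) : ℝ))))) ≤ 1 := by
    have b13 : (1 : ℝ) ≤ (L : ℝ) ^ 13 := one_le_pow₀ h1
    calc ((t : ℝ) + 1) * (2 * ((4 * L ^ 13 : ℕ) : ℝ)) * (PV (4 * L ^ 13) n' (L ^ 3) t +
          (2 * ((t : ℝ) + 1) * Real.exp (-(((L ^ 7 : ℕ) : ℝ) ^ 2 / (2 * t))) +
            2 * t * Real.exp (-(2 * ((L ^ 7 : ℕ) : ℝ)))))
        ≤ (2 * (L : ℝ) ^ 13) * (2 * ((4 * L ^ 13 : ℕ) : ℝ)) *
          ((L : ℝ) ^ 13 * Ex L + 8 * (L : ℝ) ^ 13 * Ex L) := by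
          have c1 : PV (4 * L ^ 13) n' (L ^ 3) t ≤ (L : ℝ) ^ 13 * Ex L := by
            have := mul_le_mul_of_nonneg_right b13 hE.le
            linarith
          apply mul_le_mul (mul_le_mul_of_nonneg_right ht1' (by positivity)) (by linarith) _
            (by positivity)
          have := PV_nonneg (m := 4 * L ^ 13) (n' := n') (L ^ 3) t
          linarith
      _ = 144 * (L : ℝ) ^ 39 * Ex L := by push_cast; ring
      _ ≤ 1 := h.B.small 144 39 (by norm_num) (by linarith)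
  have h9 : (L : ℝ) ^ 9 ≤ (L : ℝ) ^ 10 := pow_le_pow_right₀ h1 (by norm_num)
  linarith [e1, e2, e4, e5, e6]

end Pool.Agent.helper65.RK
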