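import Pool.Agent.helper65.RK.Defs

set_option autoImplicit false

/-!
# RK-20 : expectations over words of independent types
-/

namespace Pool.Agent.helper65.RK

open Finset

variable {η : ℝ}

theorem EWb_sum3 (f : T → ℝ) : ∑ s : T, f s = f T.A + f T.B + f T.D := by
  have h : (univ : Finset T) = {T.A, T.B, T.D} := by decide
  rw [h, sum_insert (by decide), sum_insert (by decide), sum_singleton]
  ring

theorem sum_pT (η : ℝ) : ∑ s : T, pT η s = 1 := by
  rw [EWb_sum3]
  simp only [pT]
  ring

theorem pT_nonneg (h0 : 0 ≤ η) (h1 : η ≤ 1) (s : T) : 0 ≤ pT η s := by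
  cases s <;> simp only [pT] <;> linarith

theorem EW_const (η : ℝ) (t : ℕ) (c : ℝ) : EW η t (fun _ => c) = c := by
  induction t with
  | zero => rfl
  | succ t ih =>
    simp only [EW, ih]
    rw [← sum_mul, sum_pT, one_mul]

theorem EW_add (t : ℕ) (φ ψ : List T → ℝ) :
    EW η t (fun v => φ v + ψ v) = EW η t φ + EW η t ψ := by
  induction t generalizing φ ψ with
  | zero => rfl
  | succ t ih =>
    simp only [EW]
    rw [← sum_add_distrib]
    refine sum_congr rfl fun s _ => ?_
    rw [ih (fun v => φ (s :: v)) (fun v => ψ (s :: v))]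
    ring

theorem EW_mul (t : ℕ) (c : ℝ) (φ : List T → ℝ) :
    EW η t (fun v => c * φ v) = c * EW η t φ := by
  induction t generalizing φ with
  | zero => rfl
  | succ t ih =>
    simp only [EW]
    rw [mul_sum]
    refine sum_congr rfl fun s _ => ?_
    rw [ih (fun v => φ (s :: v))]
    ring

theorem EW_sub (t : ℕ) (φ ψ : List T → ℝ) :
    EW η t (fun v => φ v - ψ v) = EW η t φ - EW η t ψ := by
  have h1 : (fun v => φ v - ψ v) = fun v => φ v + (-1) * ψ v := by
    funext v
    ring
  rw [h1, EW_add, EW_mul]
  ring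

theorem EW_sum {ι : Type} (s : Finset ι) (t : ℕ) (φ : ι → List T → ℝ) :
    EW η t (fun v => ∑ i ∈ s, φ i v) = ∑ i ∈ s, EW η t (φ i) := by
  induction t generalizing φ with
  | zero => rfl
  | succ t ih =>
    simp only [EW]
    rw [sum_comm]
    refine sum_congr rfl fun s' _ => ?_
    rw [ih (fun i v => φ i (s' :: v)), mul_sum]

theorem EW_congr {t : ℕ} {φ ψ : List T → ℝ} (h : ∀ v : List T, v.length = t → φ v = ψ v) :
    EW η t φ = EW η t ψ := by
  induction t generalizing φ ψ with
  | zero => exact h [] rfl
  | succ t ih =>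
    simp only [EW]
    refine sum_congr rfl fun s _ => ?_
    rw [ih (φ := fun v => φ (s :: v)) (ψ := fun v => ψ (s :: v)) fun v hv =>
      h (s :: v) (by rw [List.length_cons, hv])]

theorem EW_mono (h0 : 0 ≤ η) (h1 : η ≤ 1) {t : ℕ} {φ ψ : List T → ℝ}
    (h : ∀ v : List T, v.length = t → φ v ≤ ψ v) : EW η t φ ≤ EW η t ψ := by
  induction t generalizing φ ψ with
  | zero => exact h [] rfl
  | succ t ih =>
    simp only [EW]
    refine sum_le_sum fun s _ => mul_le_mul_of_nonneg_left ?_ (pT_nonneg h0 h1 s)
    exact ih (φ := fun v => φ (s :: v)) (ψ := fun v => ψ (s :: v)) fun v hv =>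
      h (s :: v) (by rw [List.length_cons, hv])

theorem EW_nonneg (h0 : 0 ≤ η) (h1 : η ≤ 1) {t : ℕ} {φ : List T → ℝ}
    (h : ∀ v : List T, v.length = t → 0 ≤ φ v) : 0 ≤ EW η t φ := by
  have h2 := EW_mono h0 h1 (φ := fun _ => 0) (ψ := φ) (t := t) h
  rwa [EW_const] at h2

/-- First `u` letters, then `l` letters. -/
theorem EW_split (u l : ℕ) (φ : List T → ℝ) :
    EW η (u + l) φ = EW η u (fun v => EW η l (fun v' => φ (v ++ v'))) := by
  induction u generalizing φ with
  | zero =>
    rw [Nat.zero_add]
    rfl
  | succ u ih =>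
    rw [show u + 1 + l = (u + l) + 1 by ring]
    simp only [EW, List.cons_append]
    refine sum_congr rfl fun s _ => ?_
    rw [ih (fun v => φ (s :: v))]

theorem EW_succ (t : ℕ) (φ : List T → ℝ) :
    EW η (t + 1) φ = EW η t (fun v => ∑ s : T, pT η s * φ (v ++ [s])) := by
  rw [EW_split]
  rfl

theorem EW_take {u t : ℕ} (h : u ≤ t) (φ : List T → ℝ) :
    EW η t (fun v => φ (v.take u)) = EW η u φ := by
  obtain ⟨l, rfl⟩ := Nat.exists_eq_add_of_le h
  rw [EW_split]
  refine EW_congr fun v hv => ?_
  have h1 : (fun v' : List T => φ ((v ++ v').take u)) = fun _ => φ v := by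
    funext v'
    rw [← hv, List.take_left]
  rw [h1, EW_const]

theorem EW_drop {u t : ℕ} (h : u ≤ t) (φ : List T → ℝ) :
    EW η t (fun v => φ (v.drop u)) = EW η (t - u) φ := by
  obtain ⟨l, rfl⟩ := Nat.exists_eq_add_of_le h
  rw [EW_split, Nat.add_sub_cancel_left]
  have h1 : EW η u (fun v => EW η l (fun v' => φ ((v ++ v').drop u))) =
      EW η u (fun _ => EW η l φ) := by
    refine EW_congr fun v hv => ?_
    congr 1
    funext v'
    rw [← hv, List.drop_left]
  rw [h1, EW_const]

/-- The letter at place `u` is independent of the letters before. -/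
theorem EW_at {u t : ℕ} (h : u < t) (φ : List T → T → ℝ) (d : T) :
    EW η t (fun v => φ (v.take u) (v.getD u d)) =
      EW η u (fun v => ∑ s : T, pT η s * φ v s) := by
  have h1 : EW η t (fun v => φ (v.take u) (v.getD u d)) =
      EW η t (fun v => (fun v' : List T => φ (v'.take u) (v'.getD u d)) (v.take (u + 1))) := by
    congr 1
    funext v
    simp only [List.take_take, List.getD_eq_getElem?_getD]
    rw [Nat.min_eq_left (Nat.le_succ u), List.getElem?_take_of_lt (Nat.lt_succ_self u)]
  rw [h1, EW_take h (fun v' : List T => φ (v'.take u) (v'.getD u d)), EW_succ]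
  refine EW_congr fun v hv => ?_
  refine sum_congr rfl fun s _ => ?_
  have h2 : (v ++ [s]).take u = v := by rw [← hv, List.take_left]
  have h3 : (v ++ [s]).getD u d = s := by
    rw [List.getD_eq_getElem?_getD, ← hv, List.getElem?_append_right (le_refl _)]
    simp
  rw [h2, h3]

/-- Cauchy-Schwarz. -/
theorem EW_sq_le (h0 : 0 ≤ η) (h1 : η ≤ 1) (t : ℕ) (φ : List T → ℝ) :
    (EW η t φ) ^ 2 ≤ EW η t (fun v => φ v ^ 2) := by
  set c := EW η t φ with hc
  have h2 : 0 ≤ EW η t (fun v => (φ v - c) ^ 2) := EW_nonneg h0 h1 fun v _ => sq_nonneg _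
  have h3 : (fun v => (φ v - c) ^ 2) = fun v => (φ v ^ 2 - (2 * c) * φ v) + c ^ 2 := by
    funext v
    ring
  rw [h3, EW_add t (fun v => φ v ^ 2 - (2 * c) * φ v) (fun _ => c ^ 2),
    EW_sub t (fun v => φ v ^ 2) (fun v => (2 * c) * φ v), EW_mul, EW_const, ← hc] at h2
  nlinarith

open Classical in
/-- Markov's inequality. -/
theorem EW_markov (h0 : 0 ≤ η) (h1 : η ≤ 1) (t : ℕ) (φ : List T → ℝ) (P : List T → Prop) (c : ℝ)
    (hc : 0 < c) (hφ : ∀ v : List T, v.length = t → 0 ≤ φ v)
    (hP : ∀ v : List T, v.length = t → P v → c ≤ φ v) :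
    EW η t (fun v => if P v then (1 : ℝ) else 0) ≤ EW η t φ / c := by
  have h2 : EW η t φ / c = EW η t (fun v => (1 / c) * φ v) := by
    rw [EW_mul]
    ring
  rw [h2]
  refine EW_mono h0 h1 fun v hv => ?_
  by_cases h : P v
  · rw [if_pos h, one_div, ← div_eq_inv_mul, le_div_iff₀ hc, one_mul]
    exact hP v hv h
  · rw [if_neg h]
    exact mul_nonneg (by positivity) (hφ v hv)

/-! ## Heights -/

theorem posT_append (v v' : List T) : posT (v ++ v') = v'.foldl stepT (posT v) := by
  unfold posT
  rw [List.foldl_append]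

theorem EWb_step (p : ℕ × ℕ) (s : T) : (stepT p s).1 + (stepT p s).2 = p.1 + p.2 + 1 ∧
    p.1 ≤ (stepT p s).1 ∧ p.2 ≤ (stepT p s).2 := by
  obtain ⟨a, b⟩ := p
  cases s
  · simp only [stepT]; omega
  · simp only [stepT]; omega
  · simp only [stepT]
    split_ifs <;> simp only <;> omega

theorem EWb_fold (v : List T) (p : ℕ × ℕ) :
    (v.foldl stepT p).1 + (v.foldl stepT p).2 = p.1 + p.2 + v.length ∧
      p.1 + v.count T.A ≤ (v.foldl stepT p).1 ∧ p.2 + v.count T.B ≤ (v.foldl stepT p).2 := by
  induction v generalizing p with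
  | nil => simp
  | cons s v ih =>
    rw [List.foldl_cons, List.length_cons]
    have h1 := EWb_step p s
    obtain ⟨h2, h3, h4⟩ := ih (stepT p s)
    have h5 : p.1 + (s :: v).count T.A ≤ (stepT p s).1 + v.count T.A := by
      cases s
      · obtain ⟨a, b⟩ := p
        rw [List.count_cons_self]
        simp only [stepT]
        omega
      · rw [List.count_cons_of_ne (by decide)]
        omega
      · rw [List.count_cons_of_ne (by decide)]
        omega
    have h6 : p.2 + (s :: v).count T.B ≤ (stepT p s).2 + v.count T.B := by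
      cases s
      · rw [List.count_cons_of_ne (by decide)]
        omega
      · obtain ⟨a, b⟩ := p
        rw [List.count_cons_self]
        simp only [stepT]
        omega
      · rw [List.count_cons_of_ne (by decide)]
        omega
    exact ⟨by omega, by omega, by omega⟩

theorem al_add_be (v : List T) : al v + be v = v.length := by
  have h := (EWb_fold v (0, 0)).1
  simp only [zero_add] at h
  exact h

theorem EWb_take_drop (v : List T) (i : ℕ) :
    posT v = (v.drop i).foldl stepT (posT (v.take i)) := by
  rw [← posT_append, List.take_append_drop]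

/-- The height of `A` grows by at least the number of letters `A`. -/
theorem al_take_add_count (v : List T) (i : ℕ) :
    al (v.take i) + (v.drop i).count T.A ≤ al v := by
  have h := (EWb_fold (v.drop i) (posT (v.take i))).2.1
  rw [← EWb_take_drop] at h
  exact h

theorem be_take_add_count (v : List T) (i : ℕ) :
    be (v.take i) + (v.drop i).count T.B ≤ be v := by
  have h := (EWb_fold (v.drop i) (posT (v.take i))).2.2
  rw [← EWb_take_drop] at h
  exact h

theorem al_take_le (v : List T) (i : ℕ) : al (v.take i) ≤ al v :=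
  (Nat.le_add_right _ _).trans (al_take_add_count v i)

theorem be_take_le (v : List T) (i : ℕ) : be (v.take i) ≤ be v :=
  (Nat.le_add_right _ _).trans (be_take_add_count v i)

theorem al_le_take (v : List T) (i : ℕ) : al v ≤ al (v.take i) + (v.length - i) := by
  have h1 := al_add_be v
  have h2 := al_add_be (v.take i)
  have h3 := be_take_le v i
  rw [List.length_take] at h2
  omega

theorem be_le_take (v : List T) (i : ℕ) : be v ≤ be (v.take i) + (v.length - i) := by
  have h1 := al_add_be v
  have h2 := al_add_be (v.take i)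
  have h3 := al_take_le v i
  rw [List.length_take] at h2
  omega

theorem al_take_mono (v : List T) {i j : ℕ} (h : i ≤ j) : al (v.take i) ≤ al (v.take j) := by
  have h1 := al_take_le (v.take j) i
  rwa [List.take_take, Nat.min_eq_left h] at h1

theorem be_take_mono (v : List T) {i j : ℕ} (h : i ≤ j) : be (v.take i) ≤ be (v.take j) := by
  have h1 := be_take_le (v.take j) i
  rwa [List.take_take, Nat.min_eq_left h] at h1

/-- The one step rule for functions of the difference of the heights. -/
theorem EW_del_succ (η : ℝ) (t : ℕ) (f : ℤ → ℝ) :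
    EW η (t + 1) (fun v => f (del v)) = EW η t (fun v =>
      if del v ≤ 0 then (1 + η) / 2 * f (del v + 1) + (1 - η) / 2 * f (del v - 1)
      else (1 - η) / 2 * f (del v + 1) + (1 + η) / 2 * f (del v - 1)) := by
  rw [EW_succ]
  congr 1
  funext v
  have hA : del (v ++ [T.A]) = del v + 1 := by
    unfold del al be
    rw [posT_append]
    simp only [List.foldl_cons, List.foldl_nil]
    rcases posT v with ⟨a, b⟩
    simp only [stepT]
    push_cast
    ring
  have hB : del (v ++ [T.B]) = del v - 1 := by
    unfold del al be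
    rw [posT_append]
    simp only [List.foldl_cons, List.foldl_nil]
    rcases posT v with ⟨a, b⟩
    simp only [stepT]
    push_cast
    ring
  have hD : del (v ++ [T.D]) = if del v ≤ 0 then del v + 1 else del v - 1 := by
    unfold del al be
    rw [posT_append]
    simp only [List.foldl_cons, List.foldl_nil]
    rcases posT v with ⟨a, b⟩
    simp only [stepT]
    by_cases hab : a ≤ b
    · rw [if_pos hab, if_pos (by omega)]
      push_cast
      ring
    · rw [if_neg hab, if_neg (by omega)]
      push_cast
      ring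
  rw [EWb_sum3, hA, hB, hD]
  simp only [pT]
  by_cases h : del v ≤ 0
  · rw [if_pos h, if_pos h]
    ring
  · rw [if_neg h, if_neg h]
    ring

end Pool.Agent.helper65.RK
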