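import Pool.Agent.helper65.RK.Mono
import Pool.Agent.helper65.RK.EWb
import Pool.Agent.helper65.RK.Bridge

set_option autoImplicit false

/-!
# RK-13 : words and heights
-/

namespace Pool.Agent.helper65.RK

open Finset

theorem comb1_mem {p : ℕ × ℕ} {e : ℕ} :
    e ∈ stack p ↔ (∃ j, j < p.1 ∧ e = 2 * j) ∨ ∃ j, j < p.2 ∧ e = 2 * j + 1 := by
  simp only [stack, mem_union, mem_image, mem_range]
  constructor
  · rintro (⟨j, h, rfl⟩ | ⟨j, h, rfl⟩)
    · exact Or.inl ⟨j, h, rfl⟩
    · exact Or.inr ⟨j, h, rfl⟩
  · rintro (⟨j, h, rfl⟩ | ⟨j, h, rfl⟩)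
    · exact Or.inl ⟨j, h, rfl⟩
    · exact Or.inr ⟨j, h, rfl⟩

theorem mem_stack_even {p : ℕ × ℕ} {j : ℕ} : 2 * j ∈ stack p ↔ j < p.1 := by
  rw [comb1_mem]
  constructor
  · rintro (⟨i, h, hi⟩ | ⟨i, h, hi⟩)
    · have : j = i := by omega
      omega
    · omega
  · exact fun h => Or.inl ⟨j, h, rfl⟩

theorem mem_stack_odd {p : ℕ × ℕ} {j : ℕ} : 2 * j + 1 ∈ stack p ↔ j < p.2 := by
  rw [comb1_mem]
  constructor
  · rintro (⟨i, h, hi⟩ | ⟨i, h, hi⟩)
    · omega
    · have : j = i := by omega
      omega
  · exact fun h => Or.inr ⟨j, h, rfl⟩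

theorem card_stack (p : ℕ × ℕ) : (stack p).card = p.1 + p.2 := by
  rw [stack, card_union_of_disjoint, card_image_of_injective, card_image_of_injective, card_range,
    card_range]
  · intro a b h
    simp only at h
    omega
  · intro a b h
    simp only at h
    omega
  · rw [disjoint_left]
    intro e h1 h2
    obtain ⟨i, -, rfl⟩ := mem_image.1 h1
    obtain ⟨j, -, hj⟩ := mem_image.1 h2
    omega

theorem comb1_insert_even (a b : ℕ) : insert (2 * a) (stack (a, b)) = stack (a + 1, b) := by
  ext e
  rw [mem_insert, comb1_mem, comb1_mem]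
  constructor
  · rintro (rfl | ⟨j, h, rfl⟩ | ⟨j, h, rfl⟩)
    · exact Or.inl ⟨a, Nat.lt_succ_self a, rfl⟩
    · exact Or.inl ⟨j, Nat.lt_succ_of_lt h, rfl⟩
    · exact Or.inr ⟨j, h, rfl⟩
  · rintro (⟨j, h, rfl⟩ | ⟨j, h, rfl⟩)
    · rcases Nat.lt_or_ge j a with h' | h'
      · exact Or.inr (Or.inl ⟨j, h', rfl⟩)
      · left
        simp only at h
        omega
    · exact Or.inr (Or.inr ⟨j, h, rfl⟩)

theorem comb1_insert_odd (a b : ℕ) : insert (2 * b + 1) (stack (a, b)) = stack (a, b + 1) := by
  ext e
  rw [mem_insert, comb1_mem, comb1_mem]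
  constructor
  · rintro (rfl | ⟨j, h, rfl⟩ | ⟨j, h, rfl⟩)
    · exact Or.inr ⟨b, Nat.lt_succ_self b, rfl⟩
    · exact Or.inl ⟨j, h, rfl⟩
    · exact Or.inr ⟨j, Nat.lt_succ_of_lt h, rfl⟩
  · rintro (⟨j, h, rfl⟩ | ⟨j, h, rfl⟩)
    · exact Or.inr (Or.inl ⟨j, h, rfl⟩)
    · rcases Nat.lt_or_ge j b with h' | h'
      · exact Or.inr (Or.inr ⟨j, h', rfl⟩)
      · left
        simp only at h
        omega

/-- A far agent at a pair of stacks. -/
theorem step_stack_T {m g : ℕ} (p : ℕ × ℕ) (hp : p.1 < m ∧ p.2 < m) (s : T) :
    step (stack p) (lst m g (Lt.t s)) = stack (stepT p s) := by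
  obtain ⟨a, b⟩ := p
  obtain ⟨ha, hb⟩ := hp
  simp only at ha hb
  cases s
  · rw [show stepT (a, b) T.A = (a + 1, b) from rfl, ← comb1_insert_even]
    apply step_eq
    · exact mem_image.2 ⟨a, mem_range.2 ha, rfl⟩
    · rw [mem_stack_even]
      simp
    · intro f hf hf'
      obtain ⟨j, -, rfl⟩ := mem_image.1 hf
      rw [mem_stack_even] at hf'
      simp only at hf'
      omega
  · rw [show stepT (a, b) T.B = (a, b + 1) from rfl, ← comb1_insert_odd]
    apply step_eq
    · exact mem_image.2 ⟨b, mem_range.2 hb, rfl⟩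
    · rw [mem_stack_odd]
      simp
    · intro f hf hf'
      obtain ⟨j, -, rfl⟩ := mem_image.1 hf
      rw [mem_stack_odd] at hf'
      simp only at hf'
      omega
  · have hpar : ∀ f, f ∉ stack (a, b) → (f = 2 * (f / 2) ∧ a ≤ f / 2) ∨
        (f = 2 * (f / 2) + 1 ∧ b ≤ f / 2) := by
      intro f hf
      rcases Nat.even_or_odd' f with ⟨c, rfl | rfl⟩
      · rw [mem_stack_even] at hf
        simp only at hf
        omega
      · rw [mem_stack_odd] at hf
        simp only at hf
        omega
    by_cases h : a ≤ b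
    · rw [show stepT (a, b) T.D = (a + 1, b) by simp [stepT, h], ← comb1_insert_even]
      apply step_eq
      · exact mem_range.2 (by omega)
      · rw [mem_stack_even]
        simp
      · intro f _ hf'
        have := hpar f hf'
        omega
    · rw [show stepT (a, b) T.D = (a, b + 1) by simp [stepT, h], ← comb1_insert_odd]
      apply step_eq
      · exact mem_range.2 (by omega)
      · rw [mem_stack_odd]
        simp
      · intro f _ hf'
        have := hpar f hf'
        omega

theorem matL_append (m g : ℕ) (w : List Lt) (z : Lt) :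
    matL m g (w ++ [z]) = step (matL m g w) (lst m g z) := by
  rw [matL, List.map_append, List.map_singleton, greedy_append, ← matL]

theorem matL_far (m g : ℕ) (v : List T) (hv : v.length ≤ m) :
    matL m g (v.map Lt.t) = stack (posT v) := by
  induction v using List.reverseRecOn with
  | nil => rfl
  | append_singleton v s ih =>
    rw [List.length_append, List.length_singleton] at hv
    have h1 := al_add_be v
    rw [al, be] at h1
    rw [List.map_append, List.map_singleton, matL_append, ih (by omega),
      step_stack_T _ ⟨by omega, by omega⟩, posT_append]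
    rfl

theorem length_eq (w : List Lt) : w.length = (far w).length + nsr w := by
  induction w with
  | nil => rfl
  | cons z w ih =>
    cases z with
    | t s =>
      have h1 : far (Lt.t s :: w) = s :: far w := by simp [far]
      have h2 : nsr (Lt.t s :: w) = nsr w := by simp [nsr]
      rw [h1, h2, List.length_cons, List.length_cons, ih]
      omega
    | y i =>
      have h1 : far (Lt.y i :: w) = far w := by simp [far]
      have h2 : nsr (Lt.y i :: w) = nsr w + 1 := by simp [nsr]
      rw [h1, h2, List.length_cons, ih]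
      omega
    | x i =>
      have h1 : far (Lt.x i :: w) = far w := by simp [far]
      have h2 : nsr (Lt.x i :: w) = nsr w + 1 := by simp [nsr]
      rw [h1, h2, List.length_cons, ih]
      omega

theorem far_append (w w' : List Lt) : far (w ++ w') = far w ++ far w' := by
  rw [far, List.filterMap_append]
  rfl

theorem nsr_append (w w' : List Lt) : nsr (w ++ w') = nsr w + nsr w' := by
  rw [nsr, List.countP_append]
  rfl

theorem nsr_take_le (w : List Lt) (u : ℕ) : nsr (w.take u) ≤ nsr w := by
  have h := nsr_append (w.take u) (w.drop u)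
  rw [List.take_append_drop] at h
  omega

theorem matL_take_subset (m g : ℕ) (w : List Lt) (u : ℕ) : matL m g (w.take u) ⊆ matL m g w := by
  rw [matL, matL, List.map_take]
  exact greedy_take_subset _ _

theorem comb1_step_mono {M M' : Finset ℕ} (h : M ⊆ M') (L : Finset ℕ) :
    step M L ⊆ step M' L := by
  rcases step_cases M L with ⟨-, h1⟩ | ⟨e, he, he', hmin, h1⟩
  · rw [h1]
    exact h.trans (subset_step _ _)
  · rw [h1]
    by_cases heM : e ∈ M'
    · exact (insert_subset heM h).trans (subset_step _ _)
    · rw [step_eq he heM fun f hf hf' => hmin f hf fun h' => hf' (h h')]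
      exact insert_subset_insert _ h

/-- RK-13a. Additional agents do no harm: the far agents alone take a subset. [Delete the owners one by one: `Ext.foldl`; or
induction from the end with the invariant `stack (posT (far w)) ⊆ matL m g w` for words of length `≤ m`: the
step of `M ↦ step M L` is monotone in `M` in the sense `M ⊆ M' → step M L ⊆ step M' L`.] -/
theorem stack_sub (m g : ℕ) (w : List Lt) (hw : w.length ≤ m) :
    stack (posT (far w)) ⊆ matL m g w := by
  induction w using List.reverseRecOn with
  | nil =>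
    intro e he
    rw [comb1_mem] at he
    rcases he with ⟨j, h, -⟩ | ⟨j, h, -⟩ <;> exact absurd h (Nat.not_lt_zero _)
  | append_singleton w z ih =>
    rw [List.length_append, List.length_singleton] at hw
    have h1 := ih (by omega)
    rw [matL_append, far_append]
    cases z with
    | t s =>
      have h2 : far [Lt.t s] = [s] := by simp [far]
      have h3 := al_add_be (far w)
      have h4 := length_eq w
      rw [al, be] at h3
      rw [h2, posT_append, List.foldl_cons, List.foldl_nil,
        ← step_stack_T (m := m) (g := g) _ ⟨by omega, by omega⟩]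
      exact comb1_step_mono h1 _
    | y i =>
      have h2 : far [Lt.y i] = [] := by simp [far]
      rw [h2, List.append_nil]
      exact h1.trans (subset_step _ _)
    | x i =>
      have h2 : far [Lt.x i] = [] := by simp [far]
      rw [h2, List.append_nil]
      exact h1.trans (subset_step _ _)

theorem comb1_card (m g : ℕ) (w : List Lt) : (matL m g w).card ≤ w.length := by
  rw [matL]
  refine (card_greedy_le _).trans ?_
  rw [List.length_map]

theorem comb1_bound (m g : ℕ) (w : List Lt) (a b : ℕ) (h : stack (a, b) ⊆ matL m g w) :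
    a + b ≤ al (far w) + be (far w) + nsr w := by
  have h1 := card_le_card h
  rw [card_stack] at h1
  have h2 := comb1_card m g w
  have h3 := length_eq w
  have h4 := al_add_be (far w)
  simp only at h1
  omega

/-- RK-13b. If `b 0, ..., b k` are all taken then `k < be (far w) + nsr w`: the set `matL` has at most
`w.length = al + be + nsr` elements and contains `al` even ones. -/
theorem be_bound (m g : ℕ) (w : List Lt) (hw : w.length ≤ m) (k : ℕ)
    (h : ∀ j ≤ k, 2 * j + 1 ∈ matL m g w) : k < be (far w) + nsr w := by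
  have h1 : stack (al (far w), k + 1) ⊆ matL m g w := by
    intro e he
    rw [comb1_mem] at he
    rcases he with ⟨j, hj, rfl⟩ | ⟨j, hj, rfl⟩
    · exact stack_sub m g w hw (mem_stack_even.2 hj)
    · exact h j (Nat.lt_succ_iff.1 hj)
  have := comb1_bound m g w _ _ h1
  omega

theorem al_bound (m g : ℕ) (w : List Lt) (hw : w.length ≤ m) (k : ℕ)
    (h : ∀ j ≤ k, 2 * j ∈ matL m g w) : k < al (far w) + nsr w := by
  have h1 : stack (k + 1, be (far w)) ⊆ matL m g w := by
    intro e he
    rw [comb1_mem] at he
    rcases he with ⟨j, hj, rfl⟩ | ⟨j, hj, rfl⟩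
    · exact h j (Nat.lt_succ_iff.1 hj)
    · exact stack_sub m g w hw (mem_stack_odd.2 hj)
  have := comb1_bound m g w _ _ h1
  omega

theorem comb1_SR (m : ℕ) : (SR m).card ≤ 2 * m := by
  rw [SR]
  refine (card_union_le _ _).trans ?_
  have h1 : ((range m).image Lt.y).card ≤ m := card_image_le.trans (card_range m).le
  have h2 : ((range m).image Lt.x).card ≤ m := card_image_le.trans (card_range m).le
  omega

theorem RL_le_two (m g : ℕ) (w : List Lt) : RL m g w ≤ 2 * m := by
  rw [RL]
  have h := (card_filter_le (SR m) fun z => z ∉ w ∧ ownL z ∈ matL m g w ∧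
    ¬ lst m g z ⊆ matL m g w).trans (comb1_SR m)
  exact_mod_cast h

theorem PL_le_two (m g : ℕ) (w : List Lt) : PL m g w ≤ ((w.length : ℝ) + 1) * (2 * m) := by
  rw [PL]
  refine (sum_le_card_nsmul _ _ (2 * m : ℝ) fun i _ => ?_).trans ?_
  · have h := (card_filter_le (SR m) fun z => z ∉ w ∧ ownL z ∈ matL m g (w.insertIdx i z) ∧
      ownL z ∉ matL m g w).trans (comb1_SR m)
    exact_mod_cast h
  · rw [card_range, nsmul_eq_mul]
    push_cast
    exact le_rfl

theorem RL_nonneg (m g : ℕ) (w : List Lt) : 0 ≤ RL m g w := by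
  rw [RL]
  exact Nat.cast_nonneg _

theorem PL_nonneg (m g : ℕ) (w : List Lt) : 0 ≤ PL m g w := by
  rw [PL]
  exact sum_nonneg fun i _ => Nat.cast_nonneg _

end Pool.Agent.helper65.RK
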