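import Pool.Agent.helper65.RK.Comb1

set_option autoImplicit false

/-!
# RK-14 : scattered objects
-/

namespace Pool.Agent.helper65.RK

open Finset

open Classical in
/-- The places of the owners `y i` which arrive too early. -/
noncomputable def cY (g : ℕ) (w : List Lt) : ℝ :=
  (((range w.length).filter fun u => ∃ i, w[u]? = some (Lt.y i) ∧ g + al (far w) ≤ i ∧
    i < g + be (far (w.take u)) + nsr w).card : ℝ)

open Classical in
/-- The places of the owners `x i` which arrive too early. -/
noncomputable def cX (g : ℕ) (w : List Lt) : ℝ :=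
  (((range w.length).filter fun u => ∃ i, w[u]? = some (Lt.x i) ∧ g + be (far w) ≤ i ∧
    i < g + al (far (w.take u)) + nsr w).card : ℝ)

/-- The letter which takes an object. -/
theorem comb2_letter {m g : ℕ} {w : List Lt} {e : ℕ} (he : e ∈ matL m g w) :
    ∃ u z, w[u]? = some z ∧ e ∈ lst m g z ∧ e ∉ matL m g (w.take u) ∧
      matL m g (w.take (u + 1)) = insert e (matL m g (w.take u)) ∧
      ∀ f ∈ lst m g z, f ∉ matL m g (w.take u) → e ≤ f := by
  obtain ⟨u, L, h1, h2, h3, h4, h5⟩ := mem_greedy' he
  rw [List.getElem?_map] at h1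
  obtain ⟨z, hz, rfl⟩ := Option.map_eq_some_iff.1 h1
  rw [← List.map_take] at h3 h4 h5
  rw [← List.map_take] at h4
  exact ⟨u, z, hz, h2, h3, h4, h5⟩

theorem comb2_evenT {m g l j : ℕ} (hj : j < l) {s : T} (h : 2 * l ∈ lst m g (Lt.t s)) :
    2 * j ∈ lst m g (Lt.t s) := by
  cases s
  · obtain ⟨i, hi, hi'⟩ := mem_image.1 h
    rw [mem_range] at hi
    exact mem_image.2 ⟨j, mem_range.2 (by omega), rfl⟩
  · obtain ⟨i, hi, hi'⟩ := mem_image.1 h
    omega
  · have := mem_range.1 h
    exact mem_range.2 (by omega)

theorem comb2_oddT {m g l j : ℕ} (hj : j < l) {s : T} (h : 2 * l + 1 ∈ lst m g (Lt.t s)) :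
    2 * j + 1 ∈ lst m g (Lt.t s) := by
  cases s
  · obtain ⟨i, hi, hi'⟩ := mem_image.1 h
    omega
  · obtain ⟨i, hi, hi'⟩ := mem_image.1 h
    rw [mem_range] at hi
    exact mem_image.2 ⟨j, mem_range.2 (by omega), rfl⟩
  · have := mem_range.1 h
    exact mem_range.2 (by omega)

theorem comb2_lt {w : List Lt} {u : ℕ} {z : Lt} (h : w[u]? = some z) : u < w.length := by
  rw [List.getElem?_eq_some_iff] at h
  exact h.1

/-- RK-14a. Let `a l` be taken and `a j`, `j < l`, be free at the end. By `mem_greedy'` the object `a l = 2 l` was taken by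
a letter `w[u]` as the smallest free element of its list. This letter is no far agent and no `x i` (their lists contain
with `2 l` also `2 j`, which was free: for `x i`, `2 l` in the list means `l + g ≤ i`). So it is some `y i` with
`l ≤ i < l + g`, and `i < j + g` is impossible, so `j + g ≤ i`. All `b j'` with `j' + g ≤ i` were taken at time `u`
(they are smaller than `2 l` and in the list), so `i - g < be (far (w.take u)) + nsr (w.take u)` by `be_bound`; and
`al (far w) ≤ j ≤ i - g` because `stack (posT (far w)) ⊆ matL w` and `a j` is free. Different `l` give different `u`. -/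
theorem scatA_le (m g : ℕ) (w : List Lt) (hw : w.length ≤ m) :
    (((range m).filter fun l => 2 * l ∈ matL m g w ∧ ∃ j < l, 2 * j ∉ matL m g w).card : ℝ) ≤
      cY g w := by
  classical
  rw [cY]
  have key : ∀ l ∈ (range m).filter fun l => 2 * l ∈ matL m g w ∧ ∃ j < l, 2 * j ∉ matL m g w,
      ∃ u, (u ∈ (range w.length).filter fun u => ∃ i, w[u]? = some (Lt.y i) ∧
        g + al (far w) ≤ i ∧ i < g + be (far (w.take u)) + nsr w) ∧
        2 * l ∉ matL m g (w.take u) ∧
        matL m g (w.take (u + 1)) = insert (2 * l) (matL m g (w.take u)) := by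
    intro l hl
    rw [mem_filter] at hl
    obtain ⟨-, hl, j, hjl, hj⟩ := hl
    obtain ⟨u, z, hz, h1, h2, h3, h4⟩ := comb2_letter hl
    have hju : 2 * j ∉ matL m g (w.take u) := fun h => hj (matL_take_subset m g w u h)
    refine ⟨u, ?_, h2, h3⟩
    rw [mem_filter, mem_range]
    refine ⟨comb2_lt hz, ?_⟩
    have hnot : 2 * j ∉ lst m g z := by
      intro h
      have := h4 _ h hju
      omega
    cases z with
    | t s => exact absurd (comb2_evenT hjl h1) hnot
    | x i =>
      exfalso
      rcases mem_lst_x.1 h1 with ⟨l', hl', hll⟩ | ⟨l', -, -, hll⟩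
      · exact hnot (mem_lst_x.2 (Or.inl ⟨j, by omega, rfl⟩))
      · omega
    | y i =>
      rcases mem_lst_y.1 h1 with ⟨l', hl', hll⟩ | ⟨l', hl1, hl2, hll⟩
      · omega
      · have hl' : l' = l := by omega
        subst hl'
        have hji : j + g ≤ i := by
          by_contra hcon
          exact hnot (mem_lst_y.2 (Or.inr ⟨j, by omega, by omega, rfl⟩))
        refine ⟨i, hz, ?_, ?_⟩
        · have h5 : al (far w) ≤ j := by
            by_contra hcon
            exact hj (stack_sub m g w hw (mem_stack_even.2 (by rw [al] at hcon; omega)))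
          omega
        · have h6 : ∀ j' ≤ i - g, 2 * j' + 1 ∈ matL m g (w.take u) := by
            intro j' hj'
            by_contra hcon
            have h7 := h4 _ (mem_lst_y.2 (Or.inl ⟨j', by omega, rfl⟩)) hcon
            omega
          have h8 := be_bound m g (w.take u) ((List.length_take_le' _ _).trans hw) (i - g) h6
          have h9 := nsr_take_le w u
          omega
  choose! f hf using key
  have hle : ((range m).filter fun l => 2 * l ∈ matL m g w ∧ ∃ j < l, 2 * j ∉ matL m g w).card ≤
      ((range w.length).filter fun u => ∃ i, w[u]? = some (Lt.y i) ∧ g + al (far w) ≤ i ∧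
        i < g + be (far (w.take u)) + nsr w).card := by
    refine card_le_card_of_injOn f (fun l hl => (hf l hl).1) ?_
    intro l hl l' hl' hff
    obtain ⟨-, h1, h2⟩ := hf l hl
    obtain ⟨-, h3, h4⟩ := hf l' hl'
    rw [← hff] at h3 h4
    rw [h4] at h2
    have h5 : 2 * l' ∈ insert (2 * l) (matL m g (w.take (f l))) := by
      rw [← h2]
      exact mem_insert_self _ _
    rcases mem_insert.1 h5 with h6 | h6
    · omega
    · exact absurd h6 h3
  exact_mod_cast hle

theorem scatB_le (m g : ℕ) (w : List Lt) (hw : w.length ≤ m) :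
    (((range m).filter fun l => 2 * l + 1 ∈ matL m g w ∧
      ∃ j < l, 2 * j + 1 ∉ matL m g w).card : ℝ) ≤ cX g w := by
  classical
  rw [cX]
  have key : ∀ l ∈ (range m).filter fun l => 2 * l + 1 ∈ matL m g w ∧
      ∃ j < l, 2 * j + 1 ∉ matL m g w,
      ∃ u, (u ∈ (range w.length).filter fun u => ∃ i, w[u]? = some (Lt.x i) ∧
        g + be (far w) ≤ i ∧ i < g + al (far (w.take u)) + nsr w) ∧
        2 * l + 1 ∉ matL m g (w.take u) ∧
        matL m g (w.take (u + 1)) = insert (2 * l + 1) (matL m g (w.take u)) := by
    intro l hl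
    rw [mem_filter] at hl
    obtain ⟨-, hl, j, hjl, hj⟩ := hl
    obtain ⟨u, z, hz, h1, h2, h3, h4⟩ := comb2_letter hl
    have hju : 2 * j + 1 ∉ matL m g (w.take u) := fun h => hj (matL_take_subset m g w u h)
    refine ⟨u, ?_, h2, h3⟩
    rw [mem_filter, mem_range]
    refine ⟨comb2_lt hz, ?_⟩
    have hnot : 2 * j + 1 ∉ lst m g z := by
      intro h
      have := h4 _ h hju
      omega
    cases z with
    | t s => exact absurd (comb2_oddT hjl h1) hnot
    | y i =>
      exfalso
      rcases mem_lst_y.1 h1 with ⟨l', hl', hll⟩ | ⟨l', -, -, hll⟩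
      · exact hnot (mem_lst_y.2 (Or.inl ⟨j, by omega, rfl⟩))
      · omega
    | x i =>
      rcases mem_lst_x.1 h1 with ⟨l', hl', hll⟩ | ⟨l', hl1, hl2, hll⟩
      · omega
      · have hl' : l' = l := by omega
        subst hl'
        have hji : j + g ≤ i := by
          by_contra hcon
          exact hnot (mem_lst_x.2 (Or.inr ⟨j, by omega, by omega, rfl⟩))
        refine ⟨i, hz, ?_, ?_⟩
        · have h5 : be (far w) ≤ j := by
            by_contra hcon
            exact hj (stack_sub m g w hw (mem_stack_odd.2 (by rw [be] at hcon; omega)))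
          omega
        · have h6 : ∀ j' ≤ i - g, 2 * j' ∈ matL m g (w.take u) := by
            intro j' hj'
            by_contra hcon
            have h7 := h4 _ (mem_lst_x.2 (Or.inl ⟨j', by omega, rfl⟩)) hcon
            omega
          have h8 := al_bound m g (w.take u) ((List.length_take_le' _ _).trans hw) (i - g) h6
          have h9 := nsr_take_le w u
          omega
  choose! f hf using key
  have hle : ((range m).filter fun l => 2 * l + 1 ∈ matL m g w ∧
      ∃ j < l, 2 * j + 1 ∉ matL m g w).card ≤
      ((range w.length).filter fun u => ∃ i, w[u]? = some (Lt.x i) ∧ g + be (far w) ≤ i ∧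
        i < g + al (far (w.take u)) + nsr w).card := by
    refine card_le_card_of_injOn f (fun l hl => (hf l hl).1) ?_
    intro l hl l' hl' hff
    obtain ⟨-, h1, h2⟩ := hf l hl
    obtain ⟨-, h3, h4⟩ := hf l' hl'
    rw [← hff] at h3 h4
    rw [h4] at h2
    have h5 : 2 * l' + 1 ∈ insert (2 * l + 1) (matL m g (w.take (f l))) := by
      rw [← h2]
      exact mem_insert_self _ _
    rcases mem_insert.1 h5 with h6 | h6
    · omega
    · exact absurd h6 h3
  exact_mod_cast hle

/-- RK-14b. Let `z = y i` count in `RL`. If some `a j`, `j < i`, is free then `i` is counted in `scatA_le`. Otherwise all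
`a j`, `j ≤ i`, are taken, so some `b j` with `j + g ≤ i` is free; `al (far w) + nsr w > i` (`al_bound`) and
`be (far w) ≤ j` (`stack_sub`), so `del (far w) = al - be > i - nsr w - j ≥ g - nsr w`. The same for `x i`. At most
`2 m` letters in total. -/
theorem RL_le (m g : ℕ) (w : List Lt) (hw : w.length ≤ m) :
    RL m g w ≤ cY g w + cX g w +
      (if (g : ℤ) < |del (far w)| + nsr w then 2 * (m : ℝ) else 0) := by
  classical
  have hY : 0 ≤ cY g w := Nat.cast_nonneg _
  have hX : 0 ≤ cX g w := Nat.cast_nonneg _
  split_ifs with hcase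
  · have := RL_le_two m g w
    linarith
  · rw [not_lt] at hcase
    have hd1 : del (far w) ≤ |del (far w)| := le_abs_self _
    have hd2 : -del (far w) ≤ |del (far w)| := neg_le_abs _
    rw [del] at hd1 hd2 hcase
    rw [add_zero]
    refine le_trans ?_ (add_le_add (scatA_le m g w hw) (scatB_le m g w hw))
    rw [RL, ← Nat.cast_add, Nat.cast_le]
    have hsub : ((SR m).filter fun z => z ∉ w ∧ ownL z ∈ matL m g w ∧
        ¬ lst m g z ⊆ matL m g w) ⊆
        (((range m).filter fun l => 2 * l ∈ matL m g w ∧
          ∃ j < l, 2 * j ∉ matL m g w).image Lt.y) ∪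
        (((range m).filter fun l => 2 * l + 1 ∈ matL m g w ∧
          ∃ j < l, 2 * j + 1 ∉ matL m g w).image Lt.x) := by
      intro z hz
      rw [mem_filter, SR, mem_union] at hz
      obtain ⟨hz1, -, hz3, hz4⟩ := hz
      rw [mem_union]
      rcases hz1 with hz1 | hz1
      · left
        obtain ⟨i, hi, rfl⟩ := mem_image.1 hz1
        refine mem_image.2 ⟨i, mem_filter.2 ⟨hi, hz3, ?_⟩, rfl⟩
        by_contra hcon
        push Not at hcon
        have hall : ∀ j ≤ i, 2 * j ∈ matL m g w := by
          intro j hj
          rcases Nat.lt_or_eq_of_le hj with h | h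
          · exact hcon j h
          · rw [h]; exact hz3
        obtain ⟨e, he, he'⟩ := not_subset.1 hz4
        rcases mem_lst_y.1 he with ⟨j, hj, rfl⟩ | ⟨j, hj, -, rfl⟩
        · have h1 := al_bound m g w hw i hall
          have h2 : be (far w) ≤ j := by
            by_contra hc
            exact he' (stack_sub m g w hw (mem_stack_odd.2 (by rw [be] at hc; omega)))
          omega
        · exact he' (hall j hj)
      · right
        obtain ⟨i, hi, rfl⟩ := mem_image.1 hz1
        refine mem_image.2 ⟨i, mem_filter.2 ⟨hi, hz3, ?_⟩, rfl⟩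
        by_contra hcon
        push Not at hcon
        have hall : ∀ j ≤ i, 2 * j + 1 ∈ matL m g w := by
          intro j hj
          rcases Nat.lt_or_eq_of_le hj with h | h
          · exact hcon j h
          · rw [h]; exact hz3
        obtain ⟨e, he, he'⟩ := not_subset.1 hz4
        rcases mem_lst_x.1 he with ⟨j, hj, rfl⟩ | ⟨j, hj, -, rfl⟩
        · have h1 := be_bound m g w hw i hall
          have h2 : al (far w) ≤ j := by
            by_contra hc
            exact he' (stack_sub m g w hw (mem_stack_even.2 (by rw [al] at hc; omega)))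
          omega
        · exact he' (hall j hj)
    refine (card_le_card hsub).trans ((card_union_le _ _).trans ?_)
    exact Nat.add_le_add card_image_le card_image_le

end Pool.Agent.helper65.RK
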