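import Pool.Agent.helper65.RK.Comb1

set_option autoImplicit false

/-!
# RK-15 : good words
-/

namespace Pool.Agent.helper65.RK

open Finset

theorem posI_append (g : ℕ) (w : List Lt) (z : Lt) : posI g (w ++ [z]) = stepI g (posI g w) z := by
  simp [posI, List.foldl_append]

theorem Comb3_getElem?_lt {w : List Lt} {u : ℕ} {z : Lt} (h : w[u]? = some z) : u < w.length := by
  rcases Nat.lt_or_ge u w.length with h' | h'
  · exact h'
  · rw [List.getElem?_eq_none h'] at h
    exact absurd h (by simp)

theorem good_take {g : ℕ} {w : List Lt} (h : good g w) (u : ℕ) : good g (w.take u) := by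
  intro u' z hz
  have h1 : u' < (w.take u).length := Comb3_getElem?_lt hz
  have h2 : u' < u := by
    rw [List.length_take] at h1
    omega
  have h3 : w[u']? = some z := by
    rw [List.getElem?_take] at hz
    simpa [h2] using hz
  have h4 : (w.take u).take u' = w.take u' := by
    rw [List.take_take, Nat.min_eq_left h2.le]
  rw [h4]
  exact h u' z h3

theorem good_append {g : ℕ} {w : List Lt} {z : Lt} :
    good g (w ++ [z]) ↔ good g w ∧ okAt g (posI g w) z := by
  constructor
  · intro h
    refine ⟨?_, ?_⟩
    · have := good_take h w.length
      simpa using this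
    · have := h w.length z (by simp)
      simpa using this
  · rintro ⟨h1, h2⟩ u z' hz
    have hu : u < (w ++ [z]).length := Comb3_getElem?_lt hz
    rw [List.length_append, List.length_singleton] at hu
    rcases Nat.lt_or_ge u w.length with h | h
    · rw [List.getElem?_append_left h] at hz
      rw [List.take_append_of_le_length h.le]
      exact h1 u z' hz
    · have hu' : u = w.length := by omega
      subst hu'
      have hz' : z = z' := by simpa using hz
      subst hz'
      simpa using h2

theorem Comb3_stepI (g : ℕ) (p : ℕ × ℕ) (z : Lt) :
    p.1 ≤ (stepI g p z).1 ∧ p.2 ≤ (stepI g p z).2 ∧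
      (stepI g p z).1 + (stepI g p z).2 ≤ p.1 + p.2 + 1 := by
  obtain ⟨a, b⟩ := p
  cases z with
  | t s =>
    cases s with
    | A => simp only [stepI, stepT]; omega
    | B => simp only [stepI, stepT]; omega
    | D =>
      simp only [stepI, stepT]
      split_ifs <;> simp only <;> omega
  | y i =>
    simp only [stepI]
    split_ifs <;> simp only <;> omega
  | x i =>
    simp only [stepI]
    split_ifs <;> simp only <;> omega

theorem posI_sum_le (g : ℕ) (w : List Lt) : (posI g w).1 + (posI g w).2 ≤ w.length := by
  induction w using List.reverseRecOn with
  | nil => simp [posI]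
  | append_singleton w z ih =>
    rw [posI_append, List.length_append, List.length_singleton]
    have := Comb3_stepI g (posI g w) z
    omega

theorem Comb3_foldl_le (g : ℕ) (w : List Lt) : ∀ p : ℕ × ℕ,
    p.1 ≤ (w.foldl (stepI g) p).1 ∧ p.2 ≤ (w.foldl (stepI g) p).2 := by
  induction w with
  | nil => intro p; simp
  | cons z w ih =>
    intro p
    rw [List.foldl_cons]
    have h1 := Comb3_stepI g p z
    have h2 := ih (stepI g p z)
    omega

theorem posI_take_le (g : ℕ) (w : List Lt) (u : ℕ) :
    (posI g (w.take u)).1 ≤ (posI g w).1 ∧ (posI g (w.take u)).2 ≤ (posI g w).2 := by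
  have h : posI g w = (w.drop u).foldl (stepI g) (posI g (w.take u)) := by
    unfold posI
    rw [← List.foldl_append, List.take_append_drop]
  rw [h]
  exact Comb3_foldl_le g _ _

theorem Comb3_mem_A {m g e : ℕ} : e ∈ lst m g (Lt.t T.A) ↔ ∃ j, j < m ∧ e = 2 * j := by
  simp [lst, eq_comm]

theorem Comb3_mem_B {m g e : ℕ} : e ∈ lst m g (Lt.t T.B) ↔ ∃ j, j < m ∧ e = 2 * j + 1 := by
  simp [lst, eq_comm]

theorem Comb3_mem_D {m g e : ℕ} : e ∈ lst m g (Lt.t T.D) ↔ e < 2 * m := by
  simp [lst]

/-- Owners at full stacks. -/
theorem Comb3_step_good {m g : ℕ} (p : ℕ × ℕ) (hp : p.1 < m ∧ p.2 < m) (z : Lt)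
    (hz : okAt g p z) : step (stack p) (lst m g z) = stack (stepI g p z) := by
  obtain ⟨a, b⟩ := p
  cases z with
  | t s => exact step_stack_T _ hp s
  | y i =>
    have hz' : max a b + g + 2 ≤ i ∨ i < min a b := hz
    rcases hz' with h | h
    · have he : 2 * b + 1 ∈ lst m g (Lt.y i) := mem_lst_y.2 (Or.inl ⟨b, by omega, rfl⟩)
      have he' : 2 * b + 1 ∉ stack (a, b) := by
        rw [mem_stack_odd]; simp
      rw [step_eq he he']
      · simp only [stepI, if_pos h]
        ext f
        obtain ⟨j, rfl | rfl⟩ := Nat.even_or_odd' f
        · simp only [mem_insert, mem_stack_even]; omega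
        · simp only [mem_insert, mem_stack_odd]; omega
      · intro f hf hf'
        rcases mem_lst_y.1 hf with ⟨j, hj, rfl⟩ | ⟨j, hj, hj', rfl⟩
        · rw [mem_stack_odd] at hf'
          simp only at hf'
          omega
        · omega
    · have h' : ¬ max a b + g + 2 ≤ i := by omega
      simp only [stepI, if_neg h']
      apply step_eq_self
      intro f hf
      rcases mem_lst_y.1 hf with ⟨j, hj, rfl⟩ | ⟨j, hj, hj', rfl⟩
      · rw [mem_stack_odd]
        simp only
        omega
      · rw [mem_stack_even]
        simp only
        omega
  | x i =>
    have hz' : max a b + g + 2 ≤ i ∨ i < min a b := hz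
    rcases hz' with h | h
    · have he : 2 * a ∈ lst m g (Lt.x i) := mem_lst_x.2 (Or.inl ⟨a, by omega, rfl⟩)
      have he' : 2 * a ∉ stack (a, b) := by
        rw [mem_stack_even]; simp
      rw [step_eq he he']
      · simp only [stepI, if_pos h]
        ext f
        obtain ⟨j, rfl | rfl⟩ := Nat.even_or_odd' f
        · simp only [mem_insert, mem_stack_even]; omega
        · simp only [mem_insert, mem_stack_odd]; omega
      · intro f hf hf'
        rcases mem_lst_x.1 hf with ⟨j, hj, rfl⟩ | ⟨j, hj, hj', rfl⟩
        · rw [mem_stack_even] at hf'
          simp only at hf'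
          omega
        · omega
    · have h' : ¬ max a b + g + 2 ≤ i := by omega
      simp only [stepI, if_neg h']
      apply step_eq_self
      intro f hf
      rcases mem_lst_x.1 hf with ⟨j, hj, rfl⟩ | ⟨j, hj, hj', rfl⟩
      · rw [mem_stack_even]
        simp only
        omega
      · rw [mem_stack_odd]
        simp only
        omega

/-- RK-15a. For good words the taken objects are full stacks. [Induction from the end. `y i` with
`max + g + 2 ≤ i`: the list contains all `b j`, `j + g ≤ i`, so the smallest free one is `b` of the height, smaller than the
elements `a j`, `i < j + g`. `y i` with `i < min`: everything in the list is taken.] -/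
theorem matL_good {m g : ℕ} {w : List Lt} (hw : w.length ≤ m) (h : good g w) :
    matL m g w = stack (posI g w) := by
  induction w using List.reverseRecOn with
  | nil => simp [matL, greedy, posI, stack]
  | append_singleton w z ih =>
    rw [List.length_append, List.length_singleton] at hw
    obtain ⟨h1, h2⟩ := good_append.1 h
    rw [matL_append, posI_append, ih (by omega) h1]
    have h3 := posI_sum_le g w
    exact Comb3_step_good _ ⟨by omega, by omega⟩ z h2

theorem Comb3_far_append (w : List Lt) (s : T) : far (w ++ [Lt.t s]) = far w ++ [s] := by
  rw [far_append]; rfl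

theorem Comb3_posT_append (v : List T) (s : T) : posT (v ++ [s]) = stepT (posT v) s := by
  simp [posT, List.foldl_append]

/-- RK-15b. Invariant along the word: `(posI g w).1 = al (far w) + p`, `(posI g w).2 = be (far w) + q` with `p + q ≤ nsr w`. [A far agent of type
`D`: if `al ≤ be` but `al + p > be + q` then `p ≥ 1` and the new excesses are `p - 1, q + 1`; similarly in
the other case.] -/
theorem posI_far (g : ℕ) (w : List Lt) :
    al (far w) ≤ (posI g w).1 ∧ be (far w) ≤ (posI g w).2 ∧
      (posI g w).1 + (posI g w).2 ≤ al (far w) + be (far w) + nsr w := by
  unfold al be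
  induction w using List.reverseRecOn with
  | nil => simp [posI, far, posT]
  | append_singleton w z ih =>
    have key : ∀ z' : Lt, (∀ s, z' ≠ Lt.t s) → far (w ++ [z']) = far w ∧ nsr (w ++ [z']) = nsr w + 1 := by
      intro z' hz'
      rw [far_append, nsr_append]
      cases z' with
      | t s => exact absurd rfl (hz' s)
      | y i => exact ⟨by simp [far], by simp [nsr]⟩
      | x i => exact ⟨by simp [far], by simp [nsr]⟩
    rw [posI_append]
    cases z with
    | t s =>
      rw [Comb3_far_append, Comb3_posT_append, nsr_append]
      have h0 : nsr [Lt.t s] = 0 := by simp [nsr]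
      rw [h0]
      revert ih
      generalize posT (far w) = P
      generalize posI g w = Q
      obtain ⟨a, b⟩ := P
      obtain ⟨c, d⟩ := Q
      intro ih
      simp only at ih
      cases s with
      | A => simp only [stepI, stepT]; omega
      | B => simp only [stepI, stepT]; omega
      | D =>
        simp only [stepI, stepT]
        split_ifs <;> simp only <;> omega
    | y i =>
      obtain ⟨h1, h2⟩ := key (Lt.y i) (by simp)
      rw [h1, h2]
      have := Comb3_stepI g (posI g w) (Lt.y i)
      omega
    | x i =>
      obtain ⟨h1, h2⟩ := key (Lt.x i) (by simp)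
      rw [h1, h2]
      have := Comb3_stepI g (posI g w) (Lt.x i)
      omega

theorem delI_close (g : ℕ) (w : List Lt) : |delI g w - del (far w)| ≤ nsr w := by
  have := posI_far g w
  unfold delI del
  rw [abs_le]
  constructor <;> omega

/-- RK-15c. Insertion into a good word. Let `w` be good, `i ≤ w.length`, `w.length + 1 ≤ m`, and let `(a, b) = posI g (w.take u)` for `u ≥ i`. The objects
taken by `(w.take u).insertIdx i z` are one of: (0) the same as before, `stack (a, b)`; (1) `stack (a, b) ∪ {2 l}` with
`l ≥ a`; (2) `stack (a, b) ∪ {2 l + 1}` with `l ≥ b`. This definition says that at time `u` we are in case (1) with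
`l` (`true`) or in case (2) with `l` (`false`). -/
def extra (m g : ℕ) (w : List Lt) (i : ℕ) (z : Lt) (u : ℕ) (c : Bool) (l : ℕ) : Prop :=
  if c then (posI g (w.take u)).1 ≤ l ∧
      matL m g ((w.take u).insertIdx i z) = insert (2 * l) (stack (posI g (w.take u)))
  else (posI g (w.take u)).2 ≤ l ∧
      matL m g ((w.take u).insertIdx i z) = insert (2 * l + 1) (stack (posI g (w.take u)))

theorem Comb3_insertIdx (z z' : Lt) : ∀ (v : List Lt) (i : ℕ), i ≤ v.length →
    (v ++ [z']).insertIdx i z = v.insertIdx i z ++ [z']
  | v, 0, _ => by simp
  | [], i + 1, h => by simp at h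
  | y :: v, i + 1, h => by
    rw [List.cons_append, List.insertIdx_succ_cons, List.insertIdx_succ_cons, List.cons_append,
      Comb3_insertIdx z z' v i (by simpa using h)]

theorem Comb3_take_succ {m g : ℕ} {w : List Lt} {i u : ℕ} (hi : i ≤ u) (hu : u < w.length) (z : Lt) :
    matL m g ((w.take (u + 1)).insertIdx i z) =
      step (matL m g ((w.take u).insertIdx i z)) (lst m g w[u]) := by
  have h1 : w.take (u + 1) = w.take u ++ [w[u]] := by
    rw [List.take_succ_eq_append_getElem hu]
  have h2 : i ≤ (w.take u).length := by
    rw [List.length_take]; omega
  rw [h1, Comb3_insertIdx z _ _ _ h2, matL_append]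

/-- The step in the case (1). -/
theorem Comb3_true {m g a b l : ℕ} (hg : 2 ≤ g) (hab : a + b + 2 ≤ m) (hl : a ≤ l) (z : Lt)
    (hz : okAt g (a, b) z) :
    (∃ l', (stepI g (a, b) z).1 ≤ l' ∧ step (insert (2 * l) (stack (a, b))) (lst m g z) =
        insert (2 * l') (stack (stepI g (a, b) z)) ∧ (l' = l ∨ l' = (stepI g (a, b) z).1)) ∨
      (z = Lt.t T.D ∧ a = b ∧ step (insert (2 * l) (stack (a, b))) (lst m g z) =
        insert (2 * (stepI g (a, b) z).2 + 1) (stack (stepI g (a, b) z))) := by
  cases z with
  | t s =>
    cases s with
    | A =>
      left
      rcases Nat.eq_or_lt_of_le hl with rfl | hl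
      · refine ⟨a + 1, le_rfl, ?_, Or.inr rfl⟩
        rw [step_eq (e := 2 * (a + 1))]
        · simp only [stepI, stepT]
          ext f
          obtain ⟨j, rfl | rfl⟩ := Nat.even_or_odd' f
          · simp only [mem_insert, mem_stack_even]; omega
          · simp only [mem_insert, mem_stack_odd]; omega
        · exact Comb3_mem_A.2 ⟨a + 1, by omega, rfl⟩
        · rw [mem_insert, mem_stack_even]
          simp only
          omega
        · intro f hf hf'
          obtain ⟨j, hj, rfl⟩ := Comb3_mem_A.1 hf
          rw [mem_insert, mem_stack_even] at hf'
          simp only at hf'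
          omega
      · refine ⟨l, by simp only [stepI, stepT]; omega, ?_, Or.inl rfl⟩
        rw [step_eq (e := 2 * a)]
        · simp only [stepI, stepT]
          ext f
          obtain ⟨j, rfl | rfl⟩ := Nat.even_or_odd' f
          · simp only [mem_insert, mem_stack_even]; omega
          · simp only [mem_insert, mem_stack_odd]; omega
        · exact Comb3_mem_A.2 ⟨a, by omega, rfl⟩
        · rw [mem_insert, mem_stack_even]
          simp only
          omega
        · intro f hf hf'
          obtain ⟨j, hj, rfl⟩ := Comb3_mem_A.1 hf
          rw [mem_insert, mem_stack_even] at hf'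
          simp only at hf'
          omega
    | B =>
      left
      refine ⟨l, by simp only [stepI, stepT]; omega, ?_, Or.inl rfl⟩
      rw [step_eq (e := 2 * b + 1)]
      · simp only [stepI, stepT]
        ext f
        obtain ⟨j, rfl | rfl⟩ := Nat.even_or_odd' f
        · simp only [mem_insert, mem_stack_even]; omega
        · simp only [mem_insert, mem_stack_odd]; omega
      · exact Comb3_mem_B.2 ⟨b, by omega, rfl⟩
      · rw [mem_insert, mem_stack_odd]
        simp only
        omega
      · intro f hf hf'
        obtain ⟨j, hj, rfl⟩ := Comb3_mem_B.1 hf
        rw [mem_insert, mem_stack_odd] at hf'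
        simp only at hf'
        omega
    | D =>
      rcases Nat.lt_or_ge b a with hba | hba
      · left
        have hn : ¬ a ≤ b := by omega
        refine ⟨l, by simp only [stepI, stepT, if_neg hn]; omega, ?_, Or.inl rfl⟩
        rw [step_eq (e := 2 * b + 1)]
        · simp only [stepI, stepT, if_neg hn]
          ext f
          obtain ⟨j, rfl | rfl⟩ := Nat.even_or_odd' f
          · simp only [mem_insert, mem_stack_even]; omega
          · simp only [mem_insert, mem_stack_odd]; omega
        · exact Comb3_mem_D.2 (by omega)
        · rw [mem_insert, mem_stack_odd]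
          simp only
          omega
        · intro f hf hf'
          obtain ⟨j, rfl | rfl⟩ := Nat.even_or_odd' f
          · rw [mem_insert, mem_stack_even] at hf'
            simp only at hf'
            omega
          · rw [mem_insert, mem_stack_odd] at hf'
            simp only at hf'
            omega
      · rcases Nat.eq_or_lt_of_le hl with rfl | hl
        · rcases Nat.eq_or_lt_of_le hba with rfl | hlt
          · right
            refine ⟨rfl, rfl, ?_⟩
            rw [step_eq (e := 2 * a + 1)]
            · simp only [stepI, stepT, if_pos le_rfl]
              ext f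
              obtain ⟨j, rfl | rfl⟩ := Nat.even_or_odd' f
              · simp only [mem_insert, mem_stack_even]; omega
              · simp only [mem_insert, mem_stack_odd]; omega
            · exact Comb3_mem_D.2 (by omega)
            · rw [mem_insert, mem_stack_odd]
              simp only
              omega
            · intro f hf hf'
              obtain ⟨j, rfl | rfl⟩ := Nat.even_or_odd' f
              · rw [mem_insert, mem_stack_even] at hf'
                simp only at hf'
                omega
              · rw [mem_insert, mem_stack_odd] at hf'
                simp only at hf'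
                omega
          · left
            refine ⟨a + 1, by simp only [stepI, stepT, if_pos hba]; omega, ?_,
              Or.inr (by simp only [stepI, stepT, if_pos hba])⟩
            rw [step_eq (e := 2 * (a + 1))]
            · simp only [stepI, stepT, if_pos hba]
              ext f
              obtain ⟨j, rfl | rfl⟩ := Nat.even_or_odd' f
              · simp only [mem_insert, mem_stack_even]; omega
              · simp only [mem_insert, mem_stack_odd]; omega
            · exact Comb3_mem_D.2 (by omega)
            · rw [mem_insert, mem_stack_even]
              simp only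
              omega
            · intro f hf hf'
              obtain ⟨j, rfl | rfl⟩ := Nat.even_or_odd' f
              · rw [mem_insert, mem_stack_even] at hf'
                simp only at hf'
                omega
              · rw [mem_insert, mem_stack_odd] at hf'
                simp only at hf'
                omega
        · left
          refine ⟨l, by simp only [stepI, stepT, if_pos hba]; omega, ?_, Or.inl rfl⟩
          rw [step_eq (e := 2 * a)]
          · simp only [stepI, stepT, if_pos hba]
            ext f
            obtain ⟨j, rfl | rfl⟩ := Nat.even_or_odd' f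
            · simp only [mem_insert, mem_stack_even]; omega
            · simp only [mem_insert, mem_stack_odd]; omega
          · exact Comb3_mem_D.2 (by omega)
          · rw [mem_insert, mem_stack_even]
            simp only
            omega
          · intro f hf hf'
            obtain ⟨j, rfl | rfl⟩ := Nat.even_or_odd' f
            · rw [mem_insert, mem_stack_even] at hf'
              simp only at hf'
              omega
            · rw [mem_insert, mem_stack_odd] at hf'
              simp only at hf'
              omega
  | y i =>
    left
    have hz' : max a b + g + 2 ≤ i ∨ i < min a b := hz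
    rcases hz' with h | h
    · refine ⟨l, by simp only [stepI, if_pos h]; omega, ?_, Or.inl rfl⟩
      rw [step_eq (e := 2 * b + 1)]
      · simp only [stepI, if_pos h]
        ext f
        obtain ⟨j, rfl | rfl⟩ := Nat.even_or_odd' f
        · simp only [mem_insert, mem_stack_even]; omega
        · simp only [mem_insert, mem_stack_odd]; omega
      · exact mem_lst_y.2 (Or.inl ⟨b, by omega, rfl⟩)
      · rw [mem_insert, mem_stack_odd]
        simp only
        omega
      · intro f hf hf'
        rcases mem_lst_y.1 hf with ⟨j, hj, rfl⟩ | ⟨j, hj, hj', rfl⟩
        · rw [mem_insert, mem_stack_odd] at hf'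
          simp only at hf'
          omega
        · omega
    · have h' : ¬ max a b + g + 2 ≤ i := by omega
      refine ⟨l, by simp only [stepI, if_neg h']; omega, ?_, Or.inl rfl⟩
      simp only [stepI, if_neg h']
      apply step_eq_self
      intro f hf
      rcases mem_lst_y.1 hf with ⟨j, hj, rfl⟩ | ⟨j, hj, hj', rfl⟩
      · rw [mem_insert, mem_stack_odd]
        simp only
        omega
      · rw [mem_insert, mem_stack_even]
        simp only
        omega
  | x i =>
    left
    have hz' : max a b + g + 2 ≤ i ∨ i < min a b := hz
    rcases hz' with h | h
    · rcases Nat.eq_or_lt_of_le hl with rfl | hl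
      · refine ⟨a + 1, by simp only [stepI, if_pos h]; omega, ?_,
          Or.inr (by simp only [stepI, if_pos h])⟩
        rw [step_eq (e := 2 * (a + 1))]
        · simp only [stepI, if_pos h]
          ext f
          obtain ⟨j, rfl | rfl⟩ := Nat.even_or_odd' f
          · simp only [mem_insert, mem_stack_even]; omega
          · simp only [mem_insert, mem_stack_odd]; omega
        · exact mem_lst_x.2 (Or.inl ⟨a + 1, by omega, rfl⟩)
        · rw [mem_insert, mem_stack_even]
          simp only
          omega
        · intro f hf hf'
          rcases mem_lst_x.1 hf with ⟨j, hj, rfl⟩ | ⟨j, hj, hj', rfl⟩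
          · rw [mem_insert, mem_stack_even] at hf'
            simp only at hf'
            omega
          · omega
      · refine ⟨l, by simp only [stepI, if_pos h]; omega, ?_, Or.inl rfl⟩
        rw [step_eq (e := 2 * a)]
        · simp only [stepI, if_pos h]
          ext f
          obtain ⟨j, rfl | rfl⟩ := Nat.even_or_odd' f
          · simp only [mem_insert, mem_stack_even]; omega
          · simp only [mem_insert, mem_stack_odd]; omega
        · exact mem_lst_x.2 (Or.inl ⟨a, by omega, rfl⟩)
        · rw [mem_insert, mem_stack_even]
          simp only
          omega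
        · intro f hf hf'
          rcases mem_lst_x.1 hf with ⟨j, hj, rfl⟩ | ⟨j, hj, hj', rfl⟩
          · rw [mem_insert, mem_stack_even] at hf'
            simp only at hf'
            omega
          · omega
    · have h' : ¬ max a b + g + 2 ≤ i := by omega
      refine ⟨l, by simp only [stepI, if_neg h']; omega, ?_, Or.inl rfl⟩
      simp only [stepI, if_neg h']
      apply step_eq_self
      intro f hf
      rcases mem_lst_x.1 hf with ⟨j, hj, rfl⟩ | ⟨j, hj, hj', rfl⟩
      · rw [mem_insert, mem_stack_even]
        simp only
        omega
      · rw [mem_insert, mem_stack_odd]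
        simp only
        omega

/-- The step in the case (2). -/
theorem Comb3_false {m g a b l : ℕ} (hg : 2 ≤ g) (hab : a + b + 2 ≤ m) (hl : b ≤ l) (z : Lt)
    (hz : okAt g (a, b) z) :
    (∃ l', (stepI g (a, b) z).2 ≤ l' ∧ step (insert (2 * l + 1) (stack (a, b))) (lst m g z) =
        insert (2 * l' + 1) (stack (stepI g (a, b) z)) ∧ (l' = l ∨ l' = (stepI g (a, b) z).2)) ∨
      (z = Lt.t T.D ∧ a = b + 1 ∧ step (insert (2 * l + 1) (stack (a, b))) (lst m g z) =
        insert (2 * (stepI g (a, b) z).1) (stack (stepI g (a, b) z))) := by
  cases z with
  | t s =>
    cases s with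
    | B =>
      left
      rcases Nat.eq_or_lt_of_le hl with rfl | hl
      · refine ⟨b + 1, le_rfl, ?_, Or.inr rfl⟩
        rw [step_eq (e := 2 * (b + 1) + 1)]
        · simp only [stepI, stepT]
          ext f
          obtain ⟨j, rfl | rfl⟩ := Nat.even_or_odd' f
          · simp only [mem_insert, mem_stack_even]; omega
          · simp only [mem_insert, mem_stack_odd]; omega
        · exact Comb3_mem_B.2 ⟨b + 1, by omega, rfl⟩
        · rw [mem_insert, mem_stack_odd]
          simp only
          omega
        · intro f hf hf'
          obtain ⟨j, hj, rfl⟩ := Comb3_mem_B.1 hf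
          rw [mem_insert, mem_stack_odd] at hf'
          simp only at hf'
          omega
      · refine ⟨l, by simp only [stepI, stepT]; omega, ?_, Or.inl rfl⟩
        rw [step_eq (e := 2 * b + 1)]
        · simp only [stepI, stepT]
          ext f
          obtain ⟨j, rfl | rfl⟩ := Nat.even_or_odd' f
          · simp only [mem_insert, mem_stack_even]; omega
          · simp only [mem_insert, mem_stack_odd]; omega
        · exact Comb3_mem_B.2 ⟨b, by omega, rfl⟩
        · rw [mem_insert, mem_stack_odd]
          simp only
          omega
        · intro f hf hf'
          obtain ⟨j, hj, rfl⟩ := Comb3_mem_B.1 hf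
          rw [mem_insert, mem_stack_odd] at hf'
          simp only at hf'
          omega
    | A =>
      left
      refine ⟨l, by simp only [stepI, stepT]; omega, ?_, Or.inl rfl⟩
      rw [step_eq (e := 2 * a)]
      · simp only [stepI, stepT]
        ext f
        obtain ⟨j, rfl | rfl⟩ := Nat.even_or_odd' f
        · simp only [mem_insert, mem_stack_even]; omega
        · simp only [mem_insert, mem_stack_odd]; omega
      · exact Comb3_mem_A.2 ⟨a, by omega, rfl⟩
      · rw [mem_insert, mem_stack_even]
        simp only
        omega
      · intro f hf hf'
        obtain ⟨j, hj, rfl⟩ := Comb3_mem_A.1 hf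
        rw [mem_insert, mem_stack_even] at hf'
        simp only at hf'
        omega
    | D =>
      rcases Nat.lt_or_ge b a with hba | hba
      · have hn : ¬ a ≤ b := by omega
        rcases Nat.eq_or_lt_of_le hl with rfl | hl
        · rcases Nat.eq_or_lt_of_le hba with heq | hlt
          · right
            have heq' : a = b + 1 := by omega
            subst heq'
            refine ⟨rfl, rfl, ?_⟩
            rw [step_eq (e := 2 * (b + 1))]
            · simp only [stepI, stepT, if_neg hn]
              ext f
              obtain ⟨j, rfl | rfl⟩ := Nat.even_or_odd' f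
              · simp only [mem_insert, mem_stack_even]; omega
              · simp only [mem_insert, mem_stack_odd]; omega
            · exact Comb3_mem_D.2 (by omega)
            · rw [mem_insert, mem_stack_even]
              simp only
              omega
            · intro f hf hf'
              obtain ⟨j, rfl | rfl⟩ := Nat.even_or_odd' f
              · rw [mem_insert, mem_stack_even] at hf'
                simp only at hf'
                omega
              · rw [mem_insert, mem_stack_odd] at hf'
                simp only at hf'
                omega
          · left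
            refine ⟨b + 1, by simp only [stepI, stepT, if_neg hn]; omega, ?_,
              Or.inr (by simp only [stepI, stepT, if_neg hn])⟩
            rw [step_eq (e := 2 * (b + 1) + 1)]
            · simp only [stepI, stepT, if_neg hn]
              ext f
              obtain ⟨j, rfl | rfl⟩ := Nat.even_or_odd' f
              · simp only [mem_insert, mem_stack_even]; omega
              · simp only [mem_insert, mem_stack_odd]; omega
            · exact Comb3_mem_D.2 (by omega)
            · rw [mem_insert, mem_stack_odd]
              simp only
              omega
            · intro f hf hf'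
              obtain ⟨j, rfl | rfl⟩ := Nat.even_or_odd' f
              · rw [mem_insert, mem_stack_even] at hf'
                simp only at hf'
                omega
              · rw [mem_insert, mem_stack_odd] at hf'
                simp only at hf'
                omega
        · left
          refine ⟨l, by simp only [stepI, stepT, if_neg hn]; omega, ?_, Or.inl rfl⟩
          rw [step_eq (e := 2 * b + 1)]
          · simp only [stepI, stepT, if_neg hn]
            ext f
            obtain ⟨j, rfl | rfl⟩ := Nat.even_or_odd' f
            · simp only [mem_insert, mem_stack_even]; omega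
            · simp only [mem_insert, mem_stack_odd]; omega
          · exact Comb3_mem_D.2 (by omega)
          · rw [mem_insert, mem_stack_odd]
            simp only
            omega
          · intro f hf hf'
            obtain ⟨j, rfl | rfl⟩ := Nat.even_or_odd' f
            · rw [mem_insert, mem_stack_even] at hf'
              simp only at hf'
              omega
            · rw [mem_insert, mem_stack_odd] at hf'
              simp only at hf'
              omega
      · left
        refine ⟨l, by simp only [stepI, stepT, if_pos hba]; omega, ?_, Or.inl rfl⟩
        rw [step_eq (e := 2 * a)]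
        · simp only [stepI, stepT, if_pos hba]
          ext f
          obtain ⟨j, rfl | rfl⟩ := Nat.even_or_odd' f
          · simp only [mem_insert, mem_stack_even]; omega
          · simp only [mem_insert, mem_stack_odd]; omega
        · exact Comb3_mem_D.2 (by omega)
        · rw [mem_insert, mem_stack_even]
          simp only
          omega
        · intro f hf hf'
          obtain ⟨j, rfl | rfl⟩ := Nat.even_or_odd' f
          · rw [mem_insert, mem_stack_even] at hf'
            simp only at hf'
            omega
          · rw [mem_insert, mem_stack_odd] at hf'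
            simp only at hf'
            omega
  | x i =>
    left
    have hz' : max a b + g + 2 ≤ i ∨ i < min a b := hz
    rcases hz' with h | h
    · refine ⟨l, by simp only [stepI, if_pos h]; omega, ?_, Or.inl rfl⟩
      rw [step_eq (e := 2 * a)]
      · simp only [stepI, if_pos h]
        ext f
        obtain ⟨j, rfl | rfl⟩ := Nat.even_or_odd' f
        · simp only [mem_insert, mem_stack_even]; omega
        · simp only [mem_insert, mem_stack_odd]; omega
      · exact mem_lst_x.2 (Or.inl ⟨a, by omega, rfl⟩)
      · rw [mem_insert, mem_stack_even]
        simp only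
        omega
      · intro f hf hf'
        rcases mem_lst_x.1 hf with ⟨j, hj, rfl⟩ | ⟨j, hj, hj', rfl⟩
        · rw [mem_insert, mem_stack_even] at hf'
          simp only at hf'
          omega
        · omega
    · have h' : ¬ max a b + g + 2 ≤ i := by omega
      refine ⟨l, by simp only [stepI, if_neg h']; omega, ?_, Or.inl rfl⟩
      simp only [stepI, if_neg h']
      apply step_eq_self
      intro f hf
      rcases mem_lst_x.1 hf with ⟨j, hj, rfl⟩ | ⟨j, hj, hj', rfl⟩
      · rw [mem_insert, mem_stack_even]
        simp only
        omega
      · rw [mem_insert, mem_stack_odd]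
        simp only
        omega
  | y i =>
    left
    have hz' : max a b + g + 2 ≤ i ∨ i < min a b := hz
    rcases hz' with h | h
    · rcases Nat.eq_or_lt_of_le hl with rfl | hl
      · refine ⟨b + 1, by simp only [stepI, if_pos h]; omega, ?_,
          Or.inr (by simp only [stepI, if_pos h])⟩
        rw [step_eq (e := 2 * (b + 1) + 1)]
        · simp only [stepI, if_pos h]
          ext f
          obtain ⟨j, rfl | rfl⟩ := Nat.even_or_odd' f
          · simp only [mem_insert, mem_stack_even]; omega
          · simp only [mem_insert, mem_stack_odd]; omega
        · exact mem_lst_y.2 (Or.inl ⟨b + 1, by omega, rfl⟩)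
        · rw [mem_insert, mem_stack_odd]
          simp only
          omega
        · intro f hf hf'
          rcases mem_lst_y.1 hf with ⟨j, hj, rfl⟩ | ⟨j, hj, hj', rfl⟩
          · rw [mem_insert, mem_stack_odd] at hf'
            simp only at hf'
            omega
          · omega
      · refine ⟨l, by simp only [stepI, if_pos h]; omega, ?_, Or.inl rfl⟩
        rw [step_eq (e := 2 * b + 1)]
        · simp only [stepI, if_pos h]
          ext f
          obtain ⟨j, rfl | rfl⟩ := Nat.even_or_odd' f
          · simp only [mem_insert, mem_stack_even]; omega
          · simp only [mem_insert, mem_stack_odd]; omega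
        · exact mem_lst_y.2 (Or.inl ⟨b, by omega, rfl⟩)
        · rw [mem_insert, mem_stack_odd]
          simp only
          omega
        · intro f hf hf'
          rcases mem_lst_y.1 hf with ⟨j, hj, rfl⟩ | ⟨j, hj, hj', rfl⟩
          · rw [mem_insert, mem_stack_odd] at hf'
            simp only at hf'
            omega
          · omega
    · have h' : ¬ max a b + g + 2 ≤ i := by omega
      refine ⟨l, by simp only [stepI, if_neg h']; omega, ?_, Or.inl rfl⟩
      simp only [stepI, if_neg h']
      apply step_eq_self
      intro f hf
      rcases mem_lst_y.1 hf with ⟨j, hj, rfl⟩ | ⟨j, hj, hj', rfl⟩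
      · rw [mem_insert, mem_stack_odd]
        simp only
        omega
      · rw [mem_insert, mem_stack_even]
        simp only
        omega

theorem Comb3_posI_succ {g : ℕ} {w : List Lt} {u : ℕ} (hu : u < w.length) :
    posI g (w.take (u + 1)) = stepI g (posI g (w.take u)) w[u] := by
  rw [List.take_succ_eq_append_getElem hu, posI_append]

/-- RK-15d. One more letter, case (1). `A`, good `x`: if `l = a` then `l` becomes `a + 1`, otherwise `l` stays. `B`, good `y`, exhausted owners: `l`
stays. `D`: if `a ≤ b` and `l > a`: `l` stays; if `l = a ≤ b - 1`: `l` becomes `a + 1`; if `l = a = b`: the next one takes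
`b`, this is case (2) with `l = b` (equal to the height of the other stack); if `a > b`: `l` stays. In all cases: either
again case (1) with `l' = l` or with `l'` equal to the new height, or (2) with `l'` equal to the new height and then the letter was `D` and
`a = b`. -/
theorem extra_step_true {m g : ℕ} {w : List Lt} (hg : 2 ≤ g) (hw : w.length + 1 ≤ m)
    (h : good g w) {i u : ℕ} (hi : i ≤ u) (hu : u < w.length) {z : Lt} {l : ℕ}
    (he : extra m g w i z u true l) :
    (∃ l', extra m g w i z (u + 1) true l' ∧ (l' = l ∨ l' = (posI g (w.take (u + 1))).1)) ∨
      (w[u]? = some (Lt.t T.D) ∧ (posI g (w.take u)).1 = (posI g (w.take u)).2 ∧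
        extra m g w i z (u + 1) false (posI g (w.take (u + 1))).2) := by
  have hz : w[u]? = some w[u] := List.getElem?_eq_getElem hu
  have hok := h u w[u] hz
  have hsum := posI_sum_le g (w.take u)
  rw [List.length_take] at hsum
  simp only [extra, if_true, Comb3_take_succ hi hu, Comb3_posI_succ hu, hz] at he ⊢
  obtain ⟨he1, he2⟩ := he
  rw [he2]
  revert hok hsum he1
  generalize posI g (w.take u) = p
  obtain ⟨a, b⟩ := p
  intro hok hsum he1
  simp only at hsum he1
  rcases Comb3_true (m := m) (l := l) hg (by omega) he1 w[u] hok with ⟨l', h1, h2, h3⟩ | ⟨h1, h2, h3⟩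
  · exact Or.inl ⟨l', ⟨h1, h2⟩, h3⟩
  · exact Or.inr ⟨by rw [h1], h2, by simpa using h3⟩

/-- RK-15e. One more letter, case (2). Symmetric, except: `D` with `l = b`, `a = b + 1` leads to case (1) (before: `b` was taken; now `a` and `b + 1` are
compared, `2 a < 2 (b + 1) + 1`). -/
theorem extra_step_false {m g : ℕ} {w : List Lt} (hg : 2 ≤ g) (hw : w.length + 1 ≤ m)
    (h : good g w) {i u : ℕ} (hi : i ≤ u) (hu : u < w.length) {z : Lt} {l : ℕ}
    (he : extra m g w i z u false l) :
    (∃ l', extra m g w i z (u + 1) false l' ∧ (l' = l ∨ l' = (posI g (w.take (u + 1))).2)) ∨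
      (w[u]? = some (Lt.t T.D) ∧ (posI g (w.take u)).1 = (posI g (w.take u)).2 + 1 ∧
        extra m g w i z (u + 1) true (posI g (w.take (u + 1))).1) := by
  have hz : w[u]? = some w[u] := List.getElem?_eq_getElem hu
  have hok := h u w[u] hz
  have hsum := posI_sum_le g (w.take u)
  rw [List.length_take] at hsum
  simp only [extra, if_true, Comb3_take_succ hi hu, Comb3_posI_succ hu, hz] at he ⊢
  simp only [Bool.false_eq_true, if_false] at he ⊢
  obtain ⟨he1, he2⟩ := he
  rw [he2]
  revert hok hsum he1
  generalize posI g (w.take u) = p
  obtain ⟨a, b⟩ := p
  intro hok hsum he1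
  simp only at hsum he1
  rcases Comb3_false (m := m) (l := l) hg (by omega) he1 w[u] hok with ⟨l', h1, h2, h3⟩ | ⟨h1, h2, h3⟩
  · exact Or.inl ⟨l', ⟨h1, h2⟩, h3⟩
  · exact Or.inr ⟨by rw [h1], h2, by simpa using h3⟩

end Pool.Agent.helper65.RK
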