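import Pool.Agent.helper65.RK.Comb3

set_option autoImplicit false

/-!
# RK-16 : insertion of an owner into a good word
-/

namespace Pool.Agent.helper65.RK

open Finset

theorem comb4_insertIdx {α : Type} (w : List α) (i : ℕ) (hi : i ≤ w.length) (z : α) :
    w.insertIdx i z = w.take i ++ z :: w.drop i := by
  induction w generalizing i with
  | nil =>
    have : i = 0 := by simpa using hi
    subst this
    rfl
  | cons a w ih =>
    cases i with
    | zero => rfl
    | succ i =>
      rw [List.insertIdx_succ_cons, ih i (by simpa using hi)]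
      rfl

theorem comb4_take (w : List Lt) (i : ℕ) (hi : i ≤ w.length) (z : Lt) :
    (w.take i).insertIdx i z = w.take i ++ [z] := by
  have hl : (w.take i).length = i := by rw [List.length_take]; omega
  rw [comb4_insertIdx _ _ (by omega), List.take_take, min_self]
  congr 1
  rw [List.drop_eq_nil_of_le (by omega)]

theorem comb4_start {m g : ℕ} {w : List Lt} (hw : w.length + 1 ≤ m) (h : good g w) {i : ℕ}
    (hi : i ≤ w.length) (z : Lt) :
    matL m g ((w.take i).insertIdx i z) = step (stack (posI g (w.take i))) (lst m g z) := by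
  rw [comb4_take w i hi, matL_append, matL_good _ (good_take h i)]
  rw [List.length_take]
  omega

theorem comb4_same {m g : ℕ} {w : List Lt} (hw : w.length + 1 ≤ m) (h : good g w) {i : ℕ}
    (hi : i ≤ w.length) (z : Lt) (hz : lst m g z ⊆ stack (posI g (w.take i))) :
    matL m g (w.insertIdx i z) = matL m g w := by
  have h1 : matL m g (w.take i) = stack (posI g (w.take i)) := by
    refine matL_good ?_ (good_take h i)
    rw [List.length_take]
    omega
  have h2 : step (matL m g (w.take i)) (lst m g z) = matL m g (w.take i) :=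
    step_eq_self (by rw [h1]; exact hz)
  have h3 : matL m g w = ((w.drop i).map (lst m g)).foldl step (matL m g (w.take i)) := by
    conv_lhs => rw [← List.take_append_drop i w]
    rw [matL, List.map_append, greedy_append']
    rfl
  rw [h3, matL, comb4_insertIdx w i hi, List.map_append, greedy_append', List.map_cons,
    List.foldl_cons]
  change ((w.drop i).map (lst m g)).foldl step (step (matL m g (w.take i)) (lst m g z)) = _
  rw [h2]

theorem comb4_par {p : ℕ × ℕ} {f : ℕ} (hf : f ∉ stack p) :
    (f = 2 * (f / 2) ∧ p.1 ≤ f / 2) ∨ (f = 2 * (f / 2) + 1 ∧ p.2 ≤ f / 2) := by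
  rcases Nat.even_or_odd' f with ⟨c, rfl | rfl⟩
  · rw [mem_stack_even] at hf
    omega
  · rw [mem_stack_odd] at hf
    omega

/-- RK-16a. The start: `z = y j` is inserted at `i`, `(a, b) = posI g (w.take i)`. If `b + g ≤ j` it takes `b`: case (2) with `l = b`. If
`j < b + g` and `a ≤ j` it takes `a l` with `l = max a (j + 1 - g)`: case (1). If `j < b + g` and `j < a` its list is
exhausted (nothing changes, forever). -/
theorem extra_start_y {m g : ℕ} {w : List Lt} (hg : 2 ≤ g) (hw : w.length + 1 ≤ m)
    (h : good g w) {i : ℕ} (hi : i ≤ w.length) (j : ℕ) :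
    ((posI g (w.take i)).2 + g ≤ j ∧
        extra m g w i (Lt.y j) i false (posI g (w.take i)).2) ∨
      (j < (posI g (w.take i)).2 + g ∧
        extra m g w i (Lt.y j) i true (max (posI g (w.take i)).1 (j + 1 - g))) ∨
      matL m g (w.insertIdx i (Lt.y j)) = matL m g w := by
  have hs := comb4_start hw h hi (Lt.y j)
  by_cases h1 : (posI g (w.take i)).2 + g ≤ j
  · left
    refine ⟨h1, ?_⟩
    simp only [extra, Bool.false_eq_true, if_false]
    refine ⟨le_rfl, ?_⟩
    rw [hs]
    apply step_eq
    · exact mem_lst_y.2 (Or.inl ⟨_, h1, rfl⟩)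
    · rw [mem_stack_odd]
      exact lt_irrefl _
    · intro f hf hf'
      have h2 := comb4_par hf'
      rcases mem_lst_y.1 hf with ⟨j', h3, h4⟩ | ⟨j', h3, h4, h5⟩
      · omega
      · omega
  · right
    rw [not_le] at h1
    by_cases h2 : (posI g (w.take i)).1 ≤ j
    · left
      refine ⟨h1, ?_⟩
      simp only [extra, if_true]
      refine ⟨le_max_left _ _, ?_⟩
      rw [hs]
      apply step_eq
      · exact mem_lst_y.2 (Or.inr ⟨_, by omega, by omega, rfl⟩)
      · rw [mem_stack_even]
        omega
      · intro f hf hf'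
        have h2 := comb4_par hf'
        rcases mem_lst_y.1 hf with ⟨j', h3, h4⟩ | ⟨j', h3, h4, h5⟩
        · omega
        · omega
    · right
      apply comb4_same hw h hi
      intro f hf
      rcases mem_lst_y.1 hf with ⟨j', h3, rfl⟩ | ⟨j', h3, h4, rfl⟩
      · rw [mem_stack_odd]
        omega
      · rw [mem_stack_even]
        omega

theorem extra_start_x {m g : ℕ} {w : List Lt} (hg : 2 ≤ g) (hw : w.length + 1 ≤ m)
    (h : good g w) {i : ℕ} (hi : i ≤ w.length) (j : ℕ) :
    ((posI g (w.take i)).1 + g ≤ j ∧
        extra m g w i (Lt.x j) i true (posI g (w.take i)).1) ∨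
      (j < (posI g (w.take i)).1 + g ∧
        extra m g w i (Lt.x j) i false (max (posI g (w.take i)).2 (j + 1 - g))) ∨
      matL m g (w.insertIdx i (Lt.x j)) = matL m g w := by
  have hs := comb4_start hw h hi (Lt.x j)
  by_cases h1 : (posI g (w.take i)).1 + g ≤ j
  · left
    refine ⟨h1, ?_⟩
    simp only [extra, if_true]
    refine ⟨le_rfl, ?_⟩
    rw [hs]
    apply step_eq
    · exact mem_lst_x.2 (Or.inl ⟨_, h1, rfl⟩)
    · rw [mem_stack_even]
      exact lt_irrefl _
    · intro f hf hf'
      have h2 := comb4_par hf'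
      rcases mem_lst_x.1 hf with ⟨j', h3, h4⟩ | ⟨j', h3, h4, h5⟩
      · omega
      · omega
  · right
    rw [not_le] at h1
    by_cases h2 : (posI g (w.take i)).2 ≤ j
    · left
      refine ⟨h1, ?_⟩
      simp only [extra, Bool.false_eq_true, if_false]
      refine ⟨le_max_left _ _, ?_⟩
      rw [hs]
      apply step_eq
      · exact mem_lst_x.2 (Or.inr ⟨_, by omega, by omega, rfl⟩)
      · rw [mem_stack_odd]
        omega
      · intro f hf hf'
        have h2 := comb4_par hf'
        rcases mem_lst_x.1 hf with ⟨j', h3, h4⟩ | ⟨j', h3, h4, h5⟩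
        · omega
        · omega
    · right
      apply comb4_same hw h hi
      intro f hf
      rcases mem_lst_x.1 hf with ⟨j', h3, rfl⟩ | ⟨j', h3, h4, rfl⟩
      · rw [mem_stack_even]
        omega
      · rw [mem_stack_odd]
        omega

theorem comb4_mono (g : ℕ) (w : List Lt) {u v : ℕ} (h : u ≤ v) :
    (posI g (w.take u)).1 ≤ (posI g (w.take v)).1 ∧
      (posI g (w.take u)).2 ≤ (posI g (w.take v)).2 := by
  have h1 := posI_take_le g (w.take v) u
  rwa [List.take_take, min_eq_left h] at h1

theorem comb4_extra_true {m g : ℕ} {w : List Lt} {i : ℕ} {z : Lt} {u l : ℕ}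
    (h : extra m g w i z u true l) : (posI g (w.take u)).1 ≤ l ∧
      matL m g ((w.take u).insertIdx i z) = insert (2 * l) (stack (posI g (w.take u))) := by
  simpa only [extra, if_true] using h

theorem comb4_extra_false {m g : ℕ} {w : List Lt} {i : ℕ} {z : Lt} {u l : ℕ}
    (h : extra m g w i z u false l) : (posI g (w.take u)).2 ≤ l ∧
      matL m g ((w.take u).insertIdx i z) = insert (2 * l + 1) (stack (posI g (w.take u))) := by
  simpa only [extra, Bool.false_eq_true, if_false] using h

/-- one step from a height, case (1) -/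
theorem comb4_true {m g : ℕ} {w : List Lt} (hg : 2 ≤ g) (hw : w.length + 1 ≤ m)
    (h : good g w) {i u : ℕ} (hi : i ≤ u) (hu : u < w.length) {z : Lt} {l l0 : ℕ}
    (he : extra m g w i z u true l) (hl : l = (posI g (w.take u)).1 ∨ l = l0) :
    (∃ l', extra m g w i z (u + 1) true l' ∧ (l' = (posI g (w.take (u + 1))).1 ∨ l' = l0)) ∨
      (w[u]? = some (Lt.t T.D) ∧ (posI g (w.take u)).1 = (posI g (w.take u)).2 ∧
        extra m g w i z (u + 1) false (posI g (w.take (u + 1))).2) := by
  rcases extra_step_true hg hw h hi hu he with ⟨l', h1, h2⟩ | h1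
  · left
    refine ⟨l', h1, ?_⟩
    rcases h2 with rfl | h2
    · rcases hl with hl | hl
      · left
        have h3 := (comb4_extra_true h1).1
        have h4 := (comb4_mono g w (show u ≤ u + 1 by omega)).1
        omega
      · exact Or.inr hl
    · exact Or.inl h2
  · exact Or.inr h1

/-- one step from a height, case (2) -/
theorem comb4_false {m g : ℕ} {w : List Lt} (hg : 2 ≤ g) (hw : w.length + 1 ≤ m)
    (h : good g w) {i u : ℕ} (hi : i ≤ u) (hu : u < w.length) {z : Lt} {l l0 : ℕ}
    (he : extra m g w i z u false l) (hl : l = (posI g (w.take u)).2 ∨ l = l0) :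
    (∃ l', extra m g w i z (u + 1) false l' ∧ (l' = (posI g (w.take (u + 1))).2 ∨ l' = l0)) ∨
      (w[u]? = some (Lt.t T.D) ∧ (posI g (w.take u)).1 = (posI g (w.take u)).2 + 1 ∧
        extra m g w i z (u + 1) true (posI g (w.take (u + 1))).1) := by
  rcases extra_step_false hg hw h hi hu he with ⟨l', h1, h2⟩ | h1
  · left
    refine ⟨l', h1, ?_⟩
    rcases h2 with rfl | h2
    · rcases hl with hl | hl
      · left
        have h3 := (comb4_extra_false h1).1
        have h4 := (comb4_mono g w (show u ≤ u + 1 by omega)).2
        omega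
      · exact Or.inr hl
    · exact Or.inl h2
  · exact Or.inr h1

/-- RK-16b. Let the insertion of `y j` add exactly `a j = 2 j`. By induction over `u` (`extra_step_true`, `extra_step_false`), starting with
`extra_start_y`: at every time `u ≥ i` we are in case (1) or (2), and the `l` is the height of the corresponding
stack, or we started in case (1) and `l` is still the initial one `max a (j+1-g)`. At the end we are in case (1) with
`l = j` (the added object is unique). If `l = j` is not the height `(posI g w).1` then `l = j = max a (j + 1 - g)` with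
`a = (posI g (w.take i)).1`; `j = j + 1 - g` is impossible as `g ≥ 2`, so `j = a ≤ (posI g w).1 ≤ l = j`. So
`j = (posI g w).1` in every case. If the start was case (2), then at some time `u` the case changed from (2) to (1), so the
letter was `D` and `a = b + 1`. -/
theorem ins_y {m g : ℕ} {w : List Lt} (hg : 2 ≤ g) (hw : w.length + 1 ≤ m) (h : good g w)
    {i j : ℕ} (hi : i ≤ w.length) (h1 : 2 * j ∈ matL m g (w.insertIdx i (Lt.y j)))
    (h2 : 2 * j ∉ matL m g w) :
    j = (posI g w).1 ∧ ((posI g w).1 < (posI g (w.take i)).2 + g ∨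
      ∃ u, i ≤ u ∧ w[u]? = some (Lt.t T.D) ∧
        (posI g (w.take u)).1 = (posI g (w.take u)).2 + 1) := by
  have hW : matL m g w = stack (posI g w) := matL_good (by omega) h
  have hfull : w.take w.length = w := List.take_length
  rw [hW] at h2
  rcases extra_start_y hg hw h hi j with ⟨hs1, hs2⟩ | ⟨hs1, hs2⟩ | hs
  · -- start in case (2)
    have key : ∀ u, i ≤ u → u ≤ w.length →
        (extra m g w i (Lt.y j) u false (posI g (w.take u)).2) ∨
        (extra m g w i (Lt.y j) u true (posI g (w.take u)).1 ∧
          ∃ u', i ≤ u' ∧ w[u']? = some (Lt.t T.D) ∧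
            (posI g (w.take u')).1 = (posI g (w.take u')).2 + 1) := by
      intro u hu
      induction u, hu using Nat.le_induction with
      | base => exact fun _ => Or.inl hs2
      | succ u hu ih =>
        intro hu'
        rcases ih (by omega) with h3 | ⟨h3, h4⟩
        · rcases comb4_false hg hw h hu (by omega) (l0 := (posI g (w.take (u + 1))).2) h3
            (Or.inl rfl) with ⟨l', h5, h6⟩ | ⟨h5, h6, h7⟩
          · left
            rcases h6 with rfl | rfl <;> exact h5
          · exact Or.inr ⟨h7, u, hu, h5, h6⟩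
        · rcases comb4_true hg hw h hu (by omega) (l0 := (posI g (w.take (u + 1))).1) h3
            (Or.inl rfl) with ⟨l', h5, h6⟩ | ⟨h5, h6, h7⟩
          · right
            rcases h6 with rfl | rfl <;> exact ⟨h5, h4⟩
          · exact Or.inl h7
    rcases key w.length hi le_rfl with h3 | ⟨h3, h4⟩
    · have h5 := (comb4_extra_false h3).2
      rw [hfull] at h5
      rw [h5] at h1
      rcases mem_insert.1 h1 with h6 | h6
      · omega
      · exact absurd h6 h2
    · have h5 := (comb4_extra_true h3).2
      rw [hfull] at h5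
      rw [h5] at h1
      rcases mem_insert.1 h1 with h6 | h6
      · exact ⟨by omega, Or.inr h4⟩
      · exact absurd h6 h2
  · -- start in case (1)
    have key : ∀ u, i ≤ u → u ≤ w.length →
        (∃ l, extra m g w i (Lt.y j) u true l ∧ (l = (posI g (w.take u)).1 ∨
          l = max (posI g (w.take i)).1 (j + 1 - g))) ∨
        extra m g w i (Lt.y j) u false (posI g (w.take u)).2 := by
      intro u hu
      induction u, hu using Nat.le_induction with
      | base => exact fun _ => Or.inl ⟨_, hs2, Or.inr rfl⟩
      | succ u hu ih =>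
        intro hu'
        rcases ih (by omega) with ⟨l, h3, h4⟩ | h3
        · rcases comb4_true hg hw h hu (by omega) h3 h4 with h5 | ⟨-, -, h7⟩
          · exact Or.inl h5
          · exact Or.inr h7
        · rcases comb4_false hg hw h hu (by omega) (l0 := (posI g (w.take (u + 1))).2) h3
            (Or.inl rfl) with ⟨l', h5, h6⟩ | ⟨-, -, h7⟩
          · right
            rcases h6 with rfl | rfl <;> exact h5
          · exact Or.inl ⟨_, h7, Or.inl rfl⟩
    rcases key w.length hi le_rfl with ⟨l, h3, h4⟩ | h3
    · obtain ⟨h6, h5⟩ := comb4_extra_true h3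
      rw [hfull] at h5 h6 h4
      rw [h5] at h1
      have hmono := (posI_take_le g w i).1
      rcases mem_insert.1 h1 with h7 | h7
      · have hj : j = (posI g w).1 := by omega
        exact ⟨hj, Or.inl (by omega)⟩
      · exact absurd h7 h2
    · have h5 := (comb4_extra_false h3).2
      rw [hfull] at h5
      rw [h5] at h1
      rcases mem_insert.1 h1 with h6 | h6
      · omega
      · exact absurd h6 h2
  · rw [hs, hW] at h1
    exact absurd h1 h2

theorem ins_x {m g : ℕ} {w : List Lt} (hg : 2 ≤ g) (hw : w.length + 1 ≤ m) (h : good g w)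
    {i j : ℕ} (hi : i ≤ w.length) (h1 : 2 * j + 1 ∈ matL m g (w.insertIdx i (Lt.x j)))
    (h2 : 2 * j + 1 ∉ matL m g w) :
    j = (posI g w).2 ∧ ((posI g w).2 < (posI g (w.take i)).1 + g ∨
      ∃ u, i ≤ u ∧ w[u]? = some (Lt.t T.D) ∧
        (posI g (w.take u)).1 = (posI g (w.take u)).2) := by
  have hW : matL m g w = stack (posI g w) := matL_good (by omega) h
  have hfull : w.take w.length = w := List.take_length
  rw [hW] at h2
  rcases extra_start_x hg hw h hi j with ⟨hs1, hs2⟩ | ⟨hs1, hs2⟩ | hs
  · -- start in case (1)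
    have key : ∀ u, i ≤ u → u ≤ w.length →
        (extra m g w i (Lt.x j) u true (posI g (w.take u)).1) ∨
        (extra m g w i (Lt.x j) u false (posI g (w.take u)).2 ∧
          ∃ u', i ≤ u' ∧ w[u']? = some (Lt.t T.D) ∧
            (posI g (w.take u')).1 = (posI g (w.take u')).2) := by
      intro u hu
      induction u, hu using Nat.le_induction with
      | base => exact fun _ => Or.inl hs2
      | succ u hu ih =>
        intro hu'
        rcases ih (by omega) with h3 | ⟨h3, h4⟩
        · rcases comb4_true hg hw h hu (by omega) (l0 := (posI g (w.take (u + 1))).1) h3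
            (Or.inl rfl) with ⟨l', h5, h6⟩ | ⟨h5, h6, h7⟩
          · left
            rcases h6 with rfl | rfl <;> exact h5
          · exact Or.inr ⟨h7, u, hu, h5, h6⟩
        · rcases comb4_false hg hw h hu (by omega) (l0 := (posI g (w.take (u + 1))).2) h3
            (Or.inl rfl) with ⟨l', h5, h6⟩ | ⟨h5, h6, h7⟩
          · right
            rcases h6 with rfl | rfl <;> exact ⟨h5, h4⟩
          · exact Or.inl h7
    rcases key w.length hi le_rfl with h3 | ⟨h3, h4⟩
    · have h5 := (comb4_extra_true h3).2
      rw [hfull] at h5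
      rw [h5] at h1
      rcases mem_insert.1 h1 with h6 | h6
      · omega
      · exact absurd h6 h2
    · have h5 := (comb4_extra_false h3).2
      rw [hfull] at h5
      rw [h5] at h1
      rcases mem_insert.1 h1 with h6 | h6
      · exact ⟨by omega, Or.inr h4⟩
      · exact absurd h6 h2
  · -- start in case (2)
    have key : ∀ u, i ≤ u → u ≤ w.length →
        (∃ l, extra m g w i (Lt.x j) u false l ∧ (l = (posI g (w.take u)).2 ∨
          l = max (posI g (w.take i)).2 (j + 1 - g))) ∨
        extra m g w i (Lt.x j) u true (posI g (w.take u)).1 := by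
      intro u hu
      induction u, hu using Nat.le_induction with
      | base => exact fun _ => Or.inl ⟨_, hs2, Or.inr rfl⟩
      | succ u hu ih =>
        intro hu'
        rcases ih (by omega) with ⟨l, h3, h4⟩ | h3
        · rcases comb4_false hg hw h hu (by omega) h3 h4 with h5 | ⟨-, -, h7⟩
          · exact Or.inl h5
          · exact Or.inr h7
        · rcases comb4_true hg hw h hu (by omega) (l0 := (posI g (w.take (u + 1))).1) h3
            (Or.inl rfl) with ⟨l', h5, h6⟩ | ⟨-, -, h7⟩
          · right
            rcases h6 with rfl | rfl <;> exact h5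
          · exact Or.inl ⟨_, h7, Or.inl rfl⟩
    rcases key w.length hi le_rfl with ⟨l, h3, h4⟩ | h3
    · obtain ⟨h6, h5⟩ := comb4_extra_false h3
      rw [hfull] at h5 h6 h4
      rw [h5] at h1
      have hmono := (posI_take_le g w i).2
      rcases mem_insert.1 h1 with h7 | h7
      · have hj : j = (posI g w).2 := by omega
        exact ⟨hj, Or.inl (by omega)⟩
      · exact absurd h7 h2
    · have h5 := (comb4_extra_true h3).2
      rw [hfull] at h5
      rw [h5] at h1
      rcases mem_insert.1 h1 with h6 | h6
      · omega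
      · exact absurd h6 h2
  · rw [hs, hW] at h1
    exact absurd h1 h2

open Classical in
/-- RK-16c. For each `i` at most one `y j` and at most one `x j` count, and if they do: either the height condition holds, or there is a tie after `i`;
the ties needed for `y` (difference `1`) and for `x` (difference `0`) are different ones, so both together are bounded by `ties g i w`. -/
theorem PL_good {m g : ℕ} {w : List Lt} (hg : 2 ≤ g) (hw : w.length + 1 ≤ m) (h : good g w) :
    PL m g w ≤ ∑ i ∈ range (w.length + 1),
      ((if (posI g w).1 < (posI g (w.take i)).2 + g then (1 : ℝ) else 0) +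
        (if (posI g w).2 < (posI g (w.take i)).1 + g then (1 : ℝ) else 0) + ties g i w) := by
  rw [PL]
  refine sum_le_sum fun i hi => ?_
  rw [mem_range, Nat.lt_succ_iff] at hi
  -- the two kinds of ties
  let t1 := (Finset.Ico i w.length).filter fun u => w[u]? = some (Lt.t T.D) ∧
    delI g (w.take u) = 1
  let t0 := (Finset.Ico i w.length).filter fun u => w[u]? = some (Lt.t T.D) ∧
    delI g (w.take u) = 0
  have hties : (t1.card : ℝ) + t0.card ≤ ties g i w := by
    rw [ties, ← Nat.cast_add, Nat.cast_le, ← card_union_of_disjoint]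
    · apply card_le_card
      intro u hu
      rcases mem_union.1 hu with h1 | h1
      · obtain ⟨h2, h3, h4⟩ := mem_filter.1 h1
        exact mem_filter.2 ⟨h2, h3, Or.inr h4⟩
      · obtain ⟨h2, h3, h4⟩ := mem_filter.1 h1
        exact mem_filter.2 ⟨h2, h3, Or.inl h4⟩
    · rw [disjoint_left]
      intro u h1 h2
      have h3 := (mem_filter.1 h1).2.2
      have h4 := (mem_filter.1 h2).2.2
      omega
  have hlt : ∀ {u : ℕ} {z : Lt}, w[u]? = some z → u < w.length := by
    intro u z hz
    rw [List.getElem?_eq_some_iff] at hz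
    exact hz.1
  -- the owners of the two kinds
  let P1 : Prop := (posI g w).1 < (posI g (w.take i)).2 + g ∨ 0 < t1.card
  let P2 : Prop := (posI g w).2 < (posI g (w.take i)).1 + g ∨ 0 < t0.card
  have hsub : ((SR m).filter fun z => z ∉ w ∧ ownL z ∈ matL m g (w.insertIdx i z) ∧
      ownL z ∉ matL m g w) ⊆
      (if P1 then {Lt.y (posI g w).1} else ∅) ∪ (if P2 then {Lt.x (posI g w).2} else ∅) := by
    intro z hz
    rw [mem_filter, SR, mem_union] at hz
    obtain ⟨hz1, -, hz3, hz4⟩ := hz
    rcases hz1 with hz1 | hz1
    · obtain ⟨j, -, rfl⟩ := mem_image.1 hz1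
      obtain ⟨hj, hj2⟩ := ins_y hg hw h hi hz3 hz4
      have hP : P1 := by
        rcases hj2 with h3 | ⟨u, h3, h4, h5⟩
        · exact Or.inl h3
        · refine Or.inr (card_pos.2 ⟨u, mem_filter.2 ⟨mem_Ico.2 ⟨h3, hlt h4⟩, h4, ?_⟩⟩)
          rw [delI]
          omega
      rw [mem_union, if_pos hP]
      left
      rw [mem_singleton, hj]
    · obtain ⟨j, -, rfl⟩ := mem_image.1 hz1
      obtain ⟨hj, hj2⟩ := ins_x hg hw h hi hz3 hz4
      have hP : P2 := by
        rcases hj2 with h3 | ⟨u, h3, h4, h5⟩
        · exact Or.inl h3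
        · refine Or.inr (card_pos.2 ⟨u, mem_filter.2 ⟨mem_Ico.2 ⟨h3, hlt h4⟩, h4, ?_⟩⟩)
          rw [delI]
          omega
      rw [mem_union, if_pos hP]
      right
      rw [mem_singleton, hj]
  have hcard := (card_le_card hsub).trans (card_union_le _ _)
  have h1 : (((if P1 then {Lt.y (posI g w).1} else ∅ : Finset Lt).card : ℕ) : ℝ) ≤
      (if (posI g w).1 < (posI g (w.take i)).2 + g then (1 : ℝ) else 0) + t1.card := by
    have ht : (0 : ℝ) ≤ t1.card := Nat.cast_nonneg _
    by_cases hP : P1
    · rw [if_pos hP, card_singleton, Nat.cast_one]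
      rcases hP with h3 | h3
      · rw [if_pos h3]
        linarith
      · have h4 : (1 : ℝ) ≤ t1.card := by exact_mod_cast h3
        split_ifs <;> linarith
    · rw [if_neg hP, card_empty, Nat.cast_zero]
      split_ifs <;> linarith
  have h2 : (((if P2 then {Lt.x (posI g w).2} else ∅ : Finset Lt).card : ℕ) : ℝ) ≤
      (if (posI g w).2 < (posI g (w.take i)).1 + g then (1 : ℝ) else 0) + t0.card := by
    have ht : (0 : ℝ) ≤ t0.card := Nat.cast_nonneg _
    by_cases hP : P2
    · rw [if_pos hP, card_singleton, Nat.cast_one]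
      rcases hP with h3 | h3
      · rw [if_pos h3]
        linarith
      · have h4 : (1 : ℝ) ≤ t0.card := by exact_mod_cast h3
        split_ifs <;> linarith
    · rw [if_neg hP, card_empty, Nat.cast_zero]
      split_ifs <;> linarith
  have hcast : ((((SR m).filter fun z => z ∉ w ∧ ownL z ∈ matL m g (w.insertIdx i z) ∧
      ownL z ∉ matL m g w).card : ℕ) : ℝ) ≤
      (((if P1 then {Lt.y (posI g w).1} else ∅ : Finset Lt).card : ℕ) : ℝ) +
        (((if P2 then {Lt.x (posI g w).2} else ∅ : Finset Lt).card : ℕ) : ℝ) := by
    exact_mod_cast hcard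
  linarith

end Pool.Agent.helper65.RK
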