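import Mathlib

set_option autoImplicit false

/-!
# RK : definitions

Serial dictatorship. Agents arrive in random order, an agent with the list `L` (a finite set of
objects, objects are natural numbers) takes the smallest free object of its list.
-/

namespace Pool.Agent.helper65.RK

open Finset

/-- Greedy step: an agent with the list `L` takes the smallest object of `L` which is not in `M`. -/
def step (M L : Finset ℕ) : Finset ℕ :=
  if h : (L \ M).Nonempty then insert ((L \ M).min' h) M else M

/-- The set of objects which are taken after a sequence of agents with the given lists. -/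
def greedy (w : List (Finset ℕ)) : Finset ℕ := w.foldl step ∅

section agents

variable {α : Type} [Fintype α] [DecidableEq α]

/-- The objects taken after the agents of `C` have arrived (in this order). -/
def mat (N : α → Finset ℕ) (C : List α) : Finset ℕ := greedy (C.map N)

variable (α) in
/-- The lists of length `t` without repetitions. -/
noncomputable def nl (t : ℕ) : Finset (List α) :=
  (Finset.univ : Finset (Fin t ↪ α)).image fun e : Fin t ↪ α => List.ofFn fun i => e i

variable (α) in
/-- The average over the lists of length `t` without repetitions. -/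
noncomputable def av (t : ℕ) (φ : List α → ℝ) : ℝ := (∑ C ∈ nl α t, φ C) / ((nl α t).card : ℝ)

/-- The expected number of agents which get an object among the first `t` agents. -/
noncomputable def X (N : α → Finset ℕ) (t : ℕ) : ℝ := av α t fun C => ((mat N C).card : ℝ)

/-- The number of agents outside `C` whose own object is taken and whose list is not exhausted. -/
noncomputable def Rf (N : α → Finset ℕ) (own : α → ℕ) (C : List α) : ℝ :=
  ((univ.filter fun o => o ∉ C ∧ own o ∈ mat N C ∧ ¬ N o ⊆ mat N C).card : ℝ)

/-- The number of pairs `(o, i)` such that the insertion of the agent `o` at the place `i` of `C` adds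
exactly the own object of `o`. -/
noncomputable def Pf (N : α → Finset ℕ) (own : α → ℕ) (C : List α) : ℝ :=
  ∑ i ∈ range (C.length + 1),
    ((univ.filter fun o => o ∉ C ∧ own o ∈ mat N (C.insertIdx i o) ∧ own o ∉ mat N C).card : ℝ)

/-- A system of lists: every agent has an own object in its list, different agents have different own
objects, and every object in a list is the own object of some agent. -/
structure Sys (N : α → Finset ℕ) (own : α → ℕ) : Prop where
  inj : Function.Injective own
  self : ∀ o, own o ∈ N o
  sub : ∀ o, N o ⊆ univ.image own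

end agents

/-- The monotone system: agent `o` has the list `0, ..., o`. -/
def NK (n : ℕ) : Fin n → Finset ℕ := fun o => range ((o : ℕ) + 1)

/-- The own object of agent `o` of the monotone system. -/
def ownK (n : ℕ) : Fin n → ℕ := fun o => (o : ℕ)

/-- A new first object which everybody likes, and a new agent (number `0`) who likes nothing else. -/
def optF {n : ℕ} (N : Fin n → Finset ℕ) : Fin (n + 1) → Finset ℕ :=
  Fin.cons (α := fun _ => Finset ℕ) {0} fun o => insert 0 ((N o).image Nat.succ)

/-- The own objects for `optF`. -/
def optO {n : ℕ} (own : Fin n → ℕ) : Fin (n + 1) → ℕ :=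
  Fin.cons (α := fun _ => ℕ) 0 fun o => own o + 1

/-- `r` new first objects. -/
def itF {n : ℕ} (N : Fin n → Finset ℕ) : (r : ℕ) → Fin (n + r) → Finset ℕ
  | 0 => N
  | r + 1 => optF (itF N r)

/-- The own objects for `itF`. -/
def itO {n : ℕ} (own : Fin n → ℕ) : (r : ℕ) → Fin (n + r) → ℕ
  | 0 => own
  | r + 1 => optO (itO own r)

/-- Two consecutive results differ by at most one new object. -/
def Ext (M M' : Finset ℕ) : Prop := M' = M ∨ ∃ e, e ∉ M ∧ M' = insert e M

/-! ## The online model -/

/-- The size of the matching found if the vertex `i` (of the arriving side, arriving in the order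
`0, 1, ...`) has the neighbourhood `Nb i` and is matched to its free neighbour which is the first in
the order `τ`. -/
def fr {n : ℕ} (Nb : Fin n → Finset (Fin n)) (τ : Equiv.Perm (Fin n)) : ℕ :=
  ((List.finRange n).foldl
    (fun (M : Finset (Fin n)) (i : Fin n) =>
      M ∪ ((Nb i \ M).filter (fun v => ∀ w ∈ Nb i \ M, τ v ≤ τ w)))
    (∅ : Finset (Fin n))).card

/-- The expected size of the matching found by Ranking against the distribution `D_n`. -/
noncomputable def rhoD (n : ℕ) : ℝ :=
  (∑ π : Equiv.Perm (Fin n), ∑ τ : Equiv.Perm (Fin n),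
    (((List.finRange n).foldl
      (fun (M : Finset (Fin n)) (i : Fin n) =>
        M ∪ ((((Finset.univ.filter (fun j : Fin n => i ≤ j)).image π) \ M).filter
          (fun v => ∀ w ∈ ((Finset.univ.filter (fun j : Fin n => i ≤ j)).image π) \ M,
            τ v ≤ τ w)))
      (∅ : Finset (Fin n))).card : ℝ)) / ((n.factorial : ℝ) * (n.factorial : ℝ))

/-! ## Types, letters and words -/

/-- The types of the far agents: they like the stack `A`, the stack `B`, or both (`D`). -/
inductive T
  | A | B | D
  deriving DecidableEq, Fintype

/-- Letters: far agents with their type, and the owners `y i` of the object `a i = 2 i` and `x i` of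
the object `b i = 2 i + 1`. -/
inductive Lt
  | t (s : T)
  | y (i : ℕ)
  | x (i : ℕ)
  deriving DecidableEq

/-- The lists of the letters (`m` objects in each stack, gap `g`). -/
def lst (m g : ℕ) : Lt → Finset ℕ
  | Lt.t T.A => (range m).image fun j => 2 * j
  | Lt.t T.B => (range m).image fun j => 2 * j + 1
  | Lt.t T.D => range (2 * m)
  | Lt.y i => (((range (i + 1)).filter fun j => j + g ≤ i).image fun j => 2 * j + 1) ∪
      (((range (i + 1)).filter fun j => i < j + g).image fun j => 2 * j)
  | Lt.x i => (((range (i + 1)).filter fun j => j + g ≤ i).image fun j => 2 * j) ∪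
      (((range (i + 1)).filter fun j => i < j + g).image fun j => 2 * j + 1)

/-- The own objects of the letters `y i`, `x i`. -/
def ownL : Lt → ℕ
  | Lt.t _ => 0
  | Lt.y i => 2 * i
  | Lt.x i => 2 * i + 1

/-- The objects taken after a word. -/
def matL (m g : ℕ) (w : List Lt) : Finset ℕ := greedy (w.map (lst m g))

/-- The owners of the objects of the two stacks. -/
def SR (m : ℕ) : Finset Lt := (range m).image Lt.y ∪ (range m).image Lt.x

/-- `Rf` for words. -/
noncomputable def RL (m g : ℕ) (w : List Lt) : ℝ :=
  (((SR m).filter fun z => z ∉ w ∧ ownL z ∈ matL m g w ∧ ¬ lst m g z ⊆ matL m g w).card : ℝ)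

/-- `Pf` for words. -/
noncomputable def PL (m g : ℕ) (w : List Lt) : ℝ :=
  ∑ i ∈ range (w.length + 1),
    (((SR m).filter fun z => z ∉ w ∧ ownL z ∈ matL m g (w.insertIdx i z) ∧
      ownL z ∉ matL m g w).card : ℝ)

/-- The full stacks of heights `a` and `b`. -/
def stack (p : ℕ × ℕ) : Finset ℕ :=
  ((range p.1).image fun j => 2 * j) ∪ ((range p.2).image fun j => 2 * j + 1)

/-- The move of the two heights caused by a far agent. -/
def stepT : ℕ × ℕ → T → ℕ × ℕ
  | (a, b), T.A => (a + 1, b)
  | (a, b), T.B => (a, b + 1)
  | (a, b), T.D => if a ≤ b then (a + 1, b) else (a, b + 1)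

/-- The heights after a word of types. -/
def posT (v : List T) : ℕ × ℕ := v.foldl stepT (0, 0)

/-- Height of the stack `A`. -/
def al (v : List T) : ℕ := (posT v).1

/-- Height of the stack `B`. -/
def be (v : List T) : ℕ := (posT v).2

/-- The difference of the heights. -/
def del (v : List T) : ℤ := (al v : ℤ) - (be v : ℤ)

/-- The idealized move: an owner whose index is much larger than the heights acts like a far agent, the
other owners do nothing. -/
def stepI (g : ℕ) : ℕ × ℕ → Lt → ℕ × ℕ
  | p, Lt.t s => stepT p s
  | (a, b), Lt.y i => if max a b + g + 2 ≤ i then (a, b + 1) else (a, b)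
  | (a, b), Lt.x i => if max a b + g + 2 ≤ i then (a + 1, b) else (a, b)

/-- The heights after a word under the idealized moves. -/
def posI (g : ℕ) (w : List Lt) : ℕ × ℕ := w.foldl (stepI g) (0, 0)

/-- The difference of the idealized heights. -/
def delI (g : ℕ) (w : List Lt) : ℤ := ((posI g w).1 : ℤ) - ((posI g w).2 : ℤ)

/-- The letter is harmless at the heights `p`: a far agent, or an owner whose index is much larger, or
an owner whose list is exhausted. -/
def okAt (g : ℕ) (p : ℕ × ℕ) : Lt → Prop
  | Lt.t _ => True
  | Lt.y i => max p.1 p.2 + g + 2 ≤ i ∨ i < min p.1 p.2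
  | Lt.x i => max p.1 p.2 + g + 2 ≤ i ∨ i < min p.1 p.2

/-- All letters of the word are harmless when they arrive. -/
def good (g : ℕ) (w : List Lt) : Prop :=
  ∀ u z, w[u]? = some z → okAt g (posI g (w.take u)) z

/-- The types of the far agents in a word. -/
def far (w : List Lt) : List T :=
  w.filterMap fun z => match z with
    | Lt.t s => some s
    | _ => none

/-- The number of owners in a word. -/
def nsr (w : List Lt) : ℕ :=
  w.countP fun z => match z with
    | Lt.t _ => false
    | _ => true

/-! ## Random words -/

/-- The probabilities of the types. -/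
noncomputable def pT (η : ℝ) : T → ℝ
  | T.A => (1 - η) / 2
  | T.B => (1 - η) / 2
  | T.D => η

/-- The expectation over random words of `t` independent types. -/
noncomputable def EW (η : ℝ) : ℕ → (List T → ℝ) → ℝ
  | 0, φ => φ []
  | t + 1, φ => ∑ s : T, pT η s * EW η t fun v => φ (s :: v)

/-- The expected absolute difference of the heights. -/
noncomputable def eW (η : ℝ) (t : ℕ) : ℝ := EW η t fun v => |(del v : ℝ)|

/-! ## The system -/

/-- The agents: owners `inl (i, false)` of `a i`, `inl (i, true)` of `b i`, far agents `inr k`. -/
abbrev Ag (m n' : ℕ) : Type := (Fin m × Bool) ⊕ Fin n'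

/-- The letter of an owner. -/
def letS {m : ℕ} (z : Fin m × Bool) : Lt := if z.2 then Lt.x z.1 else Lt.y z.1

/-- The letter of an agent if the far agents have the types `θ`. -/
def letG {m n' : ℕ} (θ : Fin n' → T) : Ag m n' → Lt
  | Sum.inl z => letS z
  | Sum.inr k => Lt.t (θ k)

/-- The lists of the agents. -/
def NG (m g n' : ℕ) (θ : Fin n' → T) : Ag m n' → Finset ℕ
  | Sum.inl z => lst m g (letS z)
  | Sum.inr k => lst m g (Lt.t (θ k)) ∪ (range ((k : ℕ) + 1)).image fun j => 2 * m + j

/-- The own objects of the agents. -/
def ownG (m n' : ℕ) : Ag m n' → ℕ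
  | Sum.inl z => ownL (letS z)
  | Sum.inr k => 2 * m + k

/-- The word of a list of agents if the successive far agents have the types `v`. -/
def mrg {m n' : ℕ} : List (Ag m n') → List T → List Lt
  | [], _ => []
  | Sum.inl z :: C, v => letS z :: mrg C v
  | Sum.inr _ :: C, s :: v => Lt.t s :: mrg C v
  | Sum.inr _ :: C, [] => Lt.t T.A :: mrg C []

/-- The number of owners in a list of agents. -/
def nsG {m n' : ℕ} (C : List (Ag m n')) : ℕ := C.countP fun o => o.isLeft

/-- The expectation over random words of length `t`. -/
noncomputable def EG (η : ℝ) (m n' t : ℕ) (φ : List Lt → ℝ) : ℝ :=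
  av (Ag m n') t fun C => EW η t fun v => φ (mrg C v)

/-- The average of `X` over independent types. -/
noncomputable def XG (η : ℝ) (m g n' t : ℕ) : ℝ :=
  ∑ θ : Fin n' → T, (∏ k, pT η (θ k)) * X (NG m g n' θ) t

/-! ## Sums along a random word of types -/

/-- The main sum for the scattered objects. -/
noncomputable def S1 (v : ℝ) (t : ℕ) (ω : List T) : ℝ :=
  ∑ u ∈ range t, (max 0 ((be (ω.take u) : ℝ) - al ω + v) + max 0 ((al (ω.take u) : ℝ) - be ω + v))

open Classical in
/-- The number of places from which the other stack is within reach. -/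
noncomputable def NR (k t : ℕ) (ω : List T) : ℝ :=
  ∑ i ∈ range (t + 1), ((if al ω < be (ω.take i) + k then (1 : ℝ) else 0) +
    (if be ω < al (ω.take i) + k then (1 : ℝ) else 0))

/-- The crude sum. -/
noncomputable def S2 (k t : ℕ) (ω : List T) : ℝ :=
  ∑ i ∈ range (t + 1), (2 + max 0 ((be (ω.take i) : ℝ) + k - al ω) +
    max 0 ((al (ω.take i) : ℝ) + k - be ω))

/-- The typical words of types. -/
def LD (g t : ℕ) (ω : List T) : Prop :=
  (∀ i ≤ t, |del (ω.take i)| ≤ g) ∧
    ∀ i, i + 16 * g ≤ t → 12 * g + 5 * al (ω.take i) ≤ 5 * al ω ∧
      12 * g + 5 * be (ω.take i) ≤ 5 * be ω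

open Classical in
/-- The number of letters `D` after place `i` which arrive when the difference of the heights is `0` or
`1`. -/
noncomputable def ties (g i : ℕ) (w : List Lt) : ℝ :=
  (((Finset.Ico i w.length).filter fun u => w[u]? = some (Lt.t T.D) ∧
    (delI g (w.take u) = 0 ∨ delI g (w.take u) = 1)).card : ℝ)

open Classical in
/-- The probability that more than `V` owners are among the first `t` agents. -/
noncomputable def PV (m n' V t : ℕ) : ℝ :=
  av (Ag m n') t fun C => if V < nsG C then (1 : ℝ) else 0

end Pool.Agent.helper65.RK
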